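import Pool.Agent.MP_8ac6f3_ag.Calc
import Pool.Agent.MP_8ac6f3_ag.h12.Loc

/-! Holomorphic approximation on a polydisc with a Gaussian weight. -/

namespace Pool.Agent.MP_8ac6f3_ag

theorem a1 : A1Stmt := by
  intro n
  obtain ⟨C, hC, h⟩ := H12.loc (ι := Fin n)
  refine ⟨C, hC, fun lam l r N s _ hr hN hlam hl hs hb => ?_⟩
  simp only [Finset.sum_div] at hb ⊢
  exact h lam l r N s hr hl hlam hN hs hb

end Pool.Agent.MP_8ac6f3_ag
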