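import Pool.Agent.MP_8ac6f3_ag.C01
import Mathlib.Analysis.InnerProductSpace.Spectrum
import Mathlib.Analysis.SpecialFunctions.ExpDeriv
import Mathlib.Analysis.Complex.ExponentialBounds

/-! Row A2: holomorphic approximation on a small ball with the weight `exp (f / 2)`. -/

open Set Metric Complex
open scoped ContDiff Topology

namespace Pool.Agent.MP_8ac6f3_ag

namespace A2

/-- A Hermitian form on a Euclidean space is diagonal in an orthonormal basis. -/
theorem diag_euc {n : ℕ}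
    (B : EuclideanSpace ℂ (Fin n) →ₛₗ[starRingEnd ℂ] EuclideanSpace ℂ (Fin n) →ₗ[ℂ] ℂ)
    (hB : ∀ u v, B u v = starRingEnd ℂ (B v u)) :
    ∃ (b : OrthonormalBasis (Fin n) ℂ (EuclideanSpace ℂ (Fin n))) (lam : Fin n → ℝ),
      ∀ w, B (b.repr.symm w) (b.repr.symm w) = ((∑ i, lam i * ‖w i‖ ^ 2 : ℝ) : ℂ) := by
  classical
  let b0 := EuclideanSpace.basisFun (Fin n) ℂ
  let A : EuclideanSpace ℂ (Fin n) →ₗ[ℂ] EuclideanSpace ℂ (Fin n) :=
    ∑ i, (B (b0 i)).smulRight (b0 i)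
  have hA : ∀ u v, inner ℂ u (A v) = B u v := by
    intro u v
    have h1 : A v = ∑ i, B (b0 i) v • b0 i := by
      simp [A, LinearMap.sum_apply]
    rw [h1, inner_sum]
    conv_rhs => rw [← b0.sum_repr' u, map_sum, LinearMap.sum_apply]
    refine Finset.sum_congr rfl fun i _ => ?_
    rw [inner_smul_right, LinearMap.map_smulₛₗ, LinearMap.smul_apply, inner_conj_symm,
      smul_eq_mul, mul_comm]
  have hS : A.IsSymmetric := by
    intro u v
    rw [hA, hB, ← hA, inner_conj_symm]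
  have hn : Module.finrank ℂ (EuclideanSpace ℂ (Fin n)) = n := by simp
  refine ⟨hS.eigenvectorBasis hn, hS.eigenvalues hn, fun w => ?_⟩
  set b := hS.eigenvectorBasis hn with hb
  rw [← hA, ← b.sum_inner_mul_inner]
  push_cast
  refine Finset.sum_congr rfl fun i _ => ?_
  have h2 : inner ℂ (b i) (b.repr.symm w) = w i := by
    rw [← b.repr_apply_apply]; simp
  have h3 : inner ℂ (b i) (A (b.repr.symm w)) = (hS.eigenvalues hn i : ℂ) * w i := by
    rw [← hS, hb, hS.apply_eigenvectorBasis hn i, inner_smul_left, ← hb, h2]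
    simp
  rw [h3, ← inner_conj_symm, h2, mul_left_comm, Complex.conj_mul']

variable {M : Type} [NormedAddCommGroup M] [NormedSpace ℂ M] [FiniteDimensional ℂ M]

/-- Diagonalisation with uniform bounds for the change of coordinates. -/
theorem diag : ∃ (n : ℕ) (c : ℝ), 1 ≤ c ∧ ∀ H : M →ₛₗ[starRingEnd ℂ] M →ₗ[ℂ] ℂ,
    (∀ u v, H u v = starRingEnd ℂ (H v u)) →
    ∃ (T : (Fin n → ℂ) ≃L[ℂ] M) (lam : Fin n → ℝ), (∀ z, ‖T z‖ ≤ c * ‖z‖) ∧
      (∀ y, ‖T.symm y‖ ≤ c * ‖y‖) ∧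
      ∀ z, H (T z) (T z) = ((∑ i, lam i * ‖z i‖ ^ 2 : ℝ) : ℂ) := by
  classical
  set n := Module.finrank ℂ M with hn
  let e : EuclideanSpace ℂ (Fin n) ≃L[ℂ] M := ContinuousLinearEquiv.ofFinrankEq (by simp [hn])
  let P : EuclideanSpace ℂ (Fin n) ≃L[ℂ] (Fin n → ℂ) :=
    PiLp.continuousLinearEquiv 2 ℂ (fun _ : Fin n => ℂ)
  let a1 : ℝ := ‖(e : EuclideanSpace ℂ (Fin n) →L[ℂ] M)‖ *
    ‖(P.symm : (Fin n → ℂ) →L[ℂ] EuclideanSpace ℂ (Fin n))‖
  let a2 : ℝ := ‖(P : EuclideanSpace ℂ (Fin n) →L[ℂ] (Fin n → ℂ))‖ *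
    ‖(e.symm : M →L[ℂ] EuclideanSpace ℂ (Fin n))‖
  have ha1 : 0 ≤ a1 := by positivity
  have ha2 : 0 ≤ a2 := by positivity
  refine ⟨n, 1 + a1 + a2, by linarith, fun H hH => ?_⟩
  let B : EuclideanSpace ℂ (Fin n) →ₛₗ[starRingEnd ℂ] EuclideanSpace ℂ (Fin n) →ₗ[ℂ] ℂ :=
    (H.compl₂ (e : EuclideanSpace ℂ (Fin n) →ₗ[ℂ] M)).comp
      (e : EuclideanSpace ℂ (Fin n) →ₗ[ℂ] M)
  have hBe : ∀ u v, B u v = H (e u) (e v) := fun u v => rfl
  obtain ⟨b, lam, hb⟩ := diag_euc B (fun u v => by rw [hBe, hBe, hH])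
  refine ⟨P.symm.trans (b.repr.symm.toContinuousLinearEquiv.trans e), lam, fun z => ?_,
    fun y => ?_, fun z => ?_⟩
  · have h1 : ‖e (b.repr.symm (P.symm z))‖ ≤
        ‖(e : EuclideanSpace ℂ (Fin n) →L[ℂ] M)‖ * ‖b.repr.symm (P.symm z)‖ :=
      (e : EuclideanSpace ℂ (Fin n) →L[ℂ] M).le_opNorm _
    have h2 : ‖P.symm z‖ ≤ ‖(P.symm : (Fin n → ℂ) →L[ℂ] EuclideanSpace ℂ (Fin n))‖ * ‖z‖ :=
      (P.symm : (Fin n → ℂ) →L[ℂ] EuclideanSpace ℂ (Fin n)).le_opNorm _
    rw [LinearIsometryEquiv.norm_map] at h1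
    have h3 : ‖e (b.repr.symm (P.symm z))‖ ≤ a1 * ‖z‖ := by
      refine h1.trans ?_
      rw [mul_assoc]
      exact mul_le_mul_of_nonneg_left h2 (norm_nonneg _)
    refine le_trans h3 (mul_le_mul_of_nonneg_right (by linarith) (norm_nonneg _))
  · have h1 : ‖P (b.repr (e.symm y))‖ ≤
        ‖(P : EuclideanSpace ℂ (Fin n) →L[ℂ] (Fin n → ℂ))‖ * ‖b.repr (e.symm y)‖ :=
      (P : EuclideanSpace ℂ (Fin n) →L[ℂ] (Fin n → ℂ)).le_opNorm _
    have h2 : ‖e.symm y‖ ≤ ‖(e.symm : M →L[ℂ] EuclideanSpace ℂ (Fin n))‖ * ‖y‖ :=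
      (e.symm : M →L[ℂ] EuclideanSpace ℂ (Fin n)).le_opNorm _
    rw [LinearIsometryEquiv.norm_map] at h1
    have h3 : ‖P (b.repr (e.symm y))‖ ≤ a2 * ‖y‖ := by
      refine h1.trans ?_
      rw [mul_assoc]
      exact mul_le_mul_of_nonneg_left h2 (norm_nonneg _)
    refine le_trans h3 (mul_le_mul_of_nonneg_right (by linarith) (norm_nonneg _))
  · exact hb (P.symm z)

theorem exp_half_le : Real.exp (1 / 2) ≤ 2 := by
  have h := Real.exp_one_lt_d9
  have h2 : Real.exp (1 / 2) * Real.exp (1 / 2) = Real.exp 1 := by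
    rw [← Real.exp_add]; norm_num
  nlinarith [Real.exp_pos (1 / 2)]

theorem exp_le_two_mul {a b : ℝ} (h : a ≤ b + 1) : Real.exp (a / 2) ≤ 2 * Real.exp (b / 2) := by
  calc Real.exp (a / 2) ≤ Real.exp (1 / 2 + b / 2) := Real.exp_le_exp.2 (by linarith)
    _ = Real.exp (1 / 2) * Real.exp (b / 2) := Real.exp_add _ _
    _ ≤ 2 * Real.exp (b / 2) := mul_le_mul_of_nonneg_right exp_half_le (Real.exp_pos _).le

end A2

variable {M : Type} [NormedAddCommGroup M] [NormedSpace ℝ M] [NormedSpace ℂ M]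
  [IsScalarTower ℝ ℂ M] [FiniteDimensional ℂ M]

theorem a2 (h : A1Stmt) : A2Stmt M := by
  classical
  obtain ⟨n, c, hc, hdiag⟩ := A2.diag (M := M)
  obtain ⟨C1, hC1, hA1⟩ := h n
  have hc0 : 0 < c := by linarith
  have hc2 : 1 ≤ c ^ 2 := one_le_pow₀ hc
  have hC1c : 0 ≤ 4 * C1 * c ^ 2 := by positivity
  refine ⟨12 * c ^ 2 + 4 * C1 * c ^ 2, by linarith, ?_⟩
  set C := 12 * c ^ 2 + 4 * C1 * c ^ 2 with hC
  intro f x ρ l K N s hρ hl hN hlρ hK hf hf3 hlev hs hdb
  have hC3 : 3 ≤ C := by linarith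
  have hCρ : 0 < C * ρ := by positivity
  have hx : x ∈ ball x (C * ρ) := mem_ball_self hCρ
  have hK0 : 0 ≤ K := (norm_nonneg _).trans (hf3 x hx)
  have hf2 : ContDiffAt ℝ 2 f x :=
    (hf.contDiffAt (isOpen_ball.mem_nhds hx)).of_le (by exact_mod_cast (by norm_num : (2 : ℕ) ≤ 3))
  obtain ⟨P, hP, hPre⟩ := exists_hol_poly hf2
  obtain ⟨H, hH, hHl⟩ := exists_sesq hf2
  obtain ⟨T, lam, hT, hT', hTH⟩ := hdiag H hH
  have hsum : ∀ z, lev f x (T z) = ∑ i, lam i * ‖z i‖ ^ 2 := fun z => by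
    have := hTH z
    rw [hHl] at this
    exact_mod_cast this
  have htay : ∀ η, ‖η‖ < C * ρ → |f (x + η) - (P η).re - lev f x η| ≤ 1 := by
    intro η hη
    have h1 := taylor3 hf hf3 hη
    have h2 : K * ‖η‖ ^ 3 ≤ K * (C * ρ) ^ 3 :=
      mul_le_mul_of_nonneg_left (pow_le_pow_left₀ (norm_nonneg _) hη.le 3) hK0
    have h3 : f (x + η) - (P η).re - lev f x η =
        f (x + η) - f x - fderiv ℝ f x η - d2 f x η / 2 := by rw [hPre]; ring
    rw [h3]
    linarith
  have hlam : ∀ i, l / c ^ 2 ≤ lam i := by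
    intro i
    have h1 := hsum (Pi.single i 1)
    have h2 : ∑ j, lam j * ‖(Pi.single i 1 : Fin n → ℂ) j‖ ^ 2 = lam i := by
      rw [Finset.sum_eq_single i]
      · simp
      · intro j _ hj
        simp [Pi.single_eq_of_ne hj]
      · simp
    have h3 := hlev (T (Pi.single i 1))
    have h4 := hT' (T (Pi.single i 1))
    rw [T.symm_apply_apply, Pi.norm_single, norm_one] at h4
    have h5 : 1 ≤ c ^ 2 * ‖T (Pi.single i 1)‖ ^ 2 := by
      rw [← mul_pow]; exact one_le_pow₀ h4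
    rw [div_le_iff₀ (by positivity), ← h2, ← h1]
    nlinarith [mul_le_mul_of_nonneg_left h3 (by positivity : (0 : ℝ) ≤ c ^ 2),
      mul_le_mul_of_nonneg_left h5 hl.le]
  have hTc : ContDiff ℂ 1 (fun z : Fin n → ℂ => T z) := T.contDiff
  have hτ : ContDiff ℂ 1 (fun z : Fin n → ℂ => x + T z) := contDiff_const.add hTc
  have hw : ContDiff ℂ 1 (fun z : Fin n → ℂ => Complex.exp (-P (T z) / 2)) :=
    ((hP.comp hTc).neg.div_const 2).cexp
  have hin : ∀ z ∈ ball (0 : Fin n → ℂ) (4 * (3 * c * ρ)), ‖T z‖ < C * ρ := by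
    intro z hz
    rw [mem_ball_zero_iff] at hz
    have h1 : c * ‖z‖ < c * (4 * (3 * c * ρ)) := mul_lt_mul_of_pos_left hz hc0
    have h2 : c * (4 * (3 * c * ρ)) ≤ C * ρ := by
      rw [hC]; nlinarith [mul_nonneg hC1c hρ.le]
    exact (hT z).trans_lt (h1.trans_le h2)
  have hin' : ∀ z ∈ ball (0 : Fin n → ℂ) (4 * (3 * c * ρ)), x + T z ∈ ball x (C * ρ) := by
    intro z hz
    rw [mem_ball_iff_norm, add_sub_cancel_left]
    exact hin z hz
  have hsτ : ContDiffOn ℝ 1 (fun z : Fin n → ℂ => s (x + T z)) (ball 0 (4 * (3 * c * ρ))) :=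
    hs.comp (hτ.restrict_scalars ℝ).contDiffOn hin'
  obtain ⟨h', hh', hb'⟩ := hA1 lam (l / c ^ 2) (3 * c * ρ) (2 * c * N)
    (fun z => s (x + T z) * Complex.exp (-P (T z) / 2)) (by positivity) (by positivity)
    (by positivity) hlam
    (by
      have : l / c ^ 2 * (3 * c * ρ) ^ 2 = 9 * (l * ρ ^ 2) := by field_simp; ring
      rw [this]; linarith)
    (hsτ.mul (hw.restrict_scalars ℝ).contDiffOn)
    (by
      intro z hz i
      have d1 : DifferentiableAt ℝ (fun z : Fin n → ℂ => s (x + T z)) z :=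
        (hsτ.contDiffAt (isOpen_ball.mem_nhds hz)).differentiableAt one_ne_zero
      have d2' : DifferentiableAt ℂ (fun z : Fin n → ℂ => Complex.exp (-P (T z) / 2)) z :=
        hw.differentiable one_ne_zero z
      have d3 : DifferentiableAt ℝ s (x + T z) :=
        (hs.contDiffAt (isOpen_ball.mem_nhds (hin' z hz))).differentiableAt one_ne_zero
      have d4 : fderiv ℂ (fun z : Fin n → ℂ => x + T z) z = (T : (Fin n → ℂ) →L[ℂ] M) :=
        (T.hasFDerivAt.const_add x).fderiv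
      rw [db_mul d1 (d2'.restrictScalars ℝ), db_hol d2', mul_zero, zero_add,
        db_comp_hol (τ := fun z : Fin n → ℂ => x + T z) (hτ.differentiable one_ne_zero z) d3,
        d4, norm_mul, Complex.norm_exp, ← hsum]
      have e1 := hdb _ (hin' z hz) (T (Pi.single i 1))
      have e2 := hT (Pi.single i 1)
      rw [Pi.norm_single, norm_one, mul_one] at e2
      have e3 : (-P (T z) / 2).re = -(P (T z)).re / 2 := by simp
      have e4 : Real.exp (f (x + T z) / 2) * Real.exp (-(P (T z)).re / 2) ≤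
          2 * Real.exp (lev f x (T z) / 2) := by
        rw [← Real.exp_add, ← add_div]
        refine A2.exp_le_two_mul ?_
        have := (abs_le.1 (htay _ (hin z hz))).2
        linarith
      rw [e3]
      calc ‖db s (x + T z) ((T : (Fin n → ℂ) →L[ℂ] M) (Pi.single i 1))‖ *
            Real.exp (-(P (T z)).re / 2)
          ≤ (N * Real.exp (f (x + T z) / 2) * c) * Real.exp (-(P (T z)).re / 2) := by
            refine mul_le_mul_of_nonneg_right (e1.trans ?_) (Real.exp_pos _).le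
            exact mul_le_mul_of_nonneg_left e2 (by positivity)
        _ = c * N * (Real.exp (f (x + T z) / 2) * Real.exp (-(P (T z)).re / 2)) := by ring
        _ ≤ c * N * (2 * Real.exp (lev f x (T z) / 2)) :=
            mul_le_mul_of_nonneg_left e4 (by positivity)
        _ = 2 * c * N * Real.exp (lev f x (T z) / 2) := by ring)
  have hout : ∀ y ∈ ball x (3 * ρ), T.symm (y - x) ∈ ball (0 : Fin n → ℂ) (3 * c * ρ) := by
    intro y hy
    rw [mem_ball_iff_norm] at hy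
    rw [mem_ball_zero_iff]
    have h1 : c * ‖y - x‖ < c * (3 * ρ) := mul_lt_mul_of_pos_left hy hc0
    exact (hT' _).trans_lt (by linarith)
  refine ⟨fun y => h' (T.symm (y - x)) * Complex.exp (P (y - x) / 2), ?_, ?_⟩
  · have d1 : Differentiable ℂ (fun y : M => y - x) := differentiable_id.sub_const x
    have d2' : Differentiable ℂ (fun y : M => T.symm (y - x)) := T.symm.differentiable.comp d1
    have d3 : Differentiable ℂ (fun y : M => Complex.exp (P (y - x) / 2)) :=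
      ((hP.comp (contDiff_id.sub contDiff_const)).div_const 2).cexp.differentiable one_ne_zero
    exact (hh'.comp d2'.differentiableOn hout).mul d3.differentiableOn
  · intro y hy
    have e1 := hb' _ (hout y hy)
    rw [← hsum, T.apply_symm_apply, add_sub_cancel] at e1
    have hη : ‖y - x‖ < C * ρ := by
      rw [mem_ball_iff_norm] at hy
      nlinarith
    have e2 : s y - h' (T.symm (y - x)) * Complex.exp (P (y - x) / 2) =
        (s y * Complex.exp (-P (y - x) / 2) - h' (T.symm (y - x))) *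
          Complex.exp (P (y - x) / 2) := by
      rw [sub_mul, mul_assoc, ← Complex.exp_add]
      have : -P (y - x) / 2 + P (y - x) / 2 = 0 := by ring
      rw [this, Complex.exp_zero, mul_one]
    have e3 : (P (y - x) / 2).re = (P (y - x)).re / 2 := by simp
    have e4 : Real.exp (lev f x (y - x) / 2) * Real.exp ((P (y - x)).re / 2) ≤
        2 * Real.exp (f y / 2) := by
      rw [← Real.exp_add, ← add_div]
      refine A2.exp_le_two_mul ?_
      have := (abs_le.1 (htay _ hη)).1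
      rw [add_sub_cancel] at this
      linarith
    have e5 : √(l / c ^ 2) = √l / c := by
      rw [Real.sqrt_div hl.le, Real.sqrt_sq hc0.le]
    have hsl : 0 < √l := Real.sqrt_pos.2 hl
    show ‖s y - h' (T.symm (y - x)) * Complex.exp (P (y - x) / 2)‖ ≤ _
    rw [e2, norm_mul, Complex.norm_exp, e3]
    rw [e5] at e1
    calc ‖s y * Complex.exp (-P (y - x) / 2) - h' (T.symm (y - x))‖ *
          Real.exp ((P (y - x)).re / 2)
        ≤ C1 * (2 * c * N) / (√l / c) * Real.exp (lev f x (y - x) / 2) *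
          Real.exp ((P (y - x)).re / 2) := mul_le_mul_of_nonneg_right e1 (Real.exp_pos _).le
      _ = C1 * (2 * c * N) / (√l / c) * (Real.exp (lev f x (y - x) / 2) *
          Real.exp ((P (y - x)).re / 2)) := by ring
      _ ≤ C1 * (2 * c * N) / (√l / c) * (2 * Real.exp (f y / 2)) :=
          mul_le_mul_of_nonneg_left e4 (by positivity)
      _ = 4 * C1 * c ^ 2 * N / √l * Real.exp (f y / 2) := by field_simp; ring
      _ ≤ C * N / √l * Real.exp (f y / 2) := by
          refine mul_le_mul_of_nonneg_right ?_ (Real.exp_pos _).le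
          refine div_le_div_of_nonneg_right ?_ hsl.le
          exact mul_le_mul_of_nonneg_right (by rw [hC]; nlinarith) hN

end Pool.Agent.MP_8ac6f3_ag
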