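import Pool.Agent.MP_8ac6f3_ag.C01
import Mathlib.Analysis.Complex.Schwarz
import Mathlib.Analysis.Complex.OperatorNorm
import Mathlib.Analysis.SpecificLimits.Basic

/-! Row A3: the global approximation theorem from partitions of unity and local solvers. -/

open Set Metric Complex Filter
open scoped ContDiff Topology

namespace Pool.Agent.MP_8ac6f3_ag

variable {M : Type} [NormedAddCommGroup M] [NormedSpace ℝ M] [NormedSpace ℂ M]
  [IsScalarTower ℝ ℂ M] [FiniteDimensional ℂ M]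

namespace A3P

omit [NormedSpace ℝ M] [IsScalarTower ℝ ℂ M] in
/-- A holomorphic function of several variables is of class one. -/
theorem contDiffOn_of_hol {h : M → ℂ} {U : Set M} (hU : IsOpen U)
    (hh : DifferentiableOn ℂ h U) : ContDiffOn ℂ 1 h U := by
  have : ProperSpace M := FiniteDimensional.proper ℂ M
  rw [show (1 : WithTop ℕ∞) = 0 + 1 from rfl, contDiffOn_succ_iff_fderiv_of_isOpen hU]
  refine ⟨hh, by simp, ?_⟩
  rw [contDiffOn_zero]
  intro x hx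
  apply ContinuousAt.continuousWithinAt
  obtain ⟨r, hr, hsub⟩ := Metric.nhds_basis_closedBall.mem_iff.1 (hU.mem_nhds hx)
  have huc : UniformContinuousOn h (closedBall x r) :=
    (isCompact_closedBall x r).uniformContinuousOn_of_continuous (hh.continuousOn.mono hsub)
  rw [Metric.continuousAt_iff]
  intro e he
  obtain ⟨δ, hδ, hd⟩ := Metric.uniformContinuousOn_iff.1 huc (e * r / 8) (by positivity)
  refine ⟨min δ (r / 2), by positivity, fun x' hx' => ?_⟩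
  have hx1 : dist x' x < δ := lt_of_lt_of_le hx' (min_le_left _ _)
  have hx2 : dist x' x < r / 2 := lt_of_lt_of_le hx' (min_le_right _ _)
  have m1 : ∀ v ∈ ball (0 : M) (r / 2), x + v ∈ closedBall x r := by
    intro v hv
    rw [mem_ball_zero_iff] at hv
    rw [mem_closedBall, dist_eq_norm, add_sub_cancel_left]
    linarith
  have m2 : ∀ v ∈ ball (0 : M) (r / 2), x' + v ∈ closedBall x r := by
    intro v hv
    rw [mem_ball_zero_iff] at hv
    rw [dist_eq_norm] at hx2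
    rw [mem_closedBall, dist_eq_norm, show x' + v - x = (x' - x) + v by abel]
    linarith [norm_add_le (x' - x) v]
  have hat : ∀ z ∈ closedBall x r, DifferentiableAt ℂ h z := fun z hz =>
    hh.differentiableAt (hU.mem_nhds (hsub hz))
  have hg : DifferentiableOn ℂ (fun v => h (x' + v) - h (x + v)) (ball 0 (r / 2)) := by
    intro v hv
    apply DifferentiableAt.differentiableWithinAt
    exact ((hat _ (m2 v hv)).comp v (by fun_prop)).sub ((hat _ (m1 v hv)).comp v (by fun_prop))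
  have hb : ∀ v ∈ ball (0 : M) (r / 2), ‖h (x' + v) - h (x + v)‖ ≤ e * r / 8 := by
    intro v hv
    rw [← dist_eq_norm]
    refine (hd _ (m2 v hv) _ (m1 v hv) ?_).le
    rwa [dist_add_right]
  have h0 : (0 : M) ∈ ball (0 : M) (r / 2) := mem_ball_self (by positivity)
  have hm : MapsTo (fun v => h (x' + v) - h (x + v)) (ball (0 : M) (r / 2))
      (closedBall (h (x' + 0) - h (x + 0)) (e * r / 4)) := by
    intro v hv
    rw [mem_closedBall, dist_eq_norm]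
    have := norm_sub_le (h (x' + v) - h (x + v)) (h (x' + 0) - h (x + 0))
    linarith [hb v hv, hb 0 h0]
  have key := norm_fderiv_le_div_of_mapsTo_ball hg hm (by positivity)
  have hd1 : HasFDerivAt (fun v => h (x' + v) - h (x + v)) (fderiv ℂ h x' - fderiv ℂ h x) 0 := by
    have a1 : HasFDerivAt h (fderiv ℂ h x') (x' + 0) := by
      rw [add_zero]; exact (hat x' (by simpa using m2 0 h0)).hasFDerivAt
    have a2 : HasFDerivAt h (fderiv ℂ h x) (x + 0) := by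
      rw [add_zero]; exact (hat x (by simpa using m1 0 h0)).hasFDerivAt
    exact ((hasFDerivAt_comp_add_left x').2 a1).sub ((hasFDerivAt_comp_add_left x).2 a2)
  rw [hd1.fderiv] at key
  rw [dist_eq_norm]
  refine lt_of_le_of_lt key ?_
  rw [div_lt_iff₀ (by positivity)]
  nlinarith [mul_pos he hr]

variable {Y A : Type} [TopologicalSpace Y]

omit [NormedSpace ℝ M] [NormedSpace ℂ M] [IsScalarTower ℝ ℂ M] [FiniteDimensional ℂ M] in
theorem ball_sub {c : M} (hc : c ∈ ball (0 : M) 1) {r : ℝ} (hr : r ≤ 1 / 3) :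
    ball c (3 * r) ⊆ ball (0 : M) 3 := by
  intro z hz
  rw [mem_ball_zero_iff] at hc ⊢
  rw [mem_ball, dist_eq_norm] at hz
  have := norm_add_le (z - c) c
  rw [sub_add_cancel] at this
  linarith

omit [IsScalarTower ℝ ℂ M] in
/-- A point of a chart lies either away from the support or inside the big ball. -/
theorem loc [T2Space Y] (a : Atl M Y A) {K : ℝ} {ρ : A → ℝ} (P : a.PU K ρ)
    (hρ : ∀ α, 0 < ρ α ∧ ρ α ≤ 1 / 3) (i : P.J) (β : A) {ξ : M} (hξ : ξ ∈ ball (0 : M) 3) :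
    (∀ᶠ ξ' in 𝓝 ξ, P.θ i (a.ψ β ξ') = 0) ∨
      ∃ η ∈ ball (P.c i) (3 * ρ (P.al i)), a.ψ (P.al i) η = a.ψ β ξ := by
  have : ProperSpace M := FiniteDimensional.proper ℂ M
  have hsub : closedBall (P.c i) (2 * ρ (P.al i)) ⊆ ball (P.c i) (3 * ρ (P.al i)) :=
    closedBall_subset_ball (by linarith [(hρ (P.al i)).1])
  by_cases hy : a.ψ β ξ ∈ a.ψ (P.al i) '' closedBall (P.c i) (2 * ρ (P.al i))
  · obtain ⟨η, hη, e⟩ := hy
    exact Or.inr ⟨η, hsub hη, e⟩
  · left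
    have hcl : IsClosed (a.ψ (P.al i) '' closedBall (P.c i) (2 * ρ (P.al i))) :=
      ((isCompact_closedBall _ _).image_of_continuousOn
        ((a.cont _).mono (hsub.trans (ball_sub (P.c_mem i) (hρ _).2)))).isClosed
    have hc : ContinuousAt (a.ψ β) ξ := (a.cont β).continuousAt (isOpen_ball.mem_nhds hξ)
    filter_upwards [hc.preimage_mem_nhds (hcl.isOpen_compl.mem_nhds hy)] with ξ' h'
    by_contra hne
    exact h' (P.supp i _ hne)

omit [NormedSpace ℂ M] [IsScalarTower ℝ ℂ M] [FiniteDimensional ℂ M] in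
theorem norm_fderiv_ofReal {f : M → ℝ} {x : M} (hf : DifferentiableAt ℝ f x) :
    ‖fderiv ℝ (fun y => (f y : ℂ)) x‖ ≤ ‖fderiv ℝ f x‖ := by
  have h := (ofRealCLM.hasFDerivAt.comp x hf.hasFDerivAt).fderiv
  have e : (fun y => (f y : ℂ)) = ofRealCLM ∘ f := rfl
  rw [e, h]
  refine (ContinuousLinearMap.opNorm_comp_le _ _).trans ?_
  rw [ofRealCLM_norm, one_mul]

/-- One step of the iteration. -/
theorem step [T2Space Y] (a : Atl M Y A) {K ε : ℝ} {ρ : A → ℝ} {Φ : Y → ℝ} (P : a.PU K ρ)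
    (hρ : ∀ α, 0 < ρ α ∧ ρ α ≤ 1 / 3) (hε : 0 ≤ ε) (hε1 : ε ≤ 1 / 2) (hε2 : K * ε ≤ 1 / 2)
    (hS : a.Solver ε Φ ρ) (s : Y → ℂ) (N : ℝ) (hN : 0 ≤ N) (hs : a.Dbar Φ ρ s N) :
    ∃ s', a.Dbar Φ ρ s' (N / 2) ∧ ∀ y, ‖s' y - s y‖ ≤ N / 2 * Real.exp (Φ y / 2) := by
  classical
  choose h hh hb using fun i : P.J =>
    hS (P.al i) (P.c i) (P.c_mem i) (s ∘ a.ψ (P.al i)) N hN (hs _).1 (hs _).2
  set D : P.J → Y → ℂ := fun i y => h i (Function.invFunOn (a.ψ (P.al i)) (ball 0 3) y) - s y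
    with hD
  have hinv : ∀ i, ∀ η ∈ ball (P.c i) (3 * ρ (P.al i)),
      Function.invFunOn (a.ψ (P.al i)) (ball 0 3) (a.ψ (P.al i) η) = η := fun i η hη =>
    (a.inj _).leftInvOn_invFunOn (ball_sub (P.c_mem i) (hρ _).2 hη)
  have hDb : ∀ i, ∀ η ∈ ball (P.c i) (3 * ρ (P.al i)),
      ‖D i (a.ψ (P.al i) η)‖ ≤ ε * N * Real.exp (Φ (a.ψ (P.al i) η) / 2) := by
    intro i η hη
    simp only [hD]
    rw [hinv i η hη, norm_sub_rev]
    exact hb i η hη
  have hval : ∀ i y, ‖(P.θ i y : ℂ) * D i y‖ ≤ P.θ i y * (ε * N * Real.exp (Φ y / 2)) := by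
    intro i y
    by_cases h0 : P.θ i y = 0
    · simp [h0]
    · obtain ⟨η, hη, rfl⟩ := P.supp i y h0
      rw [norm_mul, norm_real, Real.norm_of_nonneg (P.nonneg _ _)]
      exact mul_le_mul_of_nonneg_left
        (hDb i η (closedBall_subset_ball (by linarith [(hρ (P.al i)).1]) hη)) (P.nonneg _ _)
  have hfin : ∀ (T : Finset P.J) y, (∀ i ∉ T, P.θ i y = 0) →
      ∑ᶠ i, (P.θ i y : ℂ) * D i y = ∑ i ∈ T, (P.θ i y : ℂ) * D i y := by
    intro T y hT
    apply finsum_eq_sum_of_support_subset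
    intro i hi
    by_contra hiT
    exact hi (by simp [hT i hiT])
  have hloc : ∀ i β, ∀ ξ ∈ ball (0 : M) 3,
      ContDiffAt ℝ 1 (fun ξ' => (P.θ i (a.ψ β ξ') : ℂ) * D i (a.ψ β ξ')) ξ ∧ ∀ v,
      ‖db (fun ξ' => (P.θ i (a.ψ β ξ') : ℂ) * D i (a.ψ β ξ')) ξ v +
        (P.θ i (a.ψ β ξ) : ℂ) * db (s ∘ a.ψ β) ξ v‖ ≤
        ‖fderiv ℝ (P.θ i ∘ a.ψ β) ξ‖ * (ε * N * Real.exp (Φ (a.ψ β ξ) / 2) * ‖v‖) := by
    intro i β ξ hξ
    rcases loc a P hρ i β hξ with h0 | ⟨η, hη, e⟩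
    · have e0 : (fun ξ' => (P.θ i (a.ψ β ξ') : ℂ) * D i (a.ψ β ξ')) =ᶠ[𝓝 ξ] fun _ => 0 := by
        filter_upwards [h0] with ξ' h'
        simp [h']
      refine ⟨contDiffAt_const.congr_of_eventuallyEq e0, fun v => ?_⟩
      rw [db_congr e0, db_hol (differentiableAt_const _), h0.self_of_nhds]
      simp only [ofReal_zero, zero_mul, add_zero, norm_zero]
      positivity
    · have hη3 := ball_sub (P.c_mem i) (hρ _).2 hη
      have hτ := (a.tr β (P.al i) ξ hξ ⟨η, hη3, e⟩).1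
      have hτξ : Function.invFunOn (a.ψ (P.al i)) (ball 0 3) (a.ψ β ξ) = η := by
        rw [← e]; exact hinv i η hη
      have hhη : ContDiffAt ℂ 1 (h i) (Function.invFunOn (a.ψ (P.al i)) (ball 0 3) (a.ψ β ξ)) := by
        rw [hτξ]
        exact (contDiffOn_of_hol isOpen_ball (hh i)).contDiffAt (isOpen_ball.mem_nhds hη)
      have hH : ContDiffAt ℂ 1
          (fun ξ' => h i (Function.invFunOn (a.ψ (P.al i)) (ball 0 3) (a.ψ β ξ'))) ξ :=
        hhη.comp ξ hτ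
      have hHr := hH.restrict_scalars ℝ
      have hsc : ContDiffAt ℝ 1 (s ∘ a.ψ β) ξ := (hs β).1.contDiffAt (isOpen_ball.mem_nhds hξ)
      have hθ : ContDiffAt ℝ 1 (P.θ i ∘ a.ψ β) ξ :=
        (P.smooth i β).contDiffAt (isOpen_ball.mem_nhds hξ)
      have hθc : ContDiffAt ℝ 1 (fun ξ' => (P.θ i (a.ψ β ξ') : ℂ)) ξ :=
        ofRealCLM.contDiff.contDiffAt.comp ξ hθ
      have hDc : ContDiffAt ℝ 1 (fun ξ' => D i (a.ψ β ξ')) ξ := hHr.sub hsc
      refine ⟨hθc.mul hDc, fun v => ?_⟩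
      rw [db_mul (hθc.differentiableAt one_ne_zero) (hDc.differentiableAt one_ne_zero)]
      have hsum : db (fun ξ' => D i (a.ψ β ξ')) ξ v + db (s ∘ a.ψ β) ξ v = 0 := by
        rw [← db_add (hDc.differentiableAt one_ne_zero) (hsc.differentiableAt one_ne_zero),
          ← db_hol (hH.differentiableAt one_ne_zero) v]
        congr 1
        funext ξ'
        simp [hD]
      have e2 : (P.θ i (a.ψ β ξ) : ℂ) * db (fun ξ' => D i (a.ψ β ξ')) ξ v +
          db (fun ξ' => (P.θ i (a.ψ β ξ') : ℂ)) ξ v * D i (a.ψ β ξ) +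
          (P.θ i (a.ψ β ξ) : ℂ) * db (s ∘ a.ψ β) ξ v =
          db (fun ξ' => (P.θ i (a.ψ β ξ') : ℂ)) ξ v * D i (a.ψ β ξ) := by
        linear_combination (P.θ i (a.ψ β ξ) : ℂ) * hsum
      rw [e2, norm_mul]
      have b1 : ‖db (fun ξ' => (P.θ i (a.ψ β ξ') : ℂ)) ξ v‖ ≤
          ‖fderiv ℝ (P.θ i ∘ a.ψ β) ξ‖ * ‖v‖ :=
        (norm_db_le _ _ _).trans (mul_le_mul_of_nonneg_right
          (norm_fderiv_ofReal (hθ.differentiableAt one_ne_zero)) (norm_nonneg _))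
      have b2 : ‖D i (a.ψ β ξ)‖ ≤ ε * N * Real.exp (Φ (a.ψ β ξ) / 2) := by
        rw [← e]; exact hDb i η hη
      calc _ ≤ (‖fderiv ℝ (P.θ i ∘ a.ψ β) ξ‖ * ‖v‖) * (ε * N * Real.exp (Φ (a.ψ β ξ) / 2)) :=
            mul_le_mul b1 b2 (norm_nonneg _) (by positivity)
        _ = _ := by ring
  have hrep : ∀ β, ∀ ξ ∈ ball (0 : M) 3, ∃ T : Finset P.J, ∑ i ∈ T, P.θ i (a.ψ β ξ) = 1 ∧
      ((fun y => s y + ∑ᶠ i, (P.θ i y : ℂ) * D i y) ∘ a.ψ β) =ᶠ[𝓝 ξ]
        fun ξ' => (s ∘ a.ψ β) ξ' + ∑ i ∈ T, (P.θ i (a.ψ β ξ') : ℂ) * D i (a.ψ β ξ') := by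
    intro β ξ hξ
    obtain ⟨O, hO, T, hT, h1⟩ := P.lf (a.ψ β ξ)
    refine ⟨T, h1 _ (mem_of_mem_nhds hO), ?_⟩
    have hc : ContinuousAt (a.ψ β) ξ := (a.cont β).continuousAt (isOpen_ball.mem_nhds hξ)
    filter_upwards [hc.preimage_mem_nhds hO] with ξ' h'
    simp only [Function.comp]
    rw [hfin T _ fun i hi => hT i hi _ h']
  refine ⟨fun y => s y + ∑ᶠ i, (P.θ i y : ℂ) * D i y, fun β => ⟨fun ξ hξ => ?_, fun ξ hξ v => ?_⟩,
    fun y => ?_⟩
  · obtain ⟨T, -, e⟩ := hrep β ξ hξ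
    have hsc : ContDiffAt ℝ 1 (s ∘ a.ψ β) ξ := (hs β).1.contDiffAt (isOpen_ball.mem_nhds hξ)
    exact ((hsc.add (ContDiffAt.sum fun i _ => (hloc i β ξ hξ).1)).congr_of_eventuallyEq
      e).contDiffWithinAt
  · obtain ⟨T, h1, e⟩ := hrep β ξ hξ
    have hsc : ContDiffAt ℝ 1 (s ∘ a.ψ β) ξ := (hs β).1.contDiffAt (isOpen_ball.mem_nhds hξ)
    have hd : ∀ i ∈ T, DifferentiableAt ℝ
        (fun ξ' => (P.θ i (a.ψ β ξ') : ℂ) * D i (a.ψ β ξ')) ξ := fun i _ =>
      (hloc i β ξ hξ).1.differentiableAt one_ne_zero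
    rw [db_congr e, db_add (hsc.differentiableAt one_ne_zero) (DifferentiableAt.fun_sum hd),
      db_sum T hd]
    have h1c : ∑ i ∈ T, (P.θ i (a.ψ β ξ) : ℂ) = 1 := by exact_mod_cast h1
    have e3 : db (s ∘ a.ψ β) ξ v +
        ∑ i ∈ T, db (fun ξ' => (P.θ i (a.ψ β ξ') : ℂ) * D i (a.ψ β ξ')) ξ v =
        ∑ i ∈ T, (db (fun ξ' => (P.θ i (a.ψ β ξ') : ℂ) * D i (a.ψ β ξ')) ξ v +
          (P.θ i (a.ψ β ξ) : ℂ) * db (s ∘ a.ψ β) ξ v) := by
      rw [Finset.sum_add_distrib, ← Finset.sum_mul, h1c, one_mul, add_comm]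
    rw [e3]
    have b := (norm_sum_le _ _).trans (Finset.sum_le_sum fun i (_ : i ∈ T) => (hloc i β ξ hξ).2 v)
    rw [← Finset.sum_mul] at b
    have hE : 0 ≤ N * Real.exp (Φ (a.ψ β ξ) / 2) * ‖v‖ := by positivity
    calc _ ≤ ρ β * ((∑ i ∈ T, ‖fderiv ℝ (P.θ i ∘ a.ψ β) ξ‖) *
            (ε * N * Real.exp (Φ (a.ψ β ξ) / 2) * ‖v‖)) := mul_le_mul_of_nonneg_left b (hρ β).1.le
      _ = (ρ β * ∑ i ∈ T, ‖fderiv ℝ (P.θ i ∘ a.ψ β) ξ‖) *
            (ε * (N * Real.exp (Φ (a.ψ β ξ) / 2) * ‖v‖)) := by ring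
      _ ≤ K * (ε * (N * Real.exp (Φ (a.ψ β ξ) / 2) * ‖v‖)) :=
          mul_le_mul_of_nonneg_right (P.grad β ξ hξ T) (mul_nonneg hε hE)
      _ = (K * ε) * (N * Real.exp (Φ (a.ψ β ξ) / 2) * ‖v‖) := by ring
      _ ≤ (1 / 2) * (N * Real.exp (Φ (a.ψ β ξ) / 2) * ‖v‖) := mul_le_mul_of_nonneg_right hε2 hE
      _ = _ := by ring
  · obtain ⟨O, hO, T, hT, h1⟩ := P.lf y
    have hy := mem_of_mem_nhds hO
    rw [add_sub_cancel_left, hfin T y fun i hi => hT i hi y hy]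
    refine (norm_sum_le _ _).trans ((Finset.sum_le_sum fun i _ => hval i y).trans ?_)
    rw [← Finset.sum_mul, h1 y hy, one_mul]
    have hE : 0 ≤ N * Real.exp (Φ y / 2) := by positivity
    nlinarith [mul_le_mul_of_nonneg_right hε1 hE]

omit [FiniteDimensional ℂ M] in
/-- A limit of sections with vanishing dbar bound is holomorphic. -/
theorem hol_lim (a : Atl M Y A) {ε N : ℝ} {ρ : A → ℝ} {Φ : Y → ℝ} (hρ : ∀ α, 0 < ρ α)
    (hΦ : ∀ α, ContinuousOn (Φ ∘ a.ψ α) (ball 0 3)) (hε : 0 ≤ ε) (hS : a.Solver ε Φ ρ)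
    (hN : 0 ≤ N) (u : ℕ → Y → ℂ) (hu : ∀ n, a.Dbar Φ ρ (u n) (N / 2 ^ n)) (g : Y → ℂ)
    (hg : ∀ n y, ‖g y - u n y‖ ≤ N / 2 ^ n * Real.exp (Φ y / 2)) : a.Hol g := by
  have key : ∀ β, ∀ c ∈ ball (0 : M) 1, DifferentiableAt ℂ (g ∘ a.ψ β) c := by
    intro β c hc
    have hc3 : c ∈ ball (0 : M) 3 := ball_subset_ball (by norm_num) hc
    choose h hh hb using fun n : ℕ =>
      hS β c hc (u n ∘ a.ψ β) (N / 2 ^ n) (by positivity) (hu n β).1 (hu n β).2
    have hcont : ContinuousAt (Φ ∘ a.ψ β) c := (hΦ β).continuousAt (isOpen_ball.mem_nhds hc3)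
    obtain ⟨δ, hδ, hd⟩ := Metric.continuousAt_iff.1 hcont 1 one_pos
    have hr : 0 < min δ (3 * ρ β) := lt_min hδ (by linarith [hρ β])
    have hlim : TendstoUniformlyOn h (g ∘ a.ψ β) atTop (ball c (min δ (3 * ρ β))) := by
      rw [Metric.tendstoUniformlyOn_iff]
      intro e he
      have ht : Tendsto (fun n : ℕ => ((1 + ε) * N * Real.exp ((Φ (a.ψ β c) + 1) / 2)) *
          (1 / 2 : ℝ) ^ n) atTop (𝓝 0) := by
        simpa using (tendsto_pow_atTop_nhds_zero_of_lt_one (r := (1 / 2 : ℝ)) (by norm_num)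
          (by norm_num)).const_mul ((1 + ε) * N * Real.exp ((Φ (a.ψ β c) + 1) / 2))
      filter_upwards [ht.eventually (gt_mem_nhds he)] with n hn η hη
      refine lt_of_le_of_lt ?_ hn
      have h1 : dist η c < δ := lt_of_lt_of_le hη (min_le_left _ _)
      have h2 : η ∈ ball c (3 * ρ β) := ball_subset_ball (min_le_right _ _) hη
      have h3 : Real.exp (Φ (a.ψ β η) / 2) ≤ Real.exp ((Φ (a.ψ β c) + 1) / 2) := by
        have := hd h1
        rw [Real.dist_eq, abs_lt] at this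
        simp only [Function.comp] at this
        exact Real.exp_le_exp.2 (by linarith [this.2])
      have h4 := hb n η h2
      have h5 := hg n (a.ψ β η)
      rw [dist_eq_norm]
      have h6 := norm_add_le (g (a.ψ β η) - u n (a.ψ β η)) ((u n ∘ a.ψ β) η - h n η)
      have e6 : g (a.ψ β η) - u n (a.ψ β η) + ((u n ∘ a.ψ β) η - h n η) =
          (g ∘ a.ψ β) η - h n η := by
        simp only [Function.comp]; ring
      rw [e6] at h6
      calc _ ≤ (1 + ε) * (N / 2 ^ n) * Real.exp (Φ (a.ψ β η) / 2) := by linarith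
        _ ≤ (1 + ε) * (N / 2 ^ n) * Real.exp ((Φ (a.ψ β c) + 1) / 2) :=
            mul_le_mul_of_nonneg_left h3 (by positivity)
        _ = _ := by rw [one_div, inv_pow]; ring
    exact (differentiableOn_of_tendstoUniformlyOn isOpen_ball
      (fun n => (hh n).mono (ball_subset_ball (min_le_right _ _))) hlim).differentiableAt
      (ball_mem_nhds c hr)
  intro α ξ hξ
  apply DifferentiableAt.differentiableWithinAt
  obtain ⟨β, c, hc, e⟩ := a.cov (a.ψ α ξ)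
  have hc3 : c ∈ ball (0 : M) 3 := ball_subset_ball (by norm_num) hc
  have hτ := (a.tr α β ξ hξ ⟨c, hc3, e⟩).1.differentiableAt one_ne_zero
  have hτξ : Function.invFunOn (a.ψ β) (ball 0 3) (a.ψ α ξ) = c := by
    rw [← e]; exact (a.inj β).leftInvOn_invFunOn hc3
  have hk : DifferentiableAt ℂ (g ∘ a.ψ β) (Function.invFunOn (a.ψ β) (ball 0 3) (a.ψ α ξ)) := by
    rw [hτξ]; exact key β c hc
  refine (hk.comp ξ hτ).congr_of_eventuallyEq ?_
  have hcont : ContinuousAt (a.ψ α) ξ := (a.cont α).continuousAt (isOpen_ball.mem_nhds hξ)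
  have ho : IsOpen (a.ψ β '' ball 0 3) := a.opn β _ isOpen_ball subset_rfl
  filter_upwards [hcont.preimage_mem_nhds (ho.mem_nhds ⟨c, hc3, e⟩)] with ξ' h'
  simp only [Function.comp]
  rw [Function.invFunOn_eq h']

end A3P

theorem a3 (h : PUStmt M) : A3Stmt M := by
  intro Y A _ _ a B
  obtain ⟨K, hK, hP⟩ := h Y A a B
  have hε : 0 < min (1 / 2) (1 / (2 * K)) := by positivity
  refine ⟨min (1 / 2) (1 / (2 * K)), hε, fun Φ ρ hρ hΦ hS s N hN hs => ?_⟩
  obtain ⟨P⟩ := hP ρ hρ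
  have hε2 : K * min (1 / 2) (1 / (2 * K)) ≤ 1 / 2 := by
    refine (mul_le_mul_of_nonneg_left (min_le_right _ _) hK.le).trans (le_of_eq ?_)
    field_simp
  choose! f hf1 hf2 using A3P.step a P hρ.1 hε.le (min_le_left _ _) hε2 hS
  let u : ℕ → Y → ℂ := fun n => Nat.rec s (fun n t => f t (N / 2 ^ n)) n
  have hu : ∀ n, a.Dbar Φ ρ (u n) (N / 2 ^ n) := by
    intro n
    induction n with
    | zero => rw [pow_zero, div_one]; exact hs
    | succ n ih =>
      have := hf1 (u n) (N / 2 ^ n) (by positivity) ih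
      rwa [show N / 2 ^ n / 2 = N / 2 ^ (n + 1) by rw [pow_succ, div_div]] at this
  have hd : ∀ y n, dist (u n y) (u (n + 1) y) ≤ N * Real.exp (Φ y / 2) / 2 / 2 ^ n := by
    intro y n
    rw [dist_comm, dist_eq_norm]
    exact (hf2 (u n) (N / 2 ^ n) (by positivity) (hu n) y).trans (le_of_eq (by ring))
  choose g hg using fun y => cauchySeq_tendsto_of_complete (cauchySeq_of_le_geometric_two (hd y))
  have hb : ∀ n y, ‖g y - u n y‖ ≤ N / 2 ^ n * Real.exp (Φ y / 2) := by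
    intro n y
    rw [← dist_eq_norm, dist_comm]
    exact (dist_le_of_le_geometric_two_of_tendsto (hd y) (hg y) n).trans (le_of_eq (by ring))
  refine ⟨g, A3P.hol_lim a (fun α => (hρ.1 α).1) hΦ hε.le hS hN u hu g hb, fun y => ?_⟩
  have := hb 0 y
  rwa [pow_zero, div_one] at this

end Pool.Agent.MP_8ac6f3_ag
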