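import Pool.Agent.MP_8ac6f3_ag.C01
import Mathlib.Analysis.Calculus.BumpFunction.FiniteDimension

/-! Row A4: peak sections, holomorphic convexity and separation. -/

open Set Metric Complex Filter
open scoped ContDiff Topology

namespace Pool.Agent.MP_8ac6f3_ag

variable {M : Type} [NormedAddCommGroup M] [NormedSpace ℝ M] [NormedSpace ℂ M]
  [IsScalarTower ℝ ℂ M] [FiniteDimensional ℂ M]

namespace A4P

theorem exists_bump : ∃ (χ : M → ℝ) (D : ℝ), 0 ≤ D ∧ ContDiff ℝ 1 χ ∧ (∀ x, ‖x‖ ≤ 1 → χ x = 1) ∧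
    (∀ x, 2 ≤ ‖x‖ → χ x = 0) ∧ (∀ x, |χ x| ≤ 1) ∧ ∀ x, ‖fderiv ℝ χ x‖ ≤ D := by
  have : FiniteDimensional ℝ M := Module.Finite.trans ℂ M
  let b : ContDiffBump (0 : M) := ⟨1, 2, one_pos, one_lt_two⟩
  have hb : ContDiff ℝ 1 b := b.contDiff
  obtain ⟨D, hD⟩ := (b.hasCompactSupport.fderiv ℝ).exists_bound_of_continuous
    (hb.continuous_fderiv one_ne_zero)
  refine ⟨b, D, (norm_nonneg _).trans (hD 0), hb, fun x hx => ?_, fun x hx => ?_, fun x => ?_, hD⟩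
  · exact b.one_of_mem_closedBall (mem_closedBall_zero_iff.2 hx)
  · exact b.zero_of_le_dist (by rwa [dist_zero_right])
  · rw [abs_of_nonneg b.nonneg]
    exact b.le_one

omit [IsScalarTower ℝ ℂ M] [FiniteDimensional ℂ M] in
theorem weight {u : M → ℝ} {K lam k : ℝ} (hlam : 0 < lam) (hk : 0 ≤ k)
    (hu : Db (ball 0 3) K u)
    (hl : ∀ ξ ∈ ball (0 : M) 3, ∀ η, lam * Real.exp (-u ξ) * ‖η‖ ^ 2 ≤ lev u ξ η) :
    Db (ball 0 3) (k * (5 * Real.exp (9 * K) * (3 * K + (3 * K) ^ 3)) * Real.exp (3 * u 0))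
      (fun ξ => k * Real.exp (3 * u ξ)) ∧
    ∀ ξ ∈ ball (0 : M) 3, ∀ η, 3 * k * lam * Real.exp (2 * u 0 - 6 * K) * ‖η‖ ^ 2 ≤
      lev (fun ξ => k * Real.exp (3 * u ξ)) ξ η := by
  have h0 : (0 : M) ∈ ball (0 : M) 3 := mem_ball_self (by norm_num)
  have hK : 0 ≤ K := hu.nonneg ⟨0, h0⟩
  have hosc : ∀ ξ ∈ ball (0 : M) 3, |u ξ - u 0| ≤ 3 * K := fun ξ hξ => by
    have := hu.osc isOpen_ball (convex_ball _ _) hξ h0
    rw [sub_zero] at this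
    have h3 := mem_ball_zero_iff.1 hξ
    nlinarith
  have h3 : Db (ball 0 3) (3 * K) (fun ξ => 3 * u ξ) := by
    simpa using hu.const_mul isOpen_ball 3
  have he := h3.exp isOpen_ball (A := 3 * u 0 + 9 * K) fun ξ hξ => by
    have := abs_le.1 (hosc ξ hξ)
    linarith
  refine ⟨(he.const_mul isOpen_ball k).mono (le_of_eq ?_), fun ξ hξ η => ?_⟩
  · rw [abs_of_nonneg hk, Real.exp_add]
    ring
  · have c2 : ContDiffAt ℝ 2 u ξ := (hu.contDiffAt isOpen_ball hξ).of_le (by norm_num)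
    have c3 : ContDiffAt ℝ 2 (fun ξ => 3 * u ξ) ξ := contDiffAt_const.mul c2
    have c4 : ContDiffAt ℝ 2 (fun ξ => Real.exp (3 * u ξ)) ξ := c3.exp
    rw [lev_const_mul k c4, lev_comp (φ := Real.exp) Real.contDiff_exp.contDiffAt c3,
      lev_const_mul 3 c2, Real.deriv_exp, Real.deriv_exp]
    have e1 : Real.exp (2 * u 0 - 6 * K) ≤ Real.exp (3 * u ξ) * Real.exp (-u ξ) := by
      rw [← Real.exp_add]
      have := abs_le.1 (hosc ξ hξ)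
      exact Real.exp_le_exp.2 (by linarith)
    have e2 := hl ξ hξ η
    have e3 := Real.exp_pos (3 * u ξ)
    have e4 : 0 ≤ Real.exp (3 * u ξ) * (fderiv ℝ (fun ξ => 3 * u ξ) ξ η ^ 2 +
        fderiv ℝ (fun ξ => 3 * u ξ) ξ (I • η) ^ 2) / 4 := by positivity
    have e5 : lam * Real.exp (2 * u 0 - 6 * K) * ‖η‖ ^ 2 ≤ Real.exp (3 * u ξ) * lev u ξ η :=
      calc lam * Real.exp (2 * u 0 - 6 * K) * ‖η‖ ^ 2
          ≤ lam * (Real.exp (3 * u ξ) * Real.exp (-u ξ)) * ‖η‖ ^ 2 := by gcongr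
        _ = Real.exp (3 * u ξ) * (lam * Real.exp (-u ξ) * ‖η‖ ^ 2) := by ring
        _ ≤ _ := by gcongr
    have e6 := mul_le_mul_of_nonneg_left e5 hk
    have e7 := mul_nonneg hk e4
    nlinarith

omit [FiniteDimensional ℂ M] in
theorem local_peak {χ : M → ℝ} {D : ℝ} (hD : 0 ≤ D) (hχ : ContDiff ℝ 1 χ)
    (h1 : ∀ x, ‖x‖ ≤ 1 → χ x = 1) (h2 : ∀ x, 2 ≤ ‖x‖ → χ x = 0) (h3 : ∀ x, |χ x| ≤ 1)
    (h4 : ∀ x, ‖fderiv ℝ χ x‖ ≤ D) {f : M → ℝ} {c : M} {ρ l K : ℝ} (hρ : 0 < ρ) (hl : 0 ≤ l)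
    (hf : ContDiffOn ℝ 3 f (ball c (3 * ρ)))
    (hK : ∀ y ∈ ball c (3 * ρ), ‖iteratedFDeriv ℝ 3 f y‖ ≤ K) (hKρ : K * (3 * ρ) ^ 3 ≤ 1)
    (hlev : ∀ η, l * ‖η‖ ^ 2 ≤ lev f c η) :
    ∃ σ : M → ℂ, ContDiff ℝ 1 σ ∧ ‖σ c‖ = Real.exp (f c / 2) ∧
      (∀ ζ ∉ closedBall c (2 * ρ), σ ζ = 0) ∧ ∀ ζ ∈ closedBall c (2 * ρ),
        ‖σ ζ‖ ≤ Real.exp (1 / 2) * Real.exp (f ζ / 2) ∧
        ∀ w, ρ * ‖db σ ζ w‖ ≤ D * Real.exp ((1 - l * ρ ^ 2) / 2) * Real.exp (f ζ / 2) * ‖w‖ := by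
  have hc : c ∈ ball c (3 * ρ) := mem_ball_self (by positivity)
  have hK0 : 0 ≤ K := (norm_nonneg _).trans (hK c hc)
  obtain ⟨P, hP, hre⟩ := exists_hol_poly (f := f) (x := c)
    ((hf.contDiffAt (isOpen_ball.mem_nhds hc)).of_le (by norm_num))
  set u : M → ℂ := fun ζ => (χ (ρ⁻¹ • (ζ - c)) : ℂ) with hu
  set e : M → ℂ := fun ζ => Complex.exp (P (ζ - c) / 2) with he
  have hA : ContDiff ℝ 1 (fun ζ : M => ρ⁻¹ • (ζ - c)) := by fun_prop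
  have cu : ContDiff ℝ 1 u := ofRealCLM.contDiff.comp (hχ.comp hA)
  have ce : ContDiff ℂ 1 e := ((hP.comp (contDiff_id.sub contDiff_const)).div_const 2).cexp
  have hn : ∀ ζ, ‖ρ⁻¹ • (ζ - c)‖ = ‖ζ - c‖ / ρ := fun ζ => by
    rw [norm_smul, Real.norm_of_nonneg (inv_nonneg.2 hρ.le), div_eq_inv_mul]
  have ne : ∀ ζ, ‖e ζ‖ = Real.exp ((P (ζ - c)).re / 2) := fun ζ => by
    simp [he, Complex.norm_exp]
  have be : ∀ ζ ∈ closedBall c (2 * ρ),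
      ‖e ζ‖ ≤ Real.exp ((1 - l * ‖ζ - c‖ ^ 2) / 2) * Real.exp (f ζ / 2) := fun ζ hζ => by
    have hz : ‖ζ - c‖ ≤ 2 * ρ := mem_closedBall_iff_norm.1 hζ
    have t := taylor3 (η := ζ - c) hf hK (by linarith)
    rw [add_sub_cancel] at t
    have t2 : K * ‖ζ - c‖ ^ 3 ≤ K * (3 * ρ) ^ 3 := by gcongr; linarith
    have t3 := hlev (ζ - c)
    have t4 := (abs_le.1 t).1
    rw [ne, ← Real.exp_add, hre]
    exact Real.exp_le_exp.2 (by linarith)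
  refine ⟨fun ζ => u ζ * e ζ, cu.mul (ce.restrict_scalars ℝ), ?_, fun ζ hζ => ?_, fun ζ hζ =>
    ⟨?_, fun w => ?_⟩⟩
  · have a1 : u c = 1 := by simp [hu, h1]
    have a2 : (P (c - c)).re = f c := by
      rw [hre, sub_self]
      simp [lev, d2]
    simp only [a1, one_mul, ne, a2]
  · have a1 : 2 * ρ < ‖ζ - c‖ := by
      rw [mem_closedBall_iff_norm] at hζ
      exact not_le.1 hζ
    have a2 : χ (ρ⁻¹ • (ζ - c)) = 0 := h2 _ (by rw [hn, le_div_iff₀ hρ]; exact a1.le)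
    simp [hu, a2]
  · have a1 : ‖u ζ‖ ≤ 1 := by simpa [hu] using h3 _
    have a2 : Real.exp ((1 - l * ‖ζ - c‖ ^ 2) / 2) ≤ Real.exp (1 / 2) :=
      Real.exp_le_exp.2 (by nlinarith [mul_nonneg hl (sq_nonneg ‖ζ - c‖)])
    calc ‖u ζ * e ζ‖ = ‖u ζ‖ * ‖e ζ‖ := norm_mul _ _
      _ ≤ 1 * (Real.exp ((1 - l * ‖ζ - c‖ ^ 2) / 2) * Real.exp (f ζ / 2)) := by
        gcongr; exact be ζ hζ
      _ ≤ _ := by rw [one_mul]; gcongr
  · have du : DifferentiableAt ℝ u ζ := cu.differentiable one_ne_zero ζ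
    have de : DifferentiableAt ℂ e ζ := ce.differentiable one_ne_zero ζ
    rw [db_mul du (de.restrictScalars ℝ), db_hol de, mul_zero, zero_add, norm_mul]
    rcases lt_or_ge ‖ζ - c‖ ρ with hz | hz
    · have ev : u =ᶠ[𝓝 ζ] fun _ => 1 := by
        filter_upwards [isOpen_ball.mem_nhds (mem_ball_iff_norm.2 hz)] with ζ' hζ'
        have : χ (ρ⁻¹ • (ζ' - c)) = 1 :=
          h1 _ (by rw [hn, div_le_one hρ]; exact (mem_ball_iff_norm.1 hζ').le)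
        simp [hu, this]
      rw [db_congr ev, db_hol (differentiableAt_const _)]
      simp only [norm_zero, zero_mul, mul_zero]
      positivity
    · have hA' : HasFDerivAt (fun ζ : M => ρ⁻¹ • (ζ - c)) (ρ⁻¹ • ContinuousLinearMap.id ℝ M) ζ :=
        ((hasFDerivAt_id ζ).sub_const c).const_smul ρ⁻¹
      have hd : HasFDerivAt u (ofRealCLM.comp ((fderiv ℝ χ (ρ⁻¹ • (ζ - c))).comp
          (ρ⁻¹ • ContinuousLinearMap.id ℝ M))) ζ :=
        ofRealCLM.hasFDerivAt.comp ζ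
          ((hχ.differentiable one_ne_zero _).hasFDerivAt.comp ζ hA')
      have nb : ‖fderiv ℝ u ζ‖ ≤ D / ρ := by
        rw [hd.fderiv]
        refine ContinuousLinearMap.opNorm_le_bound _ (by positivity) fun v => ?_
        have := (fderiv ℝ χ (ρ⁻¹ • (ζ - c))).le_of_opNorm_le (h4 _) (ρ⁻¹ • v)
        rw [norm_smul, Real.norm_of_nonneg (inv_nonneg.2 hρ.le)] at this
        simp only [ContinuousLinearMap.comp_apply, smul_apply,
          ContinuousLinearMap.id_apply, ofRealCLM_apply, Complex.norm_real]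
        refine this.trans (le_of_eq ?_)
        ring
      have a1 : ‖db u ζ w‖ ≤ D / ρ * ‖w‖ := (norm_db_le u ζ w).trans (by gcongr)
      have a2 : Real.exp ((1 - l * ‖ζ - c‖ ^ 2) / 2) ≤ Real.exp ((1 - l * ρ ^ 2) / 2) := by
        have : l * ρ ^ 2 ≤ l * ‖ζ - c‖ ^ 2 := by gcongr
        exact Real.exp_le_exp.2 (by linarith)
      have a3 : ‖e ζ‖ ≤ Real.exp ((1 - l * ρ ^ 2) / 2) * Real.exp (f ζ / 2) :=
        (be ζ hζ).trans (by gcongr)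
      calc ρ * (‖db u ζ w‖ * ‖e ζ‖)
          ≤ ρ * (D / ρ * ‖w‖ * (Real.exp ((1 - l * ρ ^ 2) / 2) * Real.exp (f ζ / 2))) := by
            gcongr
        _ = _ := by field_simp

/-- Extension by zero of a function with support in a small ball of a chart. -/
theorem extend {Y A : Type} [TopologicalSpace Y] [T2Space Y] (a : Atl M Y A) {B N : ℝ}
    {ρ : A → ℝ} (hS : a.Scale B ρ) (hB : 0 ≤ B) (hN : 0 ≤ N) (Φ : Y → ℝ) (α : A) {c : M}
    (hc : c ∈ ball (0 : M) 1) {σ : M → ℂ} (hσ : ContDiff ℝ 1 σ)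
    (h0 : ∀ ζ ∉ closedBall c (2 * ρ α), σ ζ = 0)
    (hd : ∀ ζ ∈ closedBall c (2 * ρ α), ∀ w,
      ρ α * ‖db σ ζ w‖ ≤ N * Real.exp (Φ (a.ψ α ζ) / 2) * ‖w‖) :
    ∃ s : Y → ℂ, a.Dbar Φ ρ s (B * N * |a.C|) ∧ (∀ ζ ∈ ball (0 : M) 3, s (a.ψ α ζ) = σ ζ) ∧
      ∀ y ∉ a.ψ α '' closedBall c (2 * ρ α), s y = 0 := by
  classical
  have hsub : closedBall c (2 * ρ α) ⊆ ball 0 3 := by
    refine closedBall_subset_ball' ?_
    have := mem_ball.1 hc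
    linarith [(hS.1 α).2]
  set s : Y → ℂ := fun y => if y ∈ a.ψ α '' ball 0 3 then
    σ (Function.invFunOn (a.ψ α) (ball 0 3) y) else 0 with hs
  have s1 : ∀ ζ ∈ ball (0 : M) 3, s (a.ψ α ζ) = σ ζ := fun ζ hζ => by
    simp only [hs]
    rw [if_pos (mem_image_of_mem _ hζ), (a.inj α).leftInvOn_invFunOn hζ]
  have s0 : ∀ y ∉ a.ψ α '' closedBall c (2 * ρ α), s y = 0 := fun y hy => by
    by_cases h : y ∈ a.ψ α '' ball 0 3
    · obtain ⟨ζ, hζ, rfl⟩ := h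
      rw [s1 ζ hζ]
      exact h0 ζ fun h' => hy (mem_image_of_mem _ h')
    · simp only [hs]
      rw [if_neg h]
  refine ⟨s, fun β => ?_, s1, s0⟩
  have key : ∀ ξ ∈ ball (0 : M) 3, ContDiffAt ℝ 1 (s ∘ a.ψ β) ξ ∧ ∀ v,
      ρ β * ‖db (s ∘ a.ψ β) ξ v‖ ≤ B * N * |a.C| * Real.exp (Φ (a.ψ β ξ) / 2) * ‖v‖ := by
    intro ξ hξ
    have ca : ContinuousAt (a.ψ β) ξ := (a.cont β).continuousAt (isOpen_ball.mem_nhds hξ)
    by_cases h : a.ψ β ξ ∈ a.ψ α '' closedBall c (2 * ρ α)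
    · obtain ⟨ζ, hζ, e⟩ := h
      have hm : a.ψ β ξ ∈ a.ψ α '' ball 0 3 := ⟨ζ, hsub hζ, e⟩
      obtain ⟨t1, t2⟩ := a.tr β α ξ hξ hm
      have eζ : Function.invFunOn (a.ψ α) (ball 0 3) (a.ψ β ξ) = ζ := by
        rw [← e]; exact (a.inj α).leftInvOn_invFunOn (hsub hζ)
      have ev : s ∘ a.ψ β =ᶠ[𝓝 ξ]
          fun ξ' => σ (Function.invFunOn (a.ψ α) (ball 0 3) (a.ψ β ξ')) := by
        filter_upwards [ca.preimage_mem_nhds
          ((a.opn α _ isOpen_ball subset_rfl).mem_nhds hm)] with ξ' hξ'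
        exact if_pos hξ'
      refine ⟨(hσ.contDiffAt.comp ξ (t1.restrict_scalars ℝ)).congr_of_eventuallyEq ev, fun v => ?_⟩
      rw [db_congr ev, db_comp_hol (t1.differentiableAt one_ne_zero)
        (hσ.differentiable one_ne_zero _), eζ, ← e]
      have a1 := hd ζ hζ (fderiv ℂ (fun ξ' => Function.invFunOn (a.ψ α) (ball 0 3) (a.ψ β ξ')) ξ v)
      have a2 : ‖fderiv ℂ (fun ξ' => Function.invFunOn (a.ψ α) (ball 0 3) (a.ψ β ξ')) ξ v‖ ≤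
          |a.C| * ‖v‖ := ContinuousLinearMap.le_of_opNorm_le _ (t2.trans (le_abs_self _)) v
      have a3 : ρ β ≤ B * ρ α := hS.2 β α ⟨_, mem_image_of_mem _ hξ, hm⟩
      generalize fderiv ℂ (fun ξ' => Function.invFunOn (a.ψ α) (ball 0 3) (a.ψ β ξ')) ξ v = w
        at a1 a2 ⊢
      calc ρ β * ‖db σ ζ w‖ ≤ B * ρ α * ‖db σ ζ w‖ := by gcongr
        _ = B * (ρ α * ‖db σ ζ w‖) := by ring
        _ ≤ B * (N * Real.exp (Φ (a.ψ α ζ) / 2) * ‖w‖) := by gcongr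
        _ ≤ B * (N * Real.exp (Φ (a.ψ α ζ) / 2) * (|a.C| * ‖v‖)) := by gcongr
        _ = _ := by ring
    · have : ProperSpace M := FiniteDimensional.proper ℂ M
      have hcl : IsClosed (a.ψ α '' closedBall c (2 * ρ α)) :=
        ((isCompact_closedBall c _).image_of_continuousOn ((a.cont α).mono hsub)).isClosed
      have ev : s ∘ a.ψ β =ᶠ[𝓝 ξ] fun _ => 0 := by
        filter_upwards [ca.preimage_mem_nhds (hcl.isOpen_compl.mem_nhds h)] with ξ' hξ'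
        exact s0 _ hξ'
      refine ⟨contDiffAt_const.congr_of_eventuallyEq ev, fun v => ?_⟩
      rw [db_congr ev, db_hol (differentiableAt_const _), norm_zero, mul_zero]
      positivity
  exact ⟨fun ξ hξ => (key ξ hξ).1.contDiffWithinAt, fun ξ hξ => (key ξ hξ).2⟩

theorem consts {E c δ C : ℝ} (k0 : ℝ) (hE : 0 < E) (hc : 0 ≤ c) (hδ : 0 < δ) (hC : 3 ≤ C) :
    ∃ r k : ℝ, 0 < r ∧ 0 < k ∧ k0 ≤ k ∧ k * r ^ 2 = E ∧ k * c * (C * r) ^ 3 ≤ 1 ∧ C * r ≤ 1 ∧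
      2 * r ≤ δ := by
  obtain ⟨T, hT⟩ : ∃ T, T = C + 2 / δ + |k0| / E + E * c * C ^ 3 := ⟨_, rfl⟩
  have p0 : 0 ≤ C := by linarith
  have p1 : 0 < 2 / δ := by positivity
  have p2 : 0 ≤ |k0| / E := by positivity
  have p3 : 0 ≤ E * c * C ^ 3 := by positivity
  have hT0 : 0 < T := by linarith
  refine ⟨1 / T, E * T ^ 2, by positivity, by positivity, ?_, by field_simp, ?_, ?_, ?_⟩
  · have a1 : |k0| ≤ E * T := by
      rw [← div_le_iff₀' hE]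
      linarith
    have a2 : E * T * 1 ≤ E * T * T := by
      gcongr
      linarith
    nlinarith [le_abs_self k0]
  · have : E * T ^ 2 * c * (C * (1 / T)) ^ 3 = E * c * C ^ 3 / T := by field_simp
    rw [this, div_le_one hT0]
    linarith
  · rw [mul_one_div, div_le_one hT0]
    linarith
  · have : 2 / δ ≤ T := by linarith
    rw [div_le_iff₀ hδ] at this
    rw [mul_one_div, div_le_iff₀ hT0]
    linarith

theorem gain {ε C Q : ℝ} (hε : 0 < ε) (hC : 0 ≤ C) (hQ : 0 ≤ Q) :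
    ∃ R : ℝ, 1 ≤ R ∧ C ≤ ε * R ∧ Q * Real.exp ((1 - R ^ 2) / 2) ≤ 1 / 4 := by
  obtain ⟨R, hR⟩ : ∃ R, R = 1 + C / ε + 4 * Q := ⟨_, rfl⟩
  have p1 : 0 ≤ C / ε := by positivity
  have p2 : 1 ≤ R := by linarith
  refine ⟨R, p2, ?_, ?_⟩
  · rw [← div_le_iff₀' hε]
    linarith
  · have a1 := Real.add_one_le_exp ((R ^ 2 - 1) / 2)
    have a2 : 4 * Q ≤ Real.exp ((R ^ 2 - 1) / 2) := by nlinarith [sq_nonneg (R - 1)]
    have a3 : Real.exp ((R ^ 2 - 1) / 2) * Real.exp ((1 - R ^ 2) / 2) = 1 := by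
      rw [← Real.exp_add, ← Real.exp_zero]
      congr 1
      ring
    nlinarith [mul_le_mul_of_nonneg_right a2 (Real.exp_pos ((1 - R ^ 2) / 2)).le]

theorem peak (h2 : A2Stmt M) (h3 : A3Stmt M) {Y A : Type} [TopologicalSpace Y] [T2Space Y]
    (a : Atl M Y A) {F : Y → ℝ} {K lam : ℝ} (hlam : 0 < lam) (hF : ∀ y, 0 ≤ F y)
    (hD : ∀ α, Db (ball 0 3) K (F ∘ a.ψ α))
    (hL : ∀ α, ∀ ξ ∈ ball (0 : M) 3, ∀ η,
      lam * Real.exp (-F (a.ψ α ξ)) * ‖η‖ ^ 2 ≤ lev (F ∘ a.ψ α) ξ η)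
    {δ : ℝ} (hδ : 0 < δ) (k0 : ℝ) (α0 : A) {ξ0 : M} (hξ0 : ξ0 ∈ ball (0 : M) 1) :
    ∃ k, k0 ≤ k ∧ 0 < k ∧ ∃ g : Y → ℂ, a.Hol g ∧
      3 / 4 * Real.exp (k * Real.exp (3 * F (a.ψ α0 ξ0)) / 2) ≤ ‖g (a.ψ α0 ξ0)‖ ∧
      (∀ y, ‖g y‖ ≤ 3 * Real.exp (k * Real.exp (3 * F y) / 2)) ∧
      ∀ y ∉ a.ψ α0 '' closedBall ξ0 δ,
        ‖g y‖ ≤ 1 / 4 * Real.exp (k * Real.exp (3 * F y) / 2) := by
  obtain ⟨C, hC, H2⟩ := h2
  obtain ⟨ε, hε, H3⟩ := h3 Y A a (Real.exp (6 * K))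
  obtain ⟨χ, D, hD0, c1, c2, c3, c4, c5⟩ := exists_bump (M := M)
  have h0 : (0 : M) ∈ ball (0 : M) 3 := mem_ball_self (by norm_num)
  have hK : 0 ≤ K := (hD α0).nonneg ⟨0, h0⟩
  have hC0 : 0 ≤ C := by linarith
  obtain ⟨R, hR1, hRε, hRB⟩ := gain (Q := Real.exp (6 * K) * D * |a.C|) hε hC0 (by positivity)
  have hR0 : 0 < R := by linarith
  obtain ⟨r, k, hr, hk, hk0, hkr, hkc, hCr, hrδ⟩ := consts
    (E := R ^ 2 * Real.exp (6 * K) / (3 * lam))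
    (c := 5 * Real.exp (9 * K) * (3 * K + (3 * K) ^ 3)) k0 (by positivity) (by positivity) hδ hC
  obtain ⟨ρ, hρ⟩ : ∃ ρ : A → ℝ, ∀ α, ρ α = r * Real.exp (-F (a.ψ α 0)) := ⟨_, fun _ => rfl⟩
  obtain ⟨Φ, hΦ⟩ : ∃ Φ : Y → ℝ, Φ = fun y => k * Real.exp (3 * F y) := ⟨_, rfl⟩
  have ρ0 : ∀ α, 0 < ρ α := fun α => by rw [hρ]; positivity
  have ρr : ∀ α, ρ α ≤ r := fun α => by
    rw [hρ]
    exact mul_le_of_le_one_right hr.le (Real.exp_le_one_iff.2 (neg_nonpos.2 (hF _)))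
  have ρC : ∀ α, C * ρ α ≤ 1 := fun α => (mul_le_mul_of_nonneg_left (ρr α) hC0).trans hCr
  have ρ3 : ∀ α, 3 * ρ α ≤ C * ρ α := fun α => mul_le_mul_of_nonneg_right hC (ρ0 α).le
  have osc : ∀ α, ∀ ξ ∈ ball (0 : M) 3, |F (a.ψ α ξ) - F (a.ψ α 0)| ≤ 3 * K := fun α ξ hξ => by
    have := (hD α).osc isOpen_ball (convex_ball _ _) hξ h0
    rw [sub_zero] at this
    have h3 := mem_ball_zero_iff.1 hξ
    simp only [Function.comp] at this
    nlinarith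
  have hS : a.Scale (Real.exp (6 * K)) ρ := by
    refine ⟨fun α => ⟨ρ0 α, by linarith [ρC α, ρ3 α]⟩, ?_⟩
    rintro α β ⟨y, ⟨ξ, hξ, e⟩, ξ', hξ', e'⟩
    have a1 := abs_le.1 (osc α ξ hξ)
    have a2 := abs_le.1 (osc β ξ' hξ')
    rw [e] at a1
    rw [e'] at a2
    rw [hρ, hρ, mul_left_comm, ← Real.exp_add]
    gcongr
    linarith
  have W : ∀ α, ∃ K' : ℝ, Db (ball 0 3) K' (Φ ∘ a.ψ α) ∧ K' * (C * ρ α) ^ 3 ≤ 1 ∧
      ∀ ξ ∈ ball (0 : M) 3, ∀ η, (R / ρ α) ^ 2 * ‖η‖ ^ 2 ≤ lev (Φ ∘ a.ψ α) ξ η := fun α => by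
    obtain ⟨w1, w2⟩ := weight hlam hk.le (hD α) (hL α)
    rw [hΦ]
    refine ⟨_, w1, hkc.trans_eq' ?_, fun ξ hξ η => (w2 ξ hξ η).trans_eq' ?_⟩
    · have : Real.exp (3 * F (a.ψ α 0)) * Real.exp (-F (a.ψ α 0)) ^ 3 = 1 := by
        rw [← Real.exp_nat_mul, ← Real.exp_add, ← Real.exp_zero]
        congr 1
        push_cast
        ring
      simp only [Function.comp]
      rw [hρ]
      linear_combination
        -(k * (5 * Real.exp (9 * K) * (3 * K + (3 * K) ^ 3)) * (C * r) ^ 3) * this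
    · have : Real.exp (2 * F (a.ψ α 0) - 6 * K) * Real.exp (-F (a.ψ α 0)) ^ 2 *
          Real.exp (6 * K) = 1 := by
        rw [← Real.exp_nat_mul, ← Real.exp_add, ← Real.exp_add, ← Real.exp_zero]
        congr 1
        push_cast
        ring
      have e : k * r ^ 2 * (3 * lam) = R ^ 2 * Real.exp (6 * K) := by
        rw [hkr]
        field_simp
      simp only [Function.comp]
      congr 1
      rw [div_pow, eq_div_iff (pow_pos (ρ0 α) 2).ne', hρ]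
      linear_combination R ^ 2 * this +
        Real.exp (2 * F (a.ψ α 0) - 6 * K) * Real.exp (-F (a.ψ α 0)) ^ 2 * e
  have sub : ∀ α, ∀ c ∈ ball (0 : M) 1, ball c (C * ρ α) ⊆ ball 0 3 := fun α c hc =>
    ball_subset_ball' (by linarith [ρC α, mem_ball.1 hc])
  have lρ : ∀ α, (R / ρ α) ^ 2 * ρ α ^ 2 = R ^ 2 := fun α => by
    have := ρ0 α
    field_simp
  have hsol : a.Solver ε Φ ρ := by
    intro α c hc s N hN hs hb
    obtain ⟨K', w1, w2, w3⟩ := W α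
    have p := ρ0 α
    obtain ⟨h, hh, hb'⟩ := H2 (Φ ∘ a.ψ α) c (ρ α) ((R / ρ α) ^ 2) K' (N / ρ α) s p (by positivity)
      (by positivity) (by rw [lρ]; nlinarith) w2 (w1.1.mono (sub α c hc))
      (fun y hy => w1.2 3 (by norm_num) le_rfl y (sub α c hc hy))
      (w3 c (ball_subset_ball (by norm_num) hc)) (hs.mono (sub α c hc)) (fun y hy v => by
        rw [div_mul_eq_mul_div, div_mul_eq_mul_div, le_div_iff₀' p]
        exact hb y (sub α c hc hy) v)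
    refine ⟨h, hh, fun ξ hξ => (hb' ξ hξ).trans ?_⟩
    have e : C * (N / ρ α) / √((R / ρ α) ^ 2) = C / R * N := by
      rw [Real.sqrt_sq (by positivity)]
      field_simp
    have e2 : C / R ≤ ε := by rwa [div_le_iff₀ hR0]
    rw [e]
    simp only [Function.comp]
    gcongr
  obtain ⟨K', w1, w2, w3⟩ := W α0
  have sub3 : ball ξ0 (3 * ρ α0) ⊆ ball 0 3 := (ball_subset_ball (ρ3 α0)).trans (sub α0 ξ0 hξ0)
  have hK' : 0 ≤ K' := w1.nonneg ⟨0, h0⟩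
  have hx3 : ξ0 ∈ ball (0 : M) 3 := ball_subset_ball (by norm_num) hξ0
  obtain ⟨σ, s1, s2, s3, s4⟩ := local_peak hD0 c1 c2 c3 c4 c5 (f := Φ ∘ a.ψ α0) (c := ξ0)
    (l := (R / ρ α0) ^ 2) (K := K') (ρ0 α0) (sq_nonneg _) (w1.1.mono sub3)
    (fun y hy => w1.2 3 (by norm_num) le_rfl y (sub3 hy))
    (le_trans (by have := ρ0 α0; gcongr) w2) (w3 ξ0 hx3)
  obtain ⟨s, t1, t2, t3⟩ := extend a hS (Real.exp_pos _).le
    (N := D * Real.exp ((1 - R ^ 2) / 2)) (by positivity) Φ α0 hξ0 s1 s3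
    (fun ζ hζ w => by simpa only [lρ, Function.comp] using (s4 ζ hζ).2 w)
  obtain ⟨g, g1, g2⟩ := H3 Φ ρ hS (fun α => by
    obtain ⟨K', w1, -⟩ := W α
    exact w1.1.continuousOn) hsol s _ (by positivity) t1
  have g3 : ∀ y, ‖g y - s y‖ ≤ 1 / 4 * Real.exp (Φ y / 2) := fun y => (g2 y).trans (by
    gcongr
    linarith)
  have g4 : ∀ y ∉ a.ψ α0 '' closedBall ξ0 (2 * ρ α0), ‖g y‖ ≤ 1 / 4 * Real.exp (Φ y / 2) :=
    fun y hy => by simpa only [t3 y hy, sub_zero] using g3 y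
  have hΦ' : ∀ y, k * Real.exp (3 * F y) = Φ y := fun y => by rw [hΦ]
  refine ⟨k, hk0, hk, g, g1, ?_, fun y => ?_, fun y hy => ?_⟩
  · have a1 := g3 (a.ψ α0 ξ0)
    have a2 := norm_sub_norm_le (s (a.ψ α0 ξ0)) (g (a.ψ α0 ξ0))
    rw [norm_sub_rev, t2 ξ0 hx3, s2] at a2
    rw [t2 ξ0 hx3] at a1
    simp only [Function.comp] at a2
    rw [hΦ']
    linarith
  · rw [hΦ']
    have p := Real.exp_pos (Φ y / 2)
    by_cases hy : y ∈ a.ψ α0 '' closedBall ξ0 (2 * ρ α0)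
    · obtain ⟨ζ, hζ, rfl⟩ := hy
      have a1 := g3 (a.ψ α0 ζ)
      have a2 := (s4 ζ hζ).1
      have a3 := norm_sub_norm_le (g (a.ψ α0 ζ)) (s (a.ψ α0 ζ))
      rw [t2 ζ (sub3 (closedBall_subset_ball (by linarith [ρ0 α0]) hζ))] at a1 a3
      have a4 : Real.exp (1 / 2) ≤ 2 :=
        (Real.exp_bound_div_one_sub_of_interval (by norm_num) (by norm_num)).trans (by norm_num)
      simp only [Function.comp] at a2
      nlinarith
    · linarith [g4 y hy]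
  · rw [hΦ']
    exact g4 y fun h => hy (image_mono (closedBall_subset_closedBall (by linarith [ρr α0])) h)

end A4P

open A4P in
theorem a4 (h2 : A2Stmt M) (h3 : A3Stmt M) : AMain M := by
  intro Y A _ _ a F K lam hlam hF hD hL
  refine ⟨fun y0 c hc => ?_, ?_⟩
  · obtain ⟨α0, ξ0, hξ0, rfl⟩ := a.cov y0
    have hD0 : 0 < Real.exp (3 * F (a.ψ α0 ξ0)) - Real.exp (3 * c) :=
      sub_pos.2 (Real.exp_lt_exp.2 (by linarith))
    obtain ⟨k, hk0, hk, g, g1, g2, g3, -⟩ := peak h2 h3 a hlam hF hD hL one_pos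
      (8 / (Real.exp (3 * F (a.ψ α0 ξ0)) - Real.exp (3 * c))) α0 hξ0
    rw [div_le_iff₀ hD0] at hk0
    have hE : 0 < 3 * Real.exp (k * Real.exp (3 * c) / 2) := by positivity
    have nn : ∀ y, ‖g y / (3 * Real.exp (k * Real.exp (3 * c) / 2) : ℝ)‖ =
        ‖g y‖ / (3 * Real.exp (k * Real.exp (3 * c) / 2)) := fun y => by
      rw [norm_div, Complex.norm_real, Real.norm_of_nonneg hE.le]
    refine ⟨fun y => g y / (3 * Real.exp (k * Real.exp (3 * c) / 2) : ℝ),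
      fun α => ((g1 α).mul_const _).congr fun _ _ => div_eq_mul_inv _ _, ?_, fun y hy => ?_⟩
    · rw [nn, one_lt_div hE]
      refine lt_of_lt_of_le ?_ g2
      have a1 : Real.exp (k * Real.exp (3 * c) / 2 + 4) ≤
          Real.exp (k * Real.exp (3 * F (a.ψ α0 ξ0)) / 2) := Real.exp_le_exp.2 (by linarith)
      have a2 := Real.add_one_le_exp 4
      rw [Real.exp_add] at a1
      nlinarith
    · rw [nn, div_le_one hE]
      refine (g3 y).trans ?_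
      gcongr
  · have key : ∀ y0 y1 : Y, y0 ≠ y1 → F y1 ≤ F y0 → ∃ g : Y → ℂ, a.Hol g ∧ g y0 ≠ g y1 := by
      intro y0 y1 hne hle
      obtain ⟨α0, ξ0, hξ0, rfl⟩ := a.cov y0
      obtain ⟨δ, hδ, hy⟩ : ∃ δ : ℝ, 0 < δ ∧ y1 ∉ a.ψ α0 '' closedBall ξ0 δ := by
        have hx3 : ξ0 ∈ ball (0 : M) 3 := ball_subset_ball (by norm_num) hξ0
        have ca : ContinuousAt (a.ψ α0) ξ0 := (a.cont α0).continuousAt (isOpen_ball.mem_nhds hx3)
        obtain ⟨δ, hδ, h⟩ := Metric.nhds_basis_closedBall.mem_iff.1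
          (ca.preimage_mem_nhds (isOpen_compl_singleton.mem_nhds hne))
        exact ⟨δ, hδ, fun ⟨ζ, hζ, e⟩ => h hζ e⟩
      obtain ⟨k, -, hk, g, g1, g2, -, g4⟩ := peak h2 h3 a hlam hF hD hL hδ 0 α0 hξ0
      refine ⟨g, g1, fun e => ?_⟩
      have a1 := g4 y1 hy
      have a2 : Real.exp (k * Real.exp (3 * F y1) / 2) ≤
          Real.exp (k * Real.exp (3 * F (a.ψ α0 ξ0)) / 2) := by gcongr
      have a3 := Real.exp_pos (k * Real.exp (3 * F y1) / 2)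
      rw [e] at g2
      linarith
    intro y0 y1 hne
    rcases le_total (F y1) (F y0) with h | h
    · exact key y0 y1 hne h
    · obtain ⟨g, g1, g2⟩ := key y1 y0 hne.symm h
      exact ⟨g, g1, g2.symm⟩

end Pool.Agent.MP_8ac6f3_ag
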