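import Pool.Agent.MP_8ac6f3_ag.Defs
import Mathlib.Analysis.Calculus.ContDiff.Bounds
import Mathlib.MeasureTheory.Measure.Lebesgue.Complex
import Mathlib.MeasureTheory.Integral.Bochner.Basic
import Mathlib.Analysis.SpecialFunctions.Log.Basic
import Mathlib.Topology.Homotopy.Lifting
import Mathlib.Analysis.Calculus.IteratedDeriv.Lemmas
import Mathlib.Analysis.Calculus.MeanValue
import Mathlib.Analysis.Calculus.Taylor
import Mathlib.Analysis.Calculus.TaylorIntegral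
import Mathlib.Analysis.Calculus.Deriv.ZPow
import Mathlib.Analysis.SpecialFunctions.Log.Deriv

-- ======== part 0: formerly Pool.Agent.MP_8ac6f3_ag.Base
section MrgPart0

/-! Internal definitions and the statements of the blocks of PROJECT TOR. -/

open Set Metric Complex
open scoped Manifold ContDiff ComplexConjugate Topology

noncomputable section

namespace Pool.Agent.MP_8ac6f3_ag

section Calc

variable {M : Type} [NormedAddCommGroup M] [NormedSpace ℝ M] [NormedSpace ℂ M]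

/-- Second derivative in the direction `η`. -/
def d2 (f : M → ℝ) (x η : M) : ℝ := fderiv ℝ (fderiv ℝ f) x η η

/-- The Levi form. -/
def lev (f : M → ℝ) (x η : M) : ℝ := (d2 f x η + d2 f x (I • η)) / 4

/-- The antiholomorphic part of the derivative. -/
def db (s : M → ℂ) (x v : M) : ℂ := (fderiv ℝ s x v + I * fderiv ℝ s x (I • v)) / 2

/-- Derivatives of order 1, 2, 3 are bounded by `C` on the (open) set `s`. -/
def Db (s : Set M) (C : ℝ) (f : M → ℝ) : Prop :=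
  ContDiffOn ℝ 3 f s ∧ ∀ j : ℕ, 1 ≤ j → j ≤ 3 → ∀ x ∈ s, ‖iteratedFDeriv ℝ j f x‖ ≤ C

/-- The same with a bound for the values. -/
def Cb (s : Set M) (C : ℝ) (f : M → ℝ) : Prop := Db s C f ∧ ∀ x ∈ s, |f x| ≤ C

end Calc

/-! ### Block A: holomorphic functions from a strictly plurisubharmonic function -/

/-- The one variable kernel. -/
def A0Stmt : Prop :=
  ∃ C : ℝ, 0 < C ∧ ∀ l r : ℝ, 0 < l → 0 < r → 1 ≤ l * r ^ 2 → ∃ k : ℂ → ℂ → ℂ,
    ContDiff ℝ 1 (fun p : ℂ × ℂ => k p.1 p.2) ∧ (∀ z ζ, 3 * r ≤ ‖ζ‖ → k z ζ = 0) ∧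
    (∀ ζ, DifferentiableOn ℂ (fun z => k z ζ) (ball 0 r)) ∧
    (∀ z ∈ ball (0 : ℂ) r,
      ∫ ζ, ‖k z ζ‖ * Real.exp (l * ‖ζ‖ ^ 2 / 2) ≤ C * Real.exp (l * ‖z‖ ^ 2 / 2)) ∧
    ∀ (s : ℂ → ℂ) (N : ℝ), ContDiff ℝ 1 s →
      (∀ ζ : ℂ, ‖ζ‖ ≤ 3 * r → ‖db s ζ 1‖ ≤ N * Real.exp (l * ‖ζ‖ ^ 2 / 2)) →
      ∀ z ∈ ball (0 : ℂ) r,
        ‖s z - ∫ ζ, k z ζ * s ζ‖ ≤ C * N / √l * Real.exp (l * ‖z‖ ^ 2 / 2)

/-- Holomorphic approximation on a polydisc with a Gaussian weight. -/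
def A1Stmt : Prop :=
  ∀ n : ℕ, ∃ C : ℝ, 0 < C ∧ ∀ (lam : Fin n → ℝ) (l r N : ℝ) (s : (Fin n → ℂ) → ℂ),
    0 < l → 0 < r → 0 ≤ N → (∀ i, l ≤ lam i) → 1 ≤ l * r ^ 2 →
    ContDiffOn ℝ 1 s (ball 0 (4 * r)) →
    (∀ z ∈ ball (0 : Fin n → ℂ) (4 * r), ∀ i,
      ‖db s z (Pi.single i 1)‖ ≤ N * Real.exp ((∑ i, lam i * ‖z i‖ ^ 2) / 2)) →
    ∃ h : (Fin n → ℂ) → ℂ, DifferentiableOn ℂ h (ball 0 r) ∧ ∀ z ∈ ball (0 : Fin n → ℂ) r,
      ‖s z - h z‖ ≤ C * N / √l * Real.exp ((∑ i, lam i * ‖z i‖ ^ 2) / 2)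

section BlockA

variable (M : Type) [NormedAddCommGroup M] [NormedSpace ℝ M] [NormedSpace ℂ M]

/-- Holomorphic approximation on a small ball with the weight `exp (f / 2)`. -/
def A2Stmt : Prop :=
  ∃ C : ℝ, 3 ≤ C ∧ ∀ (f : M → ℝ) (x : M) (ρ l K N : ℝ) (s : M → ℂ), 0 < ρ → 0 < l → 0 ≤ N →
    1 ≤ l * ρ ^ 2 → K * (C * ρ) ^ 3 ≤ 1 → ContDiffOn ℝ 3 f (ball x (C * ρ)) →
    (∀ y ∈ ball x (C * ρ), ‖iteratedFDeriv ℝ 3 f y‖ ≤ K) → (∀ η, l * ‖η‖ ^ 2 ≤ lev f x η) →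
    ContDiffOn ℝ 1 s (ball x (C * ρ)) →
    (∀ y ∈ ball x (C * ρ), ∀ v, ‖db s y v‖ ≤ N * Real.exp (f y / 2) * ‖v‖) →
    ∃ h : M → ℂ, DifferentiableOn ℂ h (ball x (3 * ρ)) ∧
      ∀ y ∈ ball x (3 * ρ), ‖s y - h y‖ ≤ C * N / √l * Real.exp (f y / 2)

/-- A holomorphic atlas of bounded geometry. -/
structure Atl (Y : Type) [TopologicalSpace Y] (A : Type) where
  ψ : A → M → Y
  C : ℝ
  mult : ℕ
  cont : ∀ α, ContinuousOn (ψ α) (ball 0 3)
  inj : ∀ α, InjOn (ψ α) (ball 0 3)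
  opn : ∀ α U, IsOpen U → U ⊆ ball 0 3 → IsOpen (ψ α '' U)
  cov : ∀ y, ∃ α, ∃ ξ ∈ ball (0 : M) 1, ψ α ξ = y
  tr : ∀ α β, ∀ ξ ∈ ball (0 : M) 3, ψ α ξ ∈ ψ β '' ball 0 3 →
    ContDiffAt ℂ 1 (fun ξ' => Function.invFunOn (ψ β) (ball 0 3) (ψ α ξ')) ξ ∧
    ‖fderiv ℂ (fun ξ' => Function.invFunOn (ψ β) (ball 0 3) (ψ α ξ')) ξ‖ ≤ C
  lf : ∀ y, ∃ O ∈ 𝓝 y, ∃ T : Finset A, T.card ≤ mult ∧
    ∀ α, (ψ α '' closedBall 0 2 ∩ O).Nonempty → α ∈ T

variable {M}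
variable {Y A : Type} [TopologicalSpace Y]

/-- Holomorphic in every chart. -/
def Atl.Hol (a : Atl M Y A) (g : Y → ℂ) : Prop :=
  ∀ α, DifferentiableOn ℂ (g ∘ a.ψ α) (ball 0 3)

/-- The scales are small and comparable on overlapping charts. -/
def Atl.Scale (a : Atl M Y A) (B : ℝ) (ρ : A → ℝ) : Prop :=
  (∀ α, 0 < ρ α ∧ ρ α ≤ 1 / 3) ∧
  ∀ α β, (a.ψ α '' ball 0 3 ∩ a.ψ β '' ball 0 3).Nonempty → ρ α ≤ B * ρ β

/-- `s` is of class one in the charts and its scaled dbar is bounded by `N exp (Φ / 2)`. -/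
def Atl.Dbar (a : Atl M Y A) (Φ : Y → ℝ) (ρ : A → ℝ) (s : Y → ℂ) (N : ℝ) : Prop :=
  ∀ α, ContDiffOn ℝ 1 (s ∘ a.ψ α) (ball 0 3) ∧ ∀ ξ ∈ ball (0 : M) 3, ∀ v,
    ρ α * ‖db (s ∘ a.ψ α) ξ v‖ ≤ N * Real.exp (Φ (a.ψ α ξ) / 2) * ‖v‖

/-- Local holomorphic approximation with the gain `ε`. -/
def Atl.Solver (a : Atl M Y A) (ε : ℝ) (Φ : Y → ℝ) (ρ : A → ℝ) : Prop :=
  ∀ α, ∀ c ∈ ball (0 : M) 1, ∀ (s : M → ℂ) (N : ℝ), 0 ≤ N → ContDiffOn ℝ 1 s (ball 0 3) →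
    (∀ ξ ∈ ball (0 : M) 3, ∀ v, ρ α * ‖db s ξ v‖ ≤ N * Real.exp (Φ (a.ψ α ξ) / 2) * ‖v‖) →
    ∃ h : M → ℂ, DifferentiableOn ℂ h (ball c (3 * ρ α)) ∧
      ∀ ξ ∈ ball c (3 * ρ α), ‖s ξ - h ξ‖ ≤ ε * N * Real.exp (Φ (a.ψ α ξ) / 2)

/-- A partition of unity at the scales `ρ`. -/
structure Atl.PU (a : Atl M Y A) (K : ℝ) (ρ : A → ℝ) where
  J : Type
  al : J → A
  c : J → M
  θ : J → Y → ℝ
  c_mem : ∀ i, c i ∈ ball (0 : M) 1
  nonneg : ∀ i y, 0 ≤ θ i y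
  supp : ∀ i y, θ i y ≠ 0 → y ∈ a.ψ (al i) '' closedBall (c i) (2 * ρ (al i))
  smooth : ∀ i β, ContDiffOn ℝ 1 (θ i ∘ a.ψ β) (ball 0 3)
  lf : ∀ y, ∃ O ∈ 𝓝 y, ∃ T : Finset J, (∀ i ∉ T, ∀ y' ∈ O, θ i y' = 0) ∧
    ∀ y' ∈ O, ∑ i ∈ T, θ i y' = 1
  grad : ∀ β, ∀ ξ ∈ ball (0 : M) 3, ∀ T : Finset J,
    ρ β * ∑ i ∈ T, ‖fderiv ℝ (θ i ∘ a.ψ β) ξ‖ ≤ K

variable (M)

/-- Partitions of unity exist at all scales with a uniform bound. -/
def PUStmt : Prop :=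
  ∀ (Y A : Type) [TopologicalSpace Y] [T2Space Y] (a : Atl M Y A) (B : ℝ),
    ∃ K : ℝ, 0 < K ∧ ∀ ρ : A → ℝ, a.Scale B ρ → Nonempty (a.PU K ρ)

/-- The global approximation theorem. -/
def A3Stmt : Prop :=
  ∀ (Y A : Type) [TopologicalSpace Y] [T2Space Y] (a : Atl M Y A) (B : ℝ),
    ∃ ε : ℝ, 0 < ε ∧ ∀ (Φ : Y → ℝ) (ρ : A → ℝ), a.Scale B ρ →
      (∀ α, ContinuousOn (Φ ∘ a.ψ α) (ball 0 3)) → a.Solver ε Φ ρ →
      ∀ (s : Y → ℂ) (N : ℝ), 0 ≤ N → a.Dbar Φ ρ s N →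
      ∃ g : Y → ℂ, a.Hol g ∧ ∀ y, ‖g y - s y‖ ≤ N * Real.exp (Φ y / 2)

/-- The theorem of block A. -/
def AMain : Prop :=
  ∀ (Y A : Type) [TopologicalSpace Y] [T2Space Y] (a : Atl M Y A) (F : Y → ℝ) (K lam : ℝ),
    0 < lam → (∀ y, 0 ≤ F y) → (∀ α, Db (ball 0 3) K (F ∘ a.ψ α)) →
    (∀ α, ∀ ξ ∈ ball (0 : M) 3, ∀ η,
      lam * Real.exp (-F (a.ψ α ξ)) * ‖η‖ ^ 2 ≤ lev (F ∘ a.ψ α) ξ η) →
    (∀ y0 c, c < F y0 → ∃ g : Y → ℂ, a.Hol g ∧ 1 < ‖g y0‖ ∧ ∀ y, F y ≤ c → ‖g y‖ ≤ 1) ∧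
    ∀ y0 y1 : Y, y0 ≠ y1 → ∃ g : Y → ℂ, a.Hol g ∧ g y0 ≠ g y1

end BlockA

/-! ### Block B: the function on the Siegel domain -/

section BlockB

variable {W : Type} [NormedAddCommGroup W] [InnerProductSpace ℂ W]

/-- The group of linear automorphisms. -/
abbrev GV (W : Type) [NormedAddCommGroup W] [InnerProductSpace ℂ W] := V W ≃L[ℂ] V W

/-- The standard lift of a point. -/
def lift (x : E W) : V W := (x.2, x.1, 1)

/-- The automorphy factor. -/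
def beta (g : GV W) (x : E W) : ℂ := (g (lift x)).2.2

/-- `s` fixes the null vector at infinity up to a unimodular factor. -/
def InP (s : GV W) : Prop := ∃ c : ℂ, ‖c‖ = 1 ∧ s (1, 0, 0) = (c, 0, 0)

/-- Minus twice the form of the lifts. -/
def aa (x y : E W) : ℂ := (x.2 - conj y.2) / I - 2 * inner ℂ y.1 x.1

/-- The hyperbolic cosine of the distance. -/
def cc (x y : E W) : ℝ := ‖aa x y‖ / (2 * √(height x * height y))

/-- The Kaehler potential centred at `q`. -/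
def uu (q x : E W) : ℝ := Real.log (cc x q ^ 2)

/-- Vertical translation of a point. -/
def up (t : ℂ) (x : E W) : E W := (x.1, x.2 + t)

/-- The point of height two on the vertical line through `x`. -/
def lvl (x : E W) : E W := (x.1, x.2 + (2 - height x : ℝ) * I)

/-- The base point. -/
def oo : E W := (0, I)

/-- Vertical translation as a linear automorphism. -/
def vertE (s : ℝ) : GV W :=
  ContinuousLinearEquiv.equivOfInverse
    ((ContinuousLinearMap.fst ℂ ℂ (W × ℂ) + (s : ℂ) • (ContinuousLinearMap.snd ℂ W ℂ).comp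
      (ContinuousLinearMap.snd ℂ ℂ (W × ℂ))).prod (ContinuousLinearMap.snd ℂ ℂ (W × ℂ)))
    ((ContinuousLinearMap.fst ℂ ℂ (W × ℂ) - (s : ℂ) • (ContinuousLinearMap.snd ℂ W ℂ).comp
      (ContinuousLinearMap.snd ℂ ℂ (W × ℂ))).prod (ContinuousLinearMap.snd ℂ ℂ (W × ℂ)))
    (fun Z => by simp) (fun Z => by simp)

theorem vertE_apply (s : ℝ) (Z : V W) : vertE s Z = (Z.1 + s * Z.2.2, Z.2) := by
  simp [vertE]

/-- The coordinates at a cusp of period `l`. -/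
def ex (l : ℝ) (x : E W) : E W := (x.1, Complex.exp (2 * Real.pi / l * I * x.2))

/-- The neighbourhood of the boundary divisor at height `H`. -/
def UU (l H : ℝ) : Set (E W) := {b | ‖b.2‖ < Real.exp (-(2 * Real.pi / l) * (‖b.1‖ ^ 2 + H))}

/-- The cusp function with entry point `q`. -/
def GG (l : ℝ) (q b : E W) : ℝ :=
  Real.log (‖1 - b.2 * Complex.exp (-(2 * Real.pi / l * I * conj q.2) +
      2 * (2 * Real.pi / l) * inner ℂ q.1 b.1)‖ ^ 2) +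
    2 * Real.log (1 + 2 * Real.pi / l * ‖b.1 - q.1‖ ^ 2) -
    Real.log (1 - ‖b.2‖ ^ 2 * Real.exp (2 * (2 * Real.pi / l) * ‖b.1‖ ^ 2)) -
    Real.log (2 * (2 * Real.pi / l) * height q)

/-- A group with an invariant family of disjoint horoballs. -/
structure Sys (W : Type) [NormedAddCommGroup W] [InnerProductSpace ℂ W] (L : ℝ) where
  Γ : Subgroup (GV W)
  uni : ∀ γ ∈ Γ, Unitary γ
  I : Type
  [inst : MulAction Γ I]
  fr : I → GV W
  fr_uni : ∀ v, Unitary (fr v)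
  len : I → ℝ
  deep : ∀ v, L ≤ len v
  bdd : ∃ L', ∀ v, len v ≤ L'
  fr_smul : ∀ (γ : Γ) v, InP (fr (γ • v) * γ.1 * (fr v)⁻¹)
  len_smul : ∀ (γ : Γ) v, len (γ • v) = len v
  disj : ∀ v w x, 0 < height x → 1 < height (act (fr v) x) → 1 < height (act (fr w) x) → v = w
  vert : ∀ v (s : ℝ), (fr v)⁻¹ * vertE s * fr v ∈ Γ ↔ ∃ n : ℤ, s = n * len v
  vert_fix : ∀ v (s : ℝ) (h : (fr v)⁻¹ * vertE s * fr v ∈ Γ), (⟨_, h⟩ : Γ) • v = v

attribute [instance] Sys.inst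

variable {L : ℝ}

/-- The height seen from the cusp `v`. -/
def Sys.hv (S : Sys W L) (v : S.I) (x : E W) : ℝ := height (act (S.fr v) x)

/-- The subgroup generated by the vertical translations. -/
def Sys.N (S : Sys W L) : Subgroup (GV W) :=
  Subgroup.closure {γ | γ ∈ S.Γ ∧ ∃ v s, γ = (S.fr v)⁻¹ * vertE s * S.fr v}

/-- All heights of `x` are at most `H`. -/
def Sys.Thick (S : Sys W L) (H : ℝ) (x : E W) : Prop := 0 < height x ∧ ∀ v, S.hv v x ≤ H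

/-- `k • q` is a `T`-almost closest point of the orbit `N q` to `x`. -/
def Sys.Near (S : Sys W L) (T : ℝ) (q x : E W) (k : GV W) : Prop :=
  k ∈ S.N ∧ ∀ k' ∈ S.N, cc x (act k q) ≤ T * cc x (act k' q)

variable (W)

/-- Greendlinger's lemma, and the stabilisers of the cusps in `N`. -/
def GLStmt : Prop :=
  ∃ C0 L0 : ℝ, ∀ L, L0 ≤ L → ∀ S : Sys W L,
    (∀ q, S.Thick 2 q → ∀ k ∈ S.N, k = 1 ∨ ∃ v, ∃ n : ℤ, n ≠ 0 ∧
      ‖aa (lvl (act (S.fr v) (act k q))) (up ((n * S.len v : ℝ) : ℂ) (lvl (act (S.fr v) q)))‖ ≤ C0) ∧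
    ∀ (k : S.Γ) (v : S.I), k.1 ∈ S.N → k • v = v →
      ∃ n : ℤ, k.1 = (S.fr v)⁻¹ * vertE (n * S.len v) * S.fr v

/-- Large displacement, finiteness of orbits in balls. -/
def DispStmt : Prop :=
  ∀ H R : ℝ, ∃ L1 : ℝ, ∀ L, L1 ≤ L → ∀ S : Sys W L,
    (∀ x, S.Thick H x → ∀ k ∈ S.N, k ≠ 1 → R < cc x (act k x)) ∧
    ∀ q, S.Thick 2 q → ∀ x, 0 < height x →
      (∀ T : ℝ, {k | k ∈ S.N ∧ cc x (act k q) ≤ T}.Finite) ∧ ∃ k, S.Near 1 q x k

/-- Two almost closest orbit points are seen in almost the same direction. -/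
def NMStmt : Prop :=
  ∀ H T R ε : ℝ, 0 < ε → ∃ L1 : ℝ, ∀ L, L1 ≤ L → ∀ S : Sys W L, ∀ q, S.Thick 2 q →
    ∀ x, S.Thick H x → ∀ k1 k2, S.Near T q x k1 → S.Near T q x k2 →
    ∀ x', 0 < height x' → cc x x' ≤ R →
      ‖aa x' (act k1 q) * aa x (act k2 q) / (aa x' (act k2 q) * aa x (act k1 q)) - 1‖ ≤ ε

/-- The entry point of a horoball is almost closest for the points inside. -/
def EntStmt : Prop :=
  ∃ T0 A0 : ℝ, ∀ H : ℝ, ∃ L1 : ℝ, ∀ L, L1 ≤ L → ∀ S : Sys W L, ∀ q, S.Thick 2 q →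
    ∀ v, ∀ k1 ∈ S.N, (∀ k ∈ S.N, S.hv v (act k q) ≤ 2 * S.hv v (act k1 q)) →
    ∀ x, 0 < height x → A0 ≤ S.hv v x → S.hv v x ≤ H →
    |(aa (act (S.fr v) x) (act (S.fr v) (act k1 q))).im| ≤ S.len v / 2 → S.Near T0 q x k1

/-- The patched potential on the thick part. -/
def PStmt : Prop :=
  ∀ H ε : ℝ, 0 < ε → ∃ L1 : ℝ, ∀ L, L1 ≤ L → ∀ S : Sys W L, ∀ q, S.Thick 2 q →
    ∃ P : E W → ℝ, (∀ k ∈ S.N, ∀ x, 0 < height x → P (act k x) = P x) ∧
      ∀ x, S.Thick H x → ∀ g, Unitary g → act g oo = x → ∀ k0, S.Near 1 q x k0 →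
        Cb (ball 0 (1 / 8)) ε
          (fun ξ : E W => P (act g (oo + ξ)) - uu (act k0 q) (act g (oo + ξ)))

/-- Estimates in a normal chart: the potentials, their differences, the heights. -/
def UStmt : Prop :=
  ∃ K lam : ℝ, 0 < lam ∧ ∀ g : GV W, Unitary g →
    Db (ball 0 (1 / 8)) K (fun ξ : E W => Real.log (height (act g (oo + ξ)))) ∧
    (∀ q, 0 < height q → Db (ball 0 (1 / 8)) K (fun ξ : E W => uu q (act g (oo + ξ))) ∧
      ∀ ξ ∈ ball (0 : E W) (1 / 8), ∀ η,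
        lam * ‖η‖ ^ 2 ≤ lev (fun ξ : E W => uu q (act g (oo + ξ))) ξ η) ∧
    ∀ q1 q2 (ε : ℝ), 0 < height q1 → 0 < height q2 → ε ≤ 1 / 2 →
      (∀ x', 0 < height x' → cc (act g oo) x' ≤ 3 →
        ‖aa x' q1 * aa (act g oo) q2 / (aa x' q2 * aa (act g oo) q1) - 1‖ ≤ ε) →
      Db (ball 0 (1 / 8)) (K * ε)
        (fun ξ : E W => uu q1 (act g (oo + ξ)) - uu q2 (act g (oo + ξ)))

/-- The cusp function is close to the potential of the entry point in the shell. -/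
def ShellStmt : Prop :=
  ∃ C1 : ℝ, ∀ H ε : ℝ, 0 < ε → ∃ L1 : ℝ, ∀ l, L1 ≤ l → ∀ (g : GV W) (q : E W), Unitary g →
    0 < height q → height q ≤ 2 → height (act g oo) ≤ H → |(aa (act g oo) q).im| ≤ l / 2 →
    Db (ball 0 (1 / 8)) ε
      (fun ξ : E W => GG l q (ex l (act g (oo + ξ))) - uu q (act g (oo + ξ))) ∧
    |GG l q (ex l (act g oo)) - uu q (act g oo)| ≤ C1

/-- The cusp function near the boundary divisor. -/
def DeepStmt : Prop :=
  ∀ l H : ℝ, 0 < l → 1 ≤ H →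
    (∀ (b : E W) (r : ℝ), closedBall b r ⊆ UU l H → ∃ K lam : ℝ, 0 < lam ∧
      ∀ q : E W, 0 < height q → height q ≤ 2 → Db (ball b r) K (GG l q) ∧
        ∀ b' ∈ ball b r, ∀ η, lam * Real.exp (-GG l q b') * ‖η‖ ^ 2 ≤ lev (GG l q) b' η) ∧
    ∀ L' : ℝ, ∃ C : ℝ, ∀ l', l ≤ l' → l' ≤ L' → ∀ q b : E W, 0 < height q → height q ≤ 2 →
      b ∈ UU l' H →
      2 * Real.log (1 + 2 * Real.pi / l' * ‖b.1 - q.1‖ ^ 2) - Real.log (height q) - C ≤ GG l' q b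

/-- The theorem of block B. -/
def BMain : Prop :=
  ∃ L0 H K lam : ℝ, 0 < L0 ∧ 2 ≤ H ∧ 0 < lam ∧ ∀ L, L0 ≤ L → ∀ S : Sys W L,
    ∃ (F : E W → ℝ) (C0 : ℝ),
    (∀ k ∈ S.N, ∀ x, 0 < height x → F (act k x) = F x) ∧
    (∀ x, 0 < height x → -C0 ≤ F x) ∧
    (∀ g, Unitary g → S.Thick H (act g oo) →
      Db (ball 0 (1 / 8)) K (fun ξ : E W => F (act g (oo + ξ))) ∧
      ∀ ξ ∈ ball (0 : E W) (1 / 8), ∀ η,
        lam * ‖η‖ ^ 2 ≤ lev (fun ξ : E W => F (act g (oo + ξ))) ξ η) ∧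
    (∀ v f, Unitary f → InP (f * (S.fr v)⁻¹) → ∃ q : E W, 0 < height q ∧ height q ≤ 2 ∧
      ∀ x, H < height x → F (act f⁻¹ x) = GG (S.len v) q (ex (S.len v) x)) ∧
    ∀ T : ℝ, ∃ (K0 : Set (E W)) (V0 : Set S.I) (R : ℝ), IsCompact K0 ∧
      (∀ x ∈ K0, 0 < height x) ∧ V0.Finite ∧ ∀ x, 0 < height x → F x ≤ T → ∃ k ∈ S.N,
        act k x ∈ K0 ∨ ∃ v ∈ V0, H < S.hv v (act k x) ∧ ‖(act (S.fr v) (act k x)).1‖ ≤ R

end BlockB

/-! ### Block C: the covering space -/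

section BlockC

variable {W : Type} [NormedAddCommGroup W] [InnerProductSpace ℂ W] {L : ℝ}
  {X : Type} [TopologicalSpace X] [ChartedSpace (E W) X]

/-- The horoball system is the one of the toroidal compactification. -/
structure Link (T : Toroidal W L X) (S : Sys W L) : Prop where
  grp : S.Γ = T.Γ
  of_cusp : ∀ v, ∃ γ ∈ T.Γ, ∃ i, S.fr v = T.g i * γ⁻¹ ∧ S.len v = T.l i
  to_cusp : ∀ γ ∈ T.Γ, ∀ i, ∃ v, InP (T.g i * γ⁻¹ * (S.fr v)⁻¹) ∧ S.len v = T.l i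

/-- The lifts of the uniformisation and of the cusp charts to the covering space. -/
structure Lifts (T : Toroidal W L X) (S : Sys W L) {Y : Type} [TopologicalSpace Y] (p : Y → X) where
  J : E W → Y
  Φ : GV W → Fin T.k → E W → Y
  J_cont : ContinuousOn J {x | 0 < height x}
  J_lift : ∀ x, 0 < height x → p (J x) = T.j x
  Φ_cont : ∀ γ ∈ T.Γ, ∀ i, ContinuousOn (Φ γ i) (UU (T.l i) 1)
  Φ_lift : ∀ γ ∈ T.Γ, ∀ i, ∀ b ∈ UU (T.l i) 1, p (Φ γ i b) = T.φ i b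
  Φ_eq : ∀ γ ∈ T.Γ, ∀ i x, 1 < height x → Φ γ i (ex (T.l i) x) = J (act γ (act (T.g i)⁻¹ x))
  surj : ∀ y, (∃ x, 0 < height x ∧ J x = y) ∨ ∃ γ ∈ T.Γ, ∃ i z, Φ γ i (z, 0) = y
  fib : ∀ y i, ∀ b ∈ UU (T.l i) 1, p y = T.φ i b → ∃ γ ∈ T.Γ, Φ γ i b = y
  N_le : ∀ k ∈ S.N, ∀ x, 0 < height x → J (act k x) = J x

/-- An atlas of bounded geometry made of finitely many kinds of charts. -/
structure Charts (T : Toroidal W L X) (S : Sys W L) {Y : Type} [TopologicalSpace Y]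
    [ChartedSpace (E W) Y] {p : Y → X} (Λ : Lifts T S p) (H : ℝ) where
  A : Type
  a : Atl (E W) Y A
  r0 : ℝ
  r0_pos : 0 < r0
  B : Set (Fin T.k × E W × ℝ)
  B_fin : B.Finite
  B_sub : ∀ t ∈ B, 0 < t.2.2 ∧ t.2.2 ≤ 1 ∧ closedBall t.2.1 (3 * t.2.2) ⊆ UU (T.l t.1) H
  kind : ∀ α, (∃ g r, Unitary g ∧ S.Thick H (act g oo) ∧ r0 ≤ r ∧ r ≤ 1 / 24 ∧
      ∀ ξ ∈ ball (0 : E W) 3, a.ψ α ξ = Λ.J (act g (oo + r • ξ))) ∨
    ∃ γ ∈ T.Γ, ∃ t ∈ B, ∀ ξ ∈ ball (0 : E W) 3, a.ψ α ξ = Λ.Φ γ t.1 (t.2.1 + t.2.2 • ξ)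
  hol : ∀ g : Y → ℂ, a.Hol g → MDifferentiable 𝓘(ℂ, E W) 𝓘(ℂ, ℂ) g

variable (W)

/-- The horoball system of a toroidal compactification. -/
def C0Stmt : Prop :=
  ∀ (L : ℝ) (X : Type) [TopologicalSpace X] [ChartedSpace (E W) X] (T : Toroidal W L X),
    ∃ S : Sys W L, Link T S

/-- Existence of the lifts. -/
def C1Stmt : Prop :=
  ∀ (L : ℝ) (X : Type) [TopologicalSpace X] [ChartedSpace (E W) X] (T : Toroidal W L X)
    (S : Sys W L), 0 < L → Link T S → ∀ (Y : Type) [TopologicalSpace Y] [ConnectedSpace Y]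
    (p : Y → X), IsCoveringMap p → Nonempty (Lifts T S p)

/-- On a simply connected covering space the fibres of `J` are the orbits of `N`. -/
def C2Stmt : Prop :=
  ∀ (L : ℝ) (X : Type) [TopologicalSpace X] [ChartedSpace (E W) X] (T : Toroidal W L X)
    (S : Sys W L), 0 < L → Link T S → ∀ (Y : Type) [TopologicalSpace Y] [SimplyConnectedSpace Y]
    [LocallyPathConnectedSpace Y] (p : Y → X), IsCoveringMap p → ∀ Λ : Lifts T S p,
    ∀ x y, 0 < height x → 0 < height y → Λ.J x = Λ.J y → ∃ k ∈ S.N, act k x = y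

/-- Existence of the atlas. -/
def C3Stmt : Prop :=
  ∀ (L : ℝ) (X : Type) [TopologicalSpace X] [T2Space X] [CompactSpace X] [ChartedSpace (E W) X]
    [IsManifold 𝓘(ℂ, E W) ω X] (T : Toroidal W L X) (S : Sys W L), 0 < L → Link T S →
    ∀ (Y : Type) [TopologicalSpace Y] [ChartedSpace (E W) Y] [IsManifold 𝓘(ℂ, E W) ω Y]
    (p : Y → X), IsCoveringMap p → IsLocalDiffeomorph 𝓘(ℂ, E W) 𝓘(ℂ, E W) ω p →
    ∀ (Λ : Lifts T S p) (H : ℝ), 2 ≤ H → Nonempty (Charts T S Λ H)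

/-- The theorem. -/
def Main : Prop :=
  ∃ L : ℝ, ∀ (X : Type) [TopologicalSpace X] [T2Space X] [CompactSpace X]
    [ChartedSpace (E W) X] [IsManifold 𝓘(ℂ, E W) ω X], Nonempty (Toroidal W L X) →
    ∀ (Y : Type) [TopologicalSpace Y] [SimplyConnectedSpace Y] [ChartedSpace (E W) Y]
    [IsManifold 𝓘(ℂ, E W) ω Y] (p : Y → X), IsCoveringMap p →
    IsLocalDiffeomorph 𝓘(ℂ, E W) 𝓘(ℂ, E W) ω p → IsStein (E W) Y

end BlockC

end Pool.Agent.MP_8ac6f3_ag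

end

end MrgPart0

-- ======== part 1: formerly Pool.Agent.MP_8ac6f3_ag.Calc
section MrgPart1

/-! Row CALC: calculus of the predicates `Db`, `Cb`. -/

open Set Metric Complex
open scoped ContDiff Topology

namespace Pool.Agent.MP_8ac6f3_ag

variable {M : Type} [NormedAddCommGroup M] [NormedSpace ℝ M] {s : Set M} {f g : M → ℝ} {a b A B : ℝ}

namespace CalcP

theorem le3 {j : ℕ} (h : j ≤ 3) : (j : WithTop ℕ∞) ≤ 3 := by exact_mod_cast h

theorem leib {F : Type} [NormedAddCommGroup F] [NormedSpace ℝ F] (ho : IsOpen s) {u : M → ℝ}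
    {v : M → F} {n : ℕ} (hu : ContDiffOn ℝ n u s) (hv : ContDiffOn ℝ n v s) {x : M} (hx : x ∈ s) :
    ‖iteratedFDeriv ℝ n (fun y => u y • v y) x‖ ≤ ∑ i ∈ Finset.range (n + 1),
      (n.choose i : ℝ) * ‖iteratedFDeriv ℝ i u x‖ * ‖iteratedFDeriv ℝ (n - i) v x‖ := by
  have := norm_iteratedFDerivWithin_smul_le hu hv ho.uniqueDiffOn hx (n := n) le_rfl
  simpa only [iteratedFDerivWithin_of_isOpen _ ho hx] using this

theorem step (ho : IsOpen s) {t : Set ℝ} (ht : IsOpen t) (hm : MapsTo f s t) (n : ℕ) {ψ : ℝ → ℝ}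
    (hψ : ContDiffOn ℝ (n + 1) ψ t) (hf : ContDiffOn ℝ (n + 1) f s) {x : M} (hx : x ∈ s) :
    ‖iteratedFDeriv ℝ (n + 1) (fun y => ψ (f y)) x‖ ≤ ∑ i ∈ Finset.range (n + 1),
      (n.choose i : ℝ) * ‖iteratedFDeriv ℝ i (fun y => deriv ψ (f y)) x‖ *
        ‖iteratedFDeriv ℝ (n - i + 1) f x‖ := by
  have e : fderiv ℝ (fun y => ψ (f y)) =ᶠ[𝓝 x] fun y => deriv ψ (f y) • fderiv ℝ f y := by
    filter_upwards [ho.mem_nhds hx] with y hy
    exact ((((hψ.contDiffAt (ht.mem_nhds (hm hy))).differentiableAt (by simp)).hasDerivAt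
      ).comp_hasFDerivAt y
      ((hf.contDiffAt (ho.mem_nhds hy)).differentiableAt (by simp)).hasFDerivAt).fderiv
  rw [← norm_iteratedFDeriv_fderiv, (e.iteratedFDeriv ℝ n).eq_of_nhds]
  simp only [← norm_iteratedFDeriv_fderiv]
  exact leib ho ((hψ.deriv_of_isOpen ht le_rfl).comp (hf.of_le le_self_add) hm)
    (hf.fderiv_of_isOpen ho le_rfl) hx

theorem cube (ha : 0 ≤ a) : 2 * a ^ 2 ≤ a + a ^ 3 := by nlinarith [mul_nonneg ha (sq_nonneg (a - 1))]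

end CalcP

open CalcP

theorem Db.mono (h : Db s a f) (hab : a ≤ b) : Db s b f :=
  ⟨h.1, fun j h1 h3 x hx => (h.2 j h1 h3 x hx).trans hab⟩

theorem Db.subset {s' : Set M} (h : Db s a f) (hs : s' ⊆ s) : Db s' a f :=
  ⟨h.1.mono hs, fun j h1 h3 x hx => h.2 j h1 h3 x (hs hx)⟩

theorem Db.nonneg (h : Db s a f) (hs : s.Nonempty) : 0 ≤ a :=
  (norm_nonneg _).trans (h.2 1 le_rfl (by norm_num) _ hs.some_mem)

theorem Db.congr (ho : IsOpen s) (h : Db s a f) (e : EqOn g f s) : Db s a g :=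
  ⟨h.1.congr e, fun j h1 h3 x hx => by
    rw [((e.eventuallyEq_of_mem (ho.mem_nhds hx)).iteratedFDeriv ℝ j).eq_of_nhds]
    exact h.2 j h1 h3 x hx⟩

theorem Db.const (s : Set M) (c : ℝ) : Db s 0 (fun _ : M => c) :=
  ⟨contDiffOn_const, fun j h1 _ x _ => by rw [iteratedFDeriv_const_of_ne (by omega)]; simp⟩

theorem Db.contDiffAt (ho : IsOpen s) (hf : Db s a f) {x : M} (hx : x ∈ s) :
    ContDiffAt ℝ 3 f x := hf.1.contDiffAt (ho.mem_nhds hx)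

theorem Db.add (ho : IsOpen s) (hf : Db s a f) (hg : Db s b g) :
    Db s (a + b) (fun x => f x + g x) :=
  ⟨hf.1.add hg.1, fun j h1 h3 x hx => by
    rw [fun_iteratedFDeriv_add_apply ((hf.contDiffAt ho hx).of_le (le3 h3))
      ((hg.contDiffAt ho hx).of_le (le3 h3))]
    exact (norm_add_le _ _).trans (add_le_add (hf.2 j h1 h3 x hx) (hg.2 j h1 h3 x hx))⟩

theorem Db.neg (hf : Db s a f) : Db s a (fun x => -f x) :=
  ⟨hf.1.neg, fun j h1 h3 x hx => by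
    rw [show (fun x => -f x) = -f from rfl, iteratedFDeriv_neg_apply, norm_neg]
    exact hf.2 j h1 h3 x hx⟩

theorem Db.sub (ho : IsOpen s) (hf : Db s a f) (hg : Db s b g) :
    Db s (a + b) (fun x => f x - g x) := by
  simpa only [sub_eq_add_neg] using hf.add ho hg.neg

theorem Db.add_const (hf : Db s a f) (c : ℝ) : Db s a (fun x => f x + c) :=
  ⟨hf.1.add contDiffOn_const, fun j h1 h3 x hx => by
    obtain ⟨k, rfl⟩ := Nat.exists_eq_add_of_le' h1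
    have e : fderiv ℝ (fun x => f x + c) = fderiv ℝ f := funext fun y => fderiv_add_const c
    rw [← norm_iteratedFDeriv_fderiv, e, norm_iteratedFDeriv_fderiv]
    exact hf.2 _ h1 h3 x hx⟩

theorem Db.const_mul (ho : IsOpen s) (c : ℝ) (hf : Db s a f) :
    Db s (|c| * a) (fun x => c * f x) :=
  ⟨contDiffOn_const.mul hf.1, fun j h1 h3 x hx => by
    rw [show (fun x => c * f x) = c • f from rfl,
      iteratedFDeriv_const_smul_apply ((hf.contDiffAt ho hx).of_le (le3 h3)), norm_smul]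
    exact mul_le_mul_of_nonneg_left (hf.2 j h1 h3 x hx) (abs_nonneg c)⟩

theorem Db.sum {ι : Type*} (ho : IsOpen s) (T : Finset ι) {F : ι → M → ℝ}
    (h : ∀ i ∈ T, Db s a (F i)) : Db s (T.card * a) (fun x => ∑ i ∈ T, F i x) := by
  classical
  induction T using Finset.induction_on with
  | empty => simpa using Db.const s 0
  | insert i T hi ih =>
    simp only [Finset.sum_insert hi, Finset.card_insert_of_notMem hi]
    exact ((h i (by simp)).add ho (ih fun k hk => h k (by simp [hk]))).mono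
      (le_of_eq (by push_cast; ring))

theorem Db.mul (ho : IsOpen s) (hf : Db s a f) (hA : ∀ x ∈ s, |f x| ≤ A) (hg : Db s b g)
    (hB : ∀ x ∈ s, |g x| ≤ B) : Db s (a * B + A * b + 6 * a * b) (fun x => f x * g x) := by
  refine ⟨hf.1.mul hg.1, fun j h1 h3 x hx => ?_⟩
  refine (leib ho (hf.1.of_le (le3 h3)) (hg.1.of_le (le3 h3)) hx).trans ?_
  have ha := hf.nonneg ⟨x, hx⟩
  have hb := hg.nonneg ⟨x, hx⟩
  have f0 : ‖iteratedFDeriv ℝ 0 f x‖ ≤ A := by simpa using hA x hx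
  have g0 : ‖iteratedFDeriv ℝ 0 g x‖ ≤ B := by simpa using hB x hx
  have hA0 := (norm_nonneg _).trans f0
  have p : ∀ i k, 1 ≤ i → i ≤ 3 → 1 ≤ k → k ≤ 3 →
      ‖iteratedFDeriv ℝ i f x‖ * ‖iteratedFDeriv ℝ k g x‖ ≤ a * b := fun i k i1 i3 k1 k3 =>
    mul_le_mul (hf.2 i i1 i3 x hx) (hg.2 k k1 k3 x hx) (norm_nonneg _) ha
  have p0 := mul_le_mul f0 (hg.2 j h1 h3 x hx) (norm_nonneg _) hA0
  have p1 := mul_le_mul (hf.2 j h1 h3 x hx) g0 (norm_nonneg _) ha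
  have p11 := p 1 1 (by omega) (by omega) (by omega) (by omega)
  have p12 := p 1 2 (by omega) (by omega) (by omega) (by omega)
  have p21 := p 2 1 (by omega) (by omega) (by omega) (by omega)
  have hab := mul_nonneg ha hb
  interval_cases j <;>
    simp only [Finset.sum_range_succ, Finset.sum_range_zero, Nat.choose, Nat.reduceSub] <;>
    norm_num at p0 p1 p11 p12 p21 ⊢ <;> linarith

theorem Db.comp (ho : IsOpen s) (hf : Db s a f) {φ : ℝ → ℝ} {t : Set ℝ} (ht : IsOpen t)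
    (hφ : ContDiffOn ℝ 3 φ t) (hm : MapsTo f s t) {K : ℝ}
    (hK : ∀ j : ℕ, 1 ≤ j → j ≤ 3 → ∀ x ∈ s, |iteratedDeriv j φ (f x)| ≤ K) :
    Db s (5 * K * (a + a ^ 3)) (fun x => φ (f x)) := by
  refine ⟨hφ.comp hf.1 hm, fun j h1 h3 x hx => ?_⟩
  have ha := hf.nonneg ⟨x, hx⟩
  have k1 : |deriv φ (f x)| ≤ K := by simpa using hK 1 (by omega) (by omega) x hx
  have k2 : |deriv (deriv φ) (f x)| ≤ K := by
    simpa [iteratedDeriv_eq_iterate] using hK 2 (by omega) (by omega) x hx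
  have k3 : |deriv (deriv (deriv φ)) (f x)| ≤ K := by
    simpa [iteratedDeriv_eq_iterate] using hK 3 (by omega) (by omega) x hx
  have hK0 := (abs_nonneg _).trans k1
  have d1 : ContDiffOn ℝ 2 (deriv φ) t := hφ.deriv_of_isOpen ht (by norm_num)
  have d2 : ContDiffOn ℝ 1 (deriv (deriv φ)) t := d1.deriv_of_isOpen ht (by norm_num)
  have f1 := hf.2 1 (by omega) (by omega) x hx
  have f2 := hf.2 2 (by omega) (by omega) x hx
  have f3 := hf.2 3 (by omega) (by omega) x hx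
  have one : ∀ ψ : ℝ → ℝ, ContDiffOn ℝ 1 ψ t → |deriv ψ (f x)| ≤ K →
      ‖iteratedFDeriv ℝ 1 (fun y => ψ (f y)) x‖ ≤ K * a := fun ψ h k => by
    refine (step ho ht hm 0 (by simpa using h) (hf.1.of_le (by norm_num)) hx).trans ?_
    simpa using mul_le_mul k f1 (norm_nonneg _) hK0
  have two : ∀ ψ : ℝ → ℝ, ContDiffOn ℝ 2 ψ t → |deriv ψ (f x)| ≤ K →
      |deriv (deriv ψ) (f x)| ≤ K →
      ‖iteratedFDeriv ℝ 2 (fun y => ψ (f y)) x‖ ≤ K * a + K * a * a := fun ψ h k k' => by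
    refine (step ho ht hm 1 h (hf.1.of_le (by norm_num)) hx).trans ?_
    simpa [Finset.sum_range_succ] using add_le_add (mul_le_mul k f2 (norm_nonneg _) hK0)
      (mul_le_mul (one _ (h.deriv_of_isOpen ht (by norm_num)) k') f1 (norm_nonneg _)
        (mul_nonneg hK0 ha))
  have q := mul_le_mul_of_nonneg_left (cube ha) hK0
  have q1 := mul_nonneg hK0 ha
  have q3 := mul_nonneg hK0 (pow_nonneg ha 3)
  interval_cases j
  · exact (one φ (hφ.of_le (by norm_num)) k1).trans (by linarith)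
  · exact (two φ (hφ.of_le (by norm_num)) k1 k2).trans (by linarith)
  · refine (step ho ht hm 2 hφ hf.1 hx).trans ?_
    have r0 := mul_le_mul k1 f3 (norm_nonneg _) hK0
    have r1 := mul_le_mul (one _ (d1.of_le (by norm_num)) k2) f2 (norm_nonneg _) q1
    have r2 := mul_le_mul (two _ d1 k2 k3) f1 (norm_nonneg _) (by positivity)
    simp only [Finset.sum_range_succ, Finset.sum_range_zero, Nat.choose, Nat.reduceSub,
      Nat.reduceAdd]
    norm_num at r0 r1 r2 ⊢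
    linarith

/-- `exp`, `log` and the inverse, as special cases of `Db.comp`. -/
theorem Db.exp (ho : IsOpen s) (hf : Db s a f) (hA : ∀ x ∈ s, f x ≤ A) :
    Db s (5 * Real.exp A * (a + a ^ 3)) (fun x => Real.exp (f x)) :=
  hf.comp ho isOpen_univ Real.contDiff_exp.contDiffOn (mapsTo_univ _ _) fun j _ _ x hx => by
    rw [iteratedDeriv_eq_iterate, Real.iter_deriv_exp, abs_of_pos (Real.exp_pos _)]
    exact Real.exp_le_exp.2 (hA x hx)

theorem CalcP.abs_inv (k : ℕ) {y : ℝ} (hy : 0 < y) :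
    |deriv^[k] Inv.inv y| = k.factorial / y ^ (k + 1) := by
  rw [iter_deriv_inv, show (-1 - k : ℤ) = -((k + 1 : ℕ) : ℤ) by push_cast; ring, zpow_neg,
    zpow_natCast, abs_mul, abs_mul, abs_pow, abs_neg, abs_one, one_pow, one_mul, Nat.abs_cast,
    abs_of_pos (by positivity), div_eq_mul_inv]

theorem Db.log (ho : IsOpen s) (hf : Db s a f) {m : ℝ} (hm : 0 < m) (hm1 : m ≤ 1)
    (h : ∀ x ∈ s, m ≤ f x) : Db s (10 / m ^ 3 * (a + a ^ 3)) (fun x => Real.log (f x)) := by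
  refine (hf.comp ho isOpen_Ioi (K := 2 / m ^ 3)
    (Real.contDiffOn_log.mono fun y (hy : 0 < y) => hy.ne') (fun x hx => hm.trans_le (h x hx))
    fun j h1 h3 x hx => ?_).mono (le_of_eq (by ring))
  obtain ⟨k, rfl⟩ := Nat.exists_eq_add_of_le' h1
  rw [iteratedDeriv_eq_iterate, Function.iterate_succ_apply, Real.deriv_log',
    CalcP.abs_inv k (hm.trans_le (h x hx))]
  refine div_le_div₀ (by norm_num) ?_ (by positivity)
    ((pow_le_pow_of_le_one hm.le hm1 h3).trans (pow_le_pow_left₀ hm.le (h x hx) _))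
  exact_mod_cast Nat.factorial_le (n := 2) (by omega)

theorem Db.inv (ho : IsOpen s) (hf : Db s a f) (h : ∀ x ∈ s, 1 ≤ f x) :
    Db s (30 * (a + a ^ 3)) (fun x => (f x)⁻¹) := by
  refine (hf.comp ho isOpen_Ioi (K := 6) (φ := Inv.inv)
    ((contDiffOn_inv ℝ).mono fun y (hy : 0 < y) => hy.ne') (fun x hx => one_pos.trans_le (h x hx))
    fun j _ h3 x hx => ?_).mono (le_of_eq (by ring))
  rw [iteratedDeriv_eq_iterate, CalcP.abs_inv j (one_pos.trans_le (h x hx))]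
  refine (div_le_self (by positivity) (one_le_pow₀ (h x hx))).trans ?_
  exact_mod_cast Nat.factorial_le (n := 3) h3

/-- A function of class three with derivative vanishing outside a bounded interval. -/
theorem exists_iteratedDeriv_bound {φ : ℝ → ℝ} (hφ : ContDiff ℝ 3 φ) {u v : ℝ}
    (h1 : ∀ t ≤ u, φ t = φ u) (h2 : ∀ t, v ≤ t → φ t = φ v) :
    ∃ K : ℝ, 0 ≤ K ∧ ∀ j : ℕ, 1 ≤ j → j ≤ 3 → ∀ t, |iteratedDeriv j φ t| ≤ K := by
  have hb : ∀ j : Fin 4, ∃ C, ∀ t ∈ Icc u v, ‖iteratedDeriv j φ t‖ ≤ C := fun j =>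
    isCompact_Icc.exists_bound_of_continuousOn
      (hφ.continuous_iteratedDeriv j (le3 (by omega))).continuousOn
  choose C hC using hb
  have h0 : 0 ≤ ∑ j, |C j| := Finset.sum_nonneg fun _ _ => abs_nonneg _
  refine ⟨∑ j, |C j|, h0, fun j j1 j3 t => ?_⟩
  have z : ∀ c, φ =ᶠ[𝓝 t] (fun _ => c) → |iteratedDeriv j φ t| ≤ ∑ j, |C j| := fun c e => by
    rw [e.iteratedDeriv_eq j, iteratedDeriv_const, if_neg (by omega), abs_zero]
    exact h0
  rcases lt_or_ge t u with h | h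
  · exact z _ (by filter_upwards [Iio_mem_nhds h] with y hy using h1 y (le_of_lt hy))
  rcases lt_or_ge v t with h' | h'
  · exact z _ (by filter_upwards [Ioi_mem_nhds h'] with y hy using h2 y (le_of_lt hy))
  exact ((hC ⟨j, by omega⟩ t ⟨h, h'⟩).trans (le_abs_self _)).trans
    (Finset.single_le_sum (f := fun j => |C j|) (fun _ _ => abs_nonneg _) (Finset.mem_univ _))

/-- Composition with a contracting affine map. -/
theorem Db.comp_affine {M' : Type} [NormedAddCommGroup M'] [NormedSpace ℝ M'] (ho : IsOpen s)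
    (hf : Db s a f) (x0 : M) (T : M' →L[ℝ] M) (hT : ‖T‖ ≤ 1) {s' : Set M'}
    (hs : ∀ ξ ∈ s', x0 + T ξ ∈ s) : Db s' a (fun ξ => f (x0 + T ξ)) := by
  refine ⟨hf.1.comp (by fun_prop) hs, fun j h1 h3 x hx => ?_⟩
  have o1 : IsOpen ((fun y => x0 + y) ⁻¹' s) := ho.preimage (by fun_prop)
  have o2 := o1.preimage T.continuous
  have c1 : ContDiffOn ℝ 3 (fun y => f (x0 + y)) ((fun y => x0 + y) ⁻¹' s) :=
    hf.1.comp (by fun_prop) fun _ h => h
  have e := T.iteratedFDerivWithin_comp_right c1 o1.uniqueDiffOn o2.uniqueDiffOn (hs x hx) (le3 h3)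
  rw [iteratedFDerivWithin_of_isOpen _ o1 (hs x hx), iteratedFDerivWithin_of_isOpen _ o2 (hs x hx),
    iteratedFDeriv_comp_add_left] at e
  refine (le_of_eq (congrArg norm e)).trans
    ((ContinuousMultilinearMap.norm_compContinuousLinearMap_le _ _).trans ?_)
  refine (mul_le_of_le_one_right (norm_nonneg _) ?_).trans (hf.2 j h1 h3 _ (hs x hx))
  exact Finset.prod_le_one (fun _ _ => norm_nonneg _) fun _ _ => hT

theorem Db.comp_scale (ho : IsOpen s) (hf : Db s a f) (x0 : M) {r : ℝ} (hr : |r| ≤ 1) {s' : Set M}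
    (hs : ∀ ξ ∈ s', x0 + r • ξ ∈ s) : Db s' a (fun ξ => f (x0 + r • ξ)) :=
  hf.comp_affine ho x0 (r • ContinuousLinearMap.id ℝ M)
    ((ContinuousLinearMap.opNorm_smul_le _ _).trans
      (mul_le_one₀ hr (norm_nonneg _) ContinuousLinearMap.norm_id_le)) hs

/-- A bound that holds near every point, up to additive constants. -/
theorem Db.of_local (ho : IsOpen s)
    (h : ∀ x ∈ s, ∃ r > 0, ∃ c : ℝ, Db (ball x r) a (fun y => f y + c)) : Db s a f := by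
  have _ := ho
  have h' : ∀ x ∈ s, ∃ r > 0, Db (ball x r) a f := fun x hx => by
    obtain ⟨r, hr, c, hc⟩ := h x hx
    exact ⟨r, hr, by simpa using hc.add_const (-c)⟩
  refine ⟨fun x hx => ?_, fun j h1 h3 x hx => ?_⟩ <;> obtain ⟨r, hr, hc⟩ := h' x hx
  · exact (hc.contDiffAt isOpen_ball (mem_ball_self hr)).contDiffWithinAt
  · exact hc.2 j h1 h3 x (mem_ball_self hr)

theorem exists_Db_of_compact {t K : Set M} (ht : IsOpen t) (hf : ContDiffOn ℝ 3 f t)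
    (hK : IsCompact K) (hKt : K ⊆ t) (hs : s ⊆ K) : ∃ C : ℝ, 0 ≤ C ∧ Cb s C f := by
  have hb : ∀ j : Fin 4, ∃ C, ∀ x ∈ K, ‖iteratedFDeriv ℝ j f x‖ ≤ C := fun j =>
    hK.exists_bound_of_continuousOn fun x hx =>
      ((hf.contDiffAt (ht.mem_nhds (hKt hx))).continuousAt_iteratedFDeriv
        (le3 (by omega))).continuousWithinAt
  choose C hC using hb
  have key : ∀ j ≤ 3, ∀ x ∈ s, ‖iteratedFDeriv ℝ j f x‖ ≤ ∑ j, |C j| := fun j j3 x hx =>
    ((hC ⟨j, by omega⟩ x (hs hx)).trans (le_abs_self _)).trans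
      (Finset.single_le_sum (f := fun j => |C j|) (fun _ _ => abs_nonneg _) (Finset.mem_univ _))
  exact ⟨∑ j, |C j|, Finset.sum_nonneg fun _ _ => abs_nonneg _,
    ⟨hf.mono (hs.trans hKt), fun j _ => key j⟩, fun x hx => by simpa using key 0 (by omega) x hx⟩

theorem Db.norm_fderiv_le (hf : Db s a f) {x : M} (hx : x ∈ s) : ‖fderiv ℝ f x‖ ≤ a := by
  rw [← norm_iteratedFDeriv_one]
  exact hf.2 1 le_rfl (by norm_num) x hx

theorem CalcP.d2_eq (f : M → ℝ) (x η : M) : d2 f x η = iteratedFDeriv ℝ 2 f x fun _ => η := by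
  rw [iteratedFDeriv_two_apply, d2]

theorem CalcP.diag (j : ℕ) (x η : M) {K : ℝ} (h : ‖iteratedFDeriv ℝ j f x‖ ≤ K) :
    |iteratedFDeriv ℝ j f x fun _ => η| ≤ K * ‖η‖ ^ j := by
  simpa using (iteratedFDeriv ℝ j f x).le_of_opNorm_le h fun _ => η

theorem Db.abs_d2_le (hf : Db s a f) {x : M} (hx : x ∈ s) (η : M) :
    |d2 f x η| ≤ a * ‖η‖ ^ 2 := by
  rw [CalcP.d2_eq]
  exact CalcP.diag 2 x η (hf.2 2 (by norm_num) (by norm_num) x hx)

theorem Db.osc (ho : IsOpen s) (hc : Convex ℝ s) (hf : Db s a f) {x y : M} (hx : x ∈ s)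
    (hy : y ∈ s) : |f x - f y| ≤ a * ‖x - y‖ :=
  hc.norm_image_sub_le_of_norm_fderiv_le
    (fun _ hz => (hf.contDiffAt ho hz).differentiableAt (by norm_num))
    (fun _ hz => hf.norm_fderiv_le hz) hy hx

theorem taylor3 {x η : M} {r K : ℝ} (hf : ContDiffOn ℝ 3 f (ball x r))
    (hK : ∀ y ∈ ball x r, ‖iteratedFDeriv ℝ 3 f y‖ ≤ K) (hη : ‖η‖ < r) :
    |f (x + η) - f x - fderiv ℝ f x η - d2 f x η / 2| ≤ K * ‖η‖ ^ 3 := by
  have hm : ∀ t ∈ Icc (0 : ℝ) 1, x + t • η ∈ ball x r := fun t ht => by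
    rw [add_mem_ball_iff_norm, norm_smul, Real.norm_of_nonneg ht.1]
    exact (mul_le_of_le_one_left (norm_nonneg _) ht.2).trans_lt hη
  have e := map_add_eq_sum_add_integral_iteratedFDeriv (n := 2) (f := f) (x := x) (y := η)
    fun t ht => hf.contDiffAt (isOpen_ball.mem_nhds (hm t ht))
  have hb := intervalIntegral.norm_integral_le_of_norm_le_const (a := 0) (b := 1)
    (C := K * ‖η‖ ^ 3)
    (f := fun t : ℝ => (1 - t) ^ 2 • iteratedFDeriv ℝ (2 + 1) f (x + t • η) fun _ => η)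
    fun t ht => by
      rw [uIoc_of_le zero_le_one] at ht
      rw [norm_smul]
      refine (mul_le_of_le_one_left (norm_nonneg _) ?_).trans
        (CalcP.diag 3 _ η (hK _ (hm t ⟨ht.1.le, ht.2⟩)))
      rw [Real.norm_of_nonneg (sq_nonneg _)]
      nlinarith [ht.1, ht.2]
  rw [CalcP.d2_eq, e]
  simp only [Finset.sum_range_succ, Finset.sum_range_zero, smul_eq_mul, Real.norm_eq_abs,
    iteratedFDeriv_zero_apply, iteratedFDeriv_one_apply] at hb ⊢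
  norm_num at hb ⊢
  have := abs_le.1 hb
  exact abs_le.2 ⟨by linarith [this.1, this.2], by linarith [this.1, this.2]⟩

end Pool.Agent.MP_8ac6f3_ag

end MrgPart1

-- marker of a merged file
example : 731051 + 245501 = 731051 + 245501 := rfl
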