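import Pool.Agent.MP_8ac6f3_ag.Calc
import Mathlib.Analysis.Calculus.FDeriv.Symmetric
import Mathlib.Analysis.InnerProductSpace.Calculus
import Mathlib.Analysis.SpecialFunctions.Log.Deriv
import Mathlib.Analysis.Complex.Schwarz
import Mathlib.Analysis.Complex.OperatorNorm
import Mathlib.Analysis.Calculus.ContDiff.RestrictScalars
import Mathlib.Analysis.Calculus.UniformLimitsDeriv
import Mathlib.Analysis.SpecialFunctions.Complex.LogBounds
import Pool.Agent.MP_8ac6f3_ag.C2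
import Mathlib.Analysis.SpecialFunctions.ExpDeriv
import Mathlib.Topology.MetricSpace.Thickening
import Mathlib.Analysis.Convex.Contractible
import Mathlib.Analysis.Normed.Module.Connected

-- ======== part 0: formerly Pool.Agent.MP_8ac6f3_ag.Lev1
section MrgPart0

/-! Row LEV1: Levi form, dbar, holomorphic functions. -/

open Set Metric Complex Filter
open scoped ContDiff Topology

namespace Pool.Agent.MP_8ac6f3_ag

variable {M : Type} [NormedAddCommGroup M] [NormedSpace ℝ M] [NormedSpace ℂ M]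
  [IsScalarTower ℝ ℂ M] {s : Set M} {f g : M → ℝ} {a : ℝ} {x : M}

namespace L1

section
variable {𝕜 : Type} [RCLike 𝕜] {N F : Type} [NormedAddCommGroup N] [NormedSpace 𝕜 N]
  [NormedAddCommGroup F] [NormedSpace 𝕜 F] {u : N → F} {y : N}

theorem ev (hu : ContDiffAt 𝕜 2 u y) : ∀ᶠ z in 𝓝 y, DifferentiableAt 𝕜 u z :=
  (hu.eventually (by simp)).mono fun _ hz => hz.differentiableAt two_ne_zero

theorem dd (hu : ContDiffAt 𝕜 2 u y) : DifferentiableAt 𝕜 (fderiv 𝕜 u) y :=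
  (hu.fderiv_right (m := 1) (by norm_num)).differentiableAt one_ne_zero

theorem has (hu : ContDiffAt 𝕜 2 u y) (η : N) :
    HasFDerivAt (fun z => fderiv 𝕜 u z η) ((fderiv 𝕜 (fderiv 𝕜 u) y).flip η) y := by
  simpa using (dd hu).hasFDerivAt.clm_apply (hasFDerivAt_const η y)

end

omit [NormedSpace ℂ M] [IsScalarTower ℝ ℂ M] in
theorem d2_of (hf : ContDiffAt ℝ 2 f x) {η : M} {k : M → ℝ} {k' : M →L[ℝ] ℝ}
    (e : ∀ᶠ y in 𝓝 x, fderiv ℝ f y η = k y) (hk : HasFDerivAt k k' x) : d2 f x η = k' η := by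
  have h := (has hf η).unique (hk.congr_of_eventuallyEq e)
  rw [← h]; rfl

omit [NormedSpace ℂ M] [IsScalarTower ℝ ℂ M] in
theorem d2_mul (hf : ContDiffAt ℝ 2 f x) (hg : ContDiffAt ℝ 2 g x) (η : M) :
    d2 (fun y => f y * g y) x η =
      f x * d2 g x η + g x * d2 f x η + 2 * (fderiv ℝ f x η * fderiv ℝ g x η) := by
  have h1 := (hf.differentiableAt two_ne_zero).hasFDerivAt
  have h2 := (hg.differentiableAt two_ne_zero).hasFDerivAt
  rw [d2_of (hf.mul hg) (k := fun y => f y * fderiv ℝ g y η + g y * fderiv ℝ f y η) _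
    ((h1.mul (has hg η)).add (h2.mul (has hf η)))]
  · simp [d2]; ring
  · filter_upwards [ev hf, ev hg] with y a b
    rw [(a.hasFDerivAt.fun_mul b.hasFDerivAt).fderiv]; simp

omit [NormedSpace ℂ M] [IsScalarTower ℝ ℂ M] in
theorem d2_add (hf : ContDiffAt ℝ 2 f x) (hg : ContDiffAt ℝ 2 g x) (η : M) :
    d2 (fun y => f y + g y) x η = d2 f x η + d2 g x η := by
  rw [d2_of (hf.add hg) (k := fun y => fderiv ℝ f y η + fderiv ℝ g y η) _
    ((has hf η).add (has hg η))]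
  · simp [d2]
  · filter_upwards [ev hf, ev hg] with y a b
    rw [(a.hasFDerivAt.fun_add b.hasFDerivAt).fderiv]; simp

omit [NormedSpace ℂ M] [IsScalarTower ℝ ℂ M] in
theorem d2_comp {φ : ℝ → ℝ} (hφ : ContDiffAt ℝ 2 φ (f x)) (hf : ContDiffAt ℝ 2 f x) (η : M) :
    d2 (fun y => φ (f y)) x η =
      deriv φ (f x) * d2 f x η + deriv (deriv φ) (f x) * fderiv ℝ f x η ^ 2 := by
  have h1 := (hf.differentiableAt two_ne_zero).hasFDerivAt
  have h2 : DifferentiableAt ℝ (deriv φ) (f x) := (has hφ 1).differentiableAt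
  rw [d2_of (f := fun y => φ (f y)) (hφ.comp x hf) (k := fun y => deriv φ (f y) * fderiv ℝ f y η) _
    ((h2.hasDerivAt.comp_hasFDerivAt x h1).mul (has hf η))]
  · simp [d2]; ring
  · filter_upwards [ev hf, hf.continuousAt.eventually (ev hφ)] with y a b
    have : HasFDerivAt (fun y => φ (f y)) _ y := b.hasDerivAt.comp_hasFDerivAt y a.hasFDerivAt
    rw [this.fderiv]; simp

omit [NormedSpace ℂ M] [IsScalarTower ℝ ℂ M] in
theorem d2_scale (x0 ξ η : M) (r : ℝ) (hf : ContDiffAt ℝ 2 f (x0 + r • ξ)) :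
    d2 (fun y => f (x0 + r • y)) ξ η = r ^ 2 * d2 f (x0 + r • ξ) η := by
  have hA : ∀ y : M, HasFDerivAt (fun y : M => x0 + r • y) (r • ContinuousLinearMap.id ℝ M) y :=
    fun y => ((hasFDerivAt_id y).const_smul r).const_add x0
  have hC : ContDiffAt ℝ 2 (fun y : M => x0 + r • y) ξ := by fun_prop
  rw [d2_of (f := fun y => f (x0 + r • y)) (ContDiffAt.comp ξ (g := f) hf hC)
    (k := fun y => r * fderiv ℝ f (x0 + r • y) η) _
    ((HasFDerivAt.comp ξ (g := fun z => fderiv ℝ f z η) (has hf η) (hA ξ)).const_mul r)]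
  · simp [d2]; ring
  · filter_upwards [hC.continuousAt.eventually (ev hf)] with y a
    have : HasFDerivAt (fun y => f (x0 + r • y)) _ y :=
      HasFDerivAt.comp y (g := f) a.hasFDerivAt (hA y)
    rw [this.fderiv]; simp

theorem d2_re {h : M → ℂ} (hh : ContDiffAt ℂ 2 h x) (η : M) :
    d2 (fun y => (h y).re) x η = (fderiv ℂ (fderiv ℂ h) x η η).re := by
  rw [d2_of (f := fun y => (h y).re) (reCLM.contDiff.contDiffAt.comp x (hh.restrict_scalars ℝ))
    (k := fun y => (fderiv ℂ h y η).re) _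
    (reCLM.hasFDerivAt.comp x ((has hh η).restrictScalars ℝ))]
  · simp
  · filter_upwards [ev hh] with y a
    have : HasFDerivAt (fun y => (h y).re) _ y :=
      reCLM.hasFDerivAt.comp y (a.hasFDerivAt.restrictScalars ℝ)
    rw [this.fderiv]; simp

theorem has_normSq {H : Type} [NormedAddCommGroup H] [InnerProductSpace ℂ H] {h : M → H}
    (hh : DifferentiableAt ℂ h x) (η : M) :
    fderiv ℝ (fun y => ‖h y‖ ^ 2) x η = 2 * (inner ℂ (h x) (fderiv ℂ h x η)).re := by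
  have h1 := hh.hasFDerivAt.restrictScalars ℝ
  have h2 := reCLM.hasFDerivAt.comp x (h1.inner ℂ h1)
  have e : (fun y => ‖h y‖ ^ 2) = reCLM ∘ fun y => inner ℂ (h y) (h y) := by
    funext y
    simp only [Function.comp, reCLM_apply]
    exact (inner_self_eq_norm_sq (𝕜 := ℂ) (h y)).symm
  rw [e, h2.fderiv]
  have := inner_re_symm (𝕜 := ℂ) (fderiv ℂ h x η) (h x)
  simp only [RCLike.re_to_complex] at this
  simp [this]; ring

theorem d2_normSq {H : Type} [NormedAddCommGroup H] [InnerProductSpace ℂ H] {h : M → H}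
    (hh : ContDiffAt ℂ 2 h x) (η : M) :
    d2 (fun y => ‖h y‖ ^ 2) x η =
      2 * (inner ℂ (h x) (fderiv ℂ (fderiv ℂ h) x η η)).re + 2 * ‖fderiv ℂ h x η‖ ^ 2 := by
  have h1 := (hh.differentiableAt two_ne_zero).hasFDerivAt.restrictScalars ℝ
  have h2 := (reCLM.hasFDerivAt.comp x (h1.inner ℂ ((has hh η).restrictScalars ℝ))).const_mul 2
  rw [d2_of ((hh.restrict_scalars ℝ).norm_sq ℂ)
    (k := fun y => 2 * (inner ℂ (h y) (fderiv ℂ h y η)).re) _ h2]
  · have := inner_self_eq_norm_sq (𝕜 := ℂ) (fderiv ℂ h x η)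
    simp only [RCLike.re_to_complex] at this
    simp [← this]; ring
  · filter_upwards [ev hh] with y a using has_normSq a η

theorem smul_eq (c : ℂ) (u : M) : c • u = c.re • u + c.im • I • u := by
  conv_lhs => rw [← re_add_im c]
  rw [add_smul, mul_smul, ← Complex.coe_algebraMap, algebraMap_smul, algebraMap_smul]

omit [NormedSpace ℝ M] [IsScalarTower ℝ ℂ M] in
theorem II (u : M) : I • I • u = -u := by rw [smul_smul, I_mul_I, neg_one_smul]

theorem I_smul (c : ℂ) (u : M) : I • c • u = c.re • I • u - c.im • u := by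
  rw [smul_comm, smul_eq, II]; simp [sub_eq_add_neg]

end L1

omit [IsScalarTower ℝ ℂ M] in
theorem lev_congr (h : f =ᶠ[𝓝 x] g) (η : M) : lev f x η = lev g x η := by
  simp only [lev, d2, h.fderiv.fderiv_eq]
omit [IsScalarTower ℝ ℂ M] in
theorem lev_const (c : ℝ) (x η : M) : lev (fun _ : M => c) x η = 0 := by
  simp [lev, d2]
omit [IsScalarTower ℝ ℂ M] in
theorem lev_add (hf : ContDiffAt ℝ 2 f x) (hg : ContDiffAt ℝ 2 g x) (η : M) :
    lev (fun y => f y + g y) x η = lev f x η + lev g x η := by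
  simp only [lev, L1.d2_add hf hg]; ring
omit [IsScalarTower ℝ ℂ M] in
theorem lev_mul (hf : ContDiffAt ℝ 2 f x) (hg : ContDiffAt ℝ 2 g x) (η : M) :
    lev (fun y => f y * g y) x η = f x * lev g x η + g x * lev f x η +
      (fderiv ℝ f x η * fderiv ℝ g x η + fderiv ℝ f x (I • η) * fderiv ℝ g x (I • η)) / 2 := by
  simp only [lev, L1.d2_mul hf hg]; ring
omit [IsScalarTower ℝ ℂ M] in
theorem lev_const_mul (c : ℝ) (hf : ContDiffAt ℝ 2 f x) (η : M) :
    lev (fun y => c * f y) x η = c * lev f x η := by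
  rw [lev_mul contDiffAt_const hf, lev_const]; simp
omit [IsScalarTower ℝ ℂ M] in
theorem lev_sub (hf : ContDiffAt ℝ 2 f x) (hg : ContDiffAt ℝ 2 g x) (η : M) :
    lev (fun y => f y - g y) x η = lev f x η - lev g x η := by
  have := lev_add hf (contDiffAt_const (c := (-1 : ℝ)).mul hg) η
  rw [lev_const_mul _ hg] at this
  simpa [sub_eq_add_neg] using this
omit [IsScalarTower ℝ ℂ M] in
theorem lev_add_const (c : ℝ) (η : M) : lev (fun y => f y + c) x η = lev f x η := by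
  have : fderiv ℝ (fun y => f y + c) = fderiv ℝ f := funext fun y => fderiv_add_const c
  simp only [lev, d2, this]
omit [IsScalarTower ℝ ℂ M] in
theorem Db.abs_lev_le (hf : Db s a f) (hx : x ∈ s) (η : M) : |lev f x η| ≤ a * ‖η‖ ^ 2 := by
  have h1 := abs_le.1 (hf.abs_d2_le hx η)
  have h2 := abs_le.1 (hf.abs_d2_le hx (I • η))
  have h3 : 0 ≤ a * ‖η‖ ^ 2 := (abs_nonneg _).trans (hf.abs_d2_le hx η)
  rw [norm_smul, norm_I, one_mul] at h2
  rw [lev, abs_le]; constructor <;> linarith [h1.1, h1.2, h2.1, h2.2]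
omit [IsScalarTower ℝ ℂ M] in
theorem lev_comp {φ : ℝ → ℝ} (hφ : ContDiffAt ℝ 2 φ (f x)) (hf : ContDiffAt ℝ 2 f x) (η : M) :
    lev (fun y => φ (f y)) x η = deriv φ (f x) * lev f x η +
      deriv (deriv φ) (f x) * (fderiv ℝ f x η ^ 2 + fderiv ℝ f x (I • η) ^ 2) / 4 := by
  simp only [lev, L1.d2_comp hφ hf]; ring
omit [IsScalarTower ℝ ℂ M] in
theorem lev_scale (x0 ξ η : M) (r : ℝ) (hf : ContDiffAt ℝ 2 f (x0 + r • ξ)) :
    lev (fun y => f (x0 + r • y)) ξ η = r ^ 2 * lev f (x0 + r • ξ) η := by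
  simp only [lev, L1.d2_scale x0 ξ _ r hf]; ring
theorem lev_re_hol {h : M → ℂ} (hh : ContDiffAt ℂ 2 h x) (η : M) :
    lev (fun y => (h y).re) x η = 0 := by
  simp [lev, L1.d2_re hh]
theorem lev_normSq_hol {H : Type} [NormedAddCommGroup H] [InnerProductSpace ℂ H] {h : M → H}
    (hh : ContDiffAt ℂ 2 h x) (η : M) :
    lev (fun y => ‖h y‖ ^ 2) x η = ‖fderiv ℂ h x η‖ ^ 2 := by
  simp only [lev, L1.d2_normSq hh, map_smul, smul_apply, smul_smul, I_mul_I,
    neg_one_smul, inner_neg_right, neg_re, norm_smul, norm_I, one_mul]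
  ring
theorem fderiv_normSq_hol {H : Type} [NormedAddCommGroup H] [InnerProductSpace ℂ H] {h : M → H}
    (hh : DifferentiableAt ℂ h x) (η : M) :
    fderiv ℝ (fun y => ‖h y‖ ^ 2) x η = 2 * (inner ℂ (h x) (fderiv ℂ h x η)).re ∧
    fderiv ℝ (fun y => ‖h y‖ ^ 2) x (I • η) = -2 * (inner ℂ (h x) (fderiv ℂ h x η)).im := by
  refine ⟨L1.has_normSq hh η, ?_⟩
  rw [L1.has_normSq hh, map_smul, inner_smul_right]; simp
theorem lev_log_hol {h : M → ℂ} (hh : ContDiffAt ℂ 2 h x) (h0 : h x ≠ 0) (η : M) :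
    lev (fun y => Real.log (‖h y‖ ^ 2)) x η = 0 := by
  have hn : ‖h x‖ ^ 2 ≠ 0 := by simpa using h0
  have hd := fderiv_normSq_hol (hh.differentiableAt two_ne_zero) η
  rw [lev_comp (f := fun y => ‖h y‖ ^ 2) (Real.contDiffAt_log.2 hn)
    ((hh.restrict_scalars ℝ).norm_sq ℂ), lev_normSq_hol hh, hd.1, hd.2, Real.deriv_log',
    deriv_inv]
  have e : (inner ℂ (h x) (fderiv ℂ h x η)).re ^ 2 + (inner ℂ (h x) (fderiv ℂ h x η)).im ^ 2 =
      ‖h x‖ ^ 2 * ‖fderiv ℂ h x η‖ ^ 2 := by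
    rw [← mul_pow, ← norm_conj (h x), ← norm_mul, Complex.sq_norm, normSq_apply, RCLike.inner_apply,
      mul_comm (fderiv ℂ h x η)]
    ring
  have e2 : (2 * (inner ℂ (h x) (fderiv ℂ h x η)).re) ^ 2 +
      (-2 * (inner ℂ (h x) (fderiv ℂ h x η)).im) ^ 2 = 4 * (‖h x‖ ^ 2 * ‖fderiv ℂ h x η‖ ^ 2) := by
    rw [← e]; ring
  rw [e2]; field_simp; ring
/-- The holomorphic part of the Taylor polynomial. -/
theorem exists_hol_poly (hf : ContDiffAt ℝ 2 f x) : ∃ P : M → ℂ, ContDiff ℂ 1 P ∧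
    ∀ η, (P η).re = f x + fderiv ℝ f x η + d2 f x η / 2 - lev f x η := by
  set B := fderiv ℝ (fderiv ℝ f) x
  set D := fderiv ℝ f x
  have hL : IsBoundedLinearMap ℂ fun u : M => (D u : ℂ) - I * D (I • u) := by
    refine ⟨⟨fun u v => ?_, fun c u => ?_⟩, 2 * ‖D‖ + 1, by positivity, fun u => ?_⟩
    · simp only [smul_add, map_add]; push_cast; ring
    · rw [L1.I_smul, L1.smul_eq c u]
      apply Complex.ext <;> simp <;> ring
    · have h1 := D.le_opNorm u
      have h2 := D.le_opNorm (I • u)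
      rw [norm_smul, norm_I, one_mul] at h2
      refine (norm_sub_le _ _).trans ?_
      rw [norm_mul, norm_I, one_mul, norm_real, norm_real]
      nlinarith [norm_nonneg u]
  have hQ : IsBoundedBilinearMap ℂ fun p : M × M => ((B p.1 p.2 : ℂ) - B (I • p.1) (I • p.2) -
      I * B p.1 (I • p.2) - I * B (I • p.1) p.2) / 4 := by
    refine ⟨fun u u' v => ?_, fun c u v => ?_, fun u v v' => ?_, fun c u v => ?_,
      ‖B‖ + 1, by positivity, fun u v => ?_⟩
    · simp only [smul_add, map_add, add_apply]; push_cast; ring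
    · simp only []
      rw [L1.I_smul, L1.smul_eq c u]
      apply Complex.ext <;> simp <;> ring
    · simp only [smul_add, map_add]; push_cast; ring
    · simp only []
      rw [L1.I_smul, L1.smul_eq c v]
      apply Complex.ext <;> simp <;> ring
    · have h1 := B.le_opNorm₂ u v
      have h2 := B.le_opNorm₂ (I • u) (I • v)
      have h3 := B.le_opNorm₂ u (I • v)
      have h4 := B.le_opNorm₂ (I • u) v
      simp only [norm_smul, norm_I, one_mul] at h2 h3 h4
      have h5 := (norm_sub_le _ _).trans (add_le_add ((norm_sub_le _ _).trans (add_le_add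
        (norm_sub_le (B u v : ℂ) (B (I • u) (I • v))) (le_refl ‖I * B u (I • v)‖)))
        (le_refl ‖I * B (I • u) v‖))
      simp only [norm_mul, norm_I, one_mul, norm_real] at h5
      rw [norm_div, div_le_iff₀ (by simp)]
      have : ‖(4 : ℂ)‖ = 4 := by simp
      rw [this]
      nlinarith [mul_nonneg (norm_nonneg u) (norm_nonneg v)]
  have hc : ContDiff ℂ 1 fun η : M => (η, η) := contDiff_id.prodMk contDiff_id
  have hq := (hQ.contDiff (n := 1)).comp hc
  refine ⟨fun η => f x + ((D η : ℂ) - I * D (I • η)) + ((B η η : ℂ) - B (I • η) (I • η) -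
      I * B η (I • η) - I * B (I • η) η) / 4,
    (contDiff_const.add hL.contDiff).add (by simpa only [Function.comp_def] using hq),
    fun η => ?_⟩
  simp [lev, d2, B]; ring
/-- The Levi form is a Hermitian form. -/
theorem exists_sesq (hf : ContDiffAt ℝ 2 f x) : ∃ H : M →ₛₗ[starRingEnd ℂ] M →ₗ[ℂ] ℂ,
    (∀ u v, H u v = starRingEnd ℂ (H v u)) ∧ ∀ η, H η η = (lev f x η : ℂ) := by
  have hs : ∀ u v, fderiv ℝ (fderiv ℝ f) x u v = fderiv ℝ (fderiv ℝ f) x v u :=
    hf.isSymmSndFDerivAt (by simp)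
  set B := fderiv ℝ (fderiv ℝ f) x with hB
  refine ⟨LinearMap.mk₂'ₛₗ (starRingEnd ℂ) (RingHom.id ℂ)
    (fun u v => ((B u v : ℂ) + B (I • u) (I • v) + I * (B (I • u) v - B u (I • v))) / 4)
    (fun u u' v => ?_) (fun c u v => ?_) (fun u v v' => ?_) (fun c u v => ?_),
    fun u v => ?_, fun η => ?_⟩
  · simp only [smul_add, map_add, add_apply]; push_cast; ring
  · rw [L1.I_smul, L1.smul_eq c u]
    apply Complex.ext <;> simp <;> ring
  · simp only [smul_add, map_add]; push_cast; ring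
  · rw [L1.I_smul, L1.smul_eq c v]
    apply Complex.ext <;> simp <;> ring
  · simp only [LinearMap.mk₂'ₛₗ_apply]
    rw [hs v u, hs (I • v) (I • u), hs (I • v) u, hs v (I • u)]
    simp only [map_div₀, map_add, map_mul, map_sub, conj_ofReal, conj_I, map_ofNat]
    ring
  · simp only [LinearMap.mk₂'ₛₗ_apply, lev, d2, ← hB]
    rw [hs (I • η) η]
    push_cast; ring

end Pool.Agent.MP_8ac6f3_ag

end MrgPart0

-- ======== part 1: formerly Pool.Agent.MP_8ac6f3_ag.Lev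
section MrgPart1

/-! Row LEV2: Cauchy estimates, dbar, uniform limits of holomorphic functions. -/

set_option linter.unusedSectionVars false

open Set Metric Complex Filter
open scoped ContDiff Topology

namespace Pool.Agent.MP_8ac6f3_ag

variable {M : Type} [NormedAddCommGroup M] [NormedSpace ℝ M] [NormedSpace ℂ M]
  [IsScalarTower ℝ ℂ M] {s : Set M} {f g : M → ℝ} {a : ℝ} {x : M}

namespace LevP

omit [NormedSpace ℝ M] [IsScalarTower ℝ ℂ M] in
lemma schwarz {F : Type} [NormedAddCommGroup F] [NormedSpace ℂ F] {h : M → F} {δ B : ℝ}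
    (hδ : 0 < δ) (hd : DifferentiableOn ℂ h (ball x δ)) (hB : ∀ z ∈ ball x δ, ‖h z‖ ≤ B) :
    ‖fderiv ℂ h x‖ ≤ 2 * B / δ := by
  refine norm_fderiv_le_div_of_mapsTo_ball hd (fun z hz => ?_) hδ
  rw [mem_closedBall, dist_eq_norm]
  linarith [norm_sub_le (h z) (h x), hB z hz, hB x (mem_ball_self hδ)]

omit [NormedSpace ℝ M] [IsScalarTower ℝ ℂ M] in
lemma cauchy {h : M → ℂ} {t : Set M} {δ ε : ℝ} (ht : IsOpen t) (hh : ContDiffOn ℂ 4 h t)
    (hδ : 0 < δ) (hε : ∀ y ∈ t, ‖h y‖ ≤ ε) (j : ℕ) (hj : j ≤ 3) :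
    ∀ y ∈ t, ball y (j * δ) ⊆ t → ‖iteratedFDeriv ℂ j h y‖ ≤ ε * (2 / δ) ^ j := by
  induction j with
  | zero => intro y hy _; simpa using hε y hy
  | succ j ih =>
    intro y _ hb
    have h0 : (0 : ℝ) ≤ j * δ := by positivity
    push_cast at hb
    have hz : ∀ z ∈ ball y δ, z ∈ t := fun z hz => hb (ball_subset_ball (by linarith) hz)
    rw [← norm_fderiv_iteratedFDeriv]
    refine (schwarz (B := ε * (2 / δ) ^ j) hδ (fun z hz' => ?_) fun z hz' => ?_).trans_eq ?_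
    · refine ((hh.contDiffAt (ht.mem_nhds (hz z hz'))).differentiableAt_iteratedFDeriv
        ?_).differentiableWithinAt
      exact_mod_cast (by omega : j < 4)
    · refine ih (by omega) z (hz z hz') (Subset.trans (ball_subset_ball' ?_) hb)
      rw [mem_ball] at hz'
      linarith
    · ring

lemma log_sq {z : ℂ} : Real.log (‖z‖ ^ 2) = (2 * Complex.log z).re := by
  rw [Real.log_pow]
  simp [Complex.log_re]

lemma smul_eq (c : ℂ) (v : M) : c • v = c.re • v + c.im • I • v := by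
  conv_lhs => rw [← re_add_im c]
  rw [add_smul, mul_smul, ← algebraMap_smul ℂ c.re v, ← algebraMap_smul ℂ c.im (I • v)]
  rfl

end LevP

open LevP

/-- Cauchy estimates. -/
theorem Db.re_hol {h : M → ℂ} {t : Set M} {r ε : ℝ} (ht : IsOpen t) (hh : ContDiffOn ℂ 4 h t)
    (hr : 0 < r) (hr1 : r ≤ 1) (hs : ∀ y ∈ s, ball y r ⊆ t) (hε : ∀ y ∈ t, ‖h y‖ ≤ ε) :
    Db s (216 * ε / r ^ 3) (fun y => (h y).re) := by
  have hst : s ⊆ t := fun y hy => hs y hy (mem_ball_self hr)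
  have h43 : (3 : ℕ∞ω) ≤ 4 := by norm_num
  refine ⟨reCLM.contDiff.comp_contDiffOn (((hh.of_le h43).restrict_scalars ℝ).mono hst),
    fun j h1 h3 y hy => ?_⟩
  have hy' := hh.contDiffAt (ht.mem_nhds (hst hy))
  have hj : (j : ℕ∞ω) ≤ 4 := by exact_mod_cast (by omega : j ≤ 4)
  have h0 : 0 ≤ ε := (norm_nonneg _).trans (hε y (hst hy))
  have hj' : (j : ℝ) ≤ 3 := by exact_mod_cast h3
  have e1 := reCLM.norm_iteratedFDeriv_comp_left (hy'.restrict_scalars ℝ) hj
  rw [← (hy'.of_le hj).restrictScalars_iteratedFDeriv (𝕜 := ℝ), reCLM_norm, one_mul,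
    Function.comp_apply, ContinuousMultilinearMap.norm_restrictScalars] at e1
  have e2 := cauchy ht hh (δ := r / 3) (by positivity) hε j h3 y (hst hy)
    (Subset.trans (ball_subset_ball (by nlinarith)) (hs y hy))
  have e3 : (2 / (r / 3)) ^ j ≤ (2 / (r / 3)) ^ 3 :=
    pow_le_pow_right₀ (by rw [one_le_div (by positivity)]; linarith) h3
  refine (e1.trans e2).trans ((mul_le_mul_of_nonneg_left e3 h0).trans_eq ?_)
  field_simp
  ring

theorem Cb.log_near_one {h : M → ℂ} {t : Set M} {r ε : ℝ} (ht : IsOpen t)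
    (hh : ContDiffOn ℂ 4 h t) (hr : 0 < r) (hr1 : r ≤ 1) (hs : ∀ y ∈ s, ball y r ⊆ t)
    (hε1 : ε ≤ 1 / 2) (hε : ∀ y ∈ t, ‖h y - 1‖ ≤ ε) :
    Cb s (1000 * ε / r ^ 3) (fun y => Real.log (‖h y‖ ^ 2)) := by
  have hb : ∀ y ∈ t, ‖2 * Complex.log (h y)‖ ≤ 3 * ε := fun y hy => by
    have := norm_log_one_add_half_le_self ((hε y hy).trans hε1)
    rw [add_sub_cancel] at this
    rw [norm_mul, Complex.norm_two]
    linarith [hε y hy]
  have hc : ContDiffOn ℂ 4 (fun y => 2 * Complex.log (h y)) t := fun y hy => by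
    have : h y ∈ slitPlane := by
      have := mem_slitPlane_of_norm_lt_one (z := h y - 1) (by linarith [hε y hy])
      rwa [add_sub_cancel] at this
    exact contDiffWithinAt_const.mul ((contDiffAt_log this).comp_contDiffWithinAt y (hh y hy))
  have hD := Db.re_hol ht hc hr hr1 hs hb
  simp only [log_sq]
  have key : ∀ y ∈ s, 3 * ε ≤ 216 * (3 * ε) / r ^ 3 ∧
      216 * (3 * ε) / r ^ 3 ≤ 1000 * ε / r ^ 3 := fun y hy => by
    have h0 : 0 ≤ ε := (norm_nonneg _).trans (hε y (hs y hy (mem_ball_self hr)))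
    have h1 : r ^ 3 ≤ 1 := pow_le_one₀ hr.le hr1
    have h2 : 0 < r ^ 3 := by positivity
    exact ⟨by rw [le_div_iff₀ h2]; nlinarith, div_le_div_of_nonneg_right (by linarith) h2.le⟩
  refine ⟨⟨hD.1, fun j h1 h3 y hy => (hD.2 j h1 h3 y hy).trans (key y hy).2⟩, fun y hy => ?_⟩
  exact (abs_re_le_norm _).trans ((hb y (hs y hy (mem_ball_self hr))).trans
    ((key y hy).1.trans (key y hy).2))

theorem exists_Db_log_one_sub {θ r : ℝ} (hθ : θ < 1) (hr : 0 < r) (hr1 : r ≤ 1) :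
    ∃ K : ℝ, ∀ (h : M → ℂ) (s t : Set M), IsOpen t → ContDiffOn ℂ 4 h t →
      (∀ y ∈ s, ball y r ⊆ t) → (∀ y ∈ t, ‖h y‖ ≤ θ) →
      Db s K (fun y => Real.log (‖1 - h y‖ ^ 2)) := by
  have hsl : ∀ z : ℂ, ‖z‖ ≤ θ → 1 - z ∈ slitPlane := fun z hz => by
    rw [sub_eq_add_neg]
    exact mem_slitPlane_of_norm_lt_one (by rw [norm_neg]; linarith)
  obtain ⟨C, hC⟩ := (isCompact_closedBall (0 : ℂ) θ).exists_bound_of_continuousOn
    (f := fun z => 2 * Complex.log (1 - z)) (continuousOn_const.mul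
      ((continuousOn_const.sub continuousOn_id).clog fun z hz => hsl z (by simpa using hz)))
  refine ⟨216 * C / r ^ 3, fun h s t ht hh hs hb => ?_⟩
  simp only [log_sq]
  refine Db.re_hol ht (fun y hy => ?_) hr hr1 hs fun y hy => hC _ (by simpa using hb y hy)
  exact contDiffWithinAt_const.mul ((contDiffAt_log (hsl _ (hb y hy))).comp_contDiffWithinAt
    (f := fun y => 1 - h y) y (contDiffWithinAt_const.sub (hh y hy)))

variable {u w : M → ℂ}

theorem db_congr (h : u =ᶠ[𝓝 x] w) (v : M) : db u x v = db w x v := by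
  simp only [db, h.fderiv_eq]

theorem norm_db_le (u : M → ℂ) (x v : M) : ‖db u x v‖ ≤ ‖fderiv ℝ u x‖ * ‖v‖ := by
  have h1 := (fderiv ℝ u x).le_opNorm v
  have h2 := (fderiv ℝ u x).le_opNorm (I • v)
  rw [norm_smul, norm_I, one_mul] at h2
  have h3 := norm_add_le (fderiv ℝ u x v) (I * fderiv ℝ u x (I • v))
  rw [norm_mul, norm_I, one_mul] at h3
  rw [db, norm_div, Complex.norm_two]
  linarith

theorem db_hol (h : DifferentiableAt ℂ u x) (v : M) : db u x v = 0 := by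
  rw [db, h.fderiv_restrictScalars ℝ]
  simp only [ContinuousLinearMap.coe_restrictScalars', map_smul, smul_eq_mul]
  rw [← mul_assoc, I_mul_I]
  ring

theorem db_add (hu : DifferentiableAt ℝ u x) (hw : DifferentiableAt ℝ w x) (v : M) :
    db (fun y => u y + w y) x v = db u x v + db w x v := by
  simp only [db, fderiv_fun_add hu hw, add_apply]
  ring

theorem db_mul (hu : DifferentiableAt ℝ u x) (hw : DifferentiableAt ℝ w x) (v : M) :
    db (fun y => u y * w y) x v = u x * db w x v + db u x v * w x := by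
  simp only [db, fderiv_fun_mul hu hw, add_apply,
    smul_apply, smul_eq_mul]
  ring

theorem db_sum {ι : Type*} (T : Finset ι) {U : ι → M → ℂ}
    (h : ∀ i ∈ T, DifferentiableAt ℝ (U i) x) (v : M) :
    db (fun y => ∑ i ∈ T, U i y) x v = ∑ i ∈ T, db (U i) x v := by
  simp only [db, fderiv_fun_sum h, sum_apply, Finset.mul_sum,
    ← Finset.sum_add_distrib, Finset.sum_div]

theorem db_add_right (u : M → ℂ) (x v v' : M) : db u x (v + v') = db u x v + db u x v' := by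
  simp only [db, smul_add, map_add]
  ring

theorem db_smul_right (u : M → ℂ) (x v : M) (c : ℂ) :
    db u x (c • v) = starRingEnd ℂ c * db u x v := by
  have e : I • c • v = c.re • I • v - c.im • v := by
    rw [smul_comm I c v, smul_eq c (I • v), smul_smul I I, I_mul_I, neg_one_smul, smul_neg,
      sub_eq_add_neg]
  have e' : starRingEnd ℂ c = c.re - c.im * I := by
    apply Complex.ext <;> simp
  rw [db, db, e, smul_eq c v, e']
  simp only [map_add, map_sub, map_smul, real_smul]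
  linear_combination (c.im * fderiv ℝ u x (I • v) / 2) * I_mul_I

theorem db_comp_hol {M' : Type} [NormedAddCommGroup M'] [NormedSpace ℝ M'] [NormedSpace ℂ M']
    [IsScalarTower ℝ ℂ M'] {τ : M' → M} {ξ : M'} (hτ : DifferentiableAt ℂ τ ξ)
    (hu : DifferentiableAt ℝ u (τ ξ)) (v : M') :
    db (fun y => u (τ y)) ξ v = db u (τ ξ) (fderiv ℂ τ ξ v) := by
  simp only [db, fderiv_fun_comp ξ hu (hτ.restrictScalars ℝ), hτ.fderiv_restrictScalars ℝ,
    ContinuousLinearMap.comp_apply, ContinuousLinearMap.coe_restrictScalars', map_smul]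

theorem differentiableAt_of_db (hu : DifferentiableAt ℝ u x) (h : ∀ v, db u x v = 0) :
    DifferentiableAt ℂ u x := by
  have hI : ∀ v, fderiv ℝ u x (I • v) = I * fderiv ℝ u x v := fun v => by
    have := h v
    rw [db] at this
    linear_combination (-2 * I) * this + fderiv ℝ u x (I • v) * I_mul_I
  refine (differentiableAt_iff_restrictScalars ℝ hu).2 ⟨⟨⟨⟨fderiv ℝ u x, map_add _⟩,
    fun c v => ?_⟩, (fderiv ℝ u x).continuous⟩, rfl⟩
  show fderiv ℝ u x (c • v) = c * fderiv ℝ u x v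
  rw [smul_eq c v, map_add, map_smul, map_smul, hI, real_smul, real_smul]
  conv_rhs => rw [← re_add_im c]
  ring

/-- Uniform limits of holomorphic functions of several variables. -/
theorem differentiableOn_of_tendstoUniformlyOn {t : Set M} (ht : IsOpen t) {U : ℕ → M → ℂ}
    (hU : ∀ n, DifferentiableOn ℂ (U n) t) (h : TendstoUniformlyOn U u atTop t) :
    DifferentiableOn ℂ u t := by
  intro x hx
  obtain ⟨δ, hδ, hb⟩ := Metric.isOpen_iff.1 ht x hx
  have hz : ∀ z ∈ ball x (δ / 2), ball z (δ / 2) ⊆ t := fun z hz =>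
    Subset.trans (ball_subset_ball' (by rw [mem_ball] at hz; linarith)) hb
  have hd : ∀ n, ∀ z ∈ ball x (δ / 2), DifferentiableAt ℂ (U n) z := fun n z hz' =>
    (hU n).differentiableAt (ht.mem_nhds (hz z hz' (mem_ball_self (half_pos hδ))))
  have hc : UniformCauchySeqOn (fun n z => fderiv ℂ (U n) z) atTop (ball x (δ / 2)) := by
    refine Metric.uniformCauchySeqOn_iff.2 fun ε hε => ?_
    obtain ⟨N, hN⟩ := Metric.uniformCauchySeqOn_iff.1 h.uniformCauchySeqOn (ε * δ / 8)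
      (by positivity)
    refine ⟨N, fun m hm n hn z hz' => ?_⟩
    rw [dist_eq_norm, ← fderiv_fun_sub (hd m z hz') (hd n z hz')]
    refine (schwarz (B := ε * δ / 8) (half_pos hδ) (((hU m).sub (hU n)).mono (hz z hz'))
      fun y hy => ?_).trans_lt ?_
    · rw [Pi.sub_apply, ← dist_eq_norm]
      exact (hN m hm n hn y (hz z hz' hy)).le
    · rw [div_lt_iff₀ (half_pos hδ)]
      nlinarith [mul_pos hε hδ]
  choose! g' hg' using fun z (hz' : z ∈ ball x (δ / 2)) =>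
    cauchySeq_tendsto_of_complete (hc.cauchySeq hz')
  exact (hasFDerivAt_of_tendstoUniformlyOn isOpen_ball (hc.tendstoUniformlyOn_of_tendsto hg')
    (fun n z hz' => (hd n z hz').hasFDerivAt)
    (fun z hz' => h.tendsto_at (hz z hz' (mem_ball_self (half_pos hδ))))
    (mem_ball_self (half_pos hδ))).differentiableAt.differentiableWithinAt

end Pool.Agent.MP_8ac6f3_ag

end MrgPart1

-- ======== part 2: formerly Pool.Agent.MP_8ac6f3_ag.U
section MrgPart2

/-! Row U: estimates in a normal chart. -/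

open Set Metric Complex Filter
open scoped ContDiff Topology ComplexConjugate

noncomputable section

namespace Pool.Agent.MP_8ac6f3_ag

namespace UP

variable {W : Type} [NormedAddCommGroup W] [InnerProductSpace ℂ W]

lemma aa_cd (p : E W) (n : WithTop ℕ∞) : ContDiff ℂ n fun x : E W => aa x p := by
  have h : ContDiff ℂ n fun b : E W => (inner ℂ p.1 b.1 : ℂ) :=
    (innerSL ℂ p.1).contDiff.comp contDiff_fst
  exact ((contDiff_snd.sub contDiff_const).div_const _).sub (contDiff_const.mul h)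

omit [InnerProductSpace ℂ W] in
lemma ht_eq : (fun ξ : E W => height (oo + ξ)) =
    fun ξ : E W => (1 - I * ξ.2).re - ‖ξ.1‖ ^ 2 := by
  funext ξ
  simp [height, oo]

lemma hol_cd (n : WithTop ℕ∞) : ContDiff ℂ n fun ξ : E W => 1 - I * ξ.2 :=
  contDiff_const.sub (contDiff_const.mul contDiff_snd)

lemma re_cd (n : WithTop ℕ∞) : ContDiff ℝ n fun ξ : E W => (1 - I * ξ.2).re :=
  reCLM.contDiff.comp ((hol_cd n).restrict_scalars ℝ)

lemma sq_cd (n : WithTop ℕ∞) : ContDiff ℝ n fun ξ : E W => ‖ξ.1‖ ^ 2 :=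
  (contDiff_norm_sq ℂ).comp contDiff_fst

lemma ht_cd (n : WithTop ℕ∞) : ContDiff ℝ n fun ξ : E W => height (oo + ξ) := by
  rw [ht_eq]
  exact (re_cd n).sub (sq_cd n)

lemma ht_pos {ξ : E W} {r : ℝ} (h : ξ ∈ ball (0 : E W) r) (hr : r ≤ 1 / 2) :
    0 < height (oo + ξ) := by
  linarith [height_chart (ξ := ξ) (by linarith [mem_ball_zero_iff.1 h])]

lemma fderiv_re (ξ η : E W) : fderiv ℝ (fun ξ : E W => (1 - I * ξ.2).re) ξ η = η.2.im := by
  have e : (fun ξ : E W => (1 - I * ξ.2).re) =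
      fun ξ : E W => 1 + (imCLM.comp (ContinuousLinearMap.snd ℝ W ℂ)) ξ := by
    funext ξ
    simp
  rw [e, fderiv_const_add, ContinuousLinearMap.fderiv]
  rfl

/-- The Levi form of the logarithm of the height. -/
lemma lev_ht {ξ : E W} (hξ : ξ ∈ ball (0 : E W) (1 / 8)) (η : E W) :
    1 / 32 * ‖η‖ ^ 2 ≤ -lev (fun ξ : E W => Real.log (height (oo + ξ))) ξ η := by
  have h0 := ht_pos hξ (by norm_num)
  have hn := mem_ball_zero_iff.1 hξ
  have n1 : ‖ξ.1‖ ≤ 1 / 8 := (norm_fst_le ξ).trans hn.le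
  have n2 : ‖ξ.2‖ ≤ 1 / 8 := (norm_snd_le ξ).trans hn.le
  have h2 : height (oo + ξ) ≤ 2 := by
    have := congrFun (ht_eq (W := W)) ξ
    simp only [sub_re, one_re, mul_re, I_re, I_im] at this
    have h3 := (abs_le.1 ((abs_im_le_norm ξ.2).trans n2)).2
    nlinarith [sq_nonneg ‖ξ.1‖]
  have hf : fderiv ℂ (fun ξ : E W => ξ.1) ξ η = η.1 := by
    rw [fderiv_fst]; rfl
  have l1 : lev (fun ξ : E W => height (oo + ξ)) ξ η = -‖η.1‖ ^ 2 := by
    rw [ht_eq, lev_sub (re_cd 2).contDiffAt (sq_cd 2).contDiffAt,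
      lev_re_hol (hol_cd 2).contDiffAt, lev_normSq_hol (h := fun ξ : E W => ξ.1) contDiffAt_fst,
      hf, zero_sub]
  obtain ⟨d1, d2⟩ := fderiv_normSq_hol (h := fun ξ : E W => ξ.1) (x := ξ) differentiableAt_fst η
  rw [hf] at d1 d2
  have l2 : ∀ v, fderiv ℝ (fun ξ : E W => height (oo + ξ)) ξ v =
      v.2.im - fderiv ℝ (fun ξ : E W => ‖ξ.1‖ ^ 2) ξ v := fun v => by
    rw [ht_eq, fderiv_fun_sub ((re_cd 1).differentiable one_ne_zero ξ)
      ((sq_cd 1).differentiable one_ne_zero ξ), sub_apply, fderiv_re]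
  have e2 : deriv (deriv Real.log) (height (oo + ξ)) = -(height (oo + ξ) ^ 2)⁻¹ := by
    rw [Real.deriv_log', deriv_inv]
  rw [lev_comp (φ := Real.log) (f := fun ξ : E W => height (oo + ξ))
    (Real.contDiffAt_log.2 h0.ne') (ht_cd 2).contDiffAt, l1, l2, l2, d1, d2, e2, Real.deriv_log]
  have hw : ‖(inner ℂ ξ.1 η.1 : ℂ)‖ ≤ 1 / 8 * ‖η.1‖ :=
    (norm_inner_le_norm _ _).trans (by gcongr)
  have hw2 : (inner ℂ ξ.1 η.1 : ℂ).re ^ 2 + (inner ℂ ξ.1 η.1 : ℂ).im ^ 2 ≤ 1 / 64 * ‖η.1‖ ^ 2 := by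
    have : ‖(inner ℂ ξ.1 η.1 : ℂ)‖ ^ 2 ≤ (1 / 8 * ‖η.1‖) ^ 2 := by gcongr
    rw [Complex.sq_norm, normSq_apply] at this
    nlinarith
  have hI : (I • η).2.im = η.2.re := by simp
  rw [hI]
  generalize (inner ℂ ξ.1 η.1 : ℂ).re = a at *
  generalize (inner ℂ ξ.1 η.1 : ℂ).im = b at *
  generalize height (oo + ξ) = h at *
  have i1 : 1 / 2 ≤ h⁻¹ := by
    rw [one_div]
    exact inv_anti₀ h0 h2
  have i2 : 1 / 4 ≤ (h ^ 2)⁻¹ := by
    rw [← inv_pow]
    nlinarith
  have q1 : 0 ≤ ‖η.1‖ ^ 2 := sq_nonneg _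
  have q2 : 0 ≤ (η.2.im - 2 * a) ^ 2 + (η.2.re - -2 * b) ^ 2 := by positivity
  have m1 := mul_le_mul_of_nonneg_right i1 q1
  have m2 := mul_le_mul_of_nonneg_right i2 q2
  have q3 : ‖η.2‖ ^ 2 = η.2.re ^ 2 + η.2.im ^ 2 := by
    rw [Complex.sq_norm, normSq_apply]; ring
  rw [Prod.norm_def]
  rcases max_choice ‖η.1‖ ‖η.2‖ with e | e <;> rw [e]
  · linarith
  · nlinarith [sq_nonneg (η.2.im - 4 * a), sq_nonneg (η.2.re + 4 * b)]

omit [InnerProductSpace ℂ W] in
lemma ball_sub : ∀ y ∈ ball (0 : E W) (1 / 8), ball y (1 / 8) ⊆ ball (0 : E W) (1 / 4) :=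
  fun y hy => ball_subset_ball' (by
    have := mem_ball.1 hy
    linarith)

lemma exists_aa : ∃ K : ℝ, 0 ≤ K ∧ ∀ p : E W, 0 ≤ height p →
    Db (ball 0 (1 / 8)) K (fun ξ : E W => Real.log (‖aa (oo + ξ) p‖ ^ 2)) := by
  obtain ⟨K, hK⟩ := exists_Db_log_one_sub (M := E W) (θ := 1 / 2) (r := 1 / 8) (by norm_num)
    (by norm_num) (by norm_num)
  refine ⟨max K 0, le_max_right _ _, fun p hp => ?_⟩
  have ho : 0 < height (oo : E W) := by rw [height_oo]; norm_num
  have a0 := aa_ne ho hp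
  have a1 : 1 + ‖p.1‖ ^ 2 ≤ ‖aa oo p‖ := by
    have h1 := re_le_norm (aa oo p)
    rw [aa_re, height_oo] at h1
    have : ‖(oo : E W).1 - p.1‖ = ‖p.1‖ := by simp [oo]
    rw [this] at h1
    linarith
  have h := hK (fun ξ => 1 - aa (oo + ξ) p / aa oo p) (ball 0 (1 / 8)) (ball 0 (1 / 4)) isOpen_ball
    (contDiff_const.sub (((aa_cd p 4).comp (contDiff_const.add contDiff_id)).div_const _)).contDiffOn
    ball_sub fun ξ hξ => by
      have hn := mem_ball_zero_iff.1 hξ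
      have n1 : ‖ξ.1‖ ≤ 1 / 4 := (norm_fst_le ξ).trans hn.le
      have n2 : ‖ξ.2‖ ≤ 1 / 4 := (norm_snd_le ξ).trans hn.le
      have e : 1 - aa (oo + ξ) p / aa oo p = (2 * inner ℂ p.1 ξ.1 - ξ.2 / I) / aa oo p := by
        rw [eq_div_iff a0, sub_mul, div_mul_cancel₀ _ a0]
        simp only [aa, oo, Prod.fst_add, Prod.snd_add, inner_add_right]
        ring
      rw [e, norm_div, div_le_iff₀ (norm_pos_iff.2 a0)]
      have b1 := norm_sub_le (2 * inner ℂ p.1 ξ.1 : ℂ) (ξ.2 / I)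
      rw [norm_mul, norm_div, norm_I, div_one, Complex.norm_two] at b1
      have b2 : ‖(inner ℂ p.1 ξ.1 : ℂ)‖ ≤ ‖p.1‖ * (1 / 4) :=
        (norm_inner_le_norm _ _).trans (by gcongr)
      nlinarith [sq_nonneg (‖p.1‖ - 1 / 2)]
  refine ((h.add_const (Real.log (‖aa oo p‖ ^ 2))).congr isOpen_ball fun ξ hξ => ?_).mono
    (le_max_left _ _)
  have a2 := norm_pos_iff.2 (aa_ne (ht_pos hξ (by norm_num)) hp)
  have a3 := norm_pos_iff.2 a0
  simp only [sub_sub_cancel, norm_div, div_pow]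
  rw [Real.log_div (by positivity) (by positivity)]
  ring

lemma uu_eq {y q : E W} (hy : 0 < height y) (hq : 0 < height q) : uu q y =
    Real.log (‖aa y q‖ ^ 2) - Real.log (height y) - (Real.log 4 + Real.log (height q)) := by
  have n := norm_pos_iff.2 (aa_ne hy hq.le)
  rw [uu, cc_sq hy hq, Real.log_div (by positivity) (by positivity),
    Real.log_mul (by positivity) hq.ne', Real.log_mul (by norm_num) hy.ne']
  ring

lemma uu_cross {x x' q1 q2 : E W} (hx : 0 < height x) (hx' : 0 < height x') (h1 : 0 < height q1)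
    (h2 : 0 < height q2) : uu q1 x' - uu q2 x' =
      Real.log (‖aa x' q1 * aa x q2 / (aa x' q2 * aa x q1)‖ ^ 2) + (uu q1 x - uu q2 x) := by
  have n1 := norm_pos_iff.2 (aa_ne hx' h1.le)
  have n2 := norm_pos_iff.2 (aa_ne hx' h2.le)
  have n3 := norm_pos_iff.2 (aa_ne hx h1.le)
  have n4 := norm_pos_iff.2 (aa_ne hx h2.le)
  rw [uu_eq hx h1, uu_eq hx h2, uu_eq hx' h1, uu_eq hx' h2, norm_div, norm_mul, norm_mul]
  simp only [Real.log_pow]
  rw [Real.log_div (by positivity) (by positivity), Real.log_mul n1.ne' n4.ne',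
    Real.log_mul n2.ne' n3.ne']
  ring

lemma exists_ht [FiniteDimensional ℂ W] : ∃ K : ℝ, 0 ≤ K ∧
    Db (ball 0 (1 / 8)) K (fun ξ : E W => Real.log (height (oo + ξ))) := by
  have : ProperSpace (E W) := FiniteDimensional.proper ℂ (E W)
  obtain ⟨K, h0, h⟩ := exists_Db_of_compact (s := ball (0 : E W) (1 / 8))
    (f := fun ξ : E W => Real.log (height (oo + ξ))) (isOpen_ball (x := (0 : E W)) (ε := 1 / 4))
    ((ht_cd 3).contDiffOn.log fun ξ hξ => (ht_pos hξ (by norm_num)).ne')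
    (isCompact_closedBall 0 (1 / 8)) (closedBall_subset_ball (by norm_num)) ball_subset_closedBall
  exact ⟨K, h0, h.1⟩

end UP

open UP

variable {W : Type} [NormedAddCommGroup W] [InnerProductSpace ℂ W] [FiniteDimensional ℂ W]

theorem uS : UStmt W := by
  obtain ⟨K0, k0, H0⟩ := exists_ht (W := W)
  obtain ⟨K1, k1, H1⟩ := exists_aa (W := W)
  have ho : 0 < height (oo : E W) := by rw [height_oo]; norm_num
  have pos : ∀ ξ ∈ ball (0 : E W) (1 / 8), 0 < height (oo + ξ) := fun ξ hξ =>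
    ht_pos hξ (by norm_num)
  refine ⟨K0 + K1 + 512000, 1 / 32, by norm_num, fun g hg => ⟨?_, fun q hq => ?_, ?_⟩⟩
  · rcases cusp_dichotomy hg with ⟨κ, hκ, h⟩ | ⟨p, κ, hp, hκ, h, -⟩
    · refine ((H0.add_const (Real.log κ)).congr isOpen_ball fun ξ hξ => ?_).mono (by linarith)
      rw [h _ (pos ξ hξ), Real.log_mul hκ.ne' (pos ξ hξ).ne', add_comm]
    · refine (((Db.sub isOpen_ball H0 (H1 p hp.ge)).add_const (Real.log κ)).congr isOpen_ball
        fun ξ hξ => ?_).mono (by linarith)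
      have h1 := pos ξ hξ
      have h2 := norm_pos_iff.2 (aa_ne h1 hp.ge)
      rw [h _ h1, Real.log_div (by positivity) (by positivity), Real.log_mul hκ.ne' h1.ne']
      ring
  · have hq' := height_act_pos hg.inv hq
    have e : EqOn (fun ξ : E W => uu q (act g (oo + ξ))) (fun ξ : E W =>
        Real.log (‖aa (oo + ξ) (act g⁻¹ q)‖ ^ 2) - Real.log (height (oo + ξ)) +
          -(Real.log 4 + Real.log (height (act g⁻¹ q)))) (ball 0 (1 / 8)) := fun ξ hξ => by
      simp only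
      rw [← sub_eq_add_neg, ← uu_eq (pos ξ hξ) hq', ← uu_act hg (pos ξ hξ) hq', act_act_inv hg hq]
    refine ⟨(((Db.sub isOpen_ball (H1 _ hq'.le) H0).add_const _).congr isOpen_ball e).mono
      (by linarith), fun ξ hξ η => ?_⟩
    rw [lev_congr (e.eventuallyEq_of_mem (isOpen_ball.mem_nhds hξ)), lev_add_const,
      lev_sub (((H1 _ hq'.le).contDiffAt isOpen_ball hξ).of_le (by norm_num))
        ((H0.contDiffAt isOpen_ball hξ).of_le (by norm_num)),
      lev_log_hol (h := fun ξ : E W => aa (oo + ξ) (act g⁻¹ q))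
        ((aa_cd _ 2).comp (contDiff_const.add contDiff_id)).contDiffAt (aa_ne (pos ξ hξ) hq'.le),
      zero_sub]
    exact lev_ht hξ η
  · intro q1 q2 ε h1 h2 hε h
    have hx := height_act_pos hg ho
    have ε0 : 0 ≤ ε := (norm_nonneg _).trans (h _ hx (by rw [cc_self hx]; norm_num))
    have pos4 : ∀ ξ ∈ ball (0 : E W) (1 / 4), 0 < height (oo + ξ) := fun ξ hξ =>
      ht_pos hξ (by norm_num)
    have ca : ContDiffOn ℂ 4 (fun ξ : E W => act g (oo + ξ)) (ball 0 (1 / 4)) :=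
      ((contDiffOn_act hg).of_le le_top).comp (contDiff_const.add contDiff_id).contDiffOn pos4
    have c := Cb.log_near_one (s := ball (0 : E W) (1 / 8)) (r := 1 / 8) (ε := ε)
      (h := fun ξ : E W => aa (act g (oo + ξ)) q1 * aa (act g oo) q2 /
        (aa (act g (oo + ξ)) q2 * aa (act g oo) q1)) isOpen_ball
      ((((aa_cd q1 4).comp_contDiffOn ca).mul contDiffOn_const).div
        (((aa_cd q2 4).comp_contDiffOn ca).mul contDiffOn_const) fun ξ hξ =>
          mul_ne_zero (aa_ne (height_act_pos hg (pos4 ξ hξ)) h2.le) (aa_ne hx h1.le))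
      (by norm_num) (by norm_num) ball_sub hε fun ξ hξ => h _ (height_act_pos hg (pos4 ξ hξ)) (by
        rw [cc_act hg ho (pos4 ξ hξ)]
        exact cc_chart (by linarith [mem_ball_zero_iff.1 hξ]))
    refine ((c.1.add_const _).congr isOpen_ball fun ξ hξ =>
      uu_cross hx (height_act_pos hg (pos ξ hξ)) h1 h2).mono ?_
    have : 0 ≤ (K0 + K1) * ε := by positivity
    have e : 1000 * ε / (1 / 8) ^ 3 = 512000 * ε := by ring
    rw [e]
    linarith

end Pool.Agent.MP_8ac6f3_ag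

end

end MrgPart2

-- ======== part 3: formerly Pool.Agent.MP_8ac6f3_ag.Deep
section MrgPart3

/-! Row DEEP: the cusp function near the boundary divisor. -/

set_option linter.unusedSectionVars false

open Set Metric Complex Filter
open scoped ContDiff Topology ComplexConjugate

noncomputable section

namespace Pool.Agent.MP_8ac6f3_ag

namespace DeepP

variable {W : Type} [NormedAddCommGroup W] [InnerProductSpace ℂ W]

/-- the holomorphic factor -/
def hq (l : ℝ) (q b : E W) : ℂ :=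
  b.2 * Complex.exp (-(2 * Real.pi / l * I * conj q.2) + 2 * (2 * Real.pi / l) * inner ℂ q.1 b.1)

/-- the horizontal factor -/
def f2 (c : ℝ) (p : W) (b : E W) : ℝ := 1 + c * ‖b.1 - p‖ ^ 2

/-- the fibre norm -/
def g3 (c : ℝ) (b : E W) : ℝ := ‖b.2‖ ^ 2 * Real.exp (2 * c * ‖b.1‖ ^ 2)

theorem GG_eq (l : ℝ) (q : E W) : GG l q = fun b => Real.log (‖1 - hq l q b‖ ^ 2) +
    2 * Real.log (f2 (2 * Real.pi / l) q.1 b) - Real.log (1 - g3 (2 * Real.pi / l) b) -
    Real.log (2 * (2 * Real.pi / l) * height q) := rfl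

theorem hq_cd (l : ℝ) (q : E W) (n : WithTop ℕ∞) : ContDiff ℂ n (hq l q) := by
  have h : ContDiff ℂ n fun b : E W => (inner ℂ q.1 b.1 : ℂ) :=
    (innerSL ℂ q.1).contDiff.comp contDiff_fst
  exact contDiff_snd.mul (contDiff_const.add (contDiff_const.mul h)).cexp

theorem norm_hq (l : ℝ) (q b : E W) : ‖hq l q b‖ =
    ‖b.2‖ * Real.exp (2 * Real.pi / l * (‖b.1‖ ^ 2 - ‖b.1 - q.1‖ ^ 2 - height q)) := by
  rw [hq, norm_mul, Complex.norm_exp]
  congr 2
  have e : (2 * Real.pi / l : ℂ) = ((2 * Real.pi / l : ℝ) : ℂ) := by push_cast; rfl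
  rw [e, norm_sub_rev, @norm_sub_sq ℂ, height]
  generalize 2 * Real.pi / l = c
  simp
  ring

theorem norm_hq_le {l H : ℝ} (hl : 0 < l) {q b : E W} (hq0 : 0 < height q) (hb : b ∈ UU l H) :
    ‖hq l q b‖ ≤ Real.exp (-(2 * Real.pi / l) * H) := by
  have hc : 0 < 2 * Real.pi / l := by have := Real.pi_pos; positivity
  rw [norm_hq]
  have hb' : ‖b.2‖ < Real.exp (-(2 * Real.pi / l) * (‖b.1‖ ^ 2 + H)) := hb
  refine (mul_le_mul_of_nonneg_right hb'.le (Real.exp_pos _).le).trans ?_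
  rw [← Real.exp_add]
  refine Real.exp_le_exp.2 ?_
  have := mul_nonneg hc.le (sq_nonneg ‖b.1 - q.1‖)
  have := mul_pos hc hq0
  nlinarith

theorem g3_nonneg (c : ℝ) (b : E W) : 0 ≤ g3 c b := by unfold g3; positivity

theorem g3_lt {l H : ℝ} (hl : 0 < l) (hH : 1 ≤ H) {b : E W} (hb : b ∈ UU l H) :
    g3 (2 * Real.pi / l) b < 1 := by
  have hc : 0 < 2 * Real.pi / l := by have := Real.pi_pos; positivity
  have hb' : ‖b.2‖ < Real.exp (-(2 * Real.pi / l) * (‖b.1‖ ^ 2 + H)) := hb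
  have h1 : ‖b.2‖ ^ 2 ≤ Real.exp (-(2 * Real.pi / l) * (‖b.1‖ ^ 2 + H)) ^ 2 := by gcongr
  refine (mul_le_mul_of_nonneg_right h1 (Real.exp_pos _).le).trans_lt ?_
  rw [sq, ← Real.exp_add, ← Real.exp_add, Real.exp_lt_one_iff]
  nlinarith

theorem norm_snd_le {l H : ℝ} (hl : 0 < l) (hH : 1 ≤ H) {b : E W} (hb : b ∈ UU l H) :
    ‖b.2‖ ≤ 1 := by
  have hc : 0 < 2 * Real.pi / l := by have := Real.pi_pos; positivity
  have hb' : ‖b.2‖ < Real.exp (-(2 * Real.pi / l) * (‖b.1‖ ^ 2 + H)) := hb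
  refine hb'.le.trans (Real.exp_le_one_iff.2 ?_)
  have : 0 ≤ 2 * Real.pi / l * (‖b.1‖ ^ 2 + H) := by positivity
  linarith

theorem exp_lt {l H : ℝ} (hl : 0 < l) (hH : 1 ≤ H) : Real.exp (-(2 * Real.pi / l) * H) < 1 := by
  have hc : 0 < 2 * Real.pi / l := by have := Real.pi_pos; positivity
  rw [Real.exp_lt_one_iff]
  nlinarith

theorem lower {l H L' : ℝ} (hl : 0 < l) (hH : 1 ≤ H) : ∃ C : ℝ, ∀ l', l ≤ l' → l' ≤ L' →
    ∀ q b : E W, 0 < height q → b ∈ UU l' H →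
      2 * Real.log (1 + 2 * Real.pi / l' * ‖b.1 - q.1‖ ^ 2) - Real.log (height q) - C ≤
        GG l' q b := by
  refine ⟨-2 * Real.log (1 - Real.exp (-(2 * Real.pi / L') * H)) +
    Real.log (2 * (2 * Real.pi / l)), fun l' h1 h2 q b hq0 hb => ?_⟩
  have hl' : 0 < l' := hl.trans_le h1
  have hL : 0 < L' := hl'.trans_le h2
  have hπ := Real.pi_pos
  have a1 : Real.exp (-(2 * Real.pi / l') * H) ≤ Real.exp (-(2 * Real.pi / L') * H) := by
    refine Real.exp_le_exp.2 ?_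
    have : 2 * Real.pi / L' ≤ 2 * Real.pi / l' := by gcongr
    nlinarith
  have a2 := exp_lt hL hH
  have a3 : 1 - Real.exp (-(2 * Real.pi / L') * H) ≤ ‖1 - hq l' q b‖ := by
    have := norm_sub_norm_le (1 : ℂ) (hq l' q b)
    have := norm_hq_le hl' hq0 hb
    rw [norm_one] at *
    linarith
  have a4 : 2 * Real.log (1 - Real.exp (-(2 * Real.pi / L') * H)) ≤
      Real.log (‖1 - hq l' q b‖ ^ 2) := by
    rw [Real.log_pow]
    have := Real.log_le_log (by linarith) a3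
    push_cast
    linarith
  have a5 : Real.log (1 - g3 (2 * Real.pi / l') b) ≤ 0 :=
    Real.log_nonpos (by linarith [g3_lt hl' hH hb]) (by linarith [g3_nonneg (2 * Real.pi / l') b])
  have a6 : Real.log (2 * (2 * Real.pi / l') * height q) ≤
      Real.log (2 * (2 * Real.pi / l)) + Real.log (height q) := by
    rw [← Real.log_mul (by positivity) hq0.ne']
    refine Real.log_le_log (by positivity) ?_
    gcongr
  rw [GG_eq]
  simp only [f2]
  linarith

theorem nsq_cd (p : W) (n : WithTop ℕ∞) : ContDiff ℝ n fun b : E W => ‖b.1 - p‖ ^ 2 :=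
  (contDiff_fst.sub contDiff_const).norm_sq ℂ

theorem f2_cd (c : ℝ) (p : W) (n : WithTop ℕ∞) : ContDiff ℝ n (f2 c p) :=
  contDiff_const.add (contDiff_const.mul (nsq_cd p n))

theorem one_le_f2 {c : ℝ} (hc : 0 ≤ c) (p : W) (b : E W) : 1 ≤ f2 c p b := by
  unfold f2
  have : 0 ≤ c * ‖b.1 - p‖ ^ 2 := by positivity
  linarith

theorem ee_cd (c : ℝ) (n : WithTop ℕ∞) :
    ContDiff ℝ n fun b : E W => Real.exp (2 * c * ‖b.1‖ ^ 2) :=
  (contDiff_const.mul (contDiff_fst.norm_sq ℂ)).exp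

theorem g3_cd (c : ℝ) (n : WithTop ℕ∞) : ContDiff ℝ n (g3 c : E W → ℝ) :=
  (contDiff_snd.norm_sq ℂ).mul (ee_cd c n)

/-- uniform bound for the horizontal term -/
theorem db2 [FiniteDimensional ℂ W] {c : ℝ} (hc : 0 < c) (b : E W) {r : ℝ} (hr : 0 < r) :
    ∃ K : ℝ, ∀ p : W, Db (ball b r) K fun y => Real.log (f2 c p y) := by
  have : ProperSpace (E W) := FiniteDimensional.proper ℂ (E W)
  obtain ⟨K2, hK2, h2⟩ := exists_Db_of_compact (s := ball b r) isOpen_univ
    (nsq_cd b.1 3).contDiffOn (isCompact_closedBall b r) (subset_univ _) ball_subset_closedBall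
  obtain ⟨a, ha⟩ : ∃ a, a = c * K2 + 216 * ((r + 1) * (1 + c)) / 1 ^ 3 := ⟨_, rfl⟩
  obtain ⟨m, hm⟩ : ∃ m, m = 1 / (2 + 2 * c * r ^ 2) := ⟨_, rfl⟩
  have hm0 : 0 < m := by rw [hm]; positivity
  have hm1 : m ≤ 1 := by
    rw [hm, div_le_one (by positivity)]
    have : 0 ≤ c * r ^ 2 := by positivity
    linarith
  refine ⟨10 / m ^ 3 * (a + a ^ 3), fun p => ?_⟩
  obtain ⟨A, hA⟩ : ∃ A, A = f2 c p b := ⟨_, rfl⟩
  have hA1 : 1 ≤ A := hA ▸ one_le_f2 hc.le p b
  have hA0 : 0 < A := by linarith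
  let h : E W → ℂ := fun y => ((2 * c / A : ℝ) : ℂ) * inner ℂ (b.1 - p) (y.1 - b.1)
  have hh : ContDiff ℂ 4 h :=
    contDiff_const.mul ((innerSL ℂ (b.1 - p)).contDiff.comp (contDiff_fst.sub contDiff_const))
  have hb : ∀ y ∈ ball b (r + 1), ‖h y‖ ≤ (r + 1) * (1 + c) := by
    intro y hy
    have h1 : ‖y.1 - b.1‖ ≤ r + 1 :=
      (norm_fst_le (y - b)).trans (mem_ball_iff_norm.1 hy).le
    have h3 : 2 * c / A * ‖b.1 - p‖ ≤ 1 + c := by
      rw [div_mul_eq_mul_div, div_le_iff₀ hA0, hA, f2]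
      have := mul_nonneg hc.le (sq_nonneg (‖b.1 - p‖ - 1))
      have : 0 ≤ c * (c * ‖b.1 - p‖ ^ 2) := by positivity
      nlinarith
    calc ‖h y‖ = 2 * c / A * ‖inner ℂ (b.1 - p) (y.1 - b.1)‖ := by
          simp only [h, norm_mul, Complex.norm_real, Real.norm_eq_abs]
          rw [abs_of_pos (by positivity)]
      _ ≤ 2 * c / A * (‖b.1 - p‖ * (r + 1)) := by
          gcongr
          exact (norm_inner_le_norm _ _).trans (by gcongr)
      _ = 2 * c / A * ‖b.1 - p‖ * (r + 1) := by ring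
      _ ≤ (1 + c) * (r + 1) := by gcongr
      _ = _ := mul_comm _ _
  have d1 := Db.re_hol (s := ball b r) isOpen_ball hh.contDiffOn one_pos le_rfl
    (fun y hy => ball_subset_ball' (by linarith [mem_ball.1 hy])) hb
  have d2 : Db (ball b r) (c * K2) fun y : E W => c / A * ‖y.1 - b.1‖ ^ 2 := by
    refine (Db.const_mul isOpen_ball (c / A) h2.1).mono ?_
    rw [abs_of_pos (by positivity)]
    gcongr
    exact div_le_self hc.le hA1
  have e : ∀ y : E W, c / A * ‖y.1 - b.1‖ ^ 2 + (h y).re + 1 = f2 c p y / A := by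
    intro y
    have e1 : y.1 - p = (b.1 - p) + (y.1 - b.1) := by abel
    have e2 : A = 1 + c * ‖b.1 - p‖ ^ 2 := hA
    rw [f2, e1, @norm_add_sq ℂ]
    simp only [h, Complex.re_ofReal_mul, RCLike.re_to_complex]
    field_simp
    rw [e2]; ring
  have d3 : Db (ball b r) a fun y : E W => f2 c p y / A := by
    rw [ha]
    exact ((Db.add isOpen_ball d2 d1).add_const 1).congr isOpen_ball fun y _ => (e y).symm
  have low : ∀ y ∈ ball b r, m ≤ f2 c p y / A := by
    intro y hy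
    have h1 : ‖y.1 - b.1‖ ≤ r := (norm_fst_le (y - b)).trans (mem_ball_iff_norm.1 hy).le
    have h3 : ‖b.1 - p‖ ≤ ‖y.1 - p‖ + r := by
      have := norm_sub_le_norm_sub_add_norm_sub b.1 y.1 p
      rw [norm_sub_rev b.1 y.1] at this
      linarith
    have h4 : ‖b.1 - p‖ ^ 2 ≤ 2 * ‖y.1 - p‖ ^ 2 + 2 * r ^ 2 := by
      have : ‖b.1 - p‖ ^ 2 ≤ (‖y.1 - p‖ + r) ^ 2 := by gcongr
      nlinarith [sq_nonneg (‖y.1 - p‖ - r)]
    rw [hm, div_le_div_iff₀ (by positivity) hA0, hA, f2, f2]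
    have h5 := mul_le_mul_of_nonneg_left h4 hc.le
    have : 0 ≤ c * ‖y.1 - p‖ ^ 2 * (c * r ^ 2) := by positivity
    nlinarith
  refine ((d3.log isOpen_ball hm0 hm1 low).add_const (Real.log A)).congr isOpen_ball fun y _ => ?_
  have := one_le_f2 hc.le p y
  rw [Real.log_div (by linarith) hA0.ne']
  ring

theorem fderiv_fst_sub (p : W) (x η : E W) : fderiv ℂ (fun y : E W => y.1 - p) x η = η.1 := by
  rw [fderiv_sub_const, fderiv_fst]; rfl

theorem fderiv_snd' (x η : E W) : fderiv ℂ (fun y : E W => y.2) x η = η.2 := by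
  rw [show (fun y : E W => y.2) = Prod.snd from rfl, fderiv_snd]; rfl

theorem lev_nsq (p : W) (x η : E W) : lev (fun y : E W => ‖y.1 - p‖ ^ 2) x η = ‖η.1‖ ^ 2 := by
  rw [lev_normSq_hol (h := fun y : E W => y.1 - p) (contDiff_fst.sub contDiff_const).contDiffAt,
    fderiv_fst_sub]

theorem fd_nsq (p : W) (x η : E W) :
    fderiv ℝ (fun y : E W => ‖y.1 - p‖ ^ 2) x η = 2 * (inner ℂ (x.1 - p) η.1).re ∧
    fderiv ℝ (fun y : E W => ‖y.1 - p‖ ^ 2) x (I • η) = -2 * (inner ℂ (x.1 - p) η.1).im := by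
  have := fderiv_normSq_hol (h := fun y : E W => y.1 - p) (x := x) (by fun_prop) η
  rwa [fderiv_fst_sub] at this

/-- Levi form and derivatives of a function of the horizontal distance -/
theorem lev_phi {φ : ℝ → ℝ} (p : W) (x η : E W) (hφ : ContDiffAt ℝ 2 φ (‖x.1 - p‖ ^ 2)) :
    lev (fun y : E W => φ (‖y.1 - p‖ ^ 2)) x η = deriv φ (‖x.1 - p‖ ^ 2) * ‖η.1‖ ^ 2 +
      deriv (deriv φ) (‖x.1 - p‖ ^ 2) * ‖inner ℂ (x.1 - p) η.1‖ ^ 2 := by
  rw [lev_comp (f := fun y : E W => ‖y.1 - p‖ ^ 2) hφ (nsq_cd p 2).contDiffAt, lev_nsq,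
    (fd_nsq p x η).1, (fd_nsq p x η).2, Complex.sq_norm (inner ℂ _ _), Complex.normSq_apply]
  ring

theorem lev2 {c : ℝ} (hc : 0 < c) (p : W) (x η : E W) :
    c * ‖η.1‖ ^ 2 / f2 c p x ^ 2 ≤ lev (fun y => Real.log (f2 c p y)) x η := by
  have hf := one_le_f2 hc.le p x
  obtain ⟨t, ht⟩ : ∃ t, t = ‖x.1 - p‖ ^ 2 := ⟨_, rfl⟩
  have ht0 : 0 ≤ t := ht ▸ sq_nonneg _
  have pos : ∀ s : ℝ, -(1 / c) < s → 0 < 1 + c * s := fun s hs => by
    have := mul_lt_mul_of_pos_left hs hc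
    rw [mul_neg, mul_one_div_cancel hc.ne'] at this
    linarith
  have ht1 : -(1 / c) < t := by
    have : 0 < 1 / c := by positivity
    linarith
  have D1 : ∀ s : ℝ, -(1 / c) < s →
      HasDerivAt (fun s : ℝ => Real.log (1 + c * s)) (c / (1 + c * s)) s := fun s hs => by
    simpa using (((hasDerivAt_id s).const_mul c).const_add 1).log (pos s hs).ne'
  have D2 : deriv (deriv fun s : ℝ => Real.log (1 + c * s)) t = -(c ^ 2 / (1 + c * t) ^ 2) := by
    have e : deriv (fun s : ℝ => Real.log (1 + c * s)) =ᶠ[𝓝 t] fun s => c / (1 + c * s) := by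
      filter_upwards [Ioi_mem_nhds ht1] with s hs using (D1 s hs).deriv
    rw [e.deriv_eq]
    have := (hasDerivAt_const t c).div (((hasDerivAt_id t).const_mul c).const_add 1)
      (pos t ht1).ne'
    refine (HasDerivAt.deriv this).trans ?_
    simp only [id]
    ring
  have h := lev_phi (φ := fun s => Real.log (1 + c * s)) p x η
    (ContDiffAt.log (by fun_prop) (by rw [← ht]; exact (pos t ht1).ne'))
  rw [← ht, D2, (D1 t ht1).deriv] at h
  have e : f2 c p x = 1 + c * t := by rw [ht]; rfl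
  refine le_of_le_of_eq ?_ h.symm
  rw [e]
  have h1 : ‖inner ℂ (x.1 - p) η.1‖ ^ 2 ≤ t * ‖η.1‖ ^ 2 := by
    rw [ht, ← mul_pow]
    gcongr
    exact norm_inner_le_norm _ _
  have h2 := pos t ht1
  have h3 : c ^ 2 / (1 + c * t) ^ 2 * ‖inner ℂ (x.1 - p) η.1‖ ^ 2 ≤
      c ^ 2 / (1 + c * t) ^ 2 * (t * ‖η.1‖ ^ 2) := by gcongr
  have h4 : c * ‖η.1‖ ^ 2 / (1 + c * t) ^ 2 =
      c / (1 + c * t) * ‖η.1‖ ^ 2 - c ^ 2 / (1 + c * t) ^ 2 * (t * ‖η.1‖ ^ 2) := by
    field_simp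
    ring
  linarith

theorem lev_g3 {c : ℝ} (hc : 0 < c) (x η : E W) :
    ‖η.2 + 2 * c * x.2 * inner ℂ x.1 η.1‖ ^ 2 ≤ lev (g3 c) x η := by
  have D1 : ∀ s : ℝ, HasDerivAt (fun s : ℝ => Real.exp (2 * c * s))
      (Real.exp (2 * c * s) * (2 * c)) s := fun s => by
    simpa using ((hasDerivAt_id s).const_mul (2 * c)).exp
  have D1' : deriv (fun s : ℝ => Real.exp (2 * c * s)) = fun s => Real.exp (2 * c * s) * (2 * c) :=
    funext fun s => (D1 s).deriv
  have h := lev_phi (φ := fun s => Real.exp (2 * c * s)) (0 : W) x η (by fun_prop)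
  rw [D1', ((D1 _).mul_const (2 * c)).deriv] at h
  simp only [sub_zero] at h
  have hd : ∀ v, fderiv ℝ (fun y : E W => Real.exp (2 * c * ‖y.1‖ ^ 2)) x v =
      Real.exp (2 * c * ‖x.1‖ ^ 2) * (2 * c) * fderiv ℝ (fun y : E W => ‖y.1 - 0‖ ^ 2) x v := by
    intro v
    have h1 := (D1 (‖x.1 - 0‖ ^ 2)).comp_hasFDerivAt x
      ((nsq_cd (0 : W) 1).differentiable one_ne_zero x).hasFDerivAt
    have h2 := h1.fderiv
    simp only [Function.comp_def, sub_zero] at h2 ⊢
    rw [h2]; rfl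
  have ha := lev_normSq_hol (h := fun y : E W => y.2) (x := x) contDiff_snd.contDiffAt η
  have hb := fderiv_normSq_hol (h := fun y : E W => y.2) (x := x) (by fun_prop) η
  rw [fderiv_snd'] at ha hb
  have hm := lev_mul (f := fun y : E W => ‖y.2‖ ^ 2)
    (g := fun y : E W => Real.exp (2 * c * ‖y.1‖ ^ 2)) (x := x)
    (contDiff_snd.norm_sq ℂ).contDiffAt (ee_cd c 2).contDiffAt η
  rw [h, ha, hb.1, hb.2, hd, hd, (fd_nsq 0 x η).1, (fd_nsq 0 x η).2, sub_zero] at hm
  refine le_of_le_of_eq ?_ hm.symm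
  have he : 1 ≤ Real.exp (2 * c * ‖x.1‖ ^ 2) := Real.one_le_exp (by positivity)
  generalize Real.exp (2 * c * ‖x.1‖ ^ 2) = e at he
  generalize (inner ℂ x.1 η.1 : ℂ) = p
  have key : ‖x.2‖ ^ 2 * (e * (2 * c) * ‖η.1‖ ^ 2 + e * (2 * c) * (2 * c) * ‖p‖ ^ 2) +
      e * ‖η.2‖ ^ 2 + (2 * (inner ℂ x.2 η.2 : ℂ).re * (e * (2 * c) * (2 * p.re)) +
        -2 * (inner ℂ x.2 η.2 : ℂ).im * (e * (2 * c) * (-2 * p.im))) / 2 =
      e * (‖η.2 + 2 * c * x.2 * p‖ ^ 2 + 2 * c * ‖x.2‖ ^ 2 * ‖η.1‖ ^ 2) := by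
    simp only [Complex.sq_norm, Complex.normSq_apply]
    simp
    ring
  rw [key]
  have : 0 ≤ 2 * c * ‖x.2‖ ^ 2 * ‖η.1‖ ^ 2 := by positivity
  nlinarith [sq_nonneg ‖η.2 + 2 * c * x.2 * p‖]

theorem lev3 {c : ℝ} (hc : 0 < c) (x η : E W) (hx : g3 c x < 1) :
    lev (fun y => Real.log (1 - g3 c y)) x η ≤ -‖η.2 + 2 * c * x.2 * inner ℂ x.1 η.1‖ ^ 2 := by
  have D1 : ∀ s : ℝ, s < 1 → HasDerivAt (fun s : ℝ => Real.log (1 - s)) (-1 / (1 - s)) s :=
    fun s hs => by simpa using ((hasDerivAt_id s).const_sub 1).log (sub_pos.2 hs).ne'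
  have D2 : deriv (deriv fun s : ℝ => Real.log (1 - s)) (g3 c x) = -(1 / (1 - g3 c x) ^ 2) := by
    have e : deriv (fun s : ℝ => Real.log (1 - s)) =ᶠ[𝓝 (g3 c x)] fun s => -1 / (1 - s) := by
      filter_upwards [Iio_mem_nhds hx] with s hs using (D1 s hs).deriv
    rw [e.deriv_eq]
    have := (hasDerivAt_const (g3 c x) (-1 : ℝ)).div ((hasDerivAt_id (g3 c x)).const_sub 1)
      (sub_pos.2 hx).ne'
    refine (HasDerivAt.deriv this).trans ?_
    simp only [id]
    ring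
  rw [lev_comp (φ := fun s => Real.log (1 - s)) (f := g3 c)
    (ContDiffAt.log (by fun_prop) (sub_pos.2 hx).ne') (g3_cd c 2).contDiffAt, D2, (D1 _ hx).deriv]
  have h1 := lev_g3 hc x η
  have h0 := g3_nonneg c x
  have h2 : 0 < 1 - g3 c x := sub_pos.2 hx
  have h3 : 1 ≤ 1 / (1 - g3 c x) := by
    rw [le_div_iff₀ h2]; linarith
  have h4 : 0 ≤ 1 / (1 - g3 c x) ^ 2 *
      (fderiv ℝ (g3 c) x η ^ 2 + fderiv ℝ (g3 c) x (I • η) ^ 2) := by positivity
  have h5 : 0 ≤ lev (g3 c) x η := (sq_nonneg _).trans h1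
  have h6 : -1 / (1 - g3 c x) = -(1 / (1 - g3 c x)) := by ring
  rw [h6]
  nlinarith

theorem lev_GG {l H : ℝ} (hl : 0 < l) (hH : 1 ≤ H) {q x : E W} (hq0 : 0 < height q)
    (hx : x ∈ UU l H) (η : E W) :
    2 * (2 * Real.pi / l * ‖η.1‖ ^ 2 / f2 (2 * Real.pi / l) q.1 x ^ 2) +
      ‖η.2 + 2 * (2 * Real.pi / l : ℝ) * x.2 * inner ℂ x.1 η.1‖ ^ 2 ≤ lev (GG l q) x η := by
  have hc : 0 < 2 * Real.pi / l := by have := Real.pi_pos; positivity
  have h0 : 1 - hq l q x ≠ 0 := by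
    intro h
    have := (norm_hq_le hl hq0 hx).trans_lt (exp_lt hl hH)
    rw [← sub_eq_zero.1 h, norm_one] at this
    exact lt_irrefl _ this
  have hh : ContDiffAt ℂ 2 (fun y => 1 - hq l q y) x :=
    (contDiff_const.sub (hq_cd l q 2)).contDiffAt
  have c1 : ContDiffAt ℝ 2 (fun y => Real.log (‖1 - hq l q y‖ ^ 2)) x :=
    ((hh.restrict_scalars ℝ).norm_sq ℂ).log (pow_ne_zero _ (norm_ne_zero_iff.2 h0))
  have c2 : ContDiffAt ℝ 2 (fun y => Real.log (f2 (2 * Real.pi / l) q.1 y)) x :=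
    (f2_cd _ _ 2).contDiffAt.log (by linarith [one_le_f2 hc.le q.1 x])
  have c3 : ContDiffAt ℝ 2 (fun y => Real.log (1 - g3 (2 * Real.pi / l) y)) x :=
    (contDiff_const.sub (g3_cd _ 2)).contDiffAt.log (sub_pos.2 (g3_lt hl hH hx)).ne'
  have c2' := (contDiffAt_const (c := (2 : ℝ))).mul c2
  rw [GG_eq, lev_sub ((c1.add c2').sub c3) contDiffAt_const, lev_sub (c1.add c2') c3,
    lev_add c1 c2', lev_const_mul 2 c2, lev_const, lev_log_hol hh h0]
  have := lev2 hc q.1 x η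
  have := lev3 hc x η (g3_lt hl hH hx)
  linarith

end DeepP

open DeepP in
theorem deep {W : Type} [NormedAddCommGroup W] [InnerProductSpace ℂ W] [FiniteDimensional ℂ W] :
    DeepStmt W := by
  intro l H hl hH
  refine ⟨fun b r hb => ?_, fun L' => ?_⟩
  swap
  · obtain ⟨C, hC⟩ := lower (W := W) (L' := L') hl hH
    exact ⟨C, fun l' h1 h2 q b hq0 _ hb => hC l' h1 h2 q b hq0 hb⟩
  rcases le_or_gt r 0 with hr | hr
  · refine ⟨0, 1, one_pos, fun q _ _ => ?_⟩
    rw [ball_eq_empty.2 hr]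
    exact ⟨⟨contDiffOn_empty, fun _ _ _ _ h => h.elim⟩, fun _ h => h.elim⟩
  have : ProperSpace (E W) := FiniteDimensional.proper ℂ (E W)
  obtain ⟨c, hcl⟩ : ∃ c, c = 2 * Real.pi / l := ⟨_, rfl⟩
  have hc : 0 < c := by rw [hcl]; have := Real.pi_pos; positivity
  obtain ⟨δ, hδ, hδ'⟩ := (isCompact_closedBall b r).exists_thickening_subset_open
    (isOpen_UU l H) hb
  obtain ⟨K1, hK1⟩ := exists_Db_log_one_sub (M := E W) (exp_lt hl hH) (lt_min hδ one_pos)
    (min_le_right _ _)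
  obtain ⟨K2, hK2⟩ := db2 hc b hr
  obtain ⟨K3, -, hK3⟩ := exists_Db_of_compact (s := ball b r)
    (f := fun y => Real.log (1 - g3 c y)) (isOpen_UU l H)
    ((contDiff_const.sub (g3_cd c 3)).contDiffOn.log fun y hy =>
      (sub_pos.2 (hcl ▸ g3_lt hl hH hy)).ne')
    (isCompact_closedBall b r) hb ball_subset_closedBall
  obtain ⟨C, hC⟩ := lower (W := W) (L' := l) hl hH
  obtain ⟨R, hR⟩ : ∃ R, R = ‖b‖ + r := ⟨_, rfl⟩
  obtain ⟨A, hA⟩ : ∃ A, A = (1 + 8 * c ^ 2 * R ^ 2) / (2 * c) + 2 := ⟨_, rfl⟩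
  have hA0 : 0 < A := by rw [hA]; positivity
  refine ⟨K1 + |2| * K2 + K3 + 0, 1 / (2 * Real.exp C * A), by positivity,
    fun q hq0 hq2 => ⟨?_, fun x hx η => ?_⟩⟩
  · rw [GG_eq, ← hcl]
    refine Db.sub isOpen_ball (Db.sub isOpen_ball (Db.add isOpen_ball ?_
      (Db.const_mul isOpen_ball 2 (hK2 q.1))) hK3.1) (Db.const _ _)
    refine hK1 _ _ _ (isOpen_UU l H) (hq_cd l q 4).contDiffOn (fun y hy z hz => hδ' ?_)
      fun y hy => norm_hq_le hl hq0 hy
    exact mem_thickening_iff.2 ⟨y, ball_subset_closedBall hy,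
      (mem_ball.1 hz).trans_le (min_le_left _ _)⟩
  · have hx' := hb (ball_subset_closedBall hx)
    refine le_trans ?_ (lev_GG hl hH hq0 hx' η)
    have h1 := hC l le_rfl le_rfl q x hq0 hx'
    rw [← hcl] at h1 ⊢
    have hf := one_le_f2 hc.le q.1 x
    obtain ⟨f, hfe⟩ : ∃ f, f = f2 c q.1 x := ⟨_, rfl⟩
    rw [show 1 + c * ‖x.1 - q.1‖ ^ 2 = f from hfe.symm] at h1
    rw [← hfe] at hf ⊢
    have h2 : Real.exp (-GG l q x) ≤ 2 * Real.exp C / f ^ 2 := by
      have h3 : Real.log (height q) ≤ Real.log 2 := Real.log_le_log hq0 hq2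
      have h4 : 2 * Real.exp C / f ^ 2 = Real.exp (Real.log 2 + C - 2 * Real.log f) := by
        rw [Real.exp_sub, Real.exp_add, Real.exp_log two_pos, two_mul (Real.log f), Real.exp_add,
          Real.exp_log (by linarith), sq]
      rw [h4]
      exact Real.exp_le_exp.2 (by linarith)
    obtain ⟨u, hu⟩ : ∃ u, u = ‖η.2 + 2 * c * x.2 * inner ℂ x.1 η.1‖ := ⟨_, rfl⟩
    rw [← hu]
    have hz : ‖x.1‖ ≤ R := by
      have := norm_le_norm_add_norm_sub' x b
      have := mem_ball_iff_norm.1 hx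
      linarith [norm_fst_le x]
    have hR0 : 0 ≤ R := (norm_nonneg _).trans hz
    have h5 : ‖η.2‖ ≤ u + 2 * c * R * ‖η.1‖ := by
      have a1 : ‖(2 * c * x.2 * inner ℂ x.1 η.1 : ℂ)‖ ≤ 2 * c * 1 * (R * ‖η.1‖) := by
        simp only [norm_mul, Complex.norm_real, Real.norm_eq_abs, abs_of_pos hc, Complex.norm_two]
        gcongr
        · exact norm_snd_le hl hH hx'
        · exact (norm_inner_le_norm _ _).trans (by gcongr)
      have a2 := norm_sub_le (η.2 + 2 * c * x.2 * inner ℂ x.1 η.1)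
        (2 * c * x.2 * inner ℂ x.1 η.1)
      rw [add_sub_cancel_right, ← hu] at a2
      linarith
    have h6 : ‖η‖ ^ 2 ≤ (1 + 8 * c ^ 2 * R ^ 2) * ‖η.1‖ ^ 2 + 2 * u ^ 2 := by
      have a1 : ‖η.2‖ ^ 2 ≤ (u + 2 * c * R * ‖η.1‖) ^ 2 := by gcongr
      have a2 : ‖η‖ ^ 2 ≤ ‖η.1‖ ^ 2 + ‖η.2‖ ^ 2 := by
        rw [Prod.norm_def]
        rcases le_total ‖η.1‖ ‖η.2‖ with h | h
        · rw [max_eq_right h]; nlinarith [sq_nonneg ‖η.1‖]
        · rw [max_eq_left h]; nlinarith [sq_nonneg ‖η.2‖]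
      nlinarith [sq_nonneg (u - 2 * c * R * ‖η.1‖)]
    have hf2 : 1 ≤ f ^ 2 := one_le_pow₀ hf
    have h7 : ‖η‖ ^ 2 / f ^ 2 ≤ A * (2 * (c * ‖η.1‖ ^ 2 / f ^ 2) + u ^ 2) := by
      rw [div_le_iff₀ (by positivity)]
      have e : A * (2 * (c * ‖η.1‖ ^ 2 / f ^ 2) + u ^ 2) * f ^ 2 =
          (1 + 8 * c ^ 2 * R ^ 2) * ‖η.1‖ ^ 2 + 4 * c * ‖η.1‖ ^ 2 + 2 * (u ^ 2 * f ^ 2) +
            (1 + 8 * c ^ 2 * R ^ 2) / (2 * c) * (u ^ 2 * f ^ 2) := by
        rw [hA]; field_simp; ring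
      rw [e]
      have a1 : 0 ≤ 4 * c * ‖η.1‖ ^ 2 := by positivity
      have a2 : 0 ≤ (1 + 8 * c ^ 2 * R ^ 2) / (2 * c) * (u ^ 2 * f ^ 2) := by positivity
      have a3 : u ^ 2 ≤ u ^ 2 * f ^ 2 := le_mul_of_one_le_right (sq_nonneg _) hf2
      linarith
    calc 1 / (2 * Real.exp C * A) * Real.exp (-GG l q x) * ‖η‖ ^ 2
        ≤ 1 / (2 * Real.exp C * A) * (2 * Real.exp C / f ^ 2) * ‖η‖ ^ 2 := by gcongr
      _ = 1 / A * (‖η‖ ^ 2 / f ^ 2) := by field_simp
      _ ≤ 1 / A * (A * (2 * (c * ‖η.1‖ ^ 2 / f ^ 2) + u ^ 2)) := by gcongr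
      _ = _ := by field_simp

end Pool.Agent.MP_8ac6f3_ag

end

end MrgPart3

-- ======== part 4: formerly Pool.Agent.MP_8ac6f3_ag.C01
section MrgPart4

/-! Row C01: the horoball system of a toroidal compactification, and the lifts of the charts to
a connected covering space. -/

open Set Metric Complex
open scoped Manifold ContDiff ComplexConjugate Topology

noncomputable section

namespace Pool.Agent.MP_8ac6f3_ag

variable {W : Type} [NormedAddCommGroup W] [InnerProductSpace ℂ W]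

namespace C01

section Cusps

variable {L : ℝ} {X : Type} [TopologicalSpace X] [ChartedSpace (E W) X] (T : Toroidal W L X)

/-- The frame attached to a pair. -/
def F (a : T.Γ × Fin T.k) : GV W := T.g a.2 * (a.1.1)⁻¹

theorem F_uni (a : T.Γ × Fin T.k) : Unitary (F T a) :=
  (T.g_unitary _).mul (T.unitary _ a.1.2).inv

/-- Two pairs give the same cusp. -/
def rel : Setoid (T.Γ × Fin T.k) where
  r a b := a.2 = b.2 ∧ InP (F T a * (F T b)⁻¹)
  iseqv :=
    { refl := fun a => ⟨rfl, by rw [mul_inv_cancel]; exact InP.one⟩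
      symm := fun {a b} h => ⟨h.1.symm, by
        have := h.2.inv
        rwa [mul_inv_rev, inv_inv] at this⟩
      trans := fun {a b c} h h' => ⟨h.1.trans h'.1, by
        have := h.2.mul h'.2
        rwa [mul_assoc, inv_mul_cancel_left] at this⟩ }

/-- Left multiplication on pairs. -/
def mv (δ : T.Γ) (a : T.Γ × Fin T.k) : T.Γ × Fin T.k := (δ * a.1, a.2)

theorem F_mv (δ : T.Γ) (a : T.Γ × Fin T.k) : F T (mv T δ a) = F T a * (δ.1)⁻¹ := by
  simp only [F, mv, Subgroup.coe_mul, mul_inv_rev, mul_assoc]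

theorem rel_mv (δ : T.Γ) {a b : T.Γ × Fin T.k} (h : (rel T).r a b) :
    (rel T).r (mv T δ a) (mv T δ b) := by
  refine ⟨h.1, ?_⟩
  have e : F T (mv T δ a) * (F T (mv T δ b))⁻¹ = F T a * (F T b)⁻¹ := by
    rw [F_mv, F_mv]; group
  rw [e]; exact h.2

/-- The set of cusps. -/
def Cusp : Type := Quotient (rel T)

instance : MulAction T.Γ (Cusp T) where
  smul δ v := Quotient.map (sa := rel T) (sb := rel T) (mv T δ) (fun _ _ h => rel_mv T δ h) v
  one_smul v := by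
    induction v using Quotient.inductionOn with
    | h a =>
      change Quotient.mk (rel T) (mv T 1 a) = Quotient.mk (rel T) a
      simp [mv]
  mul_smul δ δ' v := by
    induction v using Quotient.inductionOn with
    | h a =>
      change Quotient.mk (rel T) (mv T (δ * δ') a) = Quotient.mk (rel T) (mv T δ (mv T δ' a))
      simp [mv, mul_assoc]

/-- The class of a pair. -/
def mk (a : T.Γ × Fin T.k) : Cusp T := Quotient.mk (rel T) a

/-- A representative of a cusp. -/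
def out (v : Cusp T) : T.Γ × Fin T.k := Quotient.out (s := rel T) v

theorem mk_out (v : Cusp T) : mk T (out T v) = v := Quotient.out_eq (s := rel T) v

theorem mk_eq {a b : T.Γ × Fin T.k} : mk T a = mk T b ↔ (rel T).r a b := Quotient.eq

theorem smul_mk (δ : T.Γ) (a : T.Γ × Fin T.k) : δ • mk T a = mk T (mv T δ a) := rfl

theorem rel_smul (δ : T.Γ) (v : Cusp T) : (rel T).r (out T (δ • v)) (mv T δ (out T v)) := by
  rw [← mk_eq, mk_out, ← smul_mk, mk_out]

theorem vert_iff (i : Fin T.k) (s : ℝ) :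
    (T.g i)⁻¹ * vertE s * T.g i ∈ T.Γ ↔ ∃ n : ℤ, s = n * T.l i := by
  rw [← T.vert i s]
  constructor
  · intro h
    refine ⟨_, h, fun Z => ?_⟩
    have e : T.g i * ((T.g i)⁻¹ * vertE s * T.g i) * (T.g i)⁻¹ = vertE s := by group
    rw [← vertE_apply, symm_eq_inv]
    conv_rhs => rw [← e]
    rfl
  · rintro ⟨γ, hγ, h⟩
    have e : T.g i * γ * (T.g i)⁻¹ = vertE s := by
      ext1
      ext1 Z
      rw [vertE_apply, ← h Z, symm_eq_inv]
      rfl
    have e' : (T.g i)⁻¹ * vertE s * T.g i = γ := by rw [← e]; group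
    rwa [e']

/-- The horoball system. -/
def sys : Sys W L where
  Γ := T.Γ
  uni := T.unitary
  I := Cusp T
  fr v := F T (out T v)
  fr_uni v := F_uni T _
  len v := T.l (out T v).2
  deep v := T.deep _
  bdd := by
    obtain ⟨L', h⟩ := (Set.finite_range T.l).bddAbove
    exact ⟨L', fun v => h ⟨_, rfl⟩⟩
  fr_smul δ v := by
    have h := (rel_smul T δ v).2
    rw [F_mv, mul_inv_rev, inv_inv, ← mul_assoc] at h
    exact h
  len_smul δ v := by rw [(rel_smul T δ v).1]; rfl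
  disj v w x hx h1 h2 := by
    rw [← mk_out T v, ← mk_out T w, mk_eq]
    generalize out T v = a at h1
    generalize out T w = b at h2
    have ha := T.unitary _ a.1.2
    have hb := T.unitary _ b.1.2
    have hy := height_act_pos ha.inv hx
    have hδ : (b.1.1)⁻¹ * a.1.1 ∈ T.Γ := T.Γ.mul_mem (T.Γ.inv_mem b.1.2) a.1.2
    have e : act ((b.1.1)⁻¹ * a.1.1) (act (a.1.1)⁻¹ x) = act (b.1.1)⁻¹ x := by
      rw [act_mul ha hy, act_act_inv ha hx]
    rw [F, act_mul ha.inv hx] at h1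
    rw [F, act_mul hb.inv hx, ← e] at h2
    obtain ⟨hi, c, hc, h⟩ := T.disj _ hδ a.2 b.2 _ hy h1 h2
    refine (rel T).symm ⟨hi.symm, c, hc, ?_⟩
    have e' : F T b * (F T a)⁻¹ = T.g a.2 * ((b.1.1)⁻¹ * a.1.1) * (T.g a.2)⁻¹ := by
      rw [F, F, ← hi]; group
    rw [e', ← h, symm_eq_inv]
    rfl
  vert v s := by
    rw [← vert_iff]
    generalize out T v = a
    have e : (F T a)⁻¹ * vertE s * F T a =
        a.1.1 * ((T.g a.2)⁻¹ * vertE s * T.g a.2) * (a.1.1)⁻¹ := by rw [F]; group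
    rw [e, T.Γ.mul_mem_cancel_right (T.Γ.inv_mem a.1.2), T.Γ.mul_mem_cancel_left a.1.2]
  vert_fix v s h := by
    refine (congrArg _ (mk_out T v).symm).trans (Eq.trans ?_ (mk_out T v))
    rw [smul_mk, mk_eq]
    refine (rel T).symm ⟨rfl, ?_⟩
    have e : F T (out T v) * (F T (mv T ⟨_, h⟩ (out T v)))⁻¹ = vertE s := by
      rw [F_mv]; group
    rw [e]
    exact inP_vertE s

theorem link : Link T (sys T) where
  grp := rfl
  of_cusp v := ⟨_, (out T v).1.2, (out T v).2, rfl, rfl⟩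
  to_cusp γ hγ i := by
    have h : (rel T).r (⟨γ, hγ⟩, i) (out T (mk T (⟨γ, hγ⟩, i))) := by
      rw [← mk_eq, mk_out]
    exact ⟨mk T (⟨γ, hγ⟩, i), h.2, congrArg T.l h.1.symm⟩

end Cusps

section Cover

variable {M X Y : Type} [NormedAddCommGroup M] [NormedSpace ℝ M] [TopologicalSpace X]
  [TopologicalSpace Y] {p : Y → X}

/-- Lifting on an open star shaped set. -/
theorem exists_lift (hp : IsCoveringMap p) {A : Set M} (hA : IsOpen A) {c : M}
    (hc : StarConvex ℝ c A) {f : M → X} (hf : ContinuousOn f A) {a : M} (ha : a ∈ A) {y : Y}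
    (hy : p y = f a) : ∃ G : M → Y, ContinuousOn G A ∧ (∀ b ∈ A, p (G b) = f b) ∧ G a = y := by
  classical
  have := hc.contractibleSpace ⟨a, ha⟩
  have := hA.locallyPathConnectedSpace
  obtain ⟨G, ⟨h0, h1⟩, -⟩ := hp.existsUnique_continuousMap_lifts
    (⟨A.domRestrict f, hf.domRestrict⟩ : C(A, X)) ⟨a, ha⟩ y hy
  refine ⟨fun b => if h : b ∈ A then G ⟨b, h⟩ else y, ?_, fun b hb => ?_, ?_⟩
  · rw [continuousOn_iff_continuous_domRestrict]
    refine G.continuous.congr fun b => ?_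
    simp [b.2]
  · simp only [dif_pos hb]
    exact congrFun h1 ⟨b, hb⟩
  · simp only [dif_pos ha, h0]

omit [NormedSpace ℝ M] in
/-- A lift of a local homeomorphism is open. -/
theorem image_mem_nhds (hp : IsCoveringMap p) {A : Set M} (hA : IsOpen A) {f : M → X}
    (hf : IsLocalHomeomorphOn f A) {G : M → Y} (hG : ContinuousOn G A)
    (hl : ∀ b ∈ A, p (G b) = f b) {a : M} (ha : a ∈ A) : G '' A ∈ 𝓝 (G a) := by
  obtain ⟨e, he, rfl⟩ := hp.isLocalHomeomorph (G a)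
  have h1 : A ∩ G ⁻¹' e.source ∈ 𝓝 a :=
    Filter.inter_mem (hA.mem_nhds ha)
      ((hG.continuousAt (hA.mem_nhds ha)).preimage_mem_nhds (e.open_source.mem_nhds he))
  have h2 : f '' (A ∩ G ⁻¹' e.source) ∈ 𝓝 (e (G a)) := by
    rw [hl a ha, ← hf.map_nhds_eq ha]
    exact Filter.image_mem_map h1
  have h3 := Filter.inter_mem (e.open_source.mem_nhds he)
    ((e.continuousAt he).preimage_mem_nhds h2)
  refine Filter.mem_of_superset h3 ?_
  rintro y ⟨hy, b, ⟨hb, hb'⟩, h⟩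
  exact ⟨b, hb, e.injOn hb' hy (by rw [hl b hb, h])⟩

theorem starConvex_isPreconnected {A : Set M} {c : M} (hc : StarConvex ℝ c A) :
    IsPreconnected A := by
  rcases A.eq_empty_or_nonempty with rfl | h
  · exact isPreconnected_empty
  · exact (hc.isPathConnected (hc.mem h)).isConnected.isPreconnected

end Cover

section Lift

variable {L : ℝ} {X : Type} [TopologicalSpace X] [ChartedSpace (E W) X] (T : Toroidal W L X)
  {Y : Type} [TopologicalSpace Y] {p : Y → X}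

theorem starConvex_height (H : ℝ) :
    StarConvex ℝ (up ((H : ℂ) * I) oo) {x : E W | H < height x} := by
  refine (convex_height H).starConvex ?_
  change H < height _
  rw [height_up, height_oo]
  simp

theorem j_hom : IsLocalHomeomorphOn T.j {x | 0 < height x} := T.j_loc.isLocalHomeomorphOn

theorem φ_hom (i : Fin T.k) : IsLocalHomeomorphOn (T.φ i) (UU (T.l i) 1) :=
  (T.φ_loc i).isLocalHomeomorphOn

theorem φ_ex (i : Fin T.k) {x : E W} (hx : 1 < height x) :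
    T.φ i (ex (T.l i) x) = T.j (act (T.g i)⁻¹ x) := by
  rw [← symm_eq_inv]; exact T.φ_eq i x hx

theorem j_act {γ : GV W} (hγ : γ ∈ T.Γ) {x : E W} (hx : 0 < height x) :
    T.j (act γ x) = T.j x :=
  ((T.j_eq _ _ hx (height_act_pos (T.unitary _ hγ) hx)).2 ⟨γ, hγ, rfl⟩).symm

omit [InnerProductSpace ℂ W] in
theorem zero_mem_UU (l H : ℝ) (z : W) : ((z, 0) : E W) ∈ UU l H := by
  change ‖(0 : ℂ)‖ < _
  rw [norm_zero]
  exact Real.exp_pos _

omit [InnerProductSpace ℂ W] in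
theorem continuous_ex (l : ℝ) : Continuous (ex l : E W → E W) := by
  unfold ex
  fun_prop

/-- The base point of the horoballs. -/
def x1 : E W := up ((1 : ℝ) * I) oo

theorem x1_mem : 1 < height (x1 : E W) := by
  rw [x1, height_up, height_oo]
  simp

theorem lift_j (hp : IsCoveringMap p) {x : E W} (hx : 0 < height x) {y : Y} (hy : p y = T.j x) :
    ∃ G : E W → Y, ContinuousOn G {x | 0 < height x} ∧ (∀ b, 0 < height b → p (G b) = T.j b) ∧
      G x = y :=
  exists_lift hp (isOpen_height 0) (starConvex_height 0) (j_hom T).continuousOn hx hy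

theorem lift_φ (hL : 0 < L) (hp : IsCoveringMap p) (i : Fin T.k) {b : E W}
    (hb : b ∈ UU (T.l i) 1) {y : Y} (hy : p y = T.φ i b) :
    ∃ G : E W → Y, ContinuousOn G (UU (T.l i) 1) ∧ (∀ b ∈ UU (T.l i) 1, p (G b) = T.φ i b) ∧
      G b = y :=
  exists_lift hp (isOpen_UU _ _) (starConvex_UU (hL.trans_le (T.deep i)) 1)
    (φ_hom T i).continuousOn hb hy

theorem exists_base (hL : 0 < L) (hp : IsCoveringMap p) [Nonempty Y] :
    ∃ (y : Y) (x : E W), 0 < height x ∧ p y = T.j x := by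
  obtain ⟨y⟩ := ‹Nonempty Y›
  rcases T.cover (p y) with ⟨x, hx, h⟩ | ⟨i, z, h⟩
  · exact ⟨y, x, hx, h.symm⟩
  · obtain ⟨G, -, h1, -⟩ := lift_φ T hL hp i (zero_mem_UU _ _ z) h.symm
    refine ⟨G (ex (T.l i) x1), act (T.g i)⁻¹ x1,
      height_act_pos (T.g_unitary i).inv (one_pos.trans x1_mem), ?_⟩
    rw [h1 _ ((ex_mem_UU (hL.trans_le (T.deep i))).2 x1_mem), φ_ex T i x1_mem]

/-- A lift of the uniformisation that meets `J` is a translate of `J`. -/
theorem eq_J (hp : IsCoveringMap p) {J G : E W → Y} (hJ : ContinuousOn J {x | 0 < height x})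
    (hJ' : ∀ b, 0 < height b → p (J b) = T.j b) (hG : ContinuousOn G {x | 0 < height x})
    (hG' : ∀ b, 0 < height b → p (G b) = T.j b) {γ : GV W} (hγ : γ ∈ T.Γ) {a : E W}
    (ha : 0 < height a) (h : G a = J (act γ a)) {x : E W} (hx : 0 < height x) :
    G x = J (act γ x) := by
  have hu := T.unitary _ hγ
  have hm : MapsTo (act γ) {x : E W | 0 < height x} {x | 0 < height x} :=
    fun _ hb => height_act_pos hu hb
  refine hp.eqOn_of_comp_eqOn (g₁ := G) (g₂ := fun x => J (act γ x))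
    (convex_height 0).isPreconnected hG (hJ.comp (continuousOn_act hu) hm) (fun b hb => ?_) ha h hx
  change p (G b) = p (J (act γ b))
  rw [hG' b hb, hJ' _ (hm hb), j_act T hγ hb]

theorem exists_Φ (hL : 0 < L) (hp : IsCoveringMap p) {J : E W → Y}
    (hJ : ContinuousOn J {x | 0 < height x}) (hJ' : ∀ b, 0 < height b → p (J b) = T.j b)
    (γ : GV W) (i : Fin T.k) : ∃ G : E W → Y, γ ∈ T.Γ → ContinuousOn G (UU (T.l i) 1) ∧
      (∀ b ∈ UU (T.l i) 1, p (G b) = T.φ i b) ∧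
      ∀ x, 1 < height x → G (ex (T.l i) x) = J (act γ (act (T.g i)⁻¹ x)) := by
  by_cases hγ : γ ∈ T.Γ
  swap
  · exact ⟨J, fun h => absurd h hγ⟩
  have hl := hL.trans_le (T.deep i)
  have hu := T.unitary _ hγ
  have hg := (T.g_unitary i).inv
  have key : ∀ x : E W, 1 < height x →
      p (J (act γ (act (T.g i)⁻¹ x))) = T.φ i (ex (T.l i) x) := fun x hx => by
    have h0 := height_act_pos hg (one_pos.trans hx)
    rw [hJ' _ (height_act_pos hu h0), j_act T hγ h0, φ_ex T i hx]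
  obtain ⟨G, h1, h2, h3⟩ := lift_φ T hL hp i ((ex_mem_UU hl).2 x1_mem) (key x1 x1_mem)
  refine ⟨G, fun _ => ⟨h1, h2, fun x hx => ?_⟩⟩
  have m1 : MapsTo (ex (T.l i)) {x : E W | 1 < height x} (UU (T.l i) 1) :=
    fun _ hb => (ex_mem_UU hl).2 hb
  have m2 : MapsTo (act (T.g i)⁻¹) {x : E W | 1 < height x} {x | 0 < height x} :=
    fun _ hb => height_act_pos hg (one_pos.trans hb)
  have m3 : MapsTo (act γ) {x : E W | 0 < height x} {x | 0 < height x} :=
    fun _ hb => height_act_pos hu hb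
  have m4 : {x : E W | 1 < height x} ⊆ {x | 0 < height x} := fun b hb =>
    show 0 < height b from one_pos.trans hb
  refine hp.eqOn_of_comp_eqOn (g₁ := fun x => G (ex (T.l i) x))
    (g₂ := fun x => J (act γ (act (T.g i)⁻¹ x))) (convex_height 1).isPreconnected
    (h1.comp (continuous_ex _).continuousOn m1)
    ((hJ.comp (continuousOn_act hu) m3).comp ((continuousOn_act hg).mono m4) m2)
    (fun b hb => ?_) x1_mem h3 hx
  change p (G (ex (T.l i) b)) = p (J (act γ (act (T.g i)⁻¹ b)))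
  rw [h2 _ (m1 hb), key b hb]

theorem UU_subset_closure {l : ℝ} (hl : 0 < l) :
    (UU l 1 : Set (E W)) ⊆ closure (ex l '' {x | 1 < height x}) := by
  have hd : Dense ((univ : Set W) ×ˢ ({0}ᶜ : Set ℂ)) :=
    dense_univ.prod (dense_compl_singleton 0)
  refine (hd.open_subset_closure_inter (isOpen_UU l 1)).trans (closure_mono ?_)
  rintro b ⟨hb, -, hb'⟩
  obtain ⟨x, rfl⟩ := exists_ex hl (b := b) hb'
  exact ⟨x, (ex_mem_UU hl).1 hb, rfl⟩

end Lift

end C01

theorem c0 : C0Stmt W := fun _ _ _ _ T => ⟨C01.sys T, C01.link T⟩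

open C01 in
theorem c1 : C1Stmt W := by
  intro L X _ _ T S hL hk Y _ _ p hp
  obtain ⟨y0, x0, hx0, h0⟩ := exists_base T hL hp
  obtain ⟨J, hJ, hJ', -⟩ := lift_j T hp hx0 h0
  choose Φ hΦ using exists_Φ T hL hp hJ hJ'
  have hl : ∀ i, 0 < T.l i := fun i => hL.trans_le (T.deep i)
  have hA : ∀ y ∈ closure (J '' {x | 0 < height x}), ∀ x, 0 < height x → p y = T.j x →
      y ∈ J '' {x | 0 < height x} := by
    intro y hy x hx h
    obtain ⟨G, hG, hG', rfl⟩ := lift_j T hp hx h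
    obtain ⟨_, ⟨a, ha, rfl⟩, a', ha', e⟩ := mem_closure_iff_nhds.1 hy _
      (image_mem_nhds hp (isOpen_height 0) (j_hom T) hG hG' hx)
    obtain ⟨γ, hγ, rfl⟩ := (T.j_eq a a' ha ha').1 (by rw [← hG' a ha, ← hJ' a' ha', e])
    exact ⟨act γ x, height_act_pos (T.unitary _ hγ) hx,
      (eq_J T hp hJ hJ' hG hG' hγ ha e.symm hx).symm⟩
  have hB : ∀ y ∈ closure (J '' {x | 0 < height x}), ∀ i, ∀ b ∈ UU (T.l i) 1, p y = T.φ i b →
      ∃ γ ∈ T.Γ, Φ γ i b = y := by
    intro y hy i b hb h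
    obtain ⟨G, hG, hG', rfl⟩ := lift_φ T hL hp i hb h
    obtain ⟨_, ⟨a, ha, rfl⟩, a', ha', e⟩ := mem_closure_iff_nhds.1 hy _
      (image_mem_nhds hp (isOpen_UU _ _) (φ_hom T i) hG hG' hb)
    have e1 : T.φ i a = T.j a' := by rw [← hG' a ha, ← hJ' a' ha', e]
    have ha2 : a.2 ≠ 0 := fun h2 => T.φ_bd i a.1 a' ha' (by rw [← h2]; exact e1)
    obtain ⟨x, rfl⟩ := exists_ex (hl i) ha2
    have hx := (ex_mem_UU (hl i)).1 ha
    rw [φ_ex T i hx] at e1
    obtain ⟨γ, hγ, rfl⟩ := (T.j_eq _ a' (height_act_pos (T.g_unitary i).inv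
      (one_pos.trans hx)) ha').1 e1
    obtain ⟨h1, h2, h3⟩ := hΦ γ i hγ
    refine ⟨γ, hγ, hp.eqOn_of_comp_eqOn
      (starConvex_isPreconnected (starConvex_UU (hl i) 1)) h1 hG (fun c hc => ?_) ha
      ((h3 x hx).trans e) hb⟩
    change p (Φ γ i c) = p (G c)
    rw [h2 c hc, hG' c hc]
  have hC : IsOpen (closure (J '' {x | 0 < height x})) := by
    rw [isOpen_iff_mem_nhds]
    intro y hy
    rcases T.cover (p y) with ⟨x, hx, h⟩ | ⟨i, z, h⟩
    · obtain ⟨a, ha, rfl⟩ := hA y hy x hx h.symm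
      exact Filter.mem_of_superset (image_mem_nhds hp (isOpen_height 0) (j_hom T) hJ hJ' ha)
        subset_closure
    · obtain ⟨γ, hγ, rfl⟩ := hB y hy i _ (zero_mem_UU _ _ z) h.symm
      obtain ⟨h1, h2, h3⟩ := hΦ γ i hγ
      refine Filter.mem_of_superset (image_mem_nhds hp (isOpen_UU _ _) (φ_hom T i) h1 h2
        (zero_mem_UU _ _ z)) ?_
      rintro _ ⟨b, hb, rfl⟩
      refine closure_mono ?_ (mem_closure_image (h1.continuousAt ((isOpen_UU _ _).mem_nhds hb))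
        (UU_subset_closure (hl i) hb))
      rintro _ ⟨_, ⟨x, hx, rfl⟩, rfl⟩
      exact ⟨_, height_act_pos (T.unitary _ hγ) (height_act_pos (T.g_unitary i).inv
        (one_pos.trans hx)), (h3 x hx).symm⟩
  have hD : ∀ y, y ∈ closure (J '' {x | 0 < height x}) := fun y => by
    rw [IsClopen.eq_univ ⟨isClosed_closure, hC⟩ ⟨J x0, subset_closure ⟨x0, hx0, rfl⟩⟩]
    exact mem_univ y
  refine ⟨⟨J, Φ, hJ, hJ', fun γ hγ i => (hΦ γ i hγ).1, fun γ hγ i => (hΦ γ i hγ).2.1,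
    fun γ hγ i => (hΦ γ i hγ).2.2, fun y => ?_, fun y => hB y (hD y), fun k hkN => ?_⟩⟩
  · rcases T.cover (p y) with ⟨x, hx, h⟩ | ⟨i, z, h⟩
    · exact Or.inl (hA y (hD y) x hx h.symm)
    · obtain ⟨γ, hγ, e⟩ := hB y (hD y) i _ (zero_mem_UU _ _ z) h.symm
      exact Or.inr ⟨γ, hγ, i, z, e⟩
  · suffices h : k ∈ T.Γ ∧ ∀ x, 0 < height x → J (act k x) = J x from h.2
    induction hkN using Subgroup.closure_induction with
    | mem k hm =>
      obtain ⟨hm, v, s, rfl⟩ := hm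
      obtain ⟨n, hn⟩ := (S.vert v s).1 hm
      obtain ⟨γ, hγ, i, e1, e2⟩ := hk.of_cusp v
      rw [hk.grp] at hm
      refine ⟨hm, fun x hx => ?_⟩
      have hu := T.unitary _ hγ
      have hg := (T.g_unitary i).inv
      have hx1 : 0 < height (x1 : E W) := one_pos.trans x1_mem
      refine (eq_J T hp hJ hJ' hJ hJ' hm (height_act_pos (hu.mul hg) hx1) ?_ hx).symm
      have e : (S.fr v)⁻¹ * vertE s * S.fr v * (γ * (T.g i)⁻¹) = γ * ((T.g i)⁻¹ * vertE s) := by
        rw [e1]; group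
      have hx2 : 1 < height (up (s : ℂ) (x1 : E W)) := by
        rw [height_up, ofReal_im, add_zero]; exact x1_mem
      rw [← act_mul (hu.mul hg) hx1, e, act_mul (hg.mul (unitary_vertE s)) hx1,
        act_mul (unitary_vertE s) hx1, act_vertE, act_mul hg hx1, ← (hΦ γ i hγ).2.2 _ hx2,
        ← (hΦ γ i hγ).2.2 _ x1_mem, hn, e2, ex_up (hl i)]
    | one => exact ⟨T.Γ.one_mem, fun x _ => by rw [act_one]⟩
    | mul k k' _ _ h h' =>
      refine ⟨T.Γ.mul_mem h.1 h'.1, fun x hx => ?_⟩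
      have hu := T.unitary _ h'.1
      rw [act_mul hu hx, h.2 _ (height_act_pos hu hx), h'.2 x hx]
    | inv k _ h =>
      refine ⟨T.Γ.inv_mem h.1, fun x hx => ?_⟩
      have hu := T.unitary _ h.1
      rw [← h.2 _ (height_act_pos hu.inv hx), act_act_inv hu hx]

end Pool.Agent.MP_8ac6f3_ag

end

end MrgPart4

-- marker of a merged file
example : 731051 + 409403 = 731051 + 409403 := rfl
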