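import Pool.Agent.MP_8ac6f3_ag.Calc
import Mathlib.Analysis.SpecialFunctions.Complex.Log
import Mathlib.GroupTheory.QuotientGroup.Defs
import Mathlib.Topology.Covering.Basic
import Mathlib.Topology.Homotopy.Lifting
import Mathlib.Topology.LocallyConstant.Basic

-- ======== part 0: formerly Pool.Agent.MP_8ac6f3_ag.Geo1
section MrgPart0

/-! Row GEO1: elementary geometry of the Siegel domain. -/

open Set Metric Complex
open scoped ContDiff Topology ComplexConjugate

namespace Pool.Agent.MP_8ac6f3_ag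

variable {W : Type} [NormedAddCommGroup W] [InnerProductSpace ℂ W] {g g' s : GV W} {x y z : E W}

theorem Unitary.one : Unitary (1 : GV W) := fun _ _ => rfl
theorem Unitary.mul (h : Unitary g) (h' : Unitary g') : Unitary (g * g') :=
  fun X Y => (h (g' X) (g' Y)).trans (h' X Y)
theorem symm_eq_inv (g : GV W) : g.symm = g⁻¹ := rfl
theorem Unitary.inv (h : Unitary g) : Unitary g⁻¹ := fun X Y => by
  rw [← h, ← symm_eq_inv, g.apply_symm_apply, g.apply_symm_apply]
theorem unitary_vertE (t : ℝ) : Unitary (vertE t : GV W) := fun X Y => by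
  simp only [form, vertE_apply, map_add, map_mul, conj_ofReal]
  ring
theorem vertE_add (t t' : ℝ) : (vertE (t + t') : GV W) = vertE t * vertE t' := by
  refine DFunLike.ext _ _ fun Z => ?_
  change _ = vertE t (vertE t' Z)
  simp only [vertE_apply, ofReal_add]
  congr 1
  ring
theorem vertE_zero : (vertE 0 : GV W) = 1 := by
  refine DFunLike.ext _ _ fun Z => ?_
  change _ = Z
  simp [vertE_apply]
theorem form_lift (x y : E W) : form (lift x) (lift y) = -aa x y / 2 := by
  simp only [form, lift, aa, map_one]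
  field_simp
  ring
theorem Geo1P.form_smul (a b : ℂ) (X Y : V W) : form (a • X) (b • Y) = a * conj b * form X Y := by
  simp only [form, Prod.smul_fst, Prod.smul_snd, smul_eq_mul, map_mul, inner_smul_left,
    inner_smul_right]
  ring
theorem aa_re (x y : E W) : (aa x y).re = height x + height y + ‖x.1 - y.1‖ ^ 2 := by
  have h := inner_re_symm (𝕜 := ℂ) y.1 x.1
  rw [norm_sub_sq (𝕜 := ℂ), ← h]
  simp [aa, height]
  ring
theorem aa_conj (x y : E W) : conj (aa x y) = aa y x := by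
  simp only [aa, map_sub, map_div₀, map_mul, conj_conj, conj_I, inner_conj_symm, map_ofNat]
  rw [div_neg, ← neg_div, neg_sub]
theorem aa_self (x : E W) : aa x x = (2 * height x : ℝ) := by
  refine Complex.ext (by simp [aa_re]; ring) ?_
  rw [ofReal_im]
  exact conj_eq_iff_im.1 (aa_conj x x)
theorem beta_ne (h : Unitary g) (hx : 0 < height x) : beta g x ≠ 0 := fun h0 => by
  have h1 := h (lift x) (lift x)
  rw [form_lift, aa_self, form, show (g (lift x)).2.2 = 0 from h0, inner_self_eq_norm_sq_to_K] at h1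
  have h2 : ‖(g (lift x)).2.1‖ ^ 2 = -height x := by
    have h3 : ((‖(g (lift x)).2.1‖ ^ 2 : ℝ) : ℂ) = (-height x : ℝ) := by
      simp only [map_zero, mul_zero, zero_mul, sub_zero, zero_div, coe_algebraMap] at h1
      push_cast at h1 ⊢
      linear_combination h1
    exact_mod_cast h3
  nlinarith [sq_nonneg ‖(g (lift x)).2.1‖]
theorem apply_lift (h : Unitary g) (hx : 0 < height x) :
    g (lift x) = beta g x • lift (act g x) := by
  have hb := beta_ne h hx
  refine Prod.ext ?_ (Prod.ext ?_ ?_)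
  · exact (mul_div_cancel₀ (g (lift x)).1 hb).symm
  · exact (smul_inv_smul₀ hb (g (lift x)).2.1).symm
  · exact (mul_one _).symm
theorem aa_act (h : Unitary g) (hx : 0 < height x) (hy : 0 < height y) :
    aa (act g x) (act g y) = aa x y / (beta g x * conj (beta g y)) := by
  have h1 := h (lift x) (lift y)
  rw [apply_lift h hx, apply_lift h hy, Geo1P.form_smul, form_lift, form_lift] at h1
  rw [eq_div_iff (mul_ne_zero (beta_ne h hx) ((map_ne_zero _).2 (beta_ne h hy)))]
  linear_combination -2 * h1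
theorem height_act (h : Unitary g) (hx : 0 < height x) :
    height (act g x) = height x / ‖beta g x‖ ^ 2 := by
  have h1 := aa_act h hx hx
  rw [aa_self, aa_self, mul_conj, normSq_eq_norm_sq] at h1
  have h2 : 2 * height (act g x) = 2 * height x / ‖beta g x‖ ^ 2 := by exact_mod_cast h1
  linear_combination h2 / 2
theorem height_act_pos (h : Unitary g) (hx : 0 < height x) : 0 < height (act g x) := by
  rw [height_act h hx]
  exact div_pos hx (pow_pos (norm_pos_iff.2 (beta_ne h hx)) 2)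
theorem act_one (x : E W) : act (1 : GV W) x = x := by
  change (((1 : ℂ)⁻¹ • x.1, x.2 / 1) : E W) = x
  simp
theorem act_mul (h' : Unitary g') (hx : 0 < height x) :
    act (g * g') x = act g (act g' x) := by
  have hb := beta_ne h' hx
  have e : (g * g') (x.2, x.1, 1) = beta g' x • g (lift (act g' x)) := by
    rw [← map_smul, ← apply_lift h' hx]
    rfl
  rw [act, e]
  refine Prod.ext ?_ ?_
  · change (beta g' x * (g (lift (act g' x))).2.2)⁻¹ • beta g' x • (g (lift (act g' x))).2.1 =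
      (g (lift (act g' x))).2.2⁻¹ • (g (lift (act g' x))).2.1
    rw [mul_inv_rev, mul_smul, inv_smul_smul₀ hb]
  · exact mul_div_mul_left _ _ hb
theorem act_inv_act (h : Unitary g) (hx : 0 < height x) : act g⁻¹ (act g x) = x := by
  rw [← act_mul h hx, inv_mul_cancel, act_one]
theorem act_act_inv (h : Unitary g) (hx : 0 < height x) : act g (act g⁻¹ x) = x := by
  rw [← act_mul h.inv hx, mul_inv_cancel, act_one]
theorem act_vertE (t : ℝ) (x : E W) : act (vertE t) x = up t x := by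
  simp [act, up, vertE_apply]
theorem contDiffOn_act (h : Unitary g) : ContDiffOn ℂ ω (act g) {x | 0 < height x} := by
  have h1 : ContDiff ℂ ω fun x : E W => g (x.2, x.1, 1) :=
    g.contDiff.comp (contDiff_snd.prodMk (contDiff_fst.prodMk contDiff_const))
  have h2 : ∀ x ∈ {x : E W | 0 < height x}, (g (x.2, x.1, 1)).2.2 ≠ 0 := fun x hx => beta_ne h hx
  exact ((h1.snd.snd.contDiffOn.inv h2).smul h1.snd.fst.contDiffOn).prodMk
    (h1.fst.contDiffOn.div h1.snd.snd.contDiffOn h2)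
theorem continuousOn_act (h : Unitary g) : ContinuousOn (act g) {x | 0 < height x} :=
  (contDiffOn_act h).continuousOn
theorem height_oo : height (oo : E W) = 1 := by simp [height, oo]

/-- A dilation followed by a Heisenberg translation. -/
noncomputable def Geo1P.heis (w : W) (σ t : ℂ) (ht : t ≠ 0) : GV W where
  toFun Z := (t * Z.1 + 2 * I * inner ℂ w Z.2.1 + σ * (t⁻¹ * Z.2.2), Z.2.1 + (t⁻¹ * Z.2.2) • w,
    t⁻¹ * Z.2.2)
  invFun Z := (t⁻¹ * (Z.1 - 2 * I * inner ℂ w (Z.2.1 - Z.2.2 • w) - σ * Z.2.2),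
    Z.2.1 - Z.2.2 • w, t * Z.2.2)
  map_add' X Y := by
    refine Prod.ext ?_ (Prod.ext ?_ ?_)
    · simp only [Prod.fst_add, Prod.snd_add, inner_add_right]
      ring
    · simp only [Prod.fst_add, Prod.snd_add, mul_add, add_smul]
      abel
    · simp only [Prod.snd_add, mul_add]
  map_smul' a X := by
    refine Prod.ext ?_ (Prod.ext ?_ ?_)
    · simp only [Prod.smul_fst, Prod.smul_snd, inner_smul_right, smul_eq_mul, RingHom.id_apply]
      ring
    · simp only [Prod.smul_fst, Prod.smul_snd, smul_eq_mul, RingHom.id_apply, smul_add, smul_smul,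
        mul_left_comm]
    · simp only [Prod.smul_snd, smul_eq_mul, RingHom.id_apply, mul_left_comm]
  left_inv Z := by
    refine Prod.ext ?_ (Prod.ext ?_ ?_)
    · simp only [add_sub_cancel_right]
      field_simp
      ring
    · simp only [add_sub_cancel_right]
    · exact mul_inv_cancel_left₀ ht _
  right_inv Z := by
    refine Prod.ext ?_ (Prod.ext ?_ ?_)
    · simp only [inv_mul_cancel_left₀ ht, mul_inv_cancel_left₀ ht]
      ring
    · simp only [inv_mul_cancel_left₀ ht, sub_add_cancel]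
    · exact inv_mul_cancel_left₀ ht _
  continuous_toFun := by fun_prop
  continuous_invFun := by fun_prop

theorem Geo1P.heis_apply (w : W) (σ t : ℂ) (ht : t ≠ 0) (Z : V W) : Geo1P.heis w σ t ht Z =
    (t * Z.1 + 2 * I * inner ℂ w Z.2.1 + σ * (t⁻¹ * Z.2.2), Z.2.1 + (t⁻¹ * Z.2.2) • w,
      t⁻¹ * Z.2.2) := rfl

theorem Geo1P.unitary_heis (w : W) (a t : ℝ) (ht : (t : ℂ) ≠ 0) :
    Unitary (Geo1P.heis w (a + I * (‖w‖ : ℂ) ^ 2) t ht) := fun X Y => by
  simp only [form, Geo1P.heis_apply, inner_add_left, inner_add_right, inner_smul_left, inner_smul_right,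
    map_add, map_mul, map_inv₀, map_pow, conj_ofReal, conj_I, inner_conj_symm, map_ofNat,
    inner_self_eq_norm_sq_to_K, coe_algebraMap]
  field_simp
  ring

theorem exists_act_oo (hx : 0 < height x) : ∃ g : GV W, Unitary g ∧ act g oo = x := by
  have ht : ((√(height x) : ℝ) : ℂ) ≠ 0 := ofReal_ne_zero.2 (Real.sqrt_pos.2 hx).ne'
  refine ⟨_, Geo1P.unitary_heis x.1 x.2.re _ ht, Prod.ext ?_ ?_⟩
  · simp [act, oo, Geo1P.heis_apply, ht]
  · have h1 : ((√(height x) : ℝ) : ℂ) ^ 2 = x.2.im - (‖x.1‖ : ℂ) ^ 2 := by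
      rw [← ofReal_pow, Real.sq_sqrt hx.le, height]
      push_cast
      rfl
    simp only [act, oo, Geo1P.heis_apply, inner_zero_right]
    field_simp
    linear_combination I * h1 + re_add_im x.2
theorem continuous_height : Continuous (height : E W → ℝ) := by
  unfold height
  fun_prop
theorem continuous_aa : Continuous (fun p : E W × E W => aa p.1 p.2) := by
  unfold aa
  fun_prop
theorem convex_height (H : ℝ) : Convex ℝ {x : E W | H < height x} := by
  intro x hx y hy a b ha hb hab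
  have h1 : ‖a • x.1 + b • y.1‖ ≤ a * ‖x.1‖ + b * ‖y.1‖ := by
    simpa [norm_smul, abs_of_nonneg ha, abs_of_nonneg hb] using norm_add_le (a • x.1) (b • y.1)
  have h2 : ‖a • x.1 + b • y.1‖ ^ 2 ≤ (a * ‖x.1‖ + b * ‖y.1‖) ^ 2 := by gcongr
  have h3 := convex_Ioi H hx hy ha hb hab
  obtain rfl : b = 1 - a := by linarith
  simp only [mem_ofPred_eq, mem_Ioi, height, smul_eq_mul, Prod.fst_add, Prod.snd_add,
    Prod.smul_fst, Prod.smul_snd, add_im, smul_im] at h3 ⊢
  nlinarith [mul_nonneg (mul_nonneg ha hb) (sq_nonneg (‖x.1‖ - ‖y.1‖))]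
theorem isOpen_height (H : ℝ) : IsOpen {x : E W | H < height x} :=
  isOpen_lt continuous_const continuous_height
theorem height_up (t : ℂ) (x : E W) : height (up t x) = height x + t.im := by
  simp only [height, up, add_im]
  ring
theorem height_lvl (x : E W) : height (lvl x) = 2 := by
  refine (height_up ((2 - height x : ℝ) * I) x).trans ?_
  simp
theorem Geo1P.le_norm_aa (x y : E W) : height x + height y + ‖x.1 - y.1‖ ^ 2 ≤ ‖aa x y‖ :=
  aa_re x y ▸ re_le_norm _
theorem aa_ne (hx : 0 < height x) (hy : 0 ≤ height y) : aa x y ≠ 0 :=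
  norm_pos_iff.1 (lt_of_lt_of_le (by positivity) (Geo1P.le_norm_aa x y))
theorem aa_up_right (t : ℝ) (x y : E W) : aa x (up t y) = aa x y + t * I := by
  simp only [aa, up, map_add, conj_ofReal, div_I]
  ring
theorem aa_up_left (t : ℝ) (x y : E W) : aa (up t x) y = aa x y - t * I := by
  simp only [aa, up, div_I]
  ring
theorem aa_lvl_im (x y : E W) : (aa (lvl x) (lvl y)).im = (aa x y).im := by
  simp [aa, lvl]
theorem aa_tri (x y z : E W) :
    aa x z = aa x y + aa y z - (2 * height y : ℝ) - 2 * inner ℂ (z.1 - y.1) (x.1 - y.1) := by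
  rw [← aa_self]
  simp only [aa, inner_sub_left, inner_sub_right]
  ring
theorem Geo1P.norm_cross_le (hx : 0 ≤ height x) (hy : 0 ≤ height y) (hz : 0 ≤ height z) :
    ‖2 * inner ℂ (z.1 - y.1) (x.1 - y.1)‖ ≤ 2 * √‖aa x y‖ * √‖aa y z‖ := by
  have h1 : ‖x.1 - y.1‖ ≤ √‖aa x y‖ := Real.le_sqrt_of_sq_le (by linarith [Geo1P.le_norm_aa x y])
  have h2 : ‖z.1 - y.1‖ ≤ √‖aa y z‖ := by
    rw [norm_sub_rev]
    exact Real.le_sqrt_of_sq_le (by linarith [Geo1P.le_norm_aa y z])
  rw [norm_mul, Complex.norm_two, mul_assoc, mul_comm √‖aa x y‖]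
  gcongr
  exact (norm_inner_le_norm _ _).trans (by gcongr)
/-- Moving the second point. -/
theorem norm_aa_sub_le (hx : 0 ≤ height x) (hy : 0 ≤ height y) (hz : 0 ≤ height z) :
    ‖aa x z - aa x y‖ ≤ 3 * ‖aa y z‖ + 2 * √‖aa x y‖ * √‖aa y z‖ := by
  have e : aa x z - aa x y =
      aa y z - (2 * height y : ℝ) - 2 * inner ℂ (z.1 - y.1) (x.1 - y.1) := by
    rw [aa_tri x y z]
    ring
  have h1 := norm_sub_le (aa y z - (2 * height y : ℝ)) (2 * inner ℂ (z.1 - y.1) (x.1 - y.1))
  have h2 := norm_sub_le (aa y z) (2 * height y : ℝ)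
  rw [norm_real, Real.norm_of_nonneg (by positivity)] at h2
  rw [e]
  linarith [Geo1P.norm_cross_le hx hy hz, Geo1P.le_norm_aa y z, sq_nonneg ‖y.1 - z.1‖]
theorem cc_act (h : Unitary g) (hx : 0 < height x) (hy : 0 < height y) :
    cc (act g x) (act g y) = cc x y := by
  have h1 := norm_pos_iff.2 (beta_ne h hx)
  have h2 := norm_pos_iff.2 (beta_ne h hy)
  rw [cc, cc, aa_act h hx hy, height_act h hx, height_act h hy, norm_div, norm_mul, norm_conj,
    div_mul_div_comm, ← mul_pow, Real.sqrt_div' _ (sq_nonneg _), Real.sqrt_sq (by positivity)]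
  field_simp
theorem cc_symm (x y : E W) : cc x y = cc y x := by
  rw [cc, cc, ← aa_conj y x, norm_conj, mul_comm (height x)]
theorem cc_self (hx : 0 < height x) : cc x x = 1 := by
  rw [cc, aa_self, Real.sqrt_mul_self hx.le, norm_real, Real.norm_of_nonneg (by positivity)]
  field_simp
theorem one_le_cc (hx : 0 < height x) (hy : 0 < height y) : 1 ≤ cc x y := by
  rw [cc, one_le_div (by positivity), Real.sqrt_mul hx.le]
  nlinarith [Geo1P.le_norm_aa x y, sq_nonneg ‖x.1 - y.1‖, Real.sq_sqrt hx.le, Real.sq_sqrt hy.le,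
    sq_nonneg (√(height x) - √(height y))]
theorem cc_sq (hx : 0 < height x) (hy : 0 < height y) :
    cc x y ^ 2 = ‖aa x y‖ ^ 2 / (4 * height x * height y) := by
  rw [cc, div_pow, mul_pow, Real.sq_sqrt (by positivity)]
  ring
theorem cc_tri (hx : 0 < height x) (hy : 0 < height y) (hz : 0 < height z) :
    cc x z ≤ 12 * cc x y * cc y z := by
  have hA : height y ≤ ‖aa x y‖ := by linarith [Geo1P.le_norm_aa x y, sq_nonneg ‖x.1 - y.1‖]
  have hB : height y ≤ ‖aa y z‖ := by linarith [Geo1P.le_norm_aa y z, sq_nonneg ‖y.1 - z.1‖]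
  have h0 : ‖aa x z‖ ≤ ‖aa x y‖ + ‖aa y z‖ + 2 * height y + 2 * √‖aa x y‖ * √‖aa y z‖ := by
    have h1 := norm_sub_le (aa x y + aa y z - (2 * height y : ℝ))
      (2 * inner ℂ (z.1 - y.1) (x.1 - y.1))
    have h2 := norm_sub_le (aa x y + aa y z) (2 * height y : ℝ)
    rw [norm_real, Real.norm_of_nonneg (by positivity)] at h2
    rw [aa_tri x y z]
    linarith [Geo1P.norm_cross_le hx.le hy.le hz.le, norm_add_le (aa x y) (aa y z)]
  have h3 : height y ≤ √‖aa x y‖ * √‖aa y z‖ := by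
    rw [← Real.sqrt_mul (norm_nonneg _)]
    exact Real.le_sqrt_of_sq_le (by rw [sq]; gcongr)
  have h4 : (√‖aa x y‖ * √‖aa y z‖) ^ 2 = ‖aa x y‖ * ‖aa y z‖ := by
    rw [mul_pow, Real.sq_sqrt (norm_nonneg _), Real.sq_sqrt (norm_nonneg _)]
  have h5 : ‖aa x z‖ * height y ≤ 6 * (‖aa x y‖ * ‖aa y z‖) := by
    nlinarith [mul_le_mul_of_nonneg_right h0 hy.le,
      mul_le_mul_of_nonneg_left hB (norm_nonneg (aa x y)), mul_le_mul_of_nonneg_left hA (norm_nonneg (aa y z)), mul_le_mul hA hB hy.le (norm_nonneg _),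
      mul_le_mul_of_nonneg_left h3 (hy.le.trans h3)]
  have a1 := Real.sqrt_pos.2 hx
  have a2 := Real.sqrt_pos.2 hy
  have a3 := Real.sqrt_pos.2 hz
  rw [← Real.sq_sqrt hy.le] at h5
  simp only [cc, Real.sqrt_mul hx.le, Real.sqrt_mul hy.le]
  rw [show 12 * (‖aa x y‖ / (2 * (√(height x) * √(height y)))) *
      (‖aa y z‖ / (2 * (√(height y) * √(height z)))) =
      6 * (‖aa x y‖ * ‖aa y z‖) / √(height y) ^ 2 / (2 * (√(height x) * √(height z))) by
    field_simp; ring]
  gcongr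
  exact (le_div_iff₀ (by positivity)).2 h5
theorem height_le_cc (hx : 0 < height x) (hy : 0 < height y) :
    height x ≤ 4 * cc x y ^ 2 * height y := by
  have hA : height x ≤ ‖aa x y‖ := by linarith [Geo1P.le_norm_aa x y, sq_nonneg ‖x.1 - y.1‖]
  rw [cc_sq hx hy, show 4 * (‖aa x y‖ ^ 2 / (4 * height x * height y)) * height y =
    ‖aa x y‖ ^ 2 / height x by field_simp, le_div_iff₀ hx, ← sq]
  gcongr
theorem norm_aa_le_cc (hx : 0 < height x) (hy : 0 < height y) :
    ‖aa x y‖ ≤ 4 * cc x y ^ 2 * height x := by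
  have hA : height y ≤ ‖aa x y‖ := by linarith [Geo1P.le_norm_aa x y, sq_nonneg ‖x.1 - y.1‖]
  rw [cc_sq hx hy, show 4 * (‖aa x y‖ ^ 2 / (4 * height x * height y)) * height x =
    ‖aa x y‖ ^ 2 / height y by field_simp, le_div_iff₀ hy, sq]
  gcongr
theorem cc_lvl_sq (hx : 0 < height x) :
    cc x (lvl x) ^ 2 = (height x + 2) ^ 2 / (8 * height x) := by
  have e : aa x (lvl x) = (height x + 2 : ℝ) := by
    refine Complex.ext ?_ ?_
    · rw [aa_re, height_lvl]
      simp [lvl]
    · have h := conj_eq_iff_im.1 (aa_conj x x)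
      simpa [aa, lvl] using h
  rw [cc_sq hx (by rw [height_lvl]; norm_num), e, height_lvl, norm_real, Real.norm_eq_abs, sq_abs]
  ring
theorem continuousOn_cc : ContinuousOn (fun p : E W × E W => cc p.1 p.2)
    {p | 0 < height p.1 ∧ 0 < height p.2} :=
  continuous_aa.norm.continuousOn.div (continuous_const.mul ((continuous_height.comp
    continuous_fst).mul (continuous_height.comp continuous_snd)).sqrt).continuousOn
    fun _ hp => mul_ne_zero two_ne_zero (Real.sqrt_pos.2 (mul_pos hp.1 hp.2)).ne'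
theorem uu_act (h : Unitary g) (hx : 0 < height x) (hy : 0 < height y) :
    uu (act g y) (act g x) = uu y x := by
  rw [uu, uu, cc_act h hx hy]
theorem height_chart {ξ : E W} (h : ‖ξ‖ ≤ 1 / 2) : 1 / 4 ≤ height (oo + ξ) := by
  have h1 : ‖ξ.1‖ ≤ 1 / 2 := (norm_fst_le ξ).trans h
  have h2 := (abs_le.1 ((abs_im_le_norm ξ.2).trans ((norm_snd_le ξ).trans h))).1
  have h3 : ‖ξ.1‖ ^ 2 ≤ (1 / 2) ^ 2 := by gcongr
  simp only [height, oo, Prod.fst_add, Prod.snd_add, zero_add, add_im, I_im]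
  linarith
theorem cc_chart {ξ : E W} (h : ‖ξ‖ ≤ 1 / 2) : cc oo (oo + ξ) ≤ 3 := by
  have h1 := height_chart h
  have h2 : (1 : ℝ) / 2 ≤ √(height (oo + ξ)) := Real.le_sqrt_of_sq_le (by linarith)
  have e : aa oo (oo + ξ) = 2 + conj ξ.2 * I := by
    simp only [aa, oo, Prod.snd_add, inner_zero_right, map_add, conj_I, div_I]
    linear_combination (-2 : ℂ) * I_sq
  have h3 : ‖aa oo (oo + ξ)‖ ≤ 2 + ‖ξ.2‖ := by
    simpa [e] using norm_add_le 2 (conj ξ.2 * I)
  rw [cc, height_oo, one_mul, div_le_iff₀ (by positivity)]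
  linarith [norm_snd_le ξ]

end Pool.Agent.MP_8ac6f3_ag

end MrgPart0

-- ======== part 1: formerly Pool.Agent.MP_8ac6f3_ag.Geo2
section MrgPart1

/-! Row GEO2: elementary geometry of the Siegel domain: stabiliser of infinity, cusps. -/

open Set Metric Complex
open scoped ContDiff Topology ComplexConjugate

namespace Pool.Agent.MP_8ac6f3_ag

variable {W : Type} [NormedAddCommGroup W] [InnerProductSpace ℂ W] {g g' s : GV W} {x y z : E W}

namespace Geo2

theorem mul_app (g g' : GV W) (Z : V W) : (g * g') Z = g (g' Z) := rfl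

theorem app_inv (g : GV W) (Z : V W) : g (g⁻¹ Z) = Z := by
  rw [← mul_app, mul_inv_cancel]; rfl

theorem inv_app (g : GV W) (Z : V W) : g⁻¹ (g Z) = Z := by
  rw [← mul_app, inv_mul_cancel]; rfl

theorem e1_smul (c : ℂ) : ((c, 0, 0) : V W) = c • ((1, 0, 0) : V W) := by simp

theorem form_e1 (X : V W) (c : ℂ) : form X (c, 0, 0) = X.2.2 * conj c / (2 * I) := by
  simp [form]
  ring

theorem form_e1' (X : V W) : form (1, 0, 0) X = -conj X.2.2 / (2 * I) := by
  simp [form]
  ring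

theorem form_smul (a b : ℂ) (X Y : V W) : form (a • X) (b • Y) = a * conj b * form X Y := by
  simp [form, inner_smul_left, inner_smul_right]
  ring

theorem two_I : (2 * I : ℂ) ≠ 0 := mul_ne_zero two_ne_zero I_ne_zero

theorem lift_eq (Y : V W) (h : Y.2.2 ≠ 0) :
    Y = Y.2.2 • lift ((Y.2.2⁻¹ • Y.2.1, Y.1 / Y.2.2) : E W) := by
  refine Prod.ext ?_ (Prod.ext ?_ ?_)
  · simp only [lift, Prod.smul_fst, smul_eq_mul]
    field_simp
  · simp [lift, smul_smul, h]
  · simp [lift]

theorem apply_lift' (h : beta g x ≠ 0) : g (lift x) = beta g x • lift (act g x) :=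
  lift_eq _ h

theorem lift_inj {c : ℂ} (hc : c ≠ 0) (h : c • lift x = c • lift y) : x = y := by
  have h1 := smul_right_injective _ hc h
  exact Prod.ext (congrArg (fun Z : V W => Z.2.1) h1) (congrArg (fun Z : V W => Z.1) h1)

theorem mul_conj_one {c : ℂ} (hc : ‖c‖ = 1) : c * conj c = 1 := by
  rw [mul_conj', hc]; simp

theorem last_eq (hu : Unitary s) {c : ℂ} (hc : ‖c‖ = 1) (h : s (1, 0, 0) = (c, 0, 0)) (X : V W) :
    (s X).2.2 = c * X.2.2 := by
  have h1 := hu X (1, 0, 0)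
  rw [h, form_e1, form_e1, div_left_inj' two_I, map_one, mul_one] at h1
  rw [← h1]
  linear_combination -(s X).2.2 * mul_conj_one hc

theorem beta_eq (hu : Unitary s) {c : ℂ} (hc : ‖c‖ = 1) (h : s (1, 0, 0) = (c, 0, 0)) (x : E W) :
    beta s x = c := by
  rw [beta, last_eq hu hc h]; simp [lift]

theorem lift_up (t : ℂ) (x : E W) : lift (up t x) = lift x + t • ((1, 0, 0) : V W) := by
  simp [lift, up]

theorem vert_eq (t : ℝ) (Z : V W) : vertE t Z = Z + ((t : ℂ) * Z.2.2) • ((1, 0, 0) : V W) := by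
  rw [vertE_apply]
  ext <;> simp

theorem null_lift (Y : V W) (h0 : form Y Y = 0) (h : Y.2.2 ≠ 0) :
    ∃ p : E W, height p = 0 ∧ Y = Y.2.2 • lift p := by
  refine ⟨_, ?_, lift_eq Y h⟩
  rw [lift_eq Y h, form_smul, form_lift, aa_self] at h0
  have h1 := (mul_eq_zero.1 h0).resolve_left (mul_ne_zero h (by simpa using h))
  simpa using h1

theorem norm_ex (l : ℝ) (x : E W) :
    ‖(ex l x).2‖ = Real.exp (-(2 * Real.pi / l) * x.2.im) := by
  have : (2 * Real.pi / l * I * x.2 : ℂ) = ((2 * Real.pi / l : ℝ) : ℂ) * I * x.2 := by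
    push_cast; ring
  rw [ex, Complex.norm_exp, this]
  generalize 2 * Real.pi / l = c
  simp

end Geo2

open Geo2

theorem InP.one : InP (1 : GV W) := ⟨1, norm_one, rfl⟩

theorem InP.mul (h : InP s) (h' : InP g) : InP (s * g) := by
  obtain ⟨c, hc, h⟩ := h
  obtain ⟨d, hd, h'⟩ := h'
  refine ⟨d * c, by rw [norm_mul, hc, hd, one_mul], ?_⟩
  rw [mul_app, h', e1_smul, map_smul, h]
  simp

theorem InP.inv (h : InP s) : InP s⁻¹ := by
  obtain ⟨c, hc, h⟩ := h
  have h0 : c ≠ 0 := fun h0 => by simp [h0] at hc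
  refine ⟨c⁻¹, by rw [norm_inv, hc, inv_one], ?_⟩
  have h1 := inv_app s (c⁻¹ • (1, 0, 0))
  rw [map_smul, h] at h1
  simpa [h0] using h1

theorem inP_vertE (t : ℝ) : InP (vertE t : GV W) := ⟨1, norm_one, by simp [vertE_apply]⟩

theorem InP.norm_beta (hu : Unitary s) (h : InP s) (x : E W) : ‖beta s x‖ = 1 := by
  obtain ⟨c, hc, h⟩ := h
  rw [beta_eq hu hc h, hc]

theorem InP.aa_act (hu : Unitary s) (h : InP s) (x y : E W) :
    aa (act s x) (act s y) = aa x y := by
  obtain ⟨c, hc, h⟩ := h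
  have h0 : c ≠ 0 := fun h0 => by simp [h0] at hc
  have h1 := hu (lift x) (lift y)
  rw [apply_lift' (by rwa [beta_eq hu hc h]), apply_lift' (by rwa [beta_eq hu hc h]),
    beta_eq hu hc h, beta_eq hu hc h, form_smul, mul_conj_one hc, form_lift, form_lift] at h1
  linear_combination -2 * h1

theorem InP.height_act (hu : Unitary s) (h : InP s) (x : E W) :
    height (act s x) = height x := by
  have h1 := h.aa_act hu x x
  rw [aa_self, aa_self, ofReal_inj] at h1
  linarith

theorem InP.act_up (hu : Unitary s) (h : InP s) (t : ℂ) (x : E W) :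
    act s (up t x) = up t (act s x) := by
  obtain ⟨c, hc, h⟩ := h
  have h0 : c ≠ 0 := fun h0 => by simp [h0] at hc
  refine lift_inj h0 ?_
  have h1 := apply_lift' (g := s) (x := up t x) (by rwa [beta_eq hu hc h])
  have h2 := apply_lift' (g := s) (x := x) (by rwa [beta_eq hu hc h])
  rw [beta_eq hu hc h] at h1 h2
  rw [← h1, lift_up, lift_up, map_add, map_smul, h2, h, smul_add, e1_smul c, smul_comm t c]

theorem InP.act_lvl (hu : Unitary s) (h : InP s) (x : E W) :
    act s (lvl x) = lvl (act s x) := by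
  have h1 := h.act_up hu (((2 - height x : ℝ) : ℂ) * I) x
  rw [lvl, lvl, h.height_act hu]
  exact h1

theorem InP.conj_vertE (hu : Unitary s) (h : InP s) (t : ℝ) : s * vertE t * s⁻¹ = vertE t := by
  obtain ⟨c, hc, h⟩ := h
  refine ContinuousLinearEquiv.ext (funext fun Z => ?_)
  have h1 := last_eq hu hc h (s⁻¹ Z)
  rw [app_inv] at h1
  rw [mul_app, mul_app, vert_eq, vert_eq, map_add, map_smul, app_inv, h, h1, e1_smul c, smul_smul]
  congr 2
  ring

/-- Another cusp seen from infinity: either the same point or a boundary point `p`. -/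
theorem cusp_dichotomy (h : Unitary g) :
    (∃ κ : ℝ, 0 < κ ∧ ∀ x, 0 < height x → height (act g x) = κ * height x) ∨
    ∃ (p : E W) (κ : ℝ), height p = 0 ∧ 0 < κ ∧
      (∀ x, 0 < height x → height (act g x) = κ * height x / ‖aa x p‖ ^ 2) ∧
      ∃ p' : E W, height p' = 0 ∧
        ∀ x, 0 < height x → ‖aa x p‖ * ‖aa (act g x) p'‖ = κ := by
  obtain ⟨Y, hY⟩ : ∃ Y : V W, g Y = (1, 0, 0) := ⟨_, app_inv g _⟩
  have h00 : form ((1, 0, 0) : V W) (1, 0, 0) = 0 := by simp [form]
  have hYY : form Y Y = 0 := by rw [← h, hY, h00]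
  have hb : ∀ x : E W, beta g x = 2 * I * form (lift x) Y := fun x => by
    rw [← h, hY, form_e1, map_one, mul_one, mul_div_cancel₀ _ two_I, beta]
  by_cases h0 : Y.2.2 = 0
  · have h1 : Y.2.1 = 0 := by simpa [form, h0] using hYY
    have h2 : Y = (Y.1, 0, 0) := Prod.ext rfl (Prod.ext h1 h0)
    have h3 : Y.1 ≠ 0 := fun h3 => by
      rw [h2, h3, show ((0, 0, 0) : V W) = 0 from rfl, map_zero] at hY
      simpa using congrArg Prod.fst hY
    refine Or.inl ⟨(‖Y.1‖ ^ 2)⁻¹, by positivity, fun x hx => ?_⟩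
    rw [height_act h hx, hb, h2, form_e1, mul_div_cancel₀ _ two_I]
    simp [lift, div_eq_inv_mul]
  · obtain ⟨p, hp, e⟩ := null_lift Y hYY h0
    have hn : ∀ x : E W, ‖beta g x‖ = ‖Y.2.2‖ * ‖aa x p‖ := fun x => by
      have := form_smul 1 Y.2.2 (lift x) (lift p)
      rw [one_smul, ← e, form_lift] at this
      rw [hb, this]
      simp
      ring
    have h4 : (g (1, 0, 0)).2.2 = -conj Y.2.2 := by
      have := h (1, 0, 0) Y
      rwa [hY, form_e1, form_e1', div_left_inj' two_I, map_one, mul_one] at this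
    obtain ⟨p', hp', e'⟩ := null_lift (g (1, 0, 0)) (by rw [h, h00]) (by simpa [h4] using h0)
    have hpos : 0 < ‖Y.2.2‖ := norm_pos_iff.2 h0
    refine Or.inr ⟨p, (‖Y.2.2‖ ^ 2)⁻¹, hp, by positivity, fun x hx => ?_, p', hp', fun x hx => ?_⟩
    · rw [height_act h hx, hn, mul_pow, ← div_div, div_eq_inv_mul (height x)]
    · have h5 := h (lift x) (1, 0, 0)
      rw [apply_lift h hx, e', form_smul, form_lift, form_e1, h4] at h5
      have h6 := congrArg norm h5
      simp only [norm_mul, norm_div, norm_neg, norm_conj, hn, lift, norm_I, norm_one,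
        Complex.norm_ofNat] at h6
      field_simp
      linear_combination 2 * h6

theorem ex_mem_UU {l H : ℝ} (hl : 0 < l) : ex l x ∈ UU l H ↔ H < height x := by
  have hc : 0 < 2 * Real.pi / l := by positivity
  rw [UU, mem_ofPred_eq, norm_ex, Real.exp_lt_exp, neg_mul, neg_mul, neg_lt_neg_iff,
    mul_lt_mul_iff_right₀ hc, height, lt_sub_iff_add_lt']
  rfl

theorem ex_eq_iff {l : ℝ} (hl : 0 < l) :
    ex l x = ex l y ↔ ∃ n : ℤ, y = up ((n * l : ℝ) : ℂ) x := by
  have hl' : (l : ℂ) ≠ 0 := ofReal_ne_zero.2 hl.ne'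
  have hp : (Real.pi : ℂ) ≠ 0 := ofReal_ne_zero.2 Real.pi_ne_zero
  constructor
  · intro h
    obtain ⟨n, hn⟩ := Complex.exp_eq_exp_iff_exists_int.1 (congrArg Prod.snd h).symm
    refine ⟨n, Prod.ext (congrArg Prod.fst h).symm ?_⟩
    simp only [up]
    push_cast
    field_simp at hn
    linear_combination hn
  · rintro ⟨n, rfl⟩
    refine Prod.ext rfl (Complex.exp_eq_exp_iff_exists_int.2 ⟨n, ?_⟩).symm
    simp only [up]
    push_cast
    field_simp

theorem ex_up {l : ℝ} (hl : 0 < l) (n : ℤ) (x : E W) :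
    ex l (up ((n * l : ℝ) : ℂ) x) = ex l x := ((ex_eq_iff hl).2 ⟨n, rfl⟩).symm

theorem exists_ex {l : ℝ} (hl : 0 < l) {b : E W} (hb : b.2 ≠ 0) : ∃ x, ex l x = b := by
  have hl' : (l : ℂ) ≠ 0 := ofReal_ne_zero.2 hl.ne'
  have hp : (Real.pi : ℂ) ≠ 0 := ofReal_ne_zero.2 Real.pi_ne_zero
  refine ⟨(b.1, Complex.log b.2 / (2 * Real.pi / l * I)), Prod.ext rfl ?_⟩
  simp only [ex]
  rw [mul_div_cancel₀ _ (mul_ne_zero (div_ne_zero (mul_ne_zero two_ne_zero hp) hl') I_ne_zero),
    Complex.exp_log hb]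

theorem isOpen_UU (l H : ℝ) : IsOpen (UU l H : Set (E W)) :=
  isOpen_lt (by fun_prop) (by fun_prop)

theorem starConvex_UU {l : ℝ} (hl : 0 < l) (H : ℝ) :
    StarConvex ℝ 0 (UU l H : Set (E W)) := by
  intro b hb a t ha ht hat
  have hc : 0 < 2 * Real.pi / l := by positivity
  have ht1 : t ≤ 1 := by linarith
  rw [smul_zero, zero_add]
  change ‖t • b.2‖ < Real.exp (-(2 * Real.pi / l) * (‖t • b.1‖ ^ 2 + H))
  have h1 : ‖t • b.2‖ ≤ ‖b.2‖ := by
    rw [norm_smul, Real.norm_of_nonneg ht]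
    exact mul_le_of_le_one_left (norm_nonneg _) ht1
  have h2 : ‖t • b.1‖ ≤ ‖b.1‖ := by
    rw [norm_smul, Real.norm_of_nonneg ht]
    exact mul_le_of_le_one_left (norm_nonneg _) ht1
  have h3 := pow_le_pow_left₀ (norm_nonneg _) h2 2
  exact (h1.trans_lt hb).trans_le (Real.exp_le_exp.2 (by nlinarith))

theorem UU_mono {l H H' : ℝ} (hl : 0 < l) (h : H ≤ H') : (UU l H' : Set (E W)) ⊆ UU l H := by
  intro b hb
  have hc : 0 < 2 * Real.pi / l := by positivity
  exact lt_of_lt_of_le hb (Real.exp_le_exp.2 (by nlinarith))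

theorem GG_ex {l : ℝ} (q x : E W) :
    GG l q (ex l x) = Real.log (‖1 - Complex.exp (-(2 * Real.pi / l : ℝ) * aa x q)‖ ^ 2) +
      2 * Real.log (1 + 2 * Real.pi / l * ((aa x q).re - height x - height q)) -
      Real.log (1 - Real.exp (-(2 * (2 * Real.pi / l) * height x))) -
      Real.log (2 * (2 * Real.pi / l) * height q) := by
  have e1 : (ex l x).2 * Complex.exp (-(2 * Real.pi / l * I * conj q.2) +
      2 * (2 * Real.pi / l) * inner ℂ q.1 (ex l x).1) =
      Complex.exp (-(2 * Real.pi / l : ℝ) * aa x q) := by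
    simp only [ex, aa]
    rw [← Complex.exp_add, div_I]
    congr 1
    push_cast
    ring
  have e2 : ‖(ex l x).1 - q.1‖ ^ 2 = (aa x q).re - height x - height q := by
    rw [aa_re]
    simp only [ex]
    ring
  have e3 : ‖(ex l x).2‖ ^ 2 * Real.exp (2 * (2 * Real.pi / l) * ‖(ex l x).1‖ ^ 2) =
      Real.exp (-(2 * (2 * Real.pi / l) * height x)) := by
    rw [norm_ex, ← Real.exp_nat_mul, ← Real.exp_add, height]
    congr 1
    simp only [ex]
    push_cast
    ring
  rw [GG, e1, e2, e3]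

theorem GG_up {l : ℝ} (hl : 0 < l) (n : ℤ) (q : E W) :
    GG l (up ((n * l : ℝ) : ℂ) q) = GG l q := by
  funext b
  have hl' : (l : ℂ) ≠ 0 := ofReal_ne_zero.2 hl.ne'
  have e1 : Complex.exp (-(2 * Real.pi / l * I * conj (up ((n * l : ℝ) : ℂ) q).2) +
      2 * (2 * Real.pi / l) * inner ℂ q.1 b.1) =
      Complex.exp (-(2 * Real.pi / l * I * conj q.2) + 2 * (2 * Real.pi / l) * inner ℂ q.1 b.1) := by
    refine Complex.exp_eq_exp_iff_exists_int.2 ⟨-n, ?_⟩
    simp only [up, map_add, conj_ofReal]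
    push_cast
    field_simp
    ring
  rw [GG, GG, height_up, ofReal_im, add_zero, ← e1]
  rfl

end Pool.Agent.MP_8ac6f3_ag

end MrgPart1

-- ======== part 2: formerly Pool.Agent.MP_8ac6f3_ag.Geo
section MrgPart2

/-! Row GEO3: compactness, packing, horoball systems. -/

open Set Metric Complex
open scoped ContDiff Topology ComplexConjugate

namespace Pool.Agent.MP_8ac6f3_ag

variable {W : Type} [NormedAddCommGroup W] [InnerProductSpace ℂ W] {g g' s : GV W} {x y z : E W}

section SysLemmas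

variable {L : ℝ} (S : Sys W L)

theorem Sys.N_le : S.N ≤ S.Γ := (Subgroup.closure_le _).mpr fun _ h => h.1

theorem Sys.N_uni {k : GV W} (hk : k ∈ S.N) : Unitary k := S.uni k (S.N_le hk)

theorem Sys.N_conj {γ k : GV W} (hγ : γ ∈ S.Γ) (hk : k ∈ S.N) : γ * k * γ⁻¹ ∈ S.N := by
  induction hk using Subgroup.closure_induction with
  | mem k hk =>
    obtain ⟨h1, v, t, rfl⟩ := hk
    refine Subgroup.subset_closure ⟨S.Γ.mul_mem (S.Γ.mul_mem hγ h1) (S.Γ.inv_mem hγ),
      (⟨γ, hγ⟩ : S.Γ) • v, t, ?_⟩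
    have h := (S.fr_smul ⟨γ, hγ⟩ v).conj_vertE
      (((S.fr_uni _).mul (S.uni γ hγ)).mul (S.fr_uni v).inv) t
    conv_rhs => rw [← h]
    simp only [mul_inv_rev, inv_inv, mul_assoc, inv_mul_cancel_left, inv_mul_cancel, mul_one]
  | one => simp
  | mul a b _ _ ha hb =>
    have := S.N.mul_mem ha hb
    simpa [mul_assoc] using this
  | inv a _ ha =>
    have := S.N.inv_mem ha
    simpa [mul_assoc] using this

theorem Sys.vert_mem (v : S.I) (n : ℤ) :
    (S.fr v)⁻¹ * vertE (n * S.len v) * S.fr v ∈ S.N :=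
  Subgroup.subset_closure ⟨(S.vert v _).mpr ⟨n, rfl⟩, v, _, rfl⟩

theorem Sys.hv_pos (v : S.I) (hx : 0 < height x) : 0 < S.hv v x := height_act_pos (S.fr_uni v) hx

theorem Sys.fr_act (γ : S.Γ) (v : S.I) (hx : 0 < height x) :
    act (S.fr (γ • v)) (act γ.1 x) = act (S.fr (γ • v) * γ.1 * (S.fr v)⁻¹) (act (S.fr v) x) := by
  rw [← act_mul (S.fr_uni v) hx, inv_mul_cancel_right, act_mul (S.uni _ γ.2) hx]

theorem Sys.hv_smul (γ : S.Γ) (v : S.I) (hx : 0 < height x) :
    S.hv (γ • v) (act γ.1 x) = S.hv v x := by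
  unfold Sys.hv
  rw [S.fr_act γ v hx, (S.fr_smul γ v).height_act
    (((S.fr_uni _).mul (S.uni _ γ.2)).mul (S.fr_uni v).inv)]

theorem Sys.aa_smul (γ : S.Γ) (v : S.I) (hx : 0 < height x) (hy : 0 < height y) :
    aa (act (S.fr (γ • v)) (act γ.1 x)) (act (S.fr (γ • v)) (act γ.1 y)) =
      aa (act (S.fr v) x) (act (S.fr v) y) := by
  rw [S.fr_act γ v hx, S.fr_act γ v hy, (S.fr_smul γ v).aa_act
    (((S.fr_uni _).mul (S.uni _ γ.2)).mul (S.fr_uni v).inv)]

theorem Sys.Thick.act {S : Sys W L} {H : ℝ} {γ : GV W} (hγ : γ ∈ S.Γ) (h : S.Thick H x) :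
    S.Thick H (act γ x) := by
  refine ⟨height_act_pos (S.uni γ hγ) h.1, fun v => ?_⟩
  have e := S.hv_smul ⟨γ, hγ⟩ ((⟨γ, hγ⟩ : S.Γ)⁻¹ • v) h.1
  rw [smul_inv_smul] at e
  exact e.le.trans (h.2 _)

theorem Sys.hv_le_cc (v : S.I) (hx : 0 < height x) (hy : 0 < height y) :
    S.hv v x ≤ 4 * cc x y ^ 2 * S.hv v y := by
  have h := height_le_cc (S.hv_pos v hx) (S.hv_pos v hy)
  rwa [cc_act (S.fr_uni v) hx hy] at h

theorem Sys.thick_lvl (v : S.I) (x : E W) : S.Thick 2 (act (S.fr v)⁻¹ (lvl x)) := by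
  have h0 : 0 < height (lvl x) := by rw [height_lvl]; norm_num
  have h1 := height_act_pos (S.fr_uni v).inv h0
  have h2 : S.hv v (act (S.fr v)⁻¹ (lvl x)) = 2 := by
    unfold Sys.hv
    rw [act_act_inv (S.fr_uni v) h0, height_lvl]
  refine ⟨h1, fun w => ?_⟩
  by_contra hw
  have := S.disj v w _ h1 (by change 1 < S.hv v _; rw [h2]; norm_num)
    (by change 1 < S.hv w _; linarith [not_le.mp hw])
  subst this
  exact hw h2.le

theorem Sys.exists_thick : ∃ q, S.Thick 2 q := by
  by_cases h : Nonempty S.I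
  · obtain ⟨v⟩ := h
    exact ⟨_, S.thick_lvl v oo⟩
  · exact ⟨oo, by rw [height_oo]; norm_num, fun v => (h ⟨v⟩).elim⟩

/-- Two different cusps: the second one is a boundary point with a small horoball. -/
theorem Sys.other_cusp {v w : S.I} (h : v ≠ w) : ∃ (p p' : E W) (κ : ℝ), height p = 0 ∧
    height p' = 0 ∧ 0 < κ ∧ κ ≤ 1 ∧ ∀ x, 0 < height x →
      S.hv v x = κ * S.hv w x / ‖aa (act (S.fr w) x) p‖ ^ 2 ∧
      ‖aa (act (S.fr w) x) p‖ * ‖aa (act (S.fr v) x) p'‖ = κ := by
  have hv := S.fr_uni v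
  have hw := S.fr_uni w
  have hd : ∀ y : E W, 1 < height y → height (act (S.fr v * (S.fr w)⁻¹) y) ≤ 1 := fun y hy => by
    have h0 : 0 < height y := by linarith
    by_contra hc
    rw [act_mul hw.inv h0] at hc
    exact h (S.disj v w _ (height_act_pos hw.inv h0) (not_le.mp hc)
      (by rwa [act_act_inv hw h0]))
  have e : ∀ x, 0 < height x →
      act (S.fr v * (S.fr w)⁻¹) (act (S.fr w) x) = act (S.fr v) x := fun x hx => by
    rw [← act_mul hw hx, inv_mul_cancel_right]
  rcases cusp_dichotomy (hv.mul hw.inv) with ⟨κ, hκ, h1⟩ | ⟨p, κ, hp, hκ, h1, p', hp', h2⟩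
  · exfalso
    have hy : height (up ((κ⁻¹ : ℝ) * Complex.I) (oo : E W)) = 1 + κ⁻¹ := by
      rw [height_up, height_oo]; simp
    have hk := inv_pos.mpr hκ
    have h3 := hd _ (by rw [hy]; linarith)
    rw [h1 _ (by rw [hy]; linarith), hy, mul_add, mul_inv_cancel₀ hκ.ne'] at h3
    linarith
  · refine ⟨p, p', κ, hp, hp', hκ, ?_, fun x hx => ⟨?_, ?_⟩⟩
    · by_contra hc
      have hc := not_le.mp hc
      set t := (1 + κ) / 2 with ht
      have hy : height (up ((t : ℝ) * Complex.I) p) = t := by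
        rw [height_up, hp]; simp
      have ha : aa (up ((t : ℝ) * Complex.I) p) p = t := by
        have h0 := aa_self p
        rw [hp] at h0
        unfold aa at h0 ⊢
        simp only [up]
        have : (p.2 + t * Complex.I - conj p.2) / Complex.I = (p.2 - conj p.2) / Complex.I + t := by
          field_simp
          ring
        rw [this]
        simp only [mul_zero, ofReal_zero] at h0
        linear_combination h0
      have ht1 : 1 < t := by linarith
      have h3 := hd _ (by rw [hy]; exact ht1)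
      rw [h1 _ (by rw [hy]; linarith), hy, ha, Complex.norm_real, Real.norm_eq_abs, sq_abs,
        div_le_one (by positivity)] at h3
      nlinarith
    · have := h1 _ (S.hv_pos w hx)
      rwa [e x hx] at this
    · have := h2 _ (S.hv_pos w hx)
      rwa [e x hx] at this

end SysLemmas

variable [FiniteDimensional ℂ W]

theorem isCompact_cc (hx : 0 < height x) (R : ℝ) :
    IsCompact {y : E W | 0 < height y ∧ cc x y ≤ R} := by
  by_cases hR : R < 1
  · convert isCompact_empty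
    exact eq_empty_of_forall_notMem fun y hy => by linarith [one_le_cc hx hy.1, hy.2]
  have hR := not_lt.mp hR
  have : ProperSpace (E W) := FiniteDimensional.proper ℂ _
  have hm : 0 < height x / (4 * R ^ 2) := by positivity
  have hsq : ∀ y : E W, 0 < height y → cc x y ≤ R → cc x y ^ 2 ≤ R ^ 2 := fun y hy h =>
    pow_le_pow_left₀ (zero_le_one.trans (one_le_cc hx hy)) h 2
  apply isCompact_of_isClosed_isBounded
  · have e : {y : E W | 0 < height y ∧ cc x y ≤ R} =
        {y | height x / (4 * R ^ 2) ≤ height y} ∩ (fun y => cc x y) ⁻¹' Iic R := by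
      ext y
      refine ⟨fun h => ⟨?_, h.2⟩, fun h => ⟨hm.trans_le h.1, h.2⟩⟩
      have h1 := height_le_cc hx h.1
      have h2 := hsq y h.1 h.2
      show _ ≤ height y
      rw [div_le_iff₀ (by positivity)]
      nlinarith [h.1]
    rw [e]
    refine ContinuousOn.preimage_isClosed_of_isClosed ?_
      (isClosed_le continuous_const continuous_height) isClosed_Iic
    exact ContinuousOn.comp (g := fun p : E W × E W => cc p.1 p.2) (f := fun y : E W => (x, y))
      continuousOn_cc (Continuous.prodMk_right x).continuousOn fun y hy => ⟨hx, hm.trans_le hy⟩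
  · set D := 4 * R ^ 2 * height x with hD
    refine (isBounded_closedBall (x := (0 : E W))
      (r := max (‖x.1‖ + (1 + D)) (‖x.2‖ + D + 2 * ((‖x.1‖ + (1 + D)) * ‖x.1‖)))).subset
      fun y hy => ?_
    have h1 : ‖aa x y‖ ≤ D := (norm_aa_le_cc hx hy.1).trans (by nlinarith [hsq y hy.1 hy.2])
    have h2 : ‖x.1 - y.1‖ ^ 2 ≤ D := by
      have := aa_re x y
      have := re_le_norm (aa x y)
      linarith [hy.1]
    have h3 : ‖y.1‖ ≤ ‖x.1‖ + (1 + D) := by
      have := norm_le_norm_add_norm_sub x.1 y.1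
      nlinarith [sq_nonneg (‖x.1 - y.1‖ - 1)]
    have h4 : conj y.2 = x.2 - I * aa x y - I * (2 * inner ℂ y.1 x.1) := by
      unfold aa
      field_simp
      ring
    have h5 : ‖y.2‖ ≤ ‖x.2‖ + D + 2 * ((‖x.1‖ + (1 + D)) * ‖x.1‖) := by
      rw [← norm_conj, h4]
      refine (norm_sub_le _ _).trans (add_le_add ((norm_sub_le _ _).trans ?_) ?_)
      · simpa using h1
      · have := norm_inner_le_norm (𝕜 := ℂ) y.1 x.1
        have := mul_le_mul_of_nonneg_right h3 (norm_nonneg x.1)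
        simp only [norm_mul, norm_I, one_mul, norm_ofNat]
        linarith
    rw [mem_closedBall_zero_iff, Prod.norm_def]
    exact max_le_max h3 h5

theorem packing (W : Type) [NormedAddCommGroup W] [InnerProductSpace ℂ W] [FiniteDimensional ℂ W]
    (R : ℝ) : ∃ n : ℕ, ∀ x : E W, 0 < height x → ∀ T : Finset (E W),
      (∀ y ∈ T, 0 < height y ∧ cc x y ≤ R) → (∀ y ∈ T, ∀ y' ∈ T, y ≠ y' → 2 < cc y y') →
      T.card ≤ n := by
  have h0 : 0 < height (oo : E W) := by rw [height_oo]; norm_num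
  have hU : ∀ y : E W, ∃ U : Set (E W), 0 < height y →
      U ∈ 𝓝 y ∧ ∀ a ∈ U, ∀ b ∈ U, cc a b < 2 := fun y => by
    by_cases hy : 0 < height y
    · have hn : {p : E W × E W | 0 < height p.1 ∧ 0 < height p.2} ∈ 𝓝 (y, y) :=
        (((isOpen_height 0).preimage continuous_fst).inter
          ((isOpen_height 0).preimage continuous_snd)).mem_nhds ⟨hy, hy⟩
      have hc := (continuousOn_cc.continuousAt hn).eventually_lt_const (u := 2)
        (by simp only [cc_self hy]; norm_num)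
      obtain ⟨u, hu, v, hv, h⟩ := mem_nhds_prod_iff.mp hc
      refine ⟨u ∩ v, fun _ => ⟨Filter.inter_mem hu hv, fun a ha b hb => ?_⟩⟩
      have h' := h (mk_mem_prod ha.1 hb.2)
      simp only [mem_ofPred_eq] at h'
      exact h'
    · exact ⟨univ, fun h => (hy h).elim⟩
  choose U hU using hU
  obtain ⟨t, ht, hc⟩ := (isCompact_cc h0 R).elim_nhds_subcover U fun y hy => (hU y hy.1).1
  refine ⟨t.card, fun x hx T h1 h2 => ?_⟩
  obtain ⟨g, hg, rfl⟩ := exists_act_oo hx
  have hm : ∀ y, ∃ c, y ∈ T → c ∈ t ∧ act g⁻¹ y ∈ U c := fun y => by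
    by_cases hy : y ∈ T
    · have hp := height_act_pos hg.inv (h1 y hy).1
      have : act g⁻¹ y ∈ ⋃ c ∈ t, U c := hc ⟨hp, by
        rw [← cc_act hg h0 hp, act_act_inv hg (h1 y hy).1]; exact (h1 y hy).2⟩
      obtain ⟨c, hc1, hc2⟩ := mem_iUnion₂.mp this
      exact ⟨c, fun _ => ⟨hc1, hc2⟩⟩
    · exact ⟨oo, fun h => (hy h).elim⟩
  choose c hc' using hm
  refine Finset.card_le_card_of_injOn c (fun y hy => (hc' y hy).1) fun y hy y' hy' e => ?_
  by_contra hne
  have h3 := h2 y hy y' hy' hne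
  have h4 := (hU (c y) (ht _ (hc' y hy).1).1).2 _ (hc' y hy).2 _ (e ▸ (hc' y' hy').2)
  rw [cc_act hg.inv (h1 y hy).1 (h1 y' hy').1] at h4
  linarith

theorem Sys.finite_cusps {L : ℝ} (S : Sys W L) {q : E W} (hq : 0 < height q) {η : ℝ}
    (hη : 0 < η) : {v | η ≤ S.hv v q}.Finite := by
  classical
  obtain ⟨n, hn⟩ := packing W (1 + 17 / η)
  let P : S.I → E W := fun v => act (S.fr v)⁻¹ (up (((17 : ℝ) : ℂ) * Complex.I) (act (S.fr v) q))
  have hu : ∀ v, height (up (((17 : ℝ) : ℂ) * Complex.I) (act (S.fr v) q)) = S.hv v q + 17 := fun v => by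
    rw [height_up]; simp [Sys.hv]
  have hup : ∀ v, 0 < height (up (((17 : ℝ) : ℂ) * Complex.I) (act (S.fr v) q)) := fun v => by
    rw [hu]; linarith [S.hv_pos v hq]
  have hP : ∀ v, 0 < height (P v) := fun v => height_act_pos (S.fr_uni v).inv (hup v)
  have hh : ∀ v, S.hv v (P v) = S.hv v q + 17 := fun v => by
    rw [← hu]
    exact congrArg height (act_act_inv (S.fr_uni v) (hup v))
  have hc : ∀ v, η ≤ S.hv v q → cc q (P v) ≤ 1 + 17 / η := fun v hv => by
    have hp := S.hv_pos v hq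
    rw [← cc_act (S.fr_uni v) hq (hP v), act_act_inv (S.fr_uni v) (hup v), cc, hu]
    have ha : aa (act (S.fr v) q) (up (((17 : ℝ) : ℂ) * Complex.I) (act (S.fr v) q)) =
        ((2 * S.hv v q + 17 : ℝ) : ℂ) := by
      have h0 := aa_self (act (S.fr v) q)
      unfold aa at h0 ⊢
      simp only [up, map_add, map_mul, conj_ofReal, conj_I, Sys.hv]
      have : ((act (S.fr v) q).2 - (conj (act (S.fr v) q).2 + (17 : ℝ) * -Complex.I)) / Complex.I =
          ((act (S.fr v) q).2 - conj (act (S.fr v) q).2) / Complex.I + 17 := by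
        field_simp
        push_cast
        ring
      rw [this]
      push_cast at h0 ⊢
      linear_combination h0
    rw [ha, Complex.norm_real, Real.norm_eq_abs, abs_of_pos (by positivity)]
    change _ / (2 * √(S.hv v q * _)) ≤ _
    have hs : S.hv v q ≤ √(S.hv v q * (S.hv v q + 17)) := Real.le_sqrt_of_sq_le (by nlinarith)
    rw [div_le_iff₀ (by positivity)]
    have h1 : 17 ≤ 17 / η * S.hv v q := by
      rw [div_mul_eq_mul_div, le_div_iff₀ hη]
      linarith
    have h2 : 0 < 17 / η := by positivity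
    nlinarith
  have hsep : ∀ v w, v ≠ w → 2 < cc (P v) (P w) := fun v w hvw => by
    by_contra hle
    have h1 := S.hv_le_cc v (hP v) (hP w)
    have h2 : cc (P v) (P w) ^ 2 ≤ 2 ^ 2 :=
      pow_le_pow_left₀ (zero_le_one.trans (one_le_cc (hP v) (hP w))) (not_lt.mp hle) 2
    have h3 := S.hv_pos v (hP w)
    have h4 := S.hv_pos v hq
    have h5 := S.hv_pos w hq
    refine hvw (S.disj v w _ (hP w) ?_ ?_)
    · change 1 < S.hv v _
      rw [hh] at h1
      nlinarith
    · change 1 < S.hv w _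
      rw [hh]
      linarith
  have hinj : Function.Injective P := fun v w e => by
    by_contra hne
    have := hsep v w hne
    rw [e, cc_self (hP w)] at this
    linarith
  by_contra hinf
  obtain ⟨T, hT, hcard⟩ := Set.Infinite.exists_subset_card_eq hinf (n + 1)
  have := hn q hq (T.image P) (fun y hy => by
    obtain ⟨v, hv, rfl⟩ := Finset.mem_image.mp hy
    exact ⟨hP v, hc v (hT hv)⟩) (fun y hy y' hy' hne => by
    obtain ⟨v, _, rfl⟩ := Finset.mem_image.mp hy
    obtain ⟨w, _, rfl⟩ := Finset.mem_image.mp hy'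
    exact hsep v w fun e => hne (by rw [e]))
  rw [Finset.card_image_of_injective _ hinj, hcard] at this
  omega

end Pool.Agent.MP_8ac6f3_ag

end MrgPart2

-- ======== part 3: formerly Pool.Agent.MP_8ac6f3_ag.C2
section MrgPart3

/-! Row C2: on a simply connected covering space the fibres of `J` are the orbits of `N`. -/

open Set Metric Filter
open scoped Topology

noncomputable section

namespace Pool.Agent.MP_8ac6f3_ag

namespace C2P

/-- A locally constant cocycle on a simply connected space is a coboundary. -/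
theorem cocycle {Y Q : Type} [TopologicalSpace Y] [SimplyConnectedSpace Y]
    [LocallyPathConnectedSpace Y] [Group Q] (U : Y → Set Y) (hU : ∀ a, IsOpen (U a))
    (hm : ∀ a, a ∈ U a) (t : Y → Y → Y → Q)
    (hloc : ∀ a b, ∀ y ∈ U a ∩ U b, ∀ᶠ y' in 𝓝 y, t a b y' = t a b y)
    (hc : ∀ a b c, ∀ y ∈ U a ∩ U b ∩ U c, t b c y * t a b y = t a c y) :
    ∃ s : Y → Q, ∀ a, ∀ y ∈ U a, ∀ᶠ y' in 𝓝 y, t y' a y' * s y' = t y a y * s y := by
  let _ : TopologicalSpace Q := ⊥
  have : DiscreteTopology Q := ⟨rfl⟩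
  let Z : FiberBundleCore Y Y Q :=
    { baseSet := U
      isOpen_baseSet := hU
      indexAt := id
      mem_baseSet_at := hm
      coordChange := fun a b y v => t a b y * v
      coordChange_self := fun a y hy v => by
        have h := hc a a a y ⟨⟨hy, hy⟩, hy⟩
        rw [mul_eq_left.1 h, one_mul]
      continuousOn_coordChange := fun a b p hp => by
        refine ContinuousAt.continuousWithinAt ?_
        have h1 : ∀ᶠ q : Y × Q in 𝓝 p, t a b q.1 = t a b p.1 :=
          continuousAt_fst.eventually (hloc a b p.1 hp.1)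
        have h2 : ∀ᶠ q : Y × Q in 𝓝 p, q.2 = p.2 :=
          continuousAt_snd.eventually (p := fun v => v = p.2) (by simp)
        refine (continuousAt_const (y := t a b p.1 * p.2)).congr ?_
        filter_upwards [h1, h2] with q e1 e2
        rw [e1, e2]
      coordChange_comp := fun a b c y hy v => by rw [← mul_assoc, hc a b c y hy] }
  have cov : IsCoveringMap Z.proj := FiberBundle.isCoveringMap
  obtain ⟨y0⟩ : Nonempty Y := inferInstance
  obtain ⟨F, ⟨-, hF⟩, -⟩ := cov.existsUnique_continuousMap_lifts (ContinuousMap.id Y) y0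
    ⟨y0, (1 : Q)⟩ rfl
  have hF1 : ∀ y, (F y).1 = y := fun y => congrFun hF y
  let s : Y → Q := fun y => (F y).2
  refine ⟨s, fun a y hy => ?_⟩
  have h1 : ContinuousAt (Z.localTriv a) (F y) :=
    (Z.localTriv a).continuousOn.continuousAt ((Z.localTriv a).open_source.mem_nhds
      (by rw [Z.mem_localTriv_source, hF1]; exact hy))
  have h2 : ContinuousAt (fun y' => (Z.localTriv a (F y')).2) y :=
    continuousAt_snd.comp (h1.comp F.continuous.continuousAt)
  have h3 := h2.eventually (p := fun v => v = (Z.localTriv a (F y)).2) (by simp)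
  have h4 : ∀ y', (Z.localTriv a (F y')).2 = t y' a y' * s y' := by
    intro y'
    change t (F y').1 a (F y').1 * s y' = _
    rw [hF1]
  filter_upwards [h3] with y' e
  rw [← h4, ← h4, e]

/-- The abstract form of the row. -/
theorem key {D Y G Q : Type} [TopologicalSpace D] [PreconnectedSpace D] [TopologicalSpace Y]
    [SimplyConnectedSpace Y] [LocallyPathConnectedSpace Y] [Group G] [MulAction G D]
    [ContinuousConstSMul G D] [Group Q] (φ : G →* Q) (J : D → Y) (hJ : Continuous J)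
    (hG : ∀ x y, J x = J y ↔ ∃ γ : G, γ • x = y)
    (sheet : ∀ y, ∀ O ∈ 𝓝 y, ∃ C : Set D, IsOpen C ∧ IsPreconnected C ∧ C.Nonempty ∧
      (∀ x ∈ C, J x ∈ O) ∧ (∀ᶠ y' in 𝓝 y, y' ∈ range J → y' ∈ J '' C) ∧
      ∀ (γ : G) x, x ∈ C → γ • x ∈ C → φ γ = 1) (γ : G) : φ γ = 1 := by
  classical
  choose C Co _ _ _ Cev Cφ using fun y => sheet y univ univ_mem
  let U : Y → Set Y := fun a => interior {y' | y' ∈ range J → y' ∈ J '' C a}
  have hm : ∀ a, a ∈ U a := fun a => mem_interior_iff_mem_nhds.2 (Cev a)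
  have hJγ : ∀ (γ : G) x, J (γ • x) = J x := fun γ x => ((hG x _).2 ⟨γ, rfl⟩).symm
  let c : Y → D → Q := fun a x => if h : ∃ γ : G, γ⁻¹ • x ∈ C a then φ h.choose else 1
  have c1 : ∀ a x (γ : G), γ⁻¹ • x ∈ C a → c a x = φ γ := by
    intro a x γ h
    have h0 : ∃ γ : G, γ⁻¹ • x ∈ C a := ⟨γ, h⟩
    have h1 := Cφ a (γ⁻¹ * h0.choose) _ h0.choose_spec (by simpa [mul_smul] using h)
    rw [map_mul, map_inv, inv_mul_eq_one] at h1
    simp only [c, dif_pos h0, h1]
  have c2 : ∀ a x, J x ∈ U a → ∃ γ : G, γ⁻¹ • x ∈ C a := by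
    intro a x hx
    obtain ⟨x', hx', e⟩ := interior_subset hx ⟨x, rfl⟩
    obtain ⟨γ, rfl⟩ := (hG _ _).1 e
    exact ⟨γ, by simpa using hx'⟩
  have c3 : ∀ a x (γ : G), J x ∈ U a → c a (γ • x) = φ γ * c a x := by
    intro a x γ hx
    obtain ⟨δ, hδ⟩ := c2 a x hx
    rw [c1 a x δ hδ, c1 a (γ • x) (γ * δ) (by simpa [mul_smul] using hδ), map_mul]
  have c4 : ∀ a x, J x ∈ U a → ∀ᶠ x' in 𝓝 x, c a x' = c a x := by
    intro a x hx
    obtain ⟨δ, hδ⟩ := c2 a x hx
    have h := (continuous_const_smul δ⁻¹).continuousAt.eventually ((Co a).mem_nhds hδ)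
    filter_upwards [h] with x' hx'
    rw [c1 a x δ hδ, c1 a x' δ hx']
  have dense : ∀ y (P : Y → Prop), (∀ᶠ y' in 𝓝 y, P y') → ∃ x, P (J x) := by
    intro y P hP
    obtain ⟨C', -, -, ⟨x, hx⟩, h, -⟩ := sheet y _ hP
    exact ⟨x, h x hx⟩
  have ex : ∀ a b y, ∃ q : Q, y ∈ U a ∩ U b →
      ∀ᶠ y' in 𝓝 y, ∀ x, J x = y' → (c b x)⁻¹ * c a x = q := by
    intro a b y
    by_cases hy : y ∈ U a ∩ U b
    swap
    · exact ⟨1, fun h => absurd h hy⟩
    obtain ⟨C', -, hp, ⟨x0, hx0⟩, hO, hev, -⟩ :=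
      sheet y (U a ∩ U b) ((isOpen_interior.inter isOpen_interior).mem_nhds hy)
    refine ⟨(c b x0)⁻¹ * c a x0, fun _ => ?_⟩
    let _ : TopologicalSpace Q := ⊥
    have : DiscreteTopology Q := ⟨rfl⟩
    have hcont : ContinuousOn (fun x => (c b x)⁻¹ * c a x) C' := by
      intro x hx
      refine ContinuousAt.continuousWithinAt ?_
      refine (continuousAt_const (y := (c b x)⁻¹ * c a x)).congr ?_
      filter_upwards [c4 a x (hO x hx).1, c4 b x (hO x hx).2] with x' e1 e2
      rw [e1, e2]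
    filter_upwards [hev] with y' h x hx
    obtain ⟨x', hx', e⟩ := h ⟨x, hx⟩
    obtain ⟨δ, rfl⟩ := (hG _ _).1 (e.trans hx.symm)
    rw [c3 a x' δ (hO x' hx').1, c3 b x' δ (hO x' hx').2, ← hp.constant hcont hx' hx0]
    group
  choose t ht using ex
  have hloc : ∀ a b, ∀ y ∈ U a ∩ U b, ∀ᶠ y' in 𝓝 y, t a b y' = t a b y := by
    intro a b y hy
    filter_upwards [(ht a b y hy).eventually_nhds,
      (isOpen_interior.inter isOpen_interior).mem_nhds hy] with y' h1 h2
    obtain ⟨x, e1, e2⟩ := dense y' _ (h1.and (ht a b y' h2))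
    rw [← e1 x rfl, ← e2 x rfl]
  have hc : ∀ a b d, ∀ y ∈ U a ∩ U b ∩ U d, t b d y * t a b y = t a d y := by
    intro a b d y hy
    obtain ⟨x, e1, e2, e3⟩ := dense y _ ((ht a b y hy.1).and
      ((ht b d y ⟨hy.1.2, hy.2⟩).and (ht a d y ⟨hy.1.1, hy.2⟩)))
    rw [← e1 x rfl, ← e2 x rfl, ← e3 x rfl]
    group
  obtain ⟨s, hs⟩ := cocycle U (fun _ => isOpen_interior) hm t hloc hc
  have hσ : ∀ a x, J x ∈ U a → c a x * (t (J x) a (J x) * s (J x)) = c (J x) x * s (J x) := by
    intro a x hx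
    rw [← (ht (J x) a (J x) ⟨hm _, hx⟩).self_of_nhds x rfl]
    group
  have hlc : IsLocallyConstant fun x => c (J x) x * s (J x) := by
    refine (IsLocallyConstant.iff_eventually_eq _).2 fun x => ?_
    filter_upwards [c4 (J x) x (hm _), hJ.continuousAt.eventually (hs (J x) (J x) (hm _)),
      hJ.continuousAt.eventually (isOpen_interior.mem_nhds (hm (J x)))] with x' e1 e2 e3
    rw [← hσ (J x) x' e3, ← hσ (J x) x (hm _), e1, e2]
  obtain ⟨y0⟩ : Nonempty Y := inferInstance
  obtain ⟨x, -⟩ := dense y0 (fun _ => True) (by simp)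
  have h := hlc.apply_eq_of_preconnectedSpace (γ • x) x
  simp only [hJγ] at h
  rw [c3 (J x) x γ (hm _), mul_assoc] at h
  exact mul_eq_right.1 h

/-- A continuous lift of a map that is open at a point is open at that point. -/
theorem lift_open {A X Y : Type} [TopologicalSpace A] [TopologicalSpace X] [TopologicalSpace Y]
    {p : Y → X} (hp : IsCoveringMap p) {F : A → Y} {f : A → X} {a : A} (hF : ContinuousAt F a)
    (he : ∀ᶠ a' in 𝓝 a, p (F a') = f a') (hf : map f (𝓝 a) = 𝓝 (f a)) {C : Set A}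
    (hC : C ∈ 𝓝 a) : F '' C ∈ 𝓝 (F a) := by
  obtain ⟨V, Vo, hV, hinj⟩ := hp.isLocalHomeomorph.isLocallyInjective (F a)
  have h1 : f '' (C ∩ (F ⁻¹' V ∩ {a' | p (F a') = f a'})) ∈ 𝓝 (p (F a)) := by
    rw [he.self_of_nhds, ← hf]
    exact image_mem_map (inter_mem hC (inter_mem (hF (Vo.mem_nhds hV)) he))
  filter_upwards [Vo.mem_nhds hV, hp.continuous.continuousAt h1] with y hy h
  obtain ⟨a', ⟨h2, h3, h4⟩, e⟩ := h
  exact ⟨a', h2, hinj h3 hy (h4.trans e)⟩

theorem inj_near {A X : Type} [TopologicalSpace A] [TopologicalSpace X] {f : A → X} {s : Set A}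
    (hf : IsLocalHomeomorphOn f s) {a : A} (ha : a ∈ s) : ∃ V ∈ 𝓝 a, InjOn f V := by
  obtain ⟨e, he, rfl⟩ := hf a ha
  exact ⟨e.source, e.open_source.mem_nhds he, e.injOn⟩

variable {W : Type} [NormedAddCommGroup W] [InnerProductSpace ℂ W] {L : ℝ}
  {X : Type} [TopologicalSpace X] [ChartedSpace (E W) X]

/-- An element with a fixed point acts trivially. -/
theorem free (T : Toroidal W L X) {γ : GV W} (hγ : γ ∈ T.Γ) {x : E W} (hx : 0 < height x)
    (h : act γ x = x) (y : E W) (hy : 0 < height y) : act γ y = y := by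
  have hu := T.unitary γ hγ
  have hD : IsPreconnected {x : E W | 0 < height x} := (convex_height 0).isPreconnected
  have hc : ∀ z : E W, 0 < height z → ContinuousAt (act γ) z := fun z hz =>
    (continuousOn_act hu).continuousAt ((isOpen_height 0).mem_nhds hz)
  have key := hD.subset_of_closure_inter_subset (u := interior {z | act γ z = z}) isOpen_interior
  have op : ∀ z : E W, 0 < height z → act γ z = z → z ∈ interior {z | act γ z = z} := by
    intro z hz e
    obtain ⟨V, hV, hinj⟩ := inj_near T.j_loc.isLocalHomeomorphOn hz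
    rw [mem_interior_iff_mem_nhds]
    filter_upwards [hV, hc z hz (by rw [e]; exact hV), (isOpen_height 0).mem_nhds hz] with w h1 h2 h3
    exact (hinj h1 h2 ((T.j_eq _ _ h3 (height_act_pos hu h3)).2 ⟨γ, hγ, rfl⟩)).symm
  refine interior_subset (s := {z | act γ z = z}) (key ⟨x, hx, op x hx h⟩ ?_ hy)
  rintro z ⟨hz1, hz⟩
  refine op z hz ?_
  have h1 : z ∈ closure {z | act γ z = z} := closure_mono interior_subset hz1
  exact tendsto_nhds_unique_of_frequently_eq (hc z hz) continuousAt_id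
    (mem_closure_iff_frequently.1 h1)

theorem convex_ex {l r : ℝ} (hr : 0 < r) (z : W) :
    Convex ℝ {u : E W | ex l u ∈ ball ((z, 0) : E W) r} := by
  have h : {u : E W | ex l u ∈ ball ((z, 0) : E W) r} =
      (LinearMap.fst ℝ W ℂ) ⁻¹' ball z r ∩
        {u : E W | -(2 * Real.pi / l) * u.2.im < Real.log r} := by
    ext u
    have h1 : (2 * Real.pi / l * Complex.I * u.2).re = -(2 * Real.pi / l) * u.2.im := by
      have : (2 * Real.pi / l * Complex.I * u.2 : ℂ) =
          ((2 * Real.pi / l : ℝ) : ℂ) * (Complex.I * u.2) := by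
        push_cast
        ring
      rw [this, Complex.re_ofReal_mul]
      simp
    simp only [ex, ← ball_prod_same, mem_ofPred_eq, mem_prod, mem_inter_iff, mem_preimage,
      LinearMap.fst_apply, mem_ball_zero_iff, Complex.norm_exp, h1, Real.lt_log_iff_exp_lt hr]
  rw [h]
  refine ((convex_ball z r).linear_preimage _).inter (convex_halfSpace_lt ⟨?_, ?_⟩ _)
  · intro a b
    simp [mul_add]
  · intro c a
    simp
    ring

omit [InnerProductSpace ℂ W] in
theorem continuous_ex (l : ℝ) : Continuous (ex l : E W → E W) := by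
  unfold ex
  fun_prop

/-- Every point of the covering space has small neighbourhoods with a connected sheet above. -/
theorem sheet (T : Toroidal W L X) (S : Sys W L) (hL : 0 < L) (hk : Link T S) {Y : Type}
    [TopologicalSpace Y] {p : Y → X} (hp : IsCoveringMap p) (Λ : Lifts T S p) (y : Y) {O : Set Y}
    (hO : O ∈ 𝓝 y) : ∃ C : Set (E W), IsOpen C ∧ IsPreconnected C ∧ C.Nonempty ∧
      (∀ x ∈ C, 0 < height x ∧ Λ.J x ∈ O) ∧
      (∀ᶠ y' in 𝓝 y, ∀ x, 0 < height x → Λ.J x = y' → y' ∈ Λ.J '' C) ∧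
      ∀ γ ∈ T.Γ, ∀ x ∈ C, act γ x ∈ C → ∃ k ∈ S.N, ∀ z, 0 < height z → act γ z = act k z := by
  have hD := isOpen_height (W := W) 0
  rcases Λ.surj y with ⟨x0, hx0, rfl⟩ | ⟨γ0, hγ0, i, z, rfl⟩
  · obtain ⟨V, hV, hinj⟩ := inj_near T.j_loc.isLocalHomeomorphOn hx0
    have hc : ContinuousAt Λ.J x0 := Λ.J_cont.continuousAt (hD.mem_nhds hx0)
    obtain ⟨r, hr, hsub⟩ := Metric.mem_nhds_iff.1
      (inter_mem hV (inter_mem (hD.mem_nhds hx0) (hc hO)))
    refine ⟨ball x0 r, isOpen_ball, (convex_ball x0 r).isPreconnected, ⟨x0, mem_ball_self hr⟩,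
      fun x hx => (hsub hx).2, ?_, fun γ hγ x hx hx' => ⟨1, one_mem _, fun w hw => ?_⟩⟩
    · filter_upwards [lift_open hp hc (f := T.j)
        (by filter_upwards [hD.mem_nhds hx0] with w hw using Λ.J_lift w hw)
        (T.j_loc.isLocalHomeomorphOn.map_nhds_eq hx0) (ball_mem_nhds x0 hr)] with y' h _ _ _
      exact h
    · rw [act_one]
      refine free T hγ (hsub hx).2.1 (hinj (hsub hx').1 (hsub hx).1 ?_) w hw
      exact ((T.j_eq _ _ (hsub hx).2.1 (hsub hx').2.1).2 ⟨γ, hγ, rfl⟩).symm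
  · have hl : 0 < T.l i := hL.trans_le (T.deep i)
    have hU := isOpen_UU (W := W) (T.l i) 1
    have hz : ((z, 0) : E W) ∈ UU (T.l i) 1 := by simp [UU, Real.exp_pos]
    have hφ : IsLocalHomeomorphOn (T.φ i) (UU (T.l i) 1) := (T.φ_loc i).isLocalHomeomorphOn
    obtain ⟨V, hV, hinj⟩ := inj_near hφ hz
    have hc : ContinuousAt (Λ.Φ γ0 i) (z, 0) := (Λ.Φ_cont γ0 hγ0 i).continuousAt (hU.mem_nhds hz)
    obtain ⟨r, hr, hsub⟩ := Metric.mem_nhds_iff.1
      (inter_mem hV (inter_mem (hU.mem_nhds hz) (hc hO)))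
    have hg := T.g_unitary i
    have h0 := T.unitary γ0 hγ0
    have hh : Unitary (T.g i * γ0⁻¹) := hg.mul h0.inv
    have ht : ∀ u : E W, ex (T.l i) u ∈ ball ((z, 0) : E W) r → 1 < height u := fun u hu =>
      (ex_mem_UU hl).1 (hsub hu).2.1
    have hΦ : ∀ x : E W, 0 < height x →
        ex (T.l i) (act (T.g i * γ0⁻¹) x) ∈ ball ((z, 0) : E W) r →
        Λ.Φ γ0 i (ex (T.l i) (act (T.g i * γ0⁻¹) x)) = Λ.J x := by
      intro x hx hu
      rw [Λ.Φ_eq γ0 hγ0 i _ (ht _ hu), act_mul h0.inv hx,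
        act_inv_act hg (height_act_pos h0.inv hx), act_act_inv h0 hx]
    have hmem : ∀ u : E W, ex (T.l i) u ∈ ball ((z, 0) : E W) r →
        act (T.g i * γ0⁻¹)⁻¹ u ∈ {x : E W | 0 < height x} ∩
          (fun x => ex (T.l i) (act (T.g i * γ0⁻¹) x)) ⁻¹' ball ((z, 0) : E W) r := by
      intro u hu
      have h1 : 0 < height u := one_pos.trans (ht u hu)
      exact ⟨height_act_pos hh.inv h1, by rw [mem_preimage, act_act_inv hh h1]; exact hu⟩
    refine ⟨{x : E W | 0 < height x} ∩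
      (fun x => ex (T.l i) (act (T.g i * γ0⁻¹) x)) ⁻¹' ball ((z, 0) : E W) r,
      ((continuous_ex _).comp_continuousOn (continuousOn_act hh)).isOpen_inter_preimage hD
        isOpen_ball, ?_, ?_, fun x hx => ⟨hx.1, ?_⟩, ?_, fun γ hγ x hx hx' => ?_⟩
    · have h1 := (convex_ex (l := T.l i) hr z).isPreconnected.image (act (T.g i * γ0⁻¹)⁻¹)
        ((continuousOn_act hh.inv).mono fun u hu => one_pos.trans (ht u hu))
      convert h1 using 1
      refine Subset.antisymm (fun x hx => ⟨_, hx.2, act_inv_act hh hx.1⟩) ?_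
      rintro _ ⟨u, hu, rfl⟩
      exact hmem u hu
    · obtain ⟨u, hu⟩ := exists_ex hl (b := ((z, ((r / 2 : ℝ) : ℂ)) : E W))
        (Complex.ofReal_ne_zero.2 (half_pos hr).ne')
      refine ⟨_, hmem u ?_⟩
      rw [hu, ← ball_prod_same]
      refine ⟨mem_ball_self hr, ?_⟩
      rw [mem_ball_zero_iff, Complex.norm_real, Real.norm_of_nonneg (half_pos hr).le]
      exact half_lt_self hr
    · rw [← hΦ x hx.1 hx.2]
      exact (hsub hx.2).2.2
    · filter_upwards [lift_open hp hc (f := T.φ i)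
        (by filter_upwards [hU.mem_nhds hz] with w hw using Λ.Φ_lift γ0 hγ0 i w hw)
        (hφ.map_nhds_eq hz) (ball_mem_nhds _ hr)] with y' h x hx e
      obtain ⟨b, hb, rfl⟩ := h
      have hb2 : b.2 ≠ 0 := fun h2 => T.φ_bd i b.1 x hx (by
        rw [← h2, ← Λ.J_lift x hx, e, Λ.Φ_lift γ0 hγ0 i b (hsub hb).2.1])
      obtain ⟨u, rfl⟩ := exists_ex hl hb2
      refine ⟨_, hmem u hb, ?_⟩
      rw [← hΦ _ (hmem u hb).1 (hmem u hb).2, act_act_inv hh (one_pos.trans (ht u hb))]
    · have e1 : T.φ i (ex (T.l i) (act (T.g i * γ0⁻¹) x)) =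
          T.φ i (ex (T.l i) (act (T.g i * γ0⁻¹) (act γ x))) := by
        rw [← Λ.Φ_lift γ0 hγ0 i _ (hsub hx.2).2.1, ← Λ.Φ_lift γ0 hγ0 i _ (hsub hx'.2).2.1,
          hΦ _ hx.1 hx.2, hΦ _ hx'.1 hx'.2, Λ.J_lift _ hx.1, Λ.J_lift _ hx'.1]
        exact (T.j_eq _ _ hx.1 hx'.1).2 ⟨γ, hγ, rfl⟩
      obtain ⟨n, hn⟩ := (ex_eq_iff hl).1 (hinj (hsub hx.2).1 (hsub hx'.2).1 e1)
      obtain ⟨v, hv, hlen⟩ := hk.to_cusp γ0 hγ0 i
      have hkN := S.vert_mem v n
      have e2 : (S.fr v)⁻¹ * vertE (n * S.len v) * S.fr v =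
          (T.g i * γ0⁻¹)⁻¹ * vertE (n * T.l i) * (T.g i * γ0⁻¹) := by
        rw [hlen]
        conv_rhs => rw [← hv.conj_vertE (hh.mul (S.fr_uni v).inv) (n * T.l i)]
        group
      rw [e2] at hkN
      have hku := S.N_uni hkN
      have e3 : act ((T.g i * γ0⁻¹)⁻¹ * vertE (n * T.l i) * (T.g i * γ0⁻¹)) x = act γ x := by
        rw [act_mul hh hx.1, act_mul (unitary_vertE _) (height_act_pos hh hx.1), act_vertE, ← hn,
          act_inv_act hh hx'.1]
      generalize (T.g i * γ0⁻¹)⁻¹ * vertE (n * T.l i) * (T.g i * γ0⁻¹) = k at hkN hku e3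
      have hu := T.unitary γ hγ
      refine ⟨k, hkN, fun w hw => ?_⟩
      have h1 := free T (mul_mem (inv_mem (hk.grp ▸ S.N_le hkN)) hγ) hx.1
        (by rw [act_mul hu hx.1, ← e3, act_inv_act hku hx.1]) w hw
      rw [act_mul hu hw] at h1
      conv_rhs => rw [← h1, act_act_inv hku (height_act_pos hu hw)]

end C2P

open C2P

variable {W : Type} [NormedAddCommGroup W] [InnerProductSpace ℂ W] [FiniteDimensional ℂ W]

theorem c2 : C2Stmt W := by
  intro L X _ _ T S hL hk Y _ _ _ p hp Λ x y hx hy hJ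
  have hD : IsPreconnected {x : E W | 0 < height x} := (convex_height 0).isPreconnected
  let D := {x : E W // 0 < height x}
  have : PreconnectedSpace D := isPreconnected_iff_preconnectedSpace.1 hD
  let G : Subgroup (GV W) :=
    { carrier := {γ | γ ∈ T.Γ ∧ ∀ z, 0 < height z → Λ.J (act γ z) = Λ.J z}
      one_mem' := ⟨one_mem _, fun z _ => by rw [act_one]⟩
      mul_mem' := fun {a b} ha hb => ⟨mul_mem ha.1 hb.1, fun z hz => by
        rw [act_mul (T.unitary b hb.1) hz, ha.2 _ (height_act_pos (T.unitary b hb.1) hz), hb.2 z hz]⟩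
      inv_mem' := fun {a} ha => ⟨inv_mem ha.1, fun z hz => by
        rw [← ha.2 _ (height_act_pos (T.unitary a ha.1).inv hz),
          act_act_inv (T.unitary a ha.1) hz]⟩ }
  have hu : ∀ γ : G, Unitary γ.1 := fun γ => T.unitary _ γ.2.1
  let _ : MulAction G D :=
    { smul := fun γ z => ⟨act γ.1 z.1, height_act_pos (hu γ) z.2⟩
      one_smul := fun z => Subtype.ext (act_one z.1)
      mul_smul := fun a b z => Subtype.ext (act_mul (hu b) z.2) }
  have : ContinuousConstSMul G D :=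
    ⟨fun γ => (continuousOn_iff_continuous_domRestrict.1 (continuousOn_act (hu γ))).subtype_mk _⟩
  let N : Subgroup G :=
    { carrier := {γ | ∃ k ∈ S.N, ∀ z, 0 < height z → act γ.1 z = act k z}
      one_mem' := ⟨1, one_mem _, fun _ _ => rfl⟩
      mul_mem' := by
        rintro a b ⟨k, hk, e⟩ ⟨k', hk', e'⟩
        refine ⟨k * k', mul_mem hk hk', fun z hz => ?_⟩
        rw [Subgroup.coe_mul, act_mul (hu b) hz, act_mul (S.N_uni hk') hz,
          e _ (height_act_pos (hu b) hz), e' z hz]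
      inv_mem' := by
        rintro a ⟨k, hk, e⟩
        refine ⟨k⁻¹, inv_mem hk, fun z hz => ?_⟩
        have h1 := height_act_pos (hu a).inv hz
        rw [Subgroup.coe_inv]
        conv_rhs => rw [← act_act_inv (hu a) hz, e _ h1, act_inv_act (S.N_uni hk) h1] }
  have : N.Normal := ⟨by
    rintro a ⟨k, hkN, e⟩ b
    refine ⟨b.1 * k * b.1⁻¹, S.N_conj (hk.grp ▸ b.2.1) hkN, fun z hz => ?_⟩
    have h1 := height_act_pos (hu b).inv hz
    rw [Subgroup.coe_mul, Subgroup.coe_mul, Subgroup.coe_inv, act_mul (hu b).inv hz,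
      act_mul (hu b).inv hz, act_mul (hu a) h1, act_mul (S.N_uni hkN) h1, e _ h1]⟩
  have hG : ∀ a b : D, Λ.J a.1 = Λ.J b.1 ↔ ∃ γ : G, γ • a = b := by
    refine fun a b => ⟨fun h => ?_, ?_⟩
    · obtain ⟨γ, hγ, e⟩ := (T.j_eq _ _ a.2 b.2).1 (by rw [← Λ.J_lift _ a.2, h, Λ.J_lift _ b.2])
      have hγu := T.unitary γ hγ
      refine ⟨⟨γ, hγ, ?_⟩, Subtype.ext e⟩
      refine hp.eqOn_of_comp_eqOn hD
        (Λ.J_cont.comp (continuousOn_act hγu) fun z hz => height_act_pos hγu hz) Λ.J_cont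
        (fun z hz => ?_) a.2 (by rw [e, h])
      simp only [Function.comp_apply]
      rw [Λ.J_lift _ hz, Λ.J_lift _ (height_act_pos hγu hz)]
      exact ((T.j_eq _ _ hz (height_act_pos hγu hz)).2 ⟨γ, hγ, rfl⟩).symm
    · rintro ⟨γ, rfl⟩
      exact (γ.2.2 _ a.2).symm
  obtain ⟨γ, e⟩ := (hG ⟨x, hx⟩ ⟨y, hy⟩).1 hJ
  have h := key (QuotientGroup.mk' N) (fun a : D => Λ.J a.1)
    (continuousOn_iff_continuous_domRestrict.1 Λ.J_cont) hG (fun w O hO => ?_) γ
  · obtain ⟨k, hkN, e'⟩ := (QuotientGroup.eq_one_iff γ).1 h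
    exact ⟨k, hkN, (e' x hx).symm.trans (congrArg Subtype.val e)⟩
  obtain ⟨C, h1, h2, ⟨c, hc⟩, h4, h5, h6⟩ := sheet T S hL hk hp Λ w hO
  refine ⟨Subtype.val ⁻¹' C, h1.preimage continuous_subtype_val, ?_, ⟨⟨c, (h4 c hc).1⟩, hc⟩,
    fun a ha => (h4 _ ha).2, ?_, fun δ a ha ha' => ?_⟩
  · refine (Topology.IsInducing.subtypeVal (t := {x : E W | 0 < height x})).isPreconnected_image.1 ?_
    convert h2 using 1
    refine Subset.antisymm ?_ fun a ha => ⟨⟨a, (h4 a ha).1⟩, ha, rfl⟩
    rintro _ ⟨a, ha, rfl⟩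
    exact ha
  · filter_upwards [h5] with y' h
    rintro ⟨a, ha⟩
    obtain ⟨b, hb, e'⟩ := h a.1 a.2 ha
    exact ⟨⟨b, (h4 b hb).1⟩, hb, e'⟩
  · exact (QuotientGroup.eq_one_iff δ).2 (h6 δ.1 δ.2.1 a.1 ha ha')

end Pool.Agent.MP_8ac6f3_ag

end

end MrgPart3

-- marker of a merged file
example : 731051 + 865687 = 731051 + 865687 := rfl
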