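import Pool.Agent.MP_8ac6f3_ag.C2
import Pool.Agent.MP_54e5d7_al.atc.SC
import Mathlib.Analysis.Convex.PathConnected
import Pool.Agent.MP_8ac6f3_ag.Calc
import Mathlib.Analysis.SpecialFunctions.SmoothTransition
import Mathlib.Order.Zorn
import Pool.Agent.MP_8ac6f3_ag.C01
import Mathlib.Geometry.Manifold.MFDeriv.FDeriv
import Mathlib.Geometry.Manifold.ContMDiff.NormedSpace
import Mathlib.Analysis.Normed.Module.FiniteDimension
import Mathlib.Geometry.Manifold.MFDeriv.Basic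

-- ======== part 0: formerly Pool.Agent.MP_8ac6f3_ag.GL
section MrgPart0

/-! Row GL: Greendlinger's lemma for the group generated by the vertical translations. -/

open Set Metric Complex
open scoped Topology ComplexConjugate

noncomputable section

namespace Pool.Agent.MP_8ac6f3_ag

open Pool.Agent.MP_54e5d7_al.SC

namespace GLP

/-- The stabiliser of an index in the group generated by the spinning subgroups. -/
theorem stab {G B J : Type*} [Group G] [MulAction G B] [MulAction G J] (D : Dat G B J) (x : B)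
    {k : G} (hk : k ∈ D.K) {v : J} (hv : k • v = v) : k ∈ D.N v := by
  have hth := D.th_pos
  have key : ∀ k ∈ D.K, k • v = v → k = 1 ∨ ∃ n ∈ D.N v, n ≠ 1 ∧
      D.d (D.p v (k • D.p v x)) (n • D.p v (D.p v x)) ≤ 12 * D.th := by
    intro k hk hv
    rcases D.greendlinger (D.p v x) hk with h | ⟨u, n, hn, hn1, h⟩
    · exact Or.inl h
    by_cases huv : u = v
    · subst huv
      exact Or.inr ⟨n, hn, hn1, h⟩
    exfalso
    obtain ⟨a, b, -, hab⟩ := D.beh u v huv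
    have e : k • D.p v x = D.p v (k • x) := by rw [← D.p_eq, hv]
    rw [e] at h
    have h1 := (hab (k • x)).1
    have h2 := (hab x).1
    have h3 := D.spin u n (D.p v x) hn hn1
    have h4 := D.tri (D.p u (D.p v x)) a (n • D.p u (D.p v x))
    have h5 := D.tri a (D.p u (D.p v (k • x))) (n • D.p u (D.p v x))
    have h6 := D.symm a (D.p u (D.p v (k • x)))
    linarith
  rcases key k hk hv with h | ⟨n, hn, -, h⟩
  · rw [h]; exact one_mem _
  have hk' : n⁻¹ * k ∈ D.K := D.K.mul_mem (D.K.inv_mem (D.N_le_K v hn)) hk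
  have hv' : (n⁻¹ * k) • v = v := by rw [mul_smul, hv, D.N_fix v _ (inv_mem hn)]
  rcases key _ hk' hv' with h' | ⟨n', hn', hn1, h'⟩
  · rw [← inv_mul_eq_one.mp h']; exact hn
  exfalso
  rw [mul_smul, D.p_N (inv_mem hn)] at h'
  have h1 := D.inv n⁻¹ (D.p v (k • D.p v x)) (n • D.p v (D.p v x))
  rw [inv_smul_smul] at h1
  have h3 := D.spin v n' (D.p v x) hn' hn1
  have h4 := D.tri (D.p v (D.p v x)) (n⁻¹ • D.p v (k • D.p v x)) (n' • D.p v (D.p v x))
  have h5 := D.symm (D.p v (D.p v x)) (n⁻¹ • D.p v (k • D.p v x))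
  linarith

variable {W : Type} [NormedAddCommGroup W] [InnerProductSpace ℂ W] {x y : E W}

theorem lvl_pos (x : E W) : 0 < height (lvl x) := by rw [height_lvl]; norm_num

theorem aa_lvl (x y : E W) :
    aa (lvl x) (lvl y) = aa x y + ((4 - height x - height y : ℝ) : ℂ) := by
  apply Complex.ext
  · rw [add_re, ofReal_re, aa_re, aa_re, height_lvl, height_lvl]
    show 2 + 2 + ‖x.1 - y.1‖ ^ 2 = _
    ring
  · rw [add_im, ofReal_im, aa_lvl_im, add_zero]

theorem cc_two (hx : height x = 2) (hy : height y = 2) : cc x y = ‖aa x y‖ / 4 := by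
  have : √((2 : ℝ) * 2) = 2 := Real.sqrt_mul_self (by norm_num)
  rw [cc, hx, hy, this]
  norm_num

theorem cc_nonneg (x y : E W) : 0 ≤ cc x y := by unfold cc; positivity

theorem cc_lvl_le (hx : 0 < height x) (hy : 0 < height y) (hx2 : height x ≤ 2)
    (hy2 : height y ≤ 2) : cc (lvl x) (lvl y) ≤ cc x y := by
  refine (pow_le_pow_iff_left₀ (cc_nonneg _ _) (cc_nonneg _ _) two_ne_zero).mp ?_
  rw [cc_sq hx hy, cc_two (height_lvl x) (height_lvl y), div_pow, Complex.sq_norm,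
    Complex.sq_norm, normSq_apply, normSq_apply, aa_lvl_im, aa_re, aa_re, height_lvl, height_lvl,
    div_le_div_iff₀ (by norm_num) (by positivity)]
  show ((2 + 2 + ‖x.1 - y.1‖ ^ 2) * (2 + 2 + ‖x.1 - y.1‖ ^ 2) + _) * _ ≤ _
  have hr : 0 ≤ ‖x.1 - y.1‖ ^ 2 := by positivity
  generalize ‖x.1 - y.1‖ ^ 2 = r at hr
  generalize (aa x y).im = t
  generalize height x = h at hx hx2
  generalize height y = k at hy hy2
  have h1 : h * k ≤ 4 := by nlinarith
  have h2 : h * k ≤ h + k := by nlinarith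
  have h3 : 4 * (h * k) ≤ (h + k) ^ 2 := by nlinarith [sq_nonneg (h - k)]
  have h4 : h * k * (t * t) ≤ 4 * (t * t) := mul_le_mul_of_nonneg_right h1 (mul_self_nonneg t)
  have h5 : h * k * r ≤ (h + k) * r := mul_le_mul_of_nonneg_right h2 hr
  have h6 : h * k * (r * r) ≤ 4 * (r * r) := mul_le_mul_of_nonneg_right h1 (mul_self_nonneg r)
  nlinarith

theorem cc_con (hx : 0 < height x) (hy : 0 < height y) (hx2 : height x ≤ 2)
    (hy2 : height y ≤ 2) (h : 2 ≤ cc (lvl x) (lvl y)) :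
    cc x (lvl x) * cc (lvl x) (lvl y) * cc (lvl y) y ≤ 2 * cc x y := by
  have h1 : cc x (lvl x) ^ 2 ≤ 2 / height x := by
    rw [cc_lvl_sq hx, div_le_div_iff₀ (by positivity) hx]
    nlinarith [mul_pos hx hx, mul_nonneg (sub_nonneg.mpr hx2) hx.le,
      mul_nonneg (mul_nonneg (sub_nonneg.mpr hx2) hx.le) hx.le]
  have h2 : cc (lvl y) y ^ 2 ≤ 2 / height y := by
    rw [cc_symm, cc_lvl_sq hy, div_le_div_iff₀ (by positivity) hy]
    nlinarith [mul_pos hy hy, mul_nonneg (sub_nonneg.mpr hy2) hy.le,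
      mul_nonneg (mul_nonneg (sub_nonneg.mpr hy2) hy.le) hy.le]
  have h3 : cc (lvl x) (lvl y) ≤ ‖aa x y‖ / 2 := by
    rw [cc_two (height_lvl x) (height_lvl y)] at h ⊢
    have := norm_add_le (aa x y) ((4 - height x - height y : ℝ) : ℂ)
    rw [← aa_lvl, Complex.norm_real, Real.norm_eq_abs, abs_of_nonneg (by linarith)] at this
    linarith
  have h4 : cc (lvl x) (lvl y) ^ 2 ≤ (‖aa x y‖ / 2) ^ 2 :=
    pow_le_pow_left₀ (cc_nonneg _ _) h3 2
  refine (pow_le_pow_iff_left₀ (mul_nonneg (mul_nonneg (cc_nonneg _ _) (cc_nonneg _ _))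
    (cc_nonneg _ _)) (mul_nonneg zero_le_two (cc_nonneg _ _)) two_ne_zero).mp ?_
  rw [mul_pow, mul_pow, mul_pow, cc_sq hx hy]
  calc cc x (lvl x) ^ 2 * cc (lvl x) (lvl y) ^ 2 * cc (lvl y) y ^ 2
      ≤ 2 / height x * (‖aa x y‖ / 2) ^ 2 * (2 / height y) := by gcongr
    _ = 2 ^ 2 * (‖aa x y‖ ^ 2 / (4 * height x * height y)) := by field_simp; ring

theorem cc_bd (hx : 0 < height x) (hy : height y = 0) (h : ‖aa x y‖ ≤ 1) :
    cc (lvl x) (lvl y) ≤ 2 := by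
  have h1 : height x ≤ 1 := by
    have := (re_le_norm (aa x y)).trans h
    rw [aa_re, hy] at this
    nlinarith [sq_nonneg ‖x.1 - y.1‖]
  have := norm_add_le (aa x y) ((4 - height x - height y : ℝ) : ℂ)
  rw [← aa_lvl, Complex.norm_real, Real.norm_eq_abs, abs_of_nonneg (by linarith)] at this
  rw [cc_two (height_lvl x) (height_lvl y)]
  linarith

theorem two_le_aa (hy : height y = 0) (x : E W) : 2 ≤ ‖aa (lvl x) y‖ := by
  have := re_le_norm (aa (lvl x) y)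
  rw [aa_re, hy, height_lvl] at this
  nlinarith [sq_nonneg ‖(lvl x).1 - y.1‖]

theorem height_up_lvl (t : ℝ) (x : E W) : height (up t (lvl x)) = 2 := by
  rw [height_up, height_lvl, ofReal_im, add_zero]

theorem cc_up (t : ℝ) (x : E W) : |t| / 4 ≤ cc (lvl x) (up t (lvl x)) := by
  rw [cc_two (height_lvl x) (height_up_lvl t x), aa_up_right, aa_self]
  have := abs_im_le_norm (((2 * height (lvl x) : ℝ) : ℂ) + t * I)
  simp only [add_im, ofReal_im, mul_im, ofReal_re, I_im, I_re, mul_one, mul_zero, add_zero,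
    zero_add] at this
  linarith

theorem vertE_neg (t : ℝ) : (vertE (-t) : GV W) = (vertE t)⁻¹ := by
  rw [eq_inv_iff_mul_eq_one, ← vertE_add, neg_add_cancel, vertE_zero]

variable {L : ℝ} (S : Sys W L)

/-- The thick part. -/
def B : Type := {x : E W // S.Thick 2 x}

instance : MulAction S.Γ (B S) where
  smul γ x := ⟨act γ.1 x.1, x.2.act γ.2⟩
  one_smul x := Subtype.ext (act_one x.1)
  mul_smul _ δ x := Subtype.ext (act_mul (S.uni _ δ.2) x.2.1)

theorem smul_val (γ : S.Γ) (x : B S) : (γ • x).1 = act γ.1 x.1 := rfl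

/-- The projection to the horosphere of height two. -/
def pr (v : S.I) (x : E W) : B S :=
  ⟨act (S.fr v)⁻¹ (lvl (act (S.fr v) x)), S.thick_lvl v _⟩

/-- The vertical translations at a cusp. -/
def NN (v : S.I) : Subgroup S.Γ where
  carrier := {γ | ∃ s : ℝ, γ.1 = (S.fr v)⁻¹ * vertE s * S.fr v}
  one_mem' := ⟨0, by simp [vertE_zero]⟩
  mul_mem' := by
    rintro a b ⟨s, hs⟩ ⟨t, ht⟩
    exact ⟨s + t, by rw [Subgroup.coe_mul, hs, ht, vertE_add]; group⟩
  inv_mem' := by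
    rintro a ⟨s, hs⟩
    exact ⟨-s, by rw [Subgroup.coe_inv, hs, vertE_neg]; group⟩

variable {S}

theorem fr_pos (v : S.I) (hx : 0 < height x) : 0 < height (act (S.fr v) x) :=
  height_act_pos (S.fr_uni v) hx

theorem fr_cc (v : S.I) (hx : 0 < height x) (hy : 0 < height y) :
    cc x y = cc (act (S.fr v) x) (act (S.fr v) y) := (cc_act (S.fr_uni v) hx hy).symm

theorem fr_lvl (v : S.I) (x : E W) : act (S.fr v) (act (S.fr v)⁻¹ (lvl x)) = lvl x :=
  act_act_inv (S.fr_uni v) (lvl_pos _)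

theorem fr_pr (v : S.I) (x : E W) : act (S.fr v) (pr S v x).1 = lvl (act (S.fr v) x) :=
  fr_lvl v _

theorem fr_vert (v : S.I) (s : ℝ) (hx : 0 < height x) :
    act (S.fr v) (act ((S.fr v)⁻¹ * vertE s * S.fr v) x) = up s (act (S.fr v) x) := by
  rw [← act_mul (((S.fr_uni v).inv.mul (unitary_vertE s)).mul (S.fr_uni v)) hx,
    show S.fr v * ((S.fr v)⁻¹ * vertE s * S.fr v) = vertE s * S.fr v by group,
    act_mul (S.fr_uni v) hx, act_vertE]

theorem pr_smul (γ : S.Γ) (v : S.I) (hx : 0 < height x) :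
    pr S (γ • v) (act γ.1 x) = γ • pr S v x := by
  apply Subtype.ext
  have hs := S.fr_smul γ v
  have hu : Unitary (S.fr (γ • v) * γ.1 * (S.fr v)⁻¹) :=
    ((S.fr_uni _).mul (S.uni _ γ.2)).mul (S.fr_uni v).inv
  show act (S.fr (γ • v))⁻¹ (lvl (act (S.fr (γ • v)) (act γ.1 x))) =
    act γ.1 (act (S.fr v)⁻¹ (lvl (act (S.fr v) x)))
  rw [← act_mul (S.uni _ γ.2) hx,
    show S.fr (γ • v) * γ.1 = S.fr (γ • v) * γ.1 * (S.fr v)⁻¹ * S.fr v by group,
    act_mul (S.fr_uni v) hx, ← hs.act_lvl hu, ← act_mul hu (lvl_pos _),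
    ← act_mul (S.fr_uni v).inv (lvl_pos _)]
  congr 1
  group

theorem cc_pr (v : S.I) (x y : E W) :
    cc (pr S v x).1 (pr S v y).1 = cc (lvl (act (S.fr v) x)) (lvl (act (S.fr v) y)) := by
  rw [fr_cc v (pr S v x).2.1 (pr S v y).2.1, fr_pr, fr_pr]

theorem cc_pr_vert (v : S.I) (x y : E W) {n : S.Γ} {s : ℝ}
    (hn : n.1 = (S.fr v)⁻¹ * vertE s * S.fr v) :
    cc (pr S v x).1 (n • pr S v y).1 =
      cc (lvl (act (S.fr v) x)) (up s (lvl (act (S.fr v) y))) := by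
  rw [fr_cc v (pr S v x).2.1 (n • pr S v y).2.1, fr_pr, smul_val, hn,
    fr_vert v s (pr S v y).2.1, fr_pr]

theorem vert_int {v : S.I} {n : S.Γ} (hn : n ∈ NN S v) :
    ∃ m : ℤ, n.1 = (S.fr v)⁻¹ * vertE (m * S.len v) * S.fr v := by
  obtain ⟨s, hs⟩ := hn
  obtain ⟨m, hm⟩ := (S.vert v s).mp (hs ▸ n.2)
  exact ⟨m, hm ▸ hs⟩

theorem vert_ne {v : S.I} {n : S.Γ} {m : ℤ} (hn : n ≠ 1)
    (h : n.1 = (S.fr v)⁻¹ * vertE (m * S.len v) * S.fr v) : m ≠ 0 := by
  rintro rfl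
  apply hn
  apply Subtype.ext
  rw [h]
  simp [vertE_zero]

theorem beh {v w : S.I} (h : v ≠ w) : ∃ a b : B S,
    (∀ x : B S, cc (pr S v x.1).1 a.1 ≤ 2 ∨ cc (pr S w x.1).1 b.1 ≤ 2) ∧
    ∀ x : B S, cc (pr S v (pr S w x.1).1).1 a.1 ≤ 2 ∧ cc (pr S w (pr S v x.1).1).1 b.1 ≤ 2 := by
  obtain ⟨p, p', κ, hp, hp', -, hκ, H⟩ := S.other_cusp h
  have key : ∀ (u : S.I) (q x : E W), height q = 0 → 0 < height x →
      ‖aa (act (S.fr u) x) q‖ ≤ 1 → cc (pr S u x).1 (act (S.fr u)⁻¹ (lvl q)) ≤ 2 := by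
    intro u q x hq hx hle
    rw [fr_cc u (pr S u x).2.1 (S.thick_lvl u q).1, fr_pr, fr_lvl]
    exact cc_bd (fr_pos u hx) hq hle
  refine ⟨⟨_, S.thick_lvl v p'⟩, ⟨_, S.thick_lvl w p⟩, fun x => ?_, fun x => ⟨?_, ?_⟩⟩
  · have h1 := (H x.1 x.2.1).2
    by_cases h2 : ‖aa (act (S.fr v) x.1) p'‖ ≤ 1
    · exact Or.inl (key v p' _ hp' x.2.1 h2)
    · refine Or.inr (key w p _ hp x.2.1 ?_)
      nlinarith [norm_nonneg (aa (act (S.fr w) x.1) p), not_le.mp h2]
  · have h1 := (H _ (pr S w x.1).2.1).2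
    have h2 := two_le_aa hp (act (S.fr w) x.1)
    rw [← fr_pr] at h2
    refine key v p' _ hp' (pr S w x.1).2.1 ?_
    nlinarith [norm_nonneg (aa (act (S.fr v) (pr S w x.1).1) p')]
  · have h1 := (H _ (pr S v x.1).2.1).2
    have h2 := two_le_aa hp' (act (S.fr v) x.1)
    rw [← fr_pr] at h2
    refine key w p _ hp (pr S v x.1).2.1 ?_
    nlinarith [norm_nonneg (aa (act (S.fr w) (pr S v x.1).1) p)]

/-- The retraction to the thick part, as a relation. -/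
def Ret (x : E W) (a : B S) : Prop := a.1 = x ∨ ∃ v, 2 < S.hv v x ∧ a = pr S v x

theorem exists_ret (hx : 0 < height x) : ∃ a : B S, Ret x a := by
  by_cases h : ∀ v, S.hv v x ≤ 2
  · exact ⟨⟨x, hx, h⟩, Or.inl rfl⟩
  · obtain ⟨v, hv⟩ := not_forall.mp h
    exact ⟨pr S v x, Or.inr ⟨v, not_le.mp hv, rfl⟩⟩

theorem Ret.near {a : B S} (h : Ret x a) (hx : 0 < height x) (hb : ∀ v, S.hv v x ≤ 1024) :
    cc x a.1 ≤ 23 := by
  rcases h with h | ⟨v, hv, rfl⟩
  · rw [h, cc_self hx]; norm_num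
  · refine (pow_le_pow_iff_left₀ (cc_nonneg _ _) (by norm_num) two_ne_zero).mp ?_
    rw [fr_cc v hx (pr S v x).2.1, fr_pr, cc_lvl_sq (fr_pos v hx),
      div_le_iff₀ (mul_pos (by norm_num) (fr_pos v hx))]
    have h1 := hb v
    unfold Sys.hv at hv h1
    nlinarith [mul_nonneg (sub_nonneg.mpr h1) (sub_nonneg.mpr hv.le)]

theorem Ret.eq {a : B S} (h : Ret x a) (hx : 0 < height x) {v : S.I} (hv : 2 < S.hv v x) :
    a = pr S v x := by
  rcases h with h | ⟨w, hw, rfl⟩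
  · have := a.2.2 v
    rw [h] at this
    linarith
  · have : w = v := S.disj w v x hx (lt_trans one_lt_two hw) (lt_trans one_lt_two hv)
    rw [this]

theorem ret_local (hx : 0 < height x) : ∀ᶠ y in 𝓝[{y : E W | 0 < height y}] x,
    ∀ a b : B S, Ret x a → Ret y b → cc a.1 b.1 ≤ 200000 := by
  have h1 : ∀ᶠ y in 𝓝[{y : E W | 0 < height y}] x, cc x y < 2 := by
    have hc : ContinuousWithinAt (fun y => cc x y) {y : E W | 0 < height y} x :=
      (continuousOn_cc.comp (f := fun y : E W => (x, y)) (by fun_prop)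
        (fun y hy => ⟨hx, hy⟩)) x hx
    exact hc.eventually_lt continuousWithinAt_const (by show cc x x < 2; rw [cc_self hx]; norm_num)
  by_cases hb : ∀ v, S.hv v x ≤ 64
  · filter_upwards [h1, self_mem_nhdsWithin] with y hy hy0 a b ha hb'
    have hy0 : 0 < height y := hy0
    have c0 := cc_nonneg x y
    have h2 : cc x a.1 ≤ 23 := ha.near hx fun v => (hb v).trans (by norm_num)
    have h3 : cc y b.1 ≤ 23 := by
      refine hb'.near hy0 fun v => (S.hv_le_cc v hy0 hx).trans ?_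
      rw [cc_symm]
      have h4 := S.hv_pos v hx
      have h5 := hb v
      calc 4 * cc x y ^ 2 * S.hv v x ≤ 4 * 2 ^ 2 * 64 := by gcongr
        _ = 1024 := by norm_num
    have h4 := cc_tri a.2.1 hx b.2.1
    have h5 := cc_tri hx hy0 b.2.1
    have c1 := cc_nonneg y b.1
    have c2 := cc_nonneg x b.1
    have h6 : cc x b.1 ≤ 12 * 2 * 23 := h5.trans (by gcongr)
    rw [cc_symm] at h2
    calc cc a.1 b.1 ≤ 12 * cc a.1 x * cc x b.1 := h4
      _ ≤ 12 * 23 * (12 * 2 * 23) := by gcongr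
      _ ≤ 200000 := by norm_num
  · obtain ⟨v, hv⟩ := not_forall.mp hb
    have hv := not_le.mp hv
    have hf := continuousOn_act (S.fr_uni v) x hx
    have h2 : ∀ᶠ y in 𝓝[{y : E W | 0 < height y}] x,
        ‖aa (lvl (act (S.fr v) x)) (lvl (act (S.fr v) y))‖ < 8 := by
      have hc : Continuous fun z : E W => ‖aa (lvl (act (S.fr v) x)) (lvl z)‖ := by
        simp only [aa_lvl]
        have e1 := continuous_aa.comp (f := fun z : E W => (act (S.fr v) x, z)) (by fun_prop)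
        have e2 := continuous_height (W := W)
        exact (e1.add (continuous_ofReal.comp (continuous_const.sub e2))).norm
      refine (hc.continuousAt.comp_continuousWithinAt hf).eventually_lt
        continuousWithinAt_const ?_
      show ‖aa _ _‖ < 8
      rw [aa_self, height_lvl, Complex.norm_real]
      norm_num
    filter_upwards [h1, h2, self_mem_nhdsWithin] with y hy hy2 hy0 a b ha hb'
    have hy0 : 0 < height y := hy0
    have c0 := cc_nonneg x y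
    have h3 : 2 < S.hv v y := by
      have h4 := S.hv_le_cc v hx hy0
      have h5 := S.hv_pos v hy0
      have h6 : 4 * cc x y ^ 2 * S.hv v y ≤ 4 * 2 ^ 2 * S.hv v y := by gcongr
      linarith
    rw [ha.eq hx (v := v) (by linarith), hb'.eq hy0 h3, cc_pr,
      cc_two (height_lvl _) (height_lvl _)]
    linarith

theorem conn {R : B S → B S → Prop} (hR : ∀ a b : B S, cc a.1 b.1 ≤ 200000 → R a b) (a b : B S) :
    Relation.ReflTransGen R a b := by
  refine (convex_height (W := W) 0).isPreconnected.induction₂'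
    (fun x y => ∀ a b : B S, Ret x a → Ret y b → Relation.ReflTransGen R a b) ?_ ?_
    a.2.1 b.2.1 a b (Or.inl rfl) (Or.inl rfl)
  · intro x hx
    filter_upwards [ret_local (S := S) hx] with y hy
    refine ⟨fun a b ha hb => .single (hR _ _ (hy a b ha hb)), fun a b ha hb => ?_⟩
    refine .single (hR _ _ ?_)
    rw [cc_symm]
    exact hy b a hb ha
  · intro x y z _ hy _ h1 h2 a b ha hb
    obtain ⟨c, hc⟩ := exists_ret (S := S) hy
    exact (h1 a c ha hc).trans (h2 c b hc hb)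

theorem cc_pos (a b : B S) : 0 < 12 * cc a.1 b.1 := by
  have := one_le_cc a.2.1 b.2.1
  linarith

theorem log_le {a b : B S} (h : cc a.1 b.1 ≤ 200000) :
    Real.log (12 * cc a.1 b.1) ≤ Real.log 2400000 :=
  Real.log_le_log (cc_pos a b) (by linarith)

variable (S) in
/-- The small cancellation data. -/
def Q (hL : (2400000 : ℝ) ^ 100 ≤ L) : QDat S.Γ (B S) S.I where
  d a b := Real.log (12 * cc a.1 b.1)
  p v a := pr S v a.1
  N := NN S
  th := Real.log 2400000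
  th_pos := Real.log_pos (by norm_num)
  symm a b := by rw [cc_symm]
  tri a b c := by
    rw [← Real.log_mul (cc_pos a b).ne' (cc_pos b c).ne']
    refine Real.log_le_log (cc_pos a c) ?_
    have := cc_tri a.2.1 b.2.1 c.2.1
    linarith
  nonneg a b := Real.log_nonneg (by have := one_le_cc a.2.1 b.2.1; linarith)
  self a := log_le (by rw [cc_self a.2.1]; norm_num)
  inv g a b := by rw [smul_val, smul_val, cc_act (S.uni _ g.2) a.2.1 b.2.1]
  p_eq g v a := pr_smul g v a.2.1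
  N_conj g v n := by
    rintro ⟨s, hs⟩
    refine ⟨s, ?_⟩
    have hu : Unitary (S.fr (g • v) * g.1 * (S.fr v)⁻¹) :=
      ((S.fr_uni _).mul (S.uni _ g.2)).mul (S.fr_uni v).inv
    rw [Subgroup.coe_mul, Subgroup.coe_mul, Subgroup.coe_inv, hs]
    conv_rhs => rw [← (S.fr_smul g v).conj_vertE hu s]
    group
  N_fix v n := by
    rintro ⟨s, hs⟩
    have := S.vert_fix v s (hs ▸ n.2)
    rwa [show (⟨_, hs ▸ n.2⟩ : S.Γ) = n from Subtype.ext hs.symm] at this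
  lip v a b := by
    refine Real.log_le_log (cc_pos _ _) ?_
    rw [cc_pr, fr_cc v a.2.1 b.2.1]
    have := cc_lvl_le (fr_pos v a.2.1) (fr_pos v b.2.1) (a.2.2 v) (b.2.2 v)
    linarith
  conn := conn fun _ _ h => log_le h
  beh v w h := by
    obtain ⟨a, b, h1, h2⟩ := beh h
    have k : ∀ {a b : B S}, cc a.1 b.1 ≤ 2 → Real.log (12 * cc a.1 b.1) ≤ Real.log 2400000 :=
      fun h => log_le (h.trans (by norm_num))
    exact ⟨a, b, fun x => (h1 x).imp k k, fun x => ⟨k (h2 x).1, k (h2 x).2⟩⟩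
  con v a b h := by
    have h1 := (Real.log_le_log_iff (by norm_num) (cc_pos _ _)).mp h
    rw [← Real.log_mul (cc_pos _ _).ne' (cc_pos _ _).ne',
      ← Real.log_mul (mul_pos (cc_pos _ _) (cc_pos _ _)).ne' (cc_pos _ _).ne',
      ← Real.log_mul (cc_pos _ _).ne' (by norm_num)]
    refine Real.log_le_log (mul_pos (mul_pos (cc_pos _ _) (cc_pos _ _)) (cc_pos _ _)) ?_
    rw [cc_pr] at h1
    have h2 := cc_con (fr_pos v a.2.1) (fr_pos v b.2.1) (a.2.2 v) (b.2.2 v) (by linarith)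
    rw [cc_pr, fr_cc v a.2.1 (pr S v a.1).2.1, fr_cc v (pr S v b.1).2.1 b.2.1,
      fr_cc v a.2.1 b.2.1, fr_pr, fr_pr]
    have := cc_nonneg (act (S.fr v) a.1) (act (S.fr v) b.1)
    linarith
  spin v n a hn hn1 := by
    obtain ⟨m, hm⟩ := vert_int hn
    have h1 : (1 : ℝ) ≤ |(m : ℝ)| := by exact_mod_cast Int.one_le_abs (vert_ne hn1 hm)
    have h0 : (0 : ℝ) < 2400000 ^ 100 := by positivity
    have h2 := hL.trans (S.deep v)
    have h3 := cc_up (m * S.len v) (act (S.fr v) a.1)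
    rw [abs_mul, abs_of_pos (h0.trans_le h2), ← cc_pr_vert v _ _ hm] at h3
    have h4 : S.len v ≤ |(m : ℝ)| * S.len v := le_mul_of_one_le_left (h0.trans_le h2).le h1
    have h5 : (100 : ℝ) * Real.log 2400000 = Real.log (2400000 ^ 100) := by
      rw [Real.log_pow]; norm_num
    rw [h5]
    refine Real.log_le_log h0 ?_
    generalize (2400000 : ℝ) ^ 100 = T at h0 h2
    linarith

theorem mem_K (hL : (2400000 : ℝ) ^ 100 ≤ L) {k : S.Γ} (hk : k.1 ∈ S.N) :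
    k ∈ (Q S hL).toDat.K := by
  have h : S.N ≤ (Q S hL).toDat.K.map S.Γ.subtype := by
    refine (Subgroup.closure_le _).mpr ?_
    rintro γ ⟨hγ, v, s, hs⟩
    exact ⟨⟨γ, hγ⟩, (Q S hL).toDat.N_le_K v ⟨s, hs⟩, rfl⟩
  obtain ⟨k', hk', e⟩ := h hk
  rwa [← show k' = k from Subtype.ext e]

end GLP

open GLP in
theorem gl {W : Type} [NormedAddCommGroup W] [InnerProductSpace ℂ W] [FiniteDimensional ℂ W] :
    GLStmt W := by
  refine ⟨4 * 2400000 ^ 12, 2400000 ^ 100, fun L hL S => ⟨fun q hq k hk => ?_, fun k v hk hv => ?_⟩⟩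
  · rcases (Q S hL).toDat.greendlinger ⟨q, hq⟩ (mem_K (k := ⟨k, S.N_le hk⟩) hL hk) with
      h | ⟨v, n, hn, hn1, h⟩
    · exact Or.inl (congrArg Subtype.val h)
    obtain ⟨m, hm⟩ := vert_int hn
    refine Or.inr ⟨v, m, vert_ne hn1 hm, ?_⟩
    have h1 : cc (pr S v (act k q)).1 (n • pr S v q).1 ≤ 2400000 ^ 12 := by
      by_cases e : pr S v (act k q) = n • pr S v q
      · rw [e, cc_self (n • pr S v q).2.1]
        norm_num
      · have h2 : Real.log (12 * cc (pr S v (act k q)).1 (n • pr S v q).1) ≤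
            12 * Real.log 2400000 := ((Q S hL).d0_ne e).symm.trans_le h
        have h5 : (12 : ℝ) * Real.log 2400000 = Real.log (2400000 ^ 12) := by
          rw [Real.log_pow]; norm_num
        rw [h5, Real.log_le_log_iff (cc_pos _ _) (by positivity)] at h2
        have := cc_pos (pr S v (act k q)) (n • pr S v q)
        linarith
    rw [cc_pr_vert v _ _ hm, cc_two (height_lvl _) (height_up_lvl _ _)] at h1
    linarith
  · obtain ⟨q, hq⟩ := S.exists_thick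
    exact vert_int (stab (Q S hL).toDat ⟨q, hq⟩ (mem_K hL hk) hv)

end Pool.Agent.MP_8ac6f3_ag

end

end MrgPart0

-- ======== part 1: formerly Pool.Agent.MP_8ac6f3_ag.DN
section MrgPart1

/-! PROJECT TOR, row DN: large displacement and almost closest orbit points. -/

open Set Metric Complex
open scoped ComplexConjugate

noncomputable section

namespace Pool.Agent.MP_8ac6f3_ag

variable {W : Type} [NormedAddCommGroup W] [InnerProductSpace ℂ W] [FiniteDimensional ℂ W]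

namespace DNP

variable {L : ℝ} (S : Sys W L)

omit [FiniteDimensional ℂ W] in
lemma le_abs_mul {n : ℤ} (hn : n ≠ 0) (v : S.I) : L ≤ |(n * S.len v : ℝ)| := by
  have h1 : (1 : ℝ) ≤ |(n : ℝ)| := by exact_mod_cast Int.one_le_abs hn
  rw [abs_mul]
  nlinarith [S.deep v, le_abs_self (S.len v), abs_nonneg (S.len v)]

/-- a thick point is at a bounded distance from the part below height two -/
lemma exists_near {H : ℝ} {x : E W} (hx : S.Thick H x) :
    ∃ q, S.Thick 2 q ∧ cc x q ≤ |H| + 1 := by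
  by_cases h : ∀ v, S.hv v x ≤ 2
  · exact ⟨x, ⟨hx.1, h⟩, by rw [cc_self hx.1]; linarith [abs_nonneg H]⟩
  push Not at h
  obtain ⟨v, hv⟩ := h
  refine ⟨_, S.thick_lvl v (act (S.fr v) x), ?_⟩
  have h0 : 0 < height (lvl (act (S.fr v) x)) := by rw [height_lvl]; norm_num
  have h1 := S.hv_pos v hx.1
  have h2 := (hx.2 v).trans (le_abs_self H)
  rw [← cc_act (S.fr_uni v) hx.1 (height_act_pos (S.fr_uni v).inv h0),
    act_act_inv (S.fr_uni v) h0]
  refine (pow_le_pow_iff_left₀ (zero_le_one.trans (one_le_cc h1 h0)) (by positivity)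
    two_ne_zero).1 ?_
  unfold Sys.hv at hv h1 h2
  rw [cc_lvl_sq h1, div_le_iff₀ (mul_pos (by norm_num) h1)]
  have h3 : (height (act (S.fr v) x) + 2) ^ 2 ≤ (|H| + 2) ^ 2 :=
    pow_le_pow_left₀ (by linarith) (by linarith) 2
  nlinarith [abs_nonneg H, sq_nonneg (|H| + 1)]

variable {C0 : ℝ}
  (hG : ∀ q, S.Thick 2 q → ∀ k ∈ S.N, k = 1 ∨ ∃ v, ∃ n : ℤ, n ≠ 0 ∧
    ‖aa (lvl (act (S.fr v) (act k q))) (up ((n * S.len v : ℝ) : ℂ) (lvl (act (S.fr v) q)))‖ ≤ C0)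

include hG

lemma disp2 {q : E W} (hq : S.Thick 2 q) {k : GV W} (hk : k ∈ S.N) (h1 : k ≠ 1) :
    L - C0 ≤ 4 * cc q (act k q) := by
  obtain ⟨v, n, hn, h⟩ := (hG q hq k hk).resolve_left h1
  have hq' := hq.act (S.N_le hk)
  have a1 := S.hv_pos v hq.1
  have a2 := S.hv_pos v hq'.1
  have b1 := hq.2 v
  have b2 := hq'.2 v
  unfold Sys.hv at a1 a2 b1 b2
  have e := (abs_im_le_norm _).trans h
  rw [aa_up_right, add_im, aa_lvl_im, mul_I_im, ofReal_re] at e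
  have e2 := abs_im_le_norm (aa (act (S.fr v) (act k q)) (act (S.fr v) q))
  have e3 := le_abs_mul S hn v
  have e4 := abs_sub (_ + _) (aa (act (S.fr v) (act k q)) (act (S.fr v) q)).im |>.trans
    (add_le_add e e2)
  rw [add_sub_cancel_left] at e4
  have e5 : √(height (act (S.fr v) (act k q)) * height (act (S.fr v) q)) ≤ 2 :=
    Real.sqrt_le_iff.2 ⟨by norm_num, by nlinarith⟩
  have e6 := Real.sqrt_pos.2 (mul_pos a2 a1)
  rw [cc_symm, ← cc_act (S.fr_uni v) hq'.1 hq.1, cc, ← mul_div_assoc, le_div_iff₀ (by positivity)]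
  by_cases h0 : L - C0 ≤ 0
  · exact (mul_nonpos_of_nonpos_of_nonneg h0 (by positivity)).trans (by positivity)
  · nlinarith

lemma dispH {H : ℝ} {x : E W} (hx : S.Thick H x) {k : GV W} (hk : k ∈ S.N) (h1 : k ≠ 1) :
    L - C0 ≤ 576 * (|H| + 1) ^ 2 * cc x (act k x) := by
  obtain ⟨q, hq, h⟩ := exists_near S hx
  have u := S.N_uni hk
  have a1 := height_act_pos u hx.1
  have a2 := height_act_pos u hq.1
  have t1 := cc_tri hq.1 hx.1 a2
  have t2 := cc_tri hx.1 a1 a2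
  rw [cc_act u hx.1 hq.1] at t2
  rw [cc_symm q x] at t1
  have c1 := one_le_cc hx.1 hq.1
  have c2 := one_le_cc hx.1 a1
  have c3 : cc x q ^ 2 ≤ (|H| + 1) ^ 2 := pow_le_pow_left₀ (by linarith) h 2
  have c4 := mul_le_mul_of_nonneg_left t2 (show 0 ≤ 12 * cc x q by positivity)
  nlinarith [disp2 S hG hq hk h1]

lemma fin_orb (hL : C0 + 8 < L) {q : E W} (hq : S.Thick 2 q) {x : E W} (hx : 0 < height x)
    (T : ℝ) : {k | k ∈ S.N ∧ cc x (act k q) ≤ T}.Finite := by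
  classical
  have sep : ∀ k ∈ S.N, ∀ k' ∈ S.N, k ≠ k' → 2 < cc (act k q) (act k' q) := fun k hk k' hk' h => by
    have u := S.N_uni hk
    have := disp2 S hG hq (mul_mem (inv_mem hk) hk') fun e => h (inv_mul_eq_one.1 e)
    have a := height_act_pos (S.N_uni hk') hq.1
    rw [act_mul (S.N_uni hk') hq.1, ← cc_act u hq.1 (height_act_pos u.inv a),
      act_act_inv u a] at this
    linarith
  obtain ⟨n, hn⟩ := packing W T
  by_contra h
  obtain ⟨F, hF, hc⟩ := Set.Infinite.exists_subset_card_eq h (n + 1)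
  have inj : InjOn (fun k : GV W => act k q) F := fun k hk k' hk' e => by
    by_contra ne
    have := sep k (hF hk).1 k' (hF hk').1 ne
    rw [show act k q = act k' q from e, cc_self (height_act_pos (S.N_uni (hF hk').1) hq.1)] at this
    linarith
  have := hn x hx (F.image fun k => act k q) (fun y hy => by
      obtain ⟨k, hk, rfl⟩ := Finset.mem_image.1 hy
      exact ⟨height_act_pos (S.N_uni (hF hk).1) hq.1, (hF hk).2⟩)
    fun y hy y' hy' ne => by
      obtain ⟨k, hk, rfl⟩ := Finset.mem_image.1 hy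
      obtain ⟨k', hk', rfl⟩ := Finset.mem_image.1 hy'
      exact sep k (hF hk).1 k' (hF hk').1 fun e => ne (e ▸ rfl)
  rw [Finset.card_image_of_injOn inj, hc] at this
  omega

omit hG

lemma amgm {a b t : ℝ} (ha : 0 ≤ a) (hb : 0 ≤ b) (ht : 0 < t) :
    2 * √a * √b ≤ a / t + t * b := by
  have h := sq_nonneg (√a - t * √b)
  rw [sub_sq, mul_pow, Real.sq_sqrt ha, Real.sq_sqrt hb] at h
  rw [div_add' _ _ _ ht.ne', le_div_iff₀ ht]
  linarith

omit [FiniteDimensional ℂ W] in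
/-- an almost closest point is not much worse than its vertical translates -/
lemma near_up {T : ℝ} {q x : E W} {k : GV W} (hq : 0 < height q) (hx : 0 < height x)
    (h : S.Near T q x k) (v : S.I) (n : ℤ) :
    ‖aa (act (S.fr v) x) (act (S.fr v) (act k q))‖ ≤
      T * ‖aa (act (S.fr v) x) (act (S.fr v) (act k q)) + (n * S.len v : ℝ) * I‖ := by
  have u := S.fr_uni v
  have a := height_act_pos (S.N_uni h.1) hq
  have a1 := height_act_pos u a
  have a2 := height_act_pos (unitary_vertE (n * S.len v)) a1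
  have := h.2 _ (mul_mem (S.vert_mem v n) h.1)
  rw [act_mul (S.N_uni h.1) hq, act_mul u a, act_mul (unitary_vertE _) a1, ← cc_act u hx a,
    ← cc_act u hx (height_act_pos u.inv a2), act_act_inv u a2, act_vertE, cc, cc, aa_up_right,
    height_up, ofReal_im, add_zero, ← mul_div_assoc] at this
  exact (div_le_div_iff_of_pos_right (mul_pos two_pos
    (Real.sqrt_pos.2 (mul_pos (height_act_pos u hx) a1)))).1 this

omit [FiniteDimensional ℂ W] in
lemma norm_le_lvl {y y' : E W} (h : 0 < height y) (h' : 0 < height y') (b : height y ≤ 2)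
    (b' : height y' ≤ 2) (t : ℝ) : ‖aa y (up t y')‖ ≤ ‖aa (lvl y) (up t (lvl y'))‖ := by
  have e1 : (aa y (up t y')).im = (aa (lvl y) (up t (lvl y'))).im := by
    rw [aa_up_right, aa_up_right, add_im, add_im, aa_lvl_im]
  have e2 := aa_re y (up t y')
  have e3 := aa_re (lvl y) (up t (lvl y'))
  rw [height_up, ofReal_im] at e2 e3
  rw [height_lvl, height_lvl] at e3
  have e4 : (aa y (up t y')).re ≤ (aa (lvl y) (up t (lvl y'))).re := by
    rw [e2, e3]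
    exact add_le_add (by linarith) le_rfl
  have e5 : 0 ≤ (aa y (up t y')).re := by rw [e2]; positivity
  refine (pow_le_pow_iff_left₀ (norm_nonneg _) (norm_nonneg _) two_ne_zero).1 ?_
  rw [Complex.sq_norm, Complex.sq_norm, normSq_apply, normSq_apply, e1]
  nlinarith

lemma big {a1 a2 t : ℂ} {T C A : ℝ} (hT : 1 ≤ T) (hC : 0 ≤ C)
    (h1 : ‖a1‖ ≤ T * ‖a1 + t‖) (h2 : ‖a2‖ ≤ T * ‖a2 - t‖)
    (h : ‖a1 + t - a2‖ ≤ 3 * C + 2 * √‖a2‖ * √C) (ht : 5 * T * (A + C * (3 + 2 * T)) ≤ ‖t‖) :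
    A ≤ ‖a1‖ ∧ A ≤ ‖a2‖ := by
  have e := h.trans (add_le_add le_rfl (amgm (norm_nonneg a2) hC (show 0 < 2 * T by linarith)))
  have n1 := norm_nonneg a1
  have n2 := norm_nonneg a2
  have e0 : T * ‖a1 + t - a2‖ ≤ ‖a2‖ / 2 + T * (C * (3 + 2 * T)) := by
    have := mul_le_mul_of_nonneg_left e (show 0 ≤ T by linarith)
    have e' : T * (‖a2‖ / (2 * T)) = ‖a2‖ / 2 := by field_simp
    nlinarith
  have n3 := norm_nonneg (a1 + t - a2)
  have b1 : ‖a1 + t‖ ≤ ‖a2‖ + ‖a1 + t - a2‖ := by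
    simpa using norm_add_le a2 (a1 + t - a2)
  have b2 : ‖a2 - t‖ ≤ ‖a1‖ + ‖a1 + t - a2‖ := by
    simpa [show a1 - (a1 + t - a2) = a2 - t by ring] using norm_sub_le a1 (a1 + t - a2)
  have b3 : ‖t‖ ≤ ‖a1‖ + ‖a1 + t‖ := by
    simpa [add_comm] using norm_sub_le (a1 + t) a1
  have c1 := mul_le_mul_of_nonneg_left b1 (show 0 ≤ T by linarith)
  have c2 := mul_le_mul_of_nonneg_left b2 (show 0 ≤ T by linarith)
  have c3 : 0 ≤ T * (C * (3 + 2 * T)) := by positivity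
  have d1 : ‖a1‖ ≤ T * ‖a1‖ := le_mul_of_one_le_left n1 hT
  have d2 : ‖a2‖ ≤ T * ‖a2‖ := le_mul_of_one_le_left n2 hT
  have d3 : ‖a1 + t - a2‖ ≤ T * ‖a1 + t - a2‖ := le_mul_of_one_le_left n3 hT
  constructor
  · refine le_of_mul_le_mul_left (?_ : T * A ≤ T * _) (by linarith)
    nlinarith
  · refine le_of_mul_le_mul_left (?_ : T * A ≤ T * _) (by linarith)
    nlinarith

lemma cross {a1 a2 b1 b2 : ℂ} {δ : ℝ} (hδ : δ ≤ 1 / 2) (n1 : a1 ≠ 0) (n2 : a2 ≠ 0) (m2 : b2 ≠ 0)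
    (h1 : ‖b1 - a1‖ ≤ δ * ‖a1‖) (h2 : ‖b2 - a2‖ ≤ δ * ‖a2‖) :
    ‖b1 * a2 / (b2 * a1) - 1‖ ≤ 4 * δ := by
  have p1 := norm_pos_iff.2 n1
  have p2 := norm_pos_iff.2 n2
  have h0 : 0 ≤ δ := nonneg_of_mul_nonneg_left ((norm_nonneg _).trans h1) p1
  have e : ‖a2‖ ≤ 2 * ‖b2‖ := by
    have := norm_sub_le b2 (b2 - a2)
    rw [sub_sub_cancel] at this
    nlinarith
  rw [div_sub_one (mul_ne_zero m2 n1), norm_div, div_le_iff₀ (norm_pos_iff.2 (mul_ne_zero m2 n1)),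
    show b1 * a2 - b2 * a1 = (b1 - a1) * a2 - (b2 - a2) * a1 by ring]
  refine (norm_sub_le _ _).trans ?_
  simp only [norm_mul]
  have f1 := mul_le_mul_of_nonneg_right h1 p2.le
  have f2 := mul_le_mul_of_nonneg_right h2 p1.le
  have f3 := mul_le_mul_of_nonneg_left e (mul_nonneg h0 p1.le)
  nlinarith

omit [FiniteDimensional ℂ W] in
lemma rel {z z' y : E W} {D δ : ℝ} (hz : 0 < height z) (hz' : 0 < height z') (hy : 0 < height y)
    (hδ : 0 < δ) (hD : ‖aa z z'‖ ≤ D) (hA : 2 / δ * ((3 + 2 / δ) * D) ≤ ‖aa z y‖) :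
    ‖aa z' y - aa z y‖ ≤ δ * ‖aa z y‖ := by
  have h := norm_aa_sub_le hy.le hz.le hz'.le
  rw [← aa_conj z' y, ← aa_conj z y, ← map_sub, norm_conj, norm_conj] at h
  have h1 := amgm (norm_nonneg (aa z y)) (norm_nonneg (aa z z')) (show 0 < 2 / δ by positivity)
  rw [div_div_eq_mul_div] at h1
  rw [div_mul_eq_mul_div, div_le_iff₀ hδ] at hA
  have h2 := mul_le_mul_of_nonneg_left hD (show 0 ≤ 3 + 2 / δ by positivity)
  nlinarith

end DNP

open DNP

theorem disp (h : GLStmt W) : DispStmt W := by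
  obtain ⟨C0, L0, h⟩ := h
  intro H R
  refine ⟨max L0 (C0 + 9 + 576 * (|H| + 1) ^ 2 * |R|), fun L hL S => ?_⟩
  obtain ⟨hG, -⟩ := h L ((le_max_left _ _).trans hL) S
  have h1 := (le_max_right _ _).trans hL
  have h2 : 0 ≤ 576 * (|H| + 1) ^ 2 * |R| := by positivity
  refine ⟨fun x hx k hk hk' => (le_abs_self R).trans_lt (lt_of_mul_lt_mul_left ?_
    (show 0 ≤ 576 * (|H| + 1) ^ 2 by positivity)), fun q hq x hx => ?_⟩
  · linarith [dispH S hG hx hk hk']
  have h3 := fin_orb S hG (by linarith) hq hx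
  obtain ⟨k, hk, hm⟩ := Set.exists_min_image _ (fun k => cc x (act k q)) (h3 (cc x (act 1 q)))
    ⟨1, one_mem _, le_rfl⟩
  refine ⟨h3, k, hk.1, fun k' hk' => ?_⟩
  rw [one_mul]
  exact (le_total _ _).elim (fun e => hm k' ⟨hk', e⟩) hk.2.trans

theorem nm (h : GLStmt W) : NMStmt W := by
  obtain ⟨C0, L0, h⟩ := h
  intro H T R ε hε
  obtain ⟨δ, d0, d1, d2⟩ : ∃ δ : ℝ, 0 < δ ∧ δ ≤ 1 / 2 ∧ 4 * δ ≤ ε :=
    ⟨min (1 / 2) (ε / 4), by positivity, min_le_left _ _, by linarith [min_le_right (1 / 2) (ε / 4)]⟩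
  refine ⟨max L0 (5 * T * (2 / δ * ((3 + 2 / δ) * (4 * R ^ 2 * H)) + C0 * (3 + 2 * T))),
    fun L hL S q hq x hx k1 k2 n1 n2 x' hx' hR => ?_⟩
  obtain ⟨hG, -⟩ := h L ((le_max_left _ _).trans hL) S
  have q1 := hq.act (S.N_le n1.1)
  have q2 := hq.act (S.N_le n2.1)
  rcases hG _ q1 _ (mul_mem n2.1 (inv_mem n1.1)) with e | ⟨v, n, hn, e⟩
  · rw [mul_inv_eq_one.1 e, div_self (mul_ne_zero (aa_ne hx' q1.1.le) (aa_ne hx.1 q1.1.le)),
      sub_self, norm_zero]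
    exact hε.le
  rw [act_mul (S.N_uni n1.1).inv q1.1, act_inv_act (S.N_uni n1.1) hq.1] at e
  have u := S.fr_uni v
  have z := height_act_pos u hx.1
  have z' := height_act_pos u hx'
  have y1 := height_act_pos u q1.1
  have y2 := height_act_pos u q2.1
  have e1 := (norm_le_lvl y2 y1 (q2.2 v) (q1.2 v) _).trans e
  have hC := (norm_nonneg _).trans e
  have hT : 1 ≤ T := by
    have := n1.2 _ n1.1
    nlinarith [one_le_cc hx.1 q1.1]
  have e2 := norm_aa_sub_le z.le y2.le (z := up ((n * S.len v : ℝ) : ℂ) (act (S.fr v) (act k1 q)))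
    (by rw [height_up, ofReal_im, add_zero]; exact y1.le)
  have e3 := near_up S hq.1 hx.1 n2 v (-n)
  rw [Int.cast_neg, neg_mul, ofReal_neg, neg_mul, ← sub_eq_add_neg] at e3
  obtain ⟨A1, A2⟩ := big hT hC (near_up S hq.1 hx.1 n1 v n) e3
    (by
      rw [← aa_up_right]
      exact e2.trans (by gcongr))
    (by
      rw [norm_mul, norm_I, mul_one, norm_real, Real.norm_eq_abs]
      exact ((le_max_right _ _).trans hL).trans (le_abs_mul S hn v))
  have hD : ‖aa (act (S.fr v) x) (act (S.fr v) x')‖ ≤ 4 * R ^ 2 * H := by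
    refine (norm_aa_le_cc z z').trans ?_
    rw [cc_act u hx.1 hx']
    have := zero_le_one.trans (one_le_cc hx.1 hx')
    exact mul_le_mul (by gcongr) (hx.2 v) z.le (by positivity)
  have := cross d1 (aa_ne z y1.le) (aa_ne z y2.le) (aa_ne z' y2.le) (rel z z' y1 d0 hD A1)
    (rel z z' y2 d0 hD A2)
  rw [aa_act u hx' q1.1, aa_act u hx.1 q2.1, aa_act u hx' q2.1, aa_act u hx.1 q1.1] at this
  refine le_trans (le_of_eq ?_) (this.trans d2)
  have b1 := beta_ne u hx.1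
  have b2 := beta_ne u hx'
  have b3 := (map_ne_zero (starRingEnd ℂ)).2 (beta_ne u q1.1)
  have b4 := (map_ne_zero (starRingEnd ℂ)).2 (beta_ne u q2.1)
  have b5 := aa_ne hx' q2.1.le
  have b6 := aa_ne hx.1 q1.1.le
  congr 2
  field_simp

end Pool.Agent.MP_8ac6f3_ag

end

end MrgPart1

-- ======== part 2: formerly Pool.Agent.MP_8ac6f3_ag.Ent
section MrgPart2

/-! Row ENT: the entry point of a horoball is an almost closest orbit point. -/

open Set Metric Complex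
open scoped ComplexConjugate

namespace Pool.Agent.MP_8ac6f3_ag

variable {W : Type} [NormedAddCommGroup W] [InnerProductSpace ℂ W]

namespace EntP

variable {x y z : E W}

lemma norm_aa_symm (x y : E W) : ‖aa x y‖ = ‖aa y x‖ := by
  rw [← aa_conj x y, Complex.norm_conj]

lemma sub_le (hx : 0 ≤ height x) (hy : 0 ≤ height y) (hz : 0 ≤ height z) :
    ‖aa x z - aa x y‖ ≤ 5 * ‖aa y z‖ + ‖aa x y‖ / 2 := by
  have h := norm_aa_sub_le hx hy hz
  have h1 := Real.sq_sqrt (norm_nonneg (aa x y))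
  have h2 := Real.sq_sqrt (norm_nonneg (aa y z))
  nlinarith [sq_nonneg (√‖aa x y‖ - 2 * √‖aa y z‖)]

lemma tri_le (hx : 0 ≤ height x) (hy : 0 ≤ height y) (hz : 0 ≤ height z) :
    ‖aa x z‖ ≤ 2 * ‖aa x y‖ + 4 * ‖aa y z‖ := by
  have h := norm_aa_sub_le hx hy hz
  have h1 := Real.sq_sqrt (norm_nonneg (aa x y))
  have h2 := Real.sq_sqrt (norm_nonneg (aa y z))
  have h3 := norm_sub_norm_le (aa x z) (aa x y)
  nlinarith [sq_nonneg (√‖aa x y‖ - √‖aa y z‖)]

lemma height_le_norm (hy : 0 ≤ height y) : height x ≤ ‖aa x y‖ := by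
  have h := re_le_norm (aa x y)
  rw [aa_re] at h
  nlinarith [sq_nonneg ‖x.1 - y.1‖]

lemma height_upr (t : ℝ) (x : E W) : height (up (t : ℂ) x) = height x := by
  rw [height_up, ofReal_im, add_zero]

/-- lowering both points from height two does not increase the form -/
lemma norm_le_lvl (t : ℝ) (hx : 0 ≤ height x) (hx2 : height x ≤ 2) (hy : 0 ≤ height y)
    (hy2 : height y ≤ 2) : ‖aa x (up (t : ℂ) y)‖ ≤ ‖aa (lvl x) (up (t : ℂ) (lvl y))‖ := by
  have e1 : (aa x (up (t : ℂ) y)).im = (aa (lvl x) (up (t : ℂ) (lvl y))).im := by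
    rw [aa_up_right, aa_up_right, add_im, add_im, aa_lvl_im]
  have e2 : (aa x (up (t : ℂ) y)).re = height x + height y + ‖x.1 - y.1‖ ^ 2 := by
    rw [aa_re, height_upr]; rfl
  have e3 : (aa (lvl x) (up (t : ℂ) (lvl y))).re = 2 + 2 + ‖x.1 - y.1‖ ^ 2 := by
    rw [aa_re, height_upr, height_lvl, height_lvl]; rfl
  refine (sq_le_sq₀ (norm_nonneg _) (norm_nonneg _)).1 ?_
  rw [Complex.sq_norm, Complex.sq_norm, normSq_apply, normSq_apply, e1, e2, e3]
  nlinarith [sq_nonneg ‖x.1 - y.1‖]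

lemma act_vert {f : GV W} (hf : Unitary f) (t : ℝ) (hy : 0 < height y) :
    act f (act (f⁻¹ * vertE t * f) y) = up (t : ℂ) (act f y) := by
  have h1 := height_act_pos hf hy
  rw [act_mul hf hy, act_mul (unitary_vertE t) h1, act_vertE,
    act_act_inv hf (by rwa [height_upr])]

lemma norm_le_shift {a : ℂ} {l : ℝ} {n : ℤ} (hn : n ≠ 0) (hl : 0 ≤ l) (ha : |a.im| ≤ l / 2) :
    ‖a‖ ≤ ‖a + ((n * l : ℝ) : ℂ) * I‖ := by
  refine (sq_le_sq₀ (norm_nonneg _) (norm_nonneg _)).1 ?_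
  rw [Complex.sq_norm, Complex.sq_norm, normSq_apply, normSq_apply]
  simp only [add_re, add_im, mul_re, mul_im, ofReal_re, ofReal_im, I_re, I_im]
  obtain ⟨h1, h2⟩ := abs_le.1 ha
  rcases lt_or_gt_of_ne hn with h | h
  · have : (n : ℝ) ≤ -1 := by exact_mod_cast Int.le_sub_one_of_lt h
    have h3 : (n : ℝ) * l ≤ -l := by nlinarith
    nlinarith
  · have : (1 : ℝ) ≤ n := by exact_mod_cast h
    have h3 : l ≤ (n : ℝ) * l := by nlinarith
    nlinarith

lemma le_norm_shift {l : ℝ} {n : ℤ} (hn : n ≠ 0) (hl : 0 ≤ l) : l ≤ ‖((n * l : ℝ) : ℂ) * I‖ := by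
  rw [norm_mul, norm_I, mul_one, norm_real, Real.norm_eq_abs, abs_mul, abs_of_nonneg hl]
  have : (1 : ℝ) ≤ |(n : ℝ)| := by exact_mod_cast Int.one_le_abs hn
  nlinarith

lemma cc_le_of_sq {T : ℝ} (hT : 0 ≤ T) (hx : 0 < height x) (hy : 0 < height y)
    (hz : 0 < height z)
    (h : ‖aa x y‖ ^ 2 * height z ≤ T ^ 2 * (‖aa x z‖ ^ 2 * height y)) : cc x y ≤ T * cc x z := by
  have h1 := one_le_cc hx hy
  have h2 := one_le_cc hx hz
  refine (sq_le_sq₀ (by linarith) (by positivity)).1 ?_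
  rw [mul_pow, cc_sq hx hy, cc_sq hx hz, ← mul_div_assoc, div_le_div_iff₀ (by positivity)
    (by positivity)]
  nlinarith

lemma norm_le_of_cc (hx : 0 < height x) (hy : 0 < height y) (e : height z = height y)
    (h : cc x y ≤ cc x z) : ‖aa x y‖ ≤ ‖aa x z‖ := by
  unfold cc at h
  rw [e] at h
  exact (div_le_div_iff_of_pos_right (by positivity)).1 h

/-- the cusp of Greendlinger's lemma is the given one -/
lemma same {X Q₁ Q : E W} {C l : ℝ} {n : ℤ} (hn : n ≠ 0) (hl : 0 ≤ l) (hX : 0 < height X)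
    (h₁ : 0 < height Q₁) (h : 0 < height Q) (hC : ‖aa Q (up ((n * l : ℝ) : ℂ) Q₁)‖ ≤ C)
    (hA : 4 * C ≤ height X) (him : |(aa X Q₁).im| ≤ l / 2) (hh : height Q ≤ 2 * height Q₁) :
    cc X Q₁ ≤ 17 * cc X Q := by
  have e1 := norm_le_shift hn hl him
  rw [← aa_up_right] at e1
  have e2 := tri_le (z := up ((n * l : ℝ) : ℂ) Q₁) hX.le h.le (by rw [height_upr]; exact h₁.le)
  have e3 := height_le_norm (x := X) h.le
  have e4 : ‖aa X Q₁‖ ≤ 3 * ‖aa X Q‖ := by linarith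
  refine cc_le_of_sq (by norm_num) hX h₁ h ?_
  have e5 : ‖aa X Q₁‖ ^ 2 ≤ (3 * ‖aa X Q‖) ^ 2 := pow_le_pow_left₀ (norm_nonneg _) e4 2
  have e6 : ‖aa X Q₁‖ ^ 2 * height Q ≤ (3 * ‖aa X Q‖) ^ 2 * (2 * height Q₁) :=
    mul_le_mul e5 hh h.le (by positivity)
  have e7 : 0 ≤ ‖aa X Q‖ ^ 2 * height Q₁ := by positivity
  nlinarith

/-- the cusp of Greendlinger's lemma is another one -/
lemma other {X Q₁ Q p : E W} {C l : ℝ} {n : ℤ} (hn : n ≠ 0) (hX : 0 < height X)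
    (h₁ : 0 < height Q₁) (h : 0 < height Q) (hp : height p = 0)
    (hC : ‖aa Q (up ((n * l : ℝ) : ℂ) Q₁)‖ ≤ C) (hl : 24 * (9 + 6 * C) ≤ l)
    (hδ : ‖aa X p‖ ≤ 1) (hmin : cc X Q ≤ cc X (up (((-n : ℤ) * l : ℝ) : ℂ) Q))
    (hh : height Q / ‖aa Q p‖ ^ 2 ≤ 2 * (height Q₁ / ‖aa Q₁ p‖ ^ 2))
    (hh' : height Q₁ / ‖aa (up ((n * l : ℝ) : ℂ) Q₁) p‖ ^ 2 ≤ 2 * (height Q₁ / ‖aa Q₁ p‖ ^ 2)) :
    cc X Q₁ ≤ 17 * cc X Q := by
  have hC0 : 0 ≤ C := (norm_nonneg _).trans hC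
  have hl0 : 0 ≤ l := by linarith
  set Q' := up ((n * l : ℝ) : ℂ) Q₁ with hQ'
  have h' : 0 < height Q' := by rwa [hQ', height_upr]
  have a₁ : 0 < ‖aa Q₁ p‖ := norm_pos_iff.2 (aa_ne h₁ hp.ge)
  have a' : 0 < ‖aa Q' p‖ := norm_pos_iff.2 (aa_ne h' hp.ge)
  have a₀ : 0 < ‖aa Q p‖ := norm_pos_iff.2 (aa_ne h hp.ge)
  have e1 : ‖aa Q₁ p‖ ≤ 2 * ‖aa Q' p‖ := by
    rw [← mul_div_assoc, div_le_div_iff₀ (by positivity) (by positivity)] at hh'
    refine (sq_le_sq₀ a₁.le (by positivity)).1 ?_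
    have : height Q₁ * ‖aa Q₁ p‖ ^ 2 ≤ height Q₁ * (2 * ‖aa Q' p‖) ^ 2 := by
      have : 0 ≤ height Q₁ * ‖aa Q' p‖ ^ 2 := by positivity
      nlinarith
    exact le_of_mul_le_mul_left this h₁
  have e2 : l ≤ 3 * ‖aa Q' p‖ := by
    have e := norm_sub_le (aa Q₁ p) (aa Q' p)
    rw [hQ', aa_up_left, sub_sub_cancel, ← aa_up_left, ← hQ'] at e
    linarith [le_norm_shift hn hl0]
  have e3 : ‖aa Q' p‖ ≤ 2 * ‖aa X Q'‖ + 4 := by
    have := tri_le h'.le hX.le hp.ge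
    rw [norm_aa_symm Q' X] at this
    linarith
  have e4 : ‖aa X Q'‖ ≤ 2 * ‖aa X Q‖ + 4 * C := by
    linarith [tri_le hX.le h.le h'.le]
  have e5 : ‖aa X Q‖ ≤ ‖aa X Q - ((n * l : ℝ) : ℂ) * I‖ := by
    have := norm_le_of_cc hX h (height_upr _ _) hmin
    rw [aa_up_right] at this
    convert this using 2
    push_cast
    ring
  have e6 : ‖aa X Q - ((n * l : ℝ) : ℂ) * I‖ ≤ ‖aa X Q₁‖ + ‖aa X Q' - aa X Q‖ := by
    have : aa X Q - ((n * l : ℝ) : ℂ) * I = aa X Q₁ - (aa X Q' - aa X Q) := by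
      rw [hQ', aa_up_right]; ring
    rw [this]
    exact norm_sub_le _ _
  have e7 := sub_le hX.le h.le h'.le
  have e8 : 8 ≤ ‖aa X Q₁‖ := by linarith
  have e9 : 4 ≤ ‖aa X Q‖ := by linarith
  have f1 : ‖aa X Q₁‖ ≤ 4 * ‖aa Q₁ p‖ := by
    have := tri_le h₁.le hp.ge hX.le
    rw [norm_aa_symm Q₁ X, norm_aa_symm p X] at this
    linarith
  have f2 : ‖aa Q p‖ ≤ 3 * ‖aa X Q‖ := by
    have := tri_le h.le hX.le hp.ge
    rw [norm_aa_symm Q X] at this
    linarith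
  refine cc_le_of_sq (by norm_num) hX h₁ h ?_
  rw [← mul_div_assoc, div_le_div_iff₀ (by positivity) (by positivity)] at hh
  have f3 : ‖aa X Q₁‖ ^ 2 ≤ (4 * ‖aa Q₁ p‖) ^ 2 := pow_le_pow_left₀ (norm_nonneg _) f1 2
  have f4 : ‖aa Q p‖ ^ 2 ≤ (3 * ‖aa X Q‖) ^ 2 := pow_le_pow_left₀ (norm_nonneg _) f2 2
  have f5 := mul_le_mul_of_nonneg_right f3 h.le
  have f6 := mul_le_mul_of_nonneg_right f4 h₁.le
  have f7 : 0 ≤ ‖aa X Q‖ ^ 2 * height Q₁ := by positivity
  nlinarith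

end EntP

open EntP

theorem ent [FiniteDimensional ℂ W] (h : GLStmt W) (hD : DispStmt W) : EntStmt W := by
  obtain ⟨C0, L0, hG⟩ := h
  obtain ⟨L1, hD⟩ := hD 0 0
  refine ⟨17, 1 + 4 * |C0|, fun H => ⟨max (max L0 L1) (24 * (9 + 6 * |C0|)), ?_⟩⟩
  intro L hL S q hq v k1 hk1 hmax x hx hA _ him
  have hC := le_abs_self C0
  have hC' := abs_nonneg C0
  have hlen : ∀ w, 24 * (9 + 6 * |C0|) ≤ S.len w := fun w =>
    ((le_max_right _ _).trans hL).trans (S.deep w)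
  obtain ⟨ks, hks, hmin⟩ := ((hD L (((le_max_right _ _).trans (le_max_left _ _)).trans hL) S).2
    q hq x hx).2
  have hq1 : S.Thick 2 (act k1 q) := hq.act (S.N_le hk1)
  have hqs : S.Thick 2 (act ks q) := hq.act (S.N_le hks)
  have u1 := S.N_uni hk1
  have us := S.N_uni hks
  suffices hs : cc x (act k1 q) ≤ 17 * cc x (act ks q) by
    refine ⟨hk1, fun k' hk' => hs.trans ?_⟩
    linarith [hmin k' hk']
  have e : act (ks * k1⁻¹) (act k1 q) = act ks q := by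
    rw [act_mul u1.inv hq1.1, act_inv_act u1 hq.1]
  rcases (hG L (((le_max_left _ _).trans (le_max_left _ _)).trans hL) S).1 _ hq1 (ks * k1⁻¹)
    (S.N.mul_mem hks (S.N.inv_mem hk1)) with h1 | ⟨w, n, hn, hb⟩
  · rw [h1, act_one] at e
    rw [e]
    linarith [one_le_cc hx hqs.1]
  rw [e] at hb
  have uw := S.fr_uni w
  have pX := height_act_pos uw hx
  have p1 := height_act_pos uw hq1.1
  have ps := height_act_pos uw hqs.1
  have hb' := ((norm_le_lvl (n * S.len w) ps.le (hqs.2 w) p1.le (hq1.2 w)).trans hb).trans hC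
  rw [← cc_act uw hx hq1.1, ← cc_act uw hx hqs.1]
  by_cases hvw : v = w
  · subst hvw
    refine same hn (by linarith [hlen v]) pX p1 ps hb' ?_ him (hmax ks hks)
    have : 1 + 4 * |C0| ≤ height (act (S.fr v) x) := hA
    linarith
  obtain ⟨p, p', κ, hp, -, hκ, hκ1, hf⟩ := S.other_cusp hvw
  have a0 : 0 < ‖aa (act (S.fr w) x) p‖ := norm_pos_iff.2 (aa_ne pX hp.ge)
  refine other hn pX p1 ps hp hb' (hlen w) ?_ ?_ ?_ ?_
  · have e1 := (hf x hx).1
    have e2 : S.hv w x ≤ ‖aa (act (S.fr w) x) p‖ := height_le_norm hp.ge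
    have e3 : 0 < S.hv w x := pX
    have e4 : 1 ≤ κ * S.hv w x / ‖aa (act (S.fr w) x) p‖ ^ 2 := by linarith
    rw [le_div_iff₀ (by positivity)] at e4
    have e5 : κ * S.hv w x ≤ S.hv w x := by nlinarith
    nlinarith
  · have hm := S.N.mul_mem (S.vert_mem w (-n)) hks
    have e1 := hmin _ hm
    have uv := S.N_uni (S.vert_mem w (-n))
    rw [one_mul, act_mul us hq.1, ← cc_act uw hx hqs.1,
      ← cc_act uw hx (height_act_pos uv hqs.1), act_vert uw _ hqs.1] at e1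
    exact e1
  · have e1 := hmax ks hks
    rw [(hf _ hqs.1).1, (hf _ hq1.1).1, mul_div_assoc, mul_div_assoc, mul_left_comm] at e1
    exact le_of_mul_le_mul_left e1 hκ
  · have uv := S.N_uni (S.vert_mem w n)
    have e1 := hmax _ (S.N.mul_mem (S.vert_mem w n) hk1)
    rw [act_mul u1 hq.1, (hf _ (height_act_pos uv hq1.1)).1, (hf _ hq1.1).1, mul_div_assoc,
      mul_div_assoc, mul_left_comm] at e1
    have e2 := le_of_mul_le_mul_left e1 hκ
    unfold Sys.hv at e2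
    rw [act_vert uw _ hq1.1, height_upr] at e2
    exact e2

end Pool.Agent.MP_8ac6f3_ag

end MrgPart2

-- ======== part 3: formerly Pool.Agent.MP_8ac6f3_ag.P
section MrgPart3

/-! Row P: the patched potential on the thick part. -/

open Set Metric Complex
open scoped ContDiff Topology

noncomputable section

namespace Pool.Agent.MP_8ac6f3_ag

namespace PP

lemma exists_bump : ∃ (b : ℝ → ℝ) (K : ℝ), ContDiff ℝ 3 b ∧ (∀ t, 0 ≤ b t ∧ b t ≤ 1) ∧
    (∀ t ≤ Real.log 4, b t = 1) ∧ (∀ t, Real.log 9 ≤ t → b t = 0) ∧ 0 ≤ K ∧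
    ∀ j : ℕ, 1 ≤ j → j ≤ 3 → ∀ t, |iteratedDeriv j b t| ≤ K := by
  have hl : 0 < Real.log 9 - Real.log 4 :=
    sub_pos.2 (Real.log_lt_log (by norm_num) (by norm_num))
  let b : ℝ → ℝ := fun t => Real.smoothTransition ((Real.log 9 - t) / (Real.log 9 - Real.log 4))
  have h0 : ContDiff ℝ 3 b :=
    (Real.smoothTransition.contDiff (n := 3)).comp ((contDiff_const.sub contDiff_id).div_const _)
  have h1 : ∀ t ≤ Real.log 4, b t = 1 := fun t ht =>
    Real.smoothTransition.one_of_one_le ((one_le_div hl).2 (by linarith))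
  have h2 : ∀ t, Real.log 9 ≤ t → b t = 0 := fun t ht =>
    Real.smoothTransition.zero_of_nonpos (div_nonpos_of_nonpos_of_nonneg (by linarith) hl.le)
  obtain ⟨K, hK, hb⟩ := exists_iteratedDeriv_bound h0 (u := Real.log 4) (v := Real.log 9)
    (fun t ht => by rw [h1 t ht, h1 _ le_rfl]) (fun t ht => by rw [h2 t ht, h2 _ le_rfl])
  exact ⟨b, K, h0, fun t => ⟨Real.smoothTransition.nonneg _, Real.smoothTransition.le_one _⟩,
    h1, h2, hK, hb⟩

/-- A weighted mean of functions that are close to `U0` is close to `U0`. -/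
lemma mean_close (M : Type) [NormedAddCommGroup M] [NormedSpace ℝ M] (n : ℕ) {a : ℝ}
    (ha : 0 ≤ a) : ∃ c : ℝ, 0 < c ∧ ∀ (s : Set M) (ι : Type) (T : Finset ι) (B U : ι → M → ℝ)
      (U0 : M → ℝ) (δ : ℝ), IsOpen s → 0 ≤ δ → T.card ≤ n → (∀ i ∈ T, Db s a (B i)) →
      (∀ i ∈ T, ∀ x ∈ s, |B i x| ≤ 1) → (∀ i ∈ T, Cb s δ (fun x => U i x - U0 x)) →
      (∀ x ∈ s, 1 ≤ ∑ i ∈ T, B i x) →
      Cb s (c * δ) (fun x => (∑ i ∈ T, B i x * U i x) / (∑ i ∈ T, B i x) - U0 x) := by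
  set a2 : ℝ := 30 * (n * a + (n * a) ^ 3) with ha2
  set c1 : ℝ := n * (7 * a + 1) with hc1
  have h2 : 0 ≤ a2 := by positivity
  have h1 : 0 ≤ c1 := by positivity
  refine ⟨c1 + n * a2 + 6 * c1 * a2 + n + 1, by positivity, ?_⟩
  intro s ι T B U U0 δ ho hδ hT hB hB1 hU hσ
  have hn : (T.card : ℝ) ≤ n := by exact_mod_cast hT
  have p1 : Db s (c1 * δ) (fun x => ∑ i ∈ T, B i x * (U i x - U0 x)) :=
    (Db.sum ho T fun i hi => Db.mul ho (hB i hi) (hB1 i hi) (hU i hi).1 (hU i hi).2).mono (by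
      have : a * δ + 1 * δ + 6 * a * δ = (7 * a + 1) * δ := by ring
      rw [this, hc1, mul_assoc]
      gcongr)
  have p2 : ∀ x ∈ s, |∑ i ∈ T, B i x * (U i x - U0 x)| ≤ n * δ := fun x hx => by
    refine (Finset.abs_sum_le_sum_abs _ _).trans ?_
    refine (Finset.sum_le_card_nsmul T _ δ fun i hi => ?_).trans ?_
    · rw [abs_mul]
      have := mul_le_mul (hB1 i hi x hx) ((hU i hi).2 x hx) (abs_nonneg _) zero_le_one
      rwa [one_mul] at this
    · rw [nsmul_eq_mul]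
      gcongr
  have p3 : Db s a2 (fun x => (∑ i ∈ T, B i x)⁻¹) :=
    Db.inv ho ((Db.sum ho T hB).mono (by gcongr)) hσ
  have p4 : ∀ x ∈ s, |(∑ i ∈ T, B i x)⁻¹| ≤ 1 := fun x hx => by
    have := hσ x hx
    rw [abs_of_nonneg (inv_nonneg.2 (by linarith))]
    exact inv_le_one_of_one_le₀ this
  have e : EqOn (fun x => (∑ i ∈ T, B i x * U i x) / (∑ i ∈ T, B i x) - U0 x)
      (fun x => (∑ i ∈ T, B i x * (U i x - U0 x)) * (∑ i ∈ T, B i x)⁻¹) s := fun x hx => by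
    have : (∑ i ∈ T, B i x) ≠ 0 := by linarith [hσ x hx]
    simp only [mul_sub, Finset.sum_sub_distrib, ← Finset.sum_mul]
    field_simp
  refine ⟨((Db.mul ho p1 p2 p3 p4).congr ho e).mono ?_, fun x hx => ?_⟩
  · have : 0 ≤ (n + 1 : ℝ) * δ := by positivity
    nlinarith
  · rw [e hx, abs_mul]
    have := mul_le_mul (p2 x hx) (p4 x hx) (abs_nonneg _) (by positivity)
    have h3 : 0 ≤ (c1 + n * a2 + 6 * c1 * a2 + 1) * δ := by positivity
    nlinarith

variable {W : Type} [NormedAddCommGroup W] [InnerProductSpace ℂ W]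

lemma abs_log_le {z : ℂ} {ε : ℝ} (h : ‖z - 1‖ ≤ ε) (hε : ε ≤ 1 / 2) :
    |Real.log (‖z‖ ^ 2)| ≤ 4 * ε := by
  have h1 : |‖z‖ - 1| ≤ ε := by
    have := abs_norm_sub_norm_le z 1
    rw [norm_one] at this
    exact this.trans h
  obtain ⟨h2, h3⟩ := abs_le.1 h1
  have h0 : 0 < ‖z‖ := by linarith
  have h4 := Real.log_le_sub_one_of_pos h0
  have h5 := Real.one_sub_inv_le_log_of_pos h0
  have h6 : ‖z‖⁻¹ ≤ 1 + 2 * ε := by
    rw [inv_le_iff_one_le_mul₀ h0]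
    nlinarith
  rw [Real.log_pow, abs_le]
  constructor <;> push_cast <;> linarith

/-- The difference of two potentials changes by the logarithm of a cross ratio. -/
lemma uu_cross {x x' q1 q2 : E W} (hx : 0 < height x) (hx' : 0 < height x') (h1 : 0 < height q1)
    (h2 : 0 < height q2) :
    (uu q1 x' - uu q2 x') - (uu q1 x - uu q2 x) =
      Real.log (‖aa x' q1 * aa x q2 / (aa x' q2 * aa x q1)‖ ^ 2) := by
  have n1 := norm_pos_iff.2 (aa_ne hx' h1.le)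
  have n2 := norm_pos_iff.2 (aa_ne hx' h2.le)
  have n3 := norm_pos_iff.2 (aa_ne hx h1.le)
  have n4 := norm_pos_iff.2 (aa_ne hx h2.le)
  have key : ∀ {y q : E W}, 0 < height y → 0 < height q → uu q y =
      2 * Real.log ‖aa y q‖ - (Real.log 4 + Real.log (height y) + Real.log (height q)) := by
    intro y q hy hq
    have n := norm_pos_iff.2 (aa_ne hy hq.le)
    rw [uu, cc_sq hy hq, Real.log_div (by positivity) (by positivity), Real.log_pow,
      Real.log_mul (by positivity) hq.ne', Real.log_mul (by norm_num) hy.ne']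
    norm_num
  rw [key hx h1, key hx h2, key hx' h1, key hx' h2, Real.log_pow, norm_div, norm_mul, norm_mul,
    Real.log_div (by positivity) (by positivity), Real.log_mul n1.ne' n4.ne',
    Real.log_mul n2.ne' n3.ne']
  push_cast
  ring

lemma uu_le {x q1 q2 : E W} (hx : 0 < height x) (h1 : 0 < height q1) (h : cc x q1 ≤ cc x q2) :
    uu q1 x ≤ uu q2 x := by
  have := one_le_cc hx h1
  exact Real.log_le_log (by positivity) (by gcongr)

variable [FiniteDimensional ℂ W] {L : ℝ}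

omit [FiniteDimensional ℂ W] in
lemma cc_move (S : Sys W L) {k : GV W} (hk : k ∈ S.N) {x y : E W} (hx : 0 < height x)
    (hy : 0 < height y) : cc (act k x) y = cc x (act k⁻¹ y) := by
  have hu := S.N_uni hk
  rw [← cc_act hu hx (height_act_pos hu.inv hy), act_act_inv hu hy]

omit [FiniteDimensional ℂ W] in
lemma exists_net (S : Sys W L) (H : ℝ) : ∃ Z : Set (E W), (∀ z ∈ Z, S.Thick H z) ∧
    (Z.Pairwise fun z z' => ∀ k ∈ S.N, 2 < cc z (act k z')) ∧
    ∀ x, S.Thick H x → ∃ z ∈ Z, ∃ k ∈ S.N, cc x (act k z) ≤ 2 := by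
  obtain ⟨Z, hZ⟩ := zorn_subset {Z : Set (E W) | (∀ z ∈ Z, S.Thick H z) ∧
      Z.Pairwise fun z z' => ∀ k ∈ S.N, 2 < cc z (act k z')} (by
    intro c hc hch
    refine ⟨⋃₀ c, ⟨?_, ?_⟩, fun s hs => subset_sUnion_of_mem hs⟩
    · rintro z ⟨t, ht, hz⟩
      exact (hc ht).1 z hz
    · rintro z ⟨t, ht, hz⟩ z' ⟨t', ht', hz'⟩ hne
      rcases hch.total ht ht' with h | h
      · exact (hc ht').2 (h hz) hz' hne
      · exact (hc ht).2 hz (h hz') hne)
  refine ⟨Z, hZ.prop.1, hZ.prop.2, fun x hx => ?_⟩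
  by_contra hn
  push Not at hn
  have hm : insert x Z ⊆ Z := hZ.le_of_ge (y := insert x Z) ⟨?_, ?_⟩ (subset_insert x Z)
  · have := hn x (hm (mem_insert x Z)) 1 (one_mem _)
    rw [act_one, cc_self hx.1] at this
    linarith
  · rintro z (rfl | hz)
    · exact hx
    · exact hZ.prop.1 z hz
  · refine (pairwise_insert).2 ⟨hZ.prop.2, fun z hz _ => ⟨hn z hz, fun k hk => ?_⟩⟩
    rw [cc_symm, cc_move S hk hx.1 (hZ.prop.1 z hz).1]
    exact hn z hz _ (inv_mem hk)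

omit [FiniteDimensional ℂ W] in
lemma near_act (S : Sys W L) {q z : E W} (hq : 0 < height q) (hz : 0 < height z) {κ k : GV W}
    (h : S.Near 1 q z κ) (hk : k ∈ S.N) : S.Near 1 q (act k z) (k * κ) := by
  refine ⟨mul_mem hk h.1, fun k' hk' => ?_⟩
  rw [act_mul (S.N_uni h.1) hq, cc_act (S.N_uni hk) hz (height_act_pos (S.N_uni h.1) hq),
    cc_move S hk hz (height_act_pos (S.N_uni hk') hq), ← act_mul (S.N_uni hk') hq]
  exact h.2 _ (mul_mem (inv_mem hk) hk')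

omit [FiniteDimensional ℂ W] in
lemma near_move (S : Sys W L) {q x y : E W} (hq : 0 < height q) (hx : 0 < height x)
    (hy : 0 < height y) {k : GV W} (h : S.Near 1 q y k) (hxy : cc x y ≤ 108) :
    S.Near (1296 ^ 2) q x k := by
  refine ⟨h.1, fun k' hk' => ?_⟩
  have a1 := height_act_pos (S.N_uni h.1) hq
  have a2 := height_act_pos (S.N_uni hk') hq
  have t1 := cc_tri hx hy a1
  have t2 := cc_tri hy hx a2
  have t3 := h.2 k' hk'
  have b1 := one_le_cc hy a1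
  have b2 := one_le_cc hx a2
  rw [cc_symm y x] at t2
  have c1 : cc x (act k q) ≤ 1296 * cc y (act k q) := by nlinarith
  have c2 : cc y (act k' q) ≤ 1296 * cc x (act k' q) := by nlinarith
  linarith

lemma finite_near (R : ℝ) : ∃ n : ℕ, ∀ (J : Type) (y : J → E W), (∀ j, 0 < height (y j)) →
    (∀ j j', j ≠ j' → 2 < cc (y j) (y j')) → ∀ x, 0 < height x →
    ∃ T : Finset J, T.card ≤ n ∧ ∀ j, j ∈ T ↔ cc x (y j) ≤ R := by
  classical
  obtain ⟨n, hn⟩ := packing W R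
  refine ⟨n, fun J y hy hsep x hx => ?_⟩
  have inj : Function.Injective y := fun j j' e => by
    by_contra hne
    have := hsep j j' hne
    rw [e, cc_self (hy j')] at this
    linarith
  have key : ∀ T : Finset J, (∀ j ∈ T, cc x (y j) ≤ R) → T.card ≤ n := fun T hT => by
    rw [← Finset.card_image_of_injective T inj]
    refine hn x hx _ (fun z hz => ?_) fun z hz z' hz' hne => ?_
    · obtain ⟨j, hj, rfl⟩ := Finset.mem_image.1 hz
      exact ⟨hy j, hT j hj⟩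
    · obtain ⟨j, -, rfl⟩ := Finset.mem_image.1 hz
      obtain ⟨j', -, rfl⟩ := Finset.mem_image.1 hz'
      exact hsep j j' fun e => hne (by rw [e])
  have fin : {j | cc x (y j) ≤ R}.Finite := by
    by_contra hinf
    obtain ⟨T, hT, hc⟩ := Set.Infinite.exists_subset_card_eq hinf (n + 1)
    have := key T fun j hj => hT hj
    omega
  exact ⟨fin.toFinset, key _ fun j hj => by simpa using hj, fun j => by simp⟩

end PP

open PP

variable {W : Type} [NormedAddCommGroup W] [InnerProductSpace ℂ W] [FiniteDimensional ℂ W]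

theorem pp (hD : DispStmt W) (hN : NMStmt W) (hU : UStmt W) : PStmt W := by
  intro H ε hε
  obtain ⟨K, lam, -, hU⟩ := hU
  have hK : 0 ≤ K := (hU 1 Unitary.one).1.nonneg ⟨0, mem_ball_self (by norm_num)⟩
  obtain ⟨b, Kb, b1, b2, b3, b4, b5, b6⟩ := exists_bump
  obtain ⟨n, hn⟩ := finite_near (W := W) 108
  obtain ⟨c, hc, hmean⟩ := mean_close (E W) n (a := 5 * Kb * (K + K ^ 3)) (by positivity)
  set e : ℝ := min (1 / 2) (ε / (c * (K + 8))) with he
  have e0 : 0 < e := lt_min (by norm_num) (by positivity)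
  have e1 : e ≤ 1 / 2 := min_le_left _ _
  have e2 : c * ((K + 8) * e) ≤ ε := by
    have : e ≤ ε / (c * (K + 8)) := min_le_right _ _
    rw [le_div_iff₀ (by positivity)] at this
    linarith
  obtain ⟨L1, h1⟩ := hD (36 * H) 2
  obtain ⟨L2, h2⟩ := hN H (1296 ^ 2) 108 e e0
  refine ⟨max L1 L2, fun L hL S q hq => ?_⟩
  obtain ⟨d1, d2⟩ := h1 L (le_of_max_le_left hL) S
  replace h2 := h2 L (le_of_max_le_right hL) S q hq
  obtain ⟨Z, z1, z2, z3⟩ := exists_net S (36 * H)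
  choose κ hκ using fun z : Z => (d2 q hq z (z1 z z.2).1).2
  let y : Z × S.N → E W := fun j => act j.2 j.1
  let r : Z × S.N → E W := fun j => act (j.2 * κ j.1) q
  have hy : ∀ j, 0 < height (y j) := fun j => height_act_pos (S.N_uni j.2.2) (z1 _ j.1.2).1
  have hnear : ∀ j, S.Near 1 q (y j) (j.2 * κ j.1) := fun j =>
    near_act S hq.1 (z1 _ j.1.2).1 (hκ j.1) j.2.2
  have hr : ∀ j, 0 < height (r j) := fun j => height_act_pos (S.N_uni (hnear j).1) hq.1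
  have hsep : ∀ j j', j ≠ j' → 2 < cc (y j) (y j') := by
    rintro ⟨z, k⟩ ⟨z', k'⟩ hne
    show 2 < cc (act (k : GV W) (z : E W)) (act (k' : GV W) (z' : E W))
    rw [cc_move S k.2 (z1 _ z.2).1 (height_act_pos (S.N_uni k'.2) (z1 _ z'.2).1),
      ← act_mul (S.N_uni k'.2) (z1 _ z'.2).1]
    have hm : (k : GV W)⁻¹ * k' ∈ S.N := mul_mem (inv_mem k.2) k'.2
    by_cases hz : z = z'
    · subst hz
      exact d1 z (z1 _ z.2) _ hm fun e => hne (by rw [Subtype.ext (inv_mul_eq_one.1 e)])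
    · exact z2 z.2 z'.2 (fun e => hz (Subtype.ext e)) _ hm
  refine ⟨fun x => (∑ᶠ j, b (uu (y j) x) * uu (r j) x) / ∑ᶠ j, b (uu (y j) x), ?_, ?_⟩
  · intro k hk x hx
    let σ : Z × S.N ≃ Z × S.N := Equiv.prodCongr (Equiv.refl Z) (Equiv.mulLeft ⟨k, hk⟩)
    have s1 : ∀ j, uu (y (σ j)) (act k x) = uu (y j) x := fun j => by
      have : y (σ j) = act k (y j) := act_mul (S.N_uni j.2.2) (z1 _ j.1.2).1
      rw [this, uu_act (S.N_uni hk) hx (hy j)]
    have s2 : ∀ j, uu (r (σ j)) (act k x) = uu (r j) x := fun j => by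
      have : r (σ j) = act k (r j) := by
        show act (k * (j.2 : GV W) * κ j.1) q = _
        rw [mul_assoc]
        exact act_mul (S.N_uni (hnear j).1) hq.1
      rw [this, uu_act (S.N_uni hk) hx (hr j)]
    show _ / _ = _ / _
    rw [← finsum_comp_equiv σ, ← finsum_comp_equiv σ (f := fun j => b (uu (y j) (act k x)))]
    simp only [s1, s2]
  · intro x hx g hg hgx k0 hk0
    obtain ⟨T, hT, hT'⟩ := hn _ y hy hsep x hx.1
    have c1 : ∀ ξ ∈ ball (0 : E W) (1 / 8), 0 < height (act g (oo + ξ)) ∧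
        cc x (act g (oo + ξ)) ≤ 3 := fun ξ hξ => by
      have hξ' : ‖ξ‖ ≤ 1 / 2 := by linarith [mem_ball_zero_iff.1 hξ]
      have hp : 0 < height (oo + ξ) := by linarith [height_chart hξ']
      refine ⟨height_act_pos hg hp, ?_⟩
      rw [← hgx, cc_act hg (by rw [height_oo]; norm_num) hp]
      exact cc_chart hξ'
    have c2 : ∀ ξ ∈ ball (0 : E W) (1 / 8), ∀ j, b (uu (y j) (act g (oo + ξ))) ≠ 0 → j ∈ T := by
      intro ξ hξ j hj
      obtain ⟨p1, p2⟩ := c1 ξ hξ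
      have p3 : cc (act g (oo + ξ)) (y j) ≤ 3 := by
        by_contra hlt
        refine hj (b4 _ (Real.log_le_log (by norm_num) ?_))
        nlinarith [not_le.1 hlt]
      have p4 := cc_tri hx.1 p1 (hy j)
      have p5 := one_le_cc hx.1 p1
      have p6 := one_le_cc p1 (hy j)
      rw [hT']
      nlinarith
    have hq0 := height_act_pos (S.N_uni hk0.1) hq.1
    have hk0' : S.Near (1296 ^ 2) q x k0 :=
      near_move S hq.1 hx.1 hx.1 hk0 (by rw [cc_self hx.1]; norm_num)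
    have main := hmean (ball 0 (1 / 8)) _ T (fun j ξ => b (uu (y j) (act g (oo + ξ))))
      (fun j ξ => uu (r j) (act g (oo + ξ))) (fun ξ => uu (act k0 q) (act g (oo + ξ)))
      ((K + 8) * e) isOpen_ball (by positivity) hT
      (fun j _ => Db.comp isOpen_ball ((hU g hg).2.1 _ (hy j)).1 isOpen_univ b1.contDiffOn
        (mapsTo_univ _ _) fun i i1 i3 ξ _ => b6 i i1 i3 _)
      (fun j _ ξ _ => abs_le.2 ⟨by linarith [(b2 (uu (y j) (act g (oo + ξ)))).1], (b2 _).2⟩)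
      (fun j hj => ?_) (fun ξ hξ => ?_)
    · have eq : EqOn (fun ξ : E W => (∑ᶠ j, b (uu (y j) (act g (oo + ξ))) *
          uu (r j) (act g (oo + ξ))) / (∑ᶠ j, b (uu (y j) (act g (oo + ξ)))) -
          uu (act k0 q) (act g (oo + ξ))) (fun ξ : E W => (∑ j ∈ T, b (uu (y j) (act g (oo + ξ))) *
          uu (r j) (act g (oo + ξ))) / (∑ j ∈ T, b (uu (y j) (act g (oo + ξ)))) -
          uu (act k0 q) (act g (oo + ξ))) (ball 0 (1 / 8)) := fun ξ hξ => by
        simp only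
        rw [finsum_eq_sum_of_support_subset (s := T) _ fun j hj =>
            c2 ξ hξ j (left_ne_zero_of_mul hj),
          finsum_eq_sum_of_support_subset (s := T) _ fun j hj => c2 ξ hξ j hj]
      exact ⟨(main.1.congr isOpen_ball eq).mono e2, fun ξ hξ => by
        rw [eq hξ]; exact (main.2 ξ hξ).trans e2⟩
    · have hxy := (hT' j).1 hj
      have cr := h2 x hx _ k0 (near_move S hq.1 hx.1 (hy j) (hnear j) hxy) hk0'
      refine ⟨((hU g hg).2.2 (r j) (act k0 q) e (hr j) hq0 e1 fun x' p1 p2 => ?_).mono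
        (by nlinarith), fun ξ hξ => ?_⟩
      · rw [hgx] at p2 ⊢
        exact cr x' p1 (by linarith)
      · obtain ⟨p1, p2⟩ := c1 ξ hξ
        have v1 := abs_log_le (cr _ p1 (by linarith)) e1
        have v2 := abs_log_le (cr _ (hy j) hxy) e1
        rw [← uu_cross hx.1 p1 (hr j) hq0] at v1
        rw [← uu_cross hx.1 (hy j) (hr j) hq0] at v2
        have v3 : uu (act k0 q) x ≤ uu (r j) x :=
          uu_le hx.1 hq0 (by simpa using hk0.2 _ (hnear j).1)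
        have v4 : uu (r j) (y j) ≤ uu (act k0 q) (y j) :=
          uu_le (hy j) (hr j) (by simpa using (hnear j).2 _ hk0.1)
        have v5 : 0 ≤ K * e := by positivity
        rw [abs_le] at v1 v2 ⊢
        constructor <;> linarith [v1.1, v1.2, v2.1, v2.2]
    · obtain ⟨p1, p2⟩ := c1 ξ hξ
      have th : S.Thick (36 * H) (act g (oo + ξ)) := ⟨p1, fun v => by
        have t1 := S.hv_le_cc v p1 hx.1
        have t2 := S.hv_pos v hx.1
        have t3 := hx.2 v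
        have t4 := one_le_cc hx.1 p1
        rw [cc_symm] at t1
        have t5 : cc x (act g (oo + ξ)) ^ 2 ≤ 9 := by nlinarith
        nlinarith⟩
      obtain ⟨z, hz, k, hk, hle⟩ := z3 _ th
      have one : b (uu (y (⟨z, hz⟩, ⟨k, hk⟩)) (act g (oo + ξ))) = 1 := by
        have t4 := one_le_cc p1 (hy (⟨z, hz⟩, ⟨k, hk⟩))
        refine b3 _ (Real.log_le_log (by positivity) ?_)
        have : cc (act g (oo + ξ)) (y (⟨z, hz⟩, ⟨k, hk⟩)) ≤ 2 := hle
        nlinarith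
      rw [← one]
      exact Finset.single_le_sum (f := fun j => b (uu (y j) (act g (oo + ξ))))
        (fun j _ => (b2 _).1) (c2 ξ hξ _ (by rw [one]; exact one_ne_zero))

end Pool.Agent.MP_8ac6f3_ag

end

end MrgPart3

-- ======== part 4: formerly Pool.Agent.MP_8ac6f3_ag.C3A
section MrgPart4

/-! Row C3, first part: a finite family of charts of a compact manifold lifts to an atlas of
bounded geometry of a covering space. -/

open Set Metric Filter
open scoped Manifold ContDiff Topology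

noncomputable section

namespace Pool.Agent.MP_8ac6f3_ag

namespace C3P

variable {M X Y : Type} [NormedAddCommGroup M] [NormedSpace ℝ M] [NormedSpace ℂ M]
  [TopologicalSpace X] [ChartedSpace M X] [TopologicalSpace Y] {p : Y → X}

/-- `χ` is a chart on the ball of radius four with inverse `σ`. -/
structure Good (χ : M → X) (σ : X → M) : Prop where
  inv : ∀ ξ ∈ ball (0 : M) 4, σ (χ ξ) = ξ
  sm : ∀ ξ ∈ ball (0 : M) 4, ContMDiffAt 𝓘(ℂ, M) 𝓘(ℂ, M) 1 χ ξ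
  sm' : ∀ ξ ∈ ball (0 : M) 4, ContMDiffAt 𝓘(ℂ, M) 𝓘(ℂ, M) 1 σ (χ ξ)
  rinv : ∀ ξ ∈ ball (0 : M) 4, ∀ᶠ x in 𝓝 (χ ξ), χ (σ x) = x

omit [NormedSpace ℝ M] in
theorem Good.cont {χ : M → X} {σ : X → M} (h : Good χ σ) : ContinuousOn χ (ball 0 4) :=
  fun ξ hξ => (h.sm ξ hξ).continuousAt.continuousWithinAt

omit [NormedSpace ℝ M] in
theorem Good.inj {χ : M → X} {σ : X → M} (h : Good χ σ) : InjOn χ (ball 0 4) :=
  fun a ha b hb e => by rw [← h.inv a ha, e, h.inv b hb]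

omit [NormedSpace ℝ M] in
theorem Good.opn {χ : M → X} {σ : X → M} (h : Good χ σ) {ξ : M} (hξ : ξ ∈ ball (0 : M) 4)
    {U : Set M} (hU : U ∈ 𝓝 ξ) : χ '' U ∈ 𝓝 (χ ξ) := by
  have h1 : σ ⁻¹' U ∈ 𝓝 (χ ξ) :=
    (h.sm' ξ hξ).continuousAt.preimage_mem_nhds (by rwa [h.inv ξ hξ])
  filter_upwards [h1, h.rinv ξ hξ] with x h2 h3
  exact ⟨σ x, h2, h3⟩

theorem good_of [IsScalarTower ℝ ℂ M] {f : M → X} {c : M}
    (hf : IsLocalDiffeomorphAt 𝓘(ℂ, M) 𝓘(ℂ, M) ω f c) :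
    ∃ δ : ℝ, 0 < δ ∧ ∀ t : ℝ, 0 < t → t ≤ δ → ∃ σ, Good (fun ξ => f (c + t • ξ)) σ := by
  obtain ⟨e, hc, he⟩ := hf
  obtain ⟨ε, hε, hs⟩ := Metric.isOpen_iff.1 e.open_source c hc
  refine ⟨ε / 4, by positivity, fun t ht htε => ⟨fun x => t⁻¹ • (e.invFun x - c), ?_⟩⟩
  have hm : ∀ ξ ∈ ball (0 : M) 4, c + t • ξ ∈ e.source := fun ξ hξ => hs (by
    rw [mem_ball_zero_iff] at hξ
    rw [mem_ball_iff_norm, add_sub_cancel_left, norm_smul, Real.norm_of_nonneg ht.le]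
    nlinarith [norm_nonneg ξ])
  have hA : ContMDiff 𝓘(ℂ, M) 𝓘(ℂ, M) 1 fun ξ : M => c + t • ξ :=
    (contDiff_const.add (contDiff_id.const_smul t)).contMDiff
  have hB : ContMDiff 𝓘(ℂ, M) 𝓘(ℂ, M) 1 fun ξ : M => t⁻¹ • (ξ - c) :=
    ((contDiff_id.sub contDiff_const).const_smul t⁻¹).contMDiff
  refine ⟨fun ξ hξ => ?_, fun ξ hξ => ?_, fun ξ hξ => ?_, fun ξ hξ => ?_⟩
  · have : e.invFun (e (c + t • ξ)) = c + t • ξ := e.left_inv (hm ξ hξ)
    simp only [he (hm ξ hξ), this, add_sub_cancel_left, inv_smul_smul₀ ht.ne']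
  · have h1 : ContMDiffAt 𝓘(ℂ, M) 𝓘(ℂ, M) 1 f (c + t • ξ) :=
      ((e.contMDiffOn.congr he).contMDiffAt (e.open_source.mem_nhds (hm ξ hξ))).of_le le_top
    exact h1.comp ξ (hA ξ)
  · have h1 : ContMDiffAt 𝓘(ℂ, M) 𝓘(ℂ, M) 1 e.invFun (f (c + t • ξ)) := by
      rw [he (hm ξ hξ)]
      exact (e.contMDiffOn_invFun.contMDiffAt
        (e.open_target.mem_nhds (e.map_source (hm ξ hξ)))).of_le le_top
    exact (hB _).comp _ h1
  · have h1 : e.target ∈ 𝓝 (f (c + t • ξ)) := by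
      rw [he (hm ξ hξ)]
      exact e.open_target.mem_nhds (e.map_source (hm ξ hξ))
    filter_upwards [h1] with x hx
    rw [smul_inv_smul₀ ht.ne', add_sub_cancel]
    exact (he (e.map_target hx)).trans (e.right_inv hx)

omit [NormedSpace ℝ M] in
/-- A lift of a chart is open. -/
theorem lift_opn (hp : IsCoveringMap p) {χ : M → X} {σ : X → M} (h : Good χ σ) {G : M → Y}
    (hG : ContinuousOn G (ball 0 4)) (hl : ∀ b ∈ ball (0 : M) 4, p (G b) = χ b) {a : M}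
    (ha : a ∈ ball (0 : M) 4) {U : Set M} (hU : U ∈ 𝓝 a) : G '' U ∈ 𝓝 (G a) := by
  obtain ⟨e, he, rfl⟩ := hp.isLocalHomeomorph (G a)
  have h1 : U ∩ (ball 0 4 ∩ G ⁻¹' e.source) ∈ 𝓝 a :=
    inter_mem hU (inter_mem (isOpen_ball.mem_nhds ha)
      ((hG.continuousAt (isOpen_ball.mem_nhds ha)).preimage_mem_nhds (e.open_source.mem_nhds he)))
  have h2 := h.opn ha h1
  rw [← hl a ha] at h2
  have h3 := inter_mem (e.open_source.mem_nhds he) ((e.continuousAt he).preimage_mem_nhds h2)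
  refine mem_of_superset h3 ?_
  rintro y ⟨hy, b, ⟨hb, hb', hb''⟩, h⟩
  exact ⟨b, hb, e.injOn hb'' hy (by rw [hl b hb', h])⟩

omit [NormedSpace ℝ M] in
/-- The transition maps have bounded derivatives. -/
theorem bound [FiniteDimensional ℂ M] [T2Space X] {χ χ' : M → X} {σ σ' : X → M} (h : Good χ σ)
    (h' : Good χ' σ') : ∃ C : ℝ, ∀ ξ ∈ ball (0 : M) 3, χ ξ ∈ χ' '' ball 0 3 →
      ContDiffAt ℂ 1 (fun ξ => σ' (χ ξ)) ξ ∧ ‖fderiv ℂ (fun ξ => σ' (χ ξ)) ξ‖ ≤ C := by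
  have : ProperSpace M := FiniteDimensional.proper ℂ M
  have s : closedBall (0 : M) 3 ⊆ ball 0 4 := closedBall_subset_ball (by norm_num)
  have k1 : IsClosed (χ' '' closedBall 0 3) :=
    ((isCompact_closedBall 0 3).image_of_continuousOn (h'.cont.mono s)).isClosed
  have k2 : IsCompact (closedBall (0 : M) 3 ∩ χ ⁻¹' (χ' '' closedBall 0 3)) :=
    (isCompact_closedBall 0 3).of_isClosed_subset
      ((h.cont.mono s).preimage_isClosed_of_isClosed isClosed_closedBall k1) inter_subset_left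
  have k3 : ∀ ξ ∈ closedBall (0 : M) 3 ∩ χ ⁻¹' (χ' '' closedBall 0 3),
      ContDiffAt ℂ 1 (fun ξ => σ' (χ ξ)) ξ := by
    rintro ξ ⟨h1, η, h2, h3⟩
    have h4 := h'.sm' η (s h2)
    rw [h3] at h4
    exact (h4.comp ξ (h.sm ξ (s h1))).contDiffAt
  obtain ⟨C, hC⟩ := k2.exists_bound_of_continuousOn (f := fderiv ℂ fun ξ => σ' (χ ξ))
    fun ξ hξ => ((k3 ξ hξ).continuousAt_fderiv one_ne_zero).continuousWithinAt
  refine ⟨C, fun ξ h1 h2 => ?_⟩
  have h3 : ξ ∈ closedBall (0 : M) 3 ∩ χ ⁻¹' (χ' '' closedBall 0 3) :=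
    ⟨ball_subset_closedBall h1, image_mono ball_subset_closedBall h2⟩
  exact ⟨k3 ξ h3, hC ξ h3⟩

/-- The atlas of the covering space. -/
theorem atlas [FiniteDimensional ℂ M] [T2Space X] [ChartedSpace M Y] (hp : IsCoveringMap p)
    (hp' : MDifferentiable 𝓘(ℂ, M) 𝓘(ℂ, M) p) {ι : Type} [Fintype ι] {χ : ι → M → X}
    {σ : ι → X → M} (h : ∀ t, Good (χ t) (σ t))
    (hc : ∀ x, ∃ t, ∃ ξ ∈ ball (0 : M) 1, χ t ξ = x) :
    ∃ (A : Type) (a : Atl M Y A) (τ : A → ι),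
      (∀ α, ∀ ξ ∈ ball (0 : M) 3, p (a.ψ α ξ) = χ (τ α) ξ) ∧
      ∀ g : Y → ℂ, a.Hol g → MDifferentiable 𝓘(ℂ, M) 𝓘(ℂ, ℂ) g := by
  classical
  have : ProperSpace M := FiniteDimensional.proper ℂ M
  have z4 : (0 : M) ∈ ball (0 : M) 4 := mem_ball_self (by norm_num)
  have s34 : ball (0 : M) 3 ⊆ ball 0 4 := ball_subset_ball (by norm_num)
  have s13 : ball (0 : M) 1 ⊆ ball 0 3 := ball_subset_ball (by norm_num)
  have s23 : closedBall (0 : M) 2 ⊆ ball 0 3 := closedBall_subset_ball (by norm_num)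
  have st : StarConvex ℝ (0 : M) (ball 0 4) := (convex_ball 0 4).starConvex z4
  have pc : IsPreconnected (ball (0 : M) 4) := (convex_ball 0 4).isPreconnected
  choose ψ ψ1 ψ2 ψ3 using fun α : {q : ι × Y // p q.2 = χ q.1 0} =>
    C01.exists_lift hp isOpen_ball st (h α.1.1).cont z4 α.2
  have uq : ∀ α (G : M → Y), ContinuousOn G (ball 0 4) →
      (∀ b ∈ ball (0 : M) 4, p (G b) = χ α.1.1 b) → ∀ ξ ∈ ball (0 : M) 4, ψ α ξ = G ξ →
      EqOn (ψ α) G (ball 0 4) := fun α G g1 g2 ξ hξ e =>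
    hp.eqOn_of_comp_eqOn pc (ψ1 α) g1 (fun b hb => (ψ2 α b hb).trans (g2 b hb).symm) hξ e
  have ex : ∀ t, ∀ ξ ∈ ball (0 : M) 4, ∀ y, p y = χ t ξ → ∃ α, α.1.1 = t ∧ ψ α ξ = y := by
    intro t ξ hξ y hy
    obtain ⟨G, g1, g2, g3⟩ := C01.exists_lift hp isOpen_ball st (h t).cont hξ hy
    exact ⟨⟨(t, G 0), g2 0 z4⟩, rfl, (uq _ G g1 g2 0 z4 (ψ3 _) hξ).trans g3⟩
  have un : ∀ α β, α.1.1 = β.1.1 → ∀ ξ ∈ ball (0 : M) 4, ∀ η ∈ ball (0 : M) 4,
      ψ α ξ = ψ β η → α = β := by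
    intro α β e ξ hξ η hη e'
    have e1 : ξ = η := (h α.1.1).inj hξ hη (by rw [← ψ2 α ξ hξ, e', ψ2 β η hη, e])
    have e2 := uq α (ψ β) (ψ1 β) (fun b hb => by rw [ψ2 β b hb, e]) ξ hξ (by rw [e', e1]) z4
    rw [ψ3, ψ3] at e2
    exact Subtype.ext (Prod.ext e e2)
  have inj : ∀ α, InjOn (ψ α) (ball 0 3) := fun α a ha b hb e =>
    (h α.1.1).inj (s34 ha) (s34 hb) (by rw [← ψ2 α a (s34 ha), e, ψ2 α b (s34 hb)])
  have opn : ∀ α U, IsOpen U → U ⊆ ball 0 3 → IsOpen (ψ α '' U) := fun α U hU hs => by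
    rw [isOpen_iff_mem_nhds]
    rintro _ ⟨a, ha, rfl⟩
    exact lift_opn hp (h α.1.1) (ψ1 α) (ψ2 α) (s34 (hs ha)) (hU.mem_nhds ha)
  have cov : ∀ y, ∃ α, ∃ ξ ∈ ball (0 : M) 1, ψ α ξ = y := fun y => by
    obtain ⟨t, ξ, hξ, e⟩ := hc (p y)
    obtain ⟨α, -, e'⟩ := ex t ξ (s34 (s13 hξ)) y e.symm
    exact ⟨α, ξ, hξ, e'⟩
  have back : ∀ α, ∀ η ∈ ball (0 : M) 3, σ α.1.1 (p (ψ α η)) = η := fun α η hη => by
    rw [ψ2 α η (s34 hη), (h _).inv η (s34 hη)]
  choose C hC using fun q : ι × ι => bound (h q.1) (h q.2)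
  obtain ⟨C0, hC0⟩ := (finite_range C).bddAbove
  refine ⟨_, ⟨ψ, C0, Fintype.card ι, fun α => (ψ1 α).mono s34, inj, opn, cov,
    fun α β ξ hξ hm => ?_, fun y => ?_⟩, fun α => α.1.1, fun α ξ hξ => ψ2 α ξ (s34 hξ),
    fun g hg y => ?_⟩
  · have e : (fun ξ' => Function.invFunOn (ψ β) (ball 0 3) (ψ α ξ')) =ᶠ[𝓝 ξ]
        fun ξ' => σ β.1.1 (χ α.1.1 ξ') := by
      filter_upwards [((ψ1 α).continuousAt (isOpen_ball.mem_nhds (s34 hξ))).preimage_mem_nhds
        ((opn β _ isOpen_ball subset_rfl).mem_nhds hm), isOpen_ball.mem_nhds (s34 hξ)] with ξ' h1 h2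
      obtain ⟨η, hη, e⟩ := h1
      rw [← ψ2 α ξ' h2, ← e, back β η hη, (inj β).leftInvOn_invFunOn hη]
    obtain ⟨η, hη, e'⟩ := hm
    obtain ⟨k1, k2⟩ := hC (α.1.1, β.1.1) ξ hξ
      ⟨η, hη, by rw [← ψ2 β η (s34 hη), e', ψ2 α ξ (s34 hξ)]⟩
    exact ⟨k1.congr_of_eventuallyEq e, by rw [e.fderiv_eq]; exact k2.trans (hC0 ⟨_, rfl⟩)⟩
  · have loc : ∀ t, ∃ O ∈ 𝓝 y, ∃ T : Finset {q : ι × Y // p q.2 = χ q.1 0}, T.card ≤ 1 ∧
        ∀ α, α.1.1 = t → (ψ α '' closedBall 0 2 ∩ O).Nonempty → α ∈ T := by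
      intro t
      by_cases c : p y ∈ χ t '' ball 0 3
      · obtain ⟨ξ, hξ, e⟩ := c
        obtain ⟨β, e1, e2⟩ := ex t ξ (s34 hξ) y e.symm
        refine ⟨_, (opn β _ isOpen_ball subset_rfl).mem_nhds ⟨ξ, hξ, e2⟩, {β}, by simp, ?_⟩
        rintro α e3 ⟨_, ⟨a, ha, rfl⟩, b, hb, e4⟩
        exact Finset.mem_singleton.2
          (un α β (e3.trans e1.symm) a (s34 (s23 ha)) b (s34 hb) e4.symm)
      · have k1 : IsClosed (χ t '' closedBall 0 2) :=
          ((isCompact_closedBall 0 2).image_of_continuousOn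
            ((h t).cont.mono (s23.trans s34))).isClosed
        refine ⟨_, hp.continuous.continuousAt.preimage_mem_nhds
          (k1.isOpen_compl.mem_nhds fun c' => c (image_mono s23 c')), ∅, by simp, ?_⟩
        rintro α e3 ⟨_, ⟨a, ha, rfl⟩, e4⟩
        exact absurd ⟨a, ha, by rw [ψ2 α a (s34 (s23 ha)), e3]⟩ e4
    choose O hO T hT hT' using loc
    refine ⟨⋂ t, O t, iInter_mem.2 hO, Finset.univ.biUnion T, ?_, fun α hα => ?_⟩
    · simpa using Finset.card_biUnion_le_card_mul Finset.univ T 1 fun t _ => hT t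
    · exact Finset.mem_biUnion.2 ⟨_, Finset.mem_univ _, hT' _ α rfl
        (hα.mono (inter_subset_inter_right _ (iInter_subset _ _)))⟩
  · obtain ⟨α, ξ, hξ, rfl⟩ := cov y
    have h3 := s13 hξ
    have e : g =ᶠ[𝓝 (ψ α ξ)] fun y => (g ∘ ψ α) (σ α.1.1 (p y)) := by
      filter_upwards [(opn α _ isOpen_ball subset_rfl).mem_nhds ⟨ξ, h3, rfl⟩] with y hy
      obtain ⟨η, hη, rfl⟩ := hy
      rw [back α η hη]
      rfl
    have k1 : MDifferentiableAt 𝓘(ℂ, M) 𝓘(ℂ, ℂ) (g ∘ ψ α) (σ α.1.1 (p (ψ α ξ))) := by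
      rw [back α ξ h3]
      exact ((hg α).differentiableAt (isOpen_ball.mem_nhds h3)).mdifferentiableAt
    have k2 : MDifferentiableAt 𝓘(ℂ, M) 𝓘(ℂ, M) (σ α.1.1) (p (ψ α ξ)) := by
      rw [ψ2 α ξ (s34 h3)]
      exact ((h _).sm' ξ (s34 h3)).mdifferentiableAt one_ne_zero
    exact ((k1.comp _ k2).comp _ (hp' _)).congr_of_eventuallyEq e

end C3P

end Pool.Agent.MP_8ac6f3_ag

end

end MrgPart4

-- ======== part 5: formerly Pool.Agent.MP_8ac6f3_ag.C3
section MrgPart5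

/-! Row C3: the atlas of bounded geometry of the covering space. -/

open Set Metric Filter
open scoped Manifold ContDiff Topology

noncomputable section

namespace Pool.Agent.MP_8ac6f3_ag

variable {W : Type} [NormedAddCommGroup W] [InnerProductSpace ℂ W]

namespace C3P

/-- The action of a unitary element as a diffeomorphism of the Siegel domain. -/
def actD {g : GV W} (hg : Unitary g) :
    PartialDiffeomorph 𝓘(ℂ, E W) 𝓘(ℂ, E W) (E W) (E W) ω where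
  toFun := act g
  invFun := act g⁻¹
  source := {x | 0 < height x}
  target := {x | 0 < height x}
  map_source' _ hx := height_act_pos hg hx
  map_target' _ hx := height_act_pos hg.inv hx
  left_inv' _ hx := act_inv_act hg hx
  right_inv' _ hx := act_act_inv hg hx
  open_source := isOpen_height 0
  open_target := isOpen_height 0
  contMDiffOn_toFun := (contDiffOn_act hg).contMDiffOn
  contMDiffOn_invFun := (contDiffOn_act hg.inv).contMDiffOn

theorem thick_act {L H : ℝ} {S : Sys W L} {γ : GV W} (hγ : γ ∈ S.Γ) {x : E W}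
    (h : S.Thick H x) : S.Thick H (act γ x) := by
  have hu := S.uni γ hγ
  refine ⟨height_act_pos hu h.1, fun v => ?_⟩
  obtain ⟨w, rfl⟩ : ∃ w, v = (⟨γ, hγ⟩ : S.Γ) • w := ⟨_, (smul_inv_smul _ v).symm⟩
  have h1 := (S.fr_smul ⟨γ, hγ⟩ w).height_act
    (((S.fr_uni _).mul hu).mul (S.fr_uni w).inv) (act (S.fr w) x)
  rw [act_mul (S.fr_uni w).inv (height_act_pos (S.fr_uni w) h.1), act_inv_act (S.fr_uni w) h.1,
    act_mul hu h.1] at h1
  exact h1.trans_le (h.2 w)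

variable {L : ℝ} {X : Type} [TopologicalSpace X] [ChartedSpace (E W) X]

/-- The two kinds of charts of the base. -/
def Kind (T : Toroidal W L X) (S : Sys W L) (H : ℝ) (χ : E W → X) (r : ℝ)
    (B : Set (Fin T.k × E W × ℝ)) : Prop :=
  0 < r ∧ B.Finite ∧
  (∀ t ∈ B, 0 < t.2.2 ∧ t.2.2 ≤ 1 ∧ closedBall t.2.1 (3 * t.2.2) ⊆ UU (T.l t.1) H) ∧
  ((∃ g, Unitary g ∧ S.Thick H (act g oo) ∧ r ≤ 1 / 24 ∧
    ∀ ξ, χ ξ = T.j (act g (oo + r • ξ))) ∨ ∃ t ∈ B, ∀ ξ, χ ξ = T.φ t.1 (t.2.1 + t.2.2 • ξ))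

theorem base_cusp (T : Toroidal W L X) (S : Sys W L) (hL : 0 < L) {H : ℝ} (hH : 2 ≤ H)
    (i : Fin T.k) {b : E W} (hb : b ∈ UU (T.l i) H) :
    ∃ χ σ r B, Good χ σ ∧ χ 0 = T.φ i b ∧ Kind T S H χ r B := by
  have hl := hL.trans_le (T.deep i)
  obtain ⟨δ, hδ, h⟩ := good_of (T.φ_loc i ⟨b, UU_mono hl (by linarith : (1 : ℝ) ≤ H) hb⟩)
  obtain ⟨ε, hε, hs⟩ := Metric.isOpen_iff.1 (isOpen_UU (T.l i) H) b hb
  have h0 : 0 < min δ (min 1 (ε / 4)) := by positivity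
  obtain ⟨σ, hσ⟩ := h _ h0 (min_le_left _ _)
  refine ⟨_, σ, 1, {(i, b, min δ (min 1 (ε / 4)))}, hσ, by simp, one_pos, finite_singleton _, ?_,
    Or.inr ⟨_, rfl, fun ξ => rfl⟩⟩
  rintro _ rfl
  have h1 : min δ (min 1 (ε / 4)) ≤ ε / 4 := (min_le_right _ _).trans (min_le_right _ _)
  exact ⟨h0, (min_le_right _ _).trans (min_le_left _ _),
    (closedBall_subset_ball (by dsimp only; linarith)).trans hs⟩

theorem base (T : Toroidal W L X) (S : Sys W L) (hL : 0 < L) (hk : Link T S) {H : ℝ}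
    (hH : 2 ≤ H) (x : X) : ∃ χ σ r B, Good χ σ ∧ χ 0 = x ∧ Kind T S H χ r B := by
  rcases T.cover x with ⟨x0, h0, rfl⟩ | ⟨i, z, rfl⟩
  swap
  · exact base_cusp T S hL hH i (C01.zero_mem_UU _ _ z)
  by_cases c : S.Thick H x0
  · obtain ⟨g, hg, rfl⟩ := exists_act_oo h0
    have ho : (0 : ℝ) < height (oo : E W) := by rw [height_oo]; exact one_pos
    obtain ⟨δ, hδ, h⟩ := good_of (((actD hg).isLocalDiffeomorphAt _ _ _ ho).comp _ _
      (T.j_loc ⟨_, h0⟩))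
    have h1 : 0 < min δ (1 / 24) := by positivity
    obtain ⟨σ, hσ⟩ := h _ h1 (min_le_left _ _)
    refine ⟨_, σ, _, ∅, hσ, ?_, h1, finite_empty, by simp,
      Or.inl ⟨g, hg, c, min_le_right _ _, fun ξ => rfl⟩⟩
    rw [smul_zero, add_zero]
    rfl
  · obtain ⟨v, hv⟩ : ∃ v, H < S.hv v x0 := by
      by_contra n
      exact c ⟨h0, fun v => not_lt.1 fun h => n ⟨v, h⟩⟩
    obtain ⟨γ, hγ, i, e, -⟩ := hk.of_cusp v
    have hu := (T.unitary _ hγ).inv
    rw [Sys.hv, e, act_mul hu h0] at hv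
    obtain ⟨χ, σ, r, B, h1, h2, h3⟩ :=
      base_cusp T S hL hH i ((ex_mem_UU (hL.trans_le (T.deep i))).2 hv)
    refine ⟨χ, σ, r, B, h1, ?_, h3⟩
    rw [h2, C01.φ_ex T i (by linarith), act_inv_act (T.g_unitary i) (height_act_pos hu h0),
      C01.j_act T (T.Γ.inv_mem hγ) h0]

end C3P

open C3P in
theorem c3 [FiniteDimensional ℂ W] : C3Stmt W := by
  intro L X _ _ _ _ _ T S hL hk Y _ _ _ p hp hp' Λ H hH
  choose χ σ r B h1 h2 h3 using base T S hL hk hH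
  have z4 : (0 : E W) ∈ ball (0 : E W) 4 := mem_ball_self (by norm_num)
  have z3 : (0 : E W) ∈ ball (0 : E W) 3 := mem_ball_self (by norm_num)
  have pc : IsPreconnected (ball (0 : E W) 3) := (convex_ball 0 3).isPreconnected
  obtain ⟨s, -, hs⟩ := isCompact_univ.elim_nhds_subcover (fun x => χ x '' ball 0 1)
    fun x _ => by
      have := (h1 x).opn z4 (ball_mem_nhds 0 one_pos)
      rwa [h2 x] at this
  obtain ⟨A, a, τ, a1, a2⟩ := atlas hp (hp'.mdifferentiable (by simp)) (ι := s)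
    (fun t => h1 t.1) fun x => by
      obtain ⟨t, ht, ξ, hξ, e⟩ := mem_iUnion₂.1 (hs (mem_univ x))
      exact ⟨⟨t, ht⟩, ξ, hξ, e⟩
  obtain ⟨r0, r1, r2⟩ : ∃ r0 : ℝ, 0 < r0 ∧ ∀ t ∈ s, r0 ≤ r t := by
    rcases s.eq_empty_or_nonempty with rfl | hn
    · exact ⟨1, one_pos, by simp⟩
    · obtain ⟨t, -, ht⟩ := s.exists_min_image r hn
      exact ⟨r t, (h3 t).1, ht⟩
  refine ⟨⟨A, a, r0, r1, ⋃ t ∈ s, B t, s.finite_toSet.biUnion fun t _ => (h3 t).2.1,
    fun q hq => ?_, fun α => ?_, a2⟩⟩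
  · obtain ⟨t, -, ht⟩ := mem_iUnion₂.1 hq
    exact (h3 t).2.2.1 q ht
  · obtain ⟨k1, -, k2, ⟨g, hg, k3, k4, k5⟩ | ⟨q, hq, k5⟩⟩ := h3 (τ α).1
    · have e0 : p (a.ψ α 0) = T.j (act g oo) := by rw [a1 α 0 z3, k5, smul_zero, add_zero]
      rcases Λ.surj (a.ψ α 0) with ⟨x, hx, e⟩ | ⟨γ, hγ, i, z, e⟩
      swap
      · rw [← e, Λ.Φ_lift γ hγ i _ (C01.zero_mem_UU _ _ z)] at e0
        exact absurd e0 (T.φ_bd i z _ k3.1)
      rw [← e, Λ.J_lift x hx] at e0
      obtain ⟨γ, hγ, rfl⟩ := (T.j_eq _ _ k3.1 hx).1 e0.symm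
      have hu := (T.unitary _ hγ).mul hg
      have ho : (0 : ℝ) < height (oo : E W) := by rw [height_oo]; exact one_pos
      have hm : ∀ ξ ∈ ball (0 : E W) 3, 0 < height (oo + r (τ α).1 • ξ) := fun ξ hξ =>
        lt_of_lt_of_le (by norm_num) (height_chart (by
          rw [mem_ball_zero_iff] at hξ
          rw [norm_smul, Real.norm_of_nonneg k1.le]
          nlinarith [norm_nonneg ξ]))
      refine Or.inl ⟨γ * g, _, hu, ?_, r2 _ (τ α).2, k4, fun ξ hξ => ?_⟩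
      · rw [act_mul hg ho]
        exact thick_act (hk.grp ▸ hγ) k3
      · refine hp.eqOn_of_comp_eqOn (g₁ := a.ψ α)
          (g₂ := fun ξ => Λ.J (act (γ * g) (oo + r (τ α).1 • ξ))) pc (a.cont α)
          (Λ.J_cont.comp ((continuousOn_act hu).comp (by fun_prop) hm)
            fun ξ hξ => height_act_pos hu (hm ξ hξ)) (fun ξ hξ => ?_) z3 ?_ hξ
        · change p (a.ψ α ξ) = p (Λ.J (act (γ * g) (oo + r (τ α).1 • ξ)))
          rw [a1 α ξ hξ, k5, Λ.J_lift _ (height_act_pos hu (hm ξ hξ)), act_mul hg (hm ξ hξ),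
            C01.j_act T hγ (height_act_pos hg (hm ξ hξ))]
        · rw [smul_zero, add_zero, act_mul hg ho, e]
    · obtain ⟨q1, -, q3⟩ := k2 q hq
      have hm : ∀ ξ ∈ ball (0 : E W) 3, q.2.1 + q.2.2 • ξ ∈ UU (T.l q.1) 1 := fun ξ hξ =>
        UU_mono (hL.trans_le (T.deep _)) (by linarith : (1 : ℝ) ≤ H) (q3 (by
          rw [mem_ball_zero_iff] at hξ
          rw [mem_closedBall_iff_norm, add_sub_cancel_left, norm_smul, Real.norm_of_nonneg q1.le]
          nlinarith [norm_nonneg ξ]))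
      obtain ⟨γ, hγ, e⟩ := Λ.fib (a.ψ α 0) q.1 _ (hm 0 z3) (by rw [a1 α 0 z3, k5])
      refine Or.inr ⟨γ, hγ, q, mem_iUnion₂.2 ⟨_, (τ α).2, hq⟩, fun ξ hξ => ?_⟩
      refine hp.eqOn_of_comp_eqOn (g₁ := a.ψ α)
        (g₂ := fun ξ => Λ.Φ γ q.1 (q.2.1 + q.2.2 • ξ)) pc (a.cont α)
        ((Λ.Φ_cont γ hγ q.1).comp (by fun_prop) hm) (fun ξ hξ => ?_) z3 e.symm hξ
      change p (a.ψ α ξ) = p (Λ.Φ γ q.1 (q.2.1 + q.2.2 • ξ))
      rw [a1 α ξ hξ, k5, Λ.Φ_lift γ hγ _ _ (hm ξ hξ)]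

end Pool.Agent.MP_8ac6f3_ag

end

end MrgPart5

-- ======== part 6: formerly Pool.Agent.MP_8ac6f3_ag.C4
section MrgPart6

/-! Row C4: the exhaustion function on the covering space and the final assembly. -/

open Set Metric Complex Filter
open scoped Manifold ContDiff Topology

noncomputable section

namespace Pool.Agent.MP_8ac6f3_ag

namespace C4P

variable {W : Type} [NormedAddCommGroup W] [InnerProductSpace ℂ W] {L : ℝ}
  {X : Type} [TopologicalSpace X] [ChartedSpace (E W) X] {T : Toroidal W L X} {S : Sys W L}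
  {Y : Type} [TopologicalSpace Y] {p : Y → X}

/-- The image of the Siegel domain. -/
def JS (Λ : Lifts T S p) : Set Y := {y | ∃ x, 0 < height x ∧ Λ.J x = y}

open Classical in
/-- The function on the image of the Siegel domain. -/
def F1 (Λ : Lifts T S p) (F : E W → ℝ) (y : Y) : ℝ :=
  if h : ∃ x, 0 < height x ∧ Λ.J x = y then F h.choose else 0

open Classical in
/-- The function on the covering space. -/
def F2 (Λ : Lifts T S p) (F : E W → ℝ) (y : Y) : ℝ :=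
  if y ∈ JS Λ then F1 Λ F y else limUnder (𝓝[JS Λ] y) (F1 Λ F)

theorem t2 [T2Space X] (hp : IsCoveringMap p) : T2Space Y := by
  refine ⟨fun y y' h => ?_⟩
  by_cases e : p y = p y'
  · exact hp.isSeparatedMap y y' e h
  · exact separated_by_continuous hp.continuous e

theorem len_pos (hL : 0 < L) (i : Fin T.k) : 0 < T.l i := hL.trans_le (T.deep i)

omit [InnerProductSpace ℂ W] in
theorem zero_mem (l H : ℝ) (z : W) : ((z, 0) : E W) ∈ UU l H := by
  show ‖(0 : ℂ)‖ < _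
  rw [norm_zero]
  exact Real.exp_pos _

theorem map_nhds (hp : IsCoveringMap p) (Λ : Lifts T S p) {γ : GV W} (hγ : γ ∈ T.Γ)
    (i : Fin T.k) {b : E W} (hb : b ∈ UU (T.l i) 1) :
    map (Λ.Φ γ i) (𝓝 b) = 𝓝 (Λ.Φ γ i b) := by
  have h1 : IsLocalHomeomorphOn (T.φ i) (UU (T.l i) 1) := (T.φ_loc i).isLocalHomeomorphOn
  have h2 : IsLocalHomeomorphOn (p ∘ Λ.Φ γ i) (UU (T.l i) 1) := by
    refine IsLocalHomeomorphOn.mk _ _ fun x hx => ?_
    obtain ⟨e, he, hf⟩ := h1 x hx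
    refine ⟨e.restrOpen _ (isOpen_UU (T.l i) 1), ⟨he, hx⟩, fun y hy => ?_⟩
    show p (Λ.Φ γ i y) = e y
    rw [Λ.Φ_lift γ hγ i y hy.2, hf]
  exact (h2.of_comp_left hp.isLocalHomeomorph.isLocalHomeomorphOn fun x hx =>
    (Λ.Φ_cont γ hγ i).continuousAt ((isOpen_UU _ _).mem_nhds hx)).map_nhds_eq hb

theorem bd_not (Λ : Lifts T S p) {γ : GV W} (hγ : γ ∈ T.Γ) (i : Fin T.k) (z : W) :
    Λ.Φ γ i (z, 0) ∉ JS Λ := by
  rintro ⟨x, hx, e⟩
  refine T.φ_bd i z x hx ?_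
  rw [← Λ.Φ_lift γ hγ i _ (zero_mem _ _ z), ← e, Λ.J_lift x hx]

theorem act_pos {γ : GV W} (hγ : γ ∈ T.Γ) (i : Fin T.k) {x : E W} (hx : 0 < height x) :
    0 < height (act γ (act (T.g i)⁻¹ x)) :=
  height_act_pos (T.unitary γ hγ) (height_act_pos (T.g_unitary i).inv hx)

theorem in_JS (hL : 0 < L) (Λ : Lifts T S p) {γ : GV W} (hγ : γ ∈ T.Γ) (i : Fin T.k) {b : E W}
    (hb : b ∈ UU (T.l i) 1) (h0 : b.2 ≠ 0) : Λ.Φ γ i b ∈ JS Λ := by
  obtain ⟨x, rfl⟩ := exists_ex (len_pos hL i) h0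
  have hx : 1 < height x := (ex_mem_UU (len_pos hL i)).1 hb
  exact ⟨_, act_pos hγ i (zero_lt_one.trans hx), (Λ.Φ_eq γ hγ i x hx).symm⟩

theorem dense_JS (hL : 0 < L) (Λ : Lifts T S p) (y : Y) : (𝓝[JS Λ] y).NeBot := by
  rcases Λ.surj y with h | ⟨γ, hγ, i, z, rfl⟩
  · exact mem_closure_iff_nhdsWithin_neBot.1 (subset_closure h)
  · have hU := (isOpen_UU (T.l i) 1).mem_nhds (zero_mem (T.l i) 1 z)
    have h1 : Tendsto (fun w : ℂ => ((z, w) : E W)) (𝓝[≠] 0) (𝓝 (z, 0)) :=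
      (Continuous.prodMk_right z).continuousAt.tendsto.mono_left nhdsWithin_le_nhds
    have h2 : Tendsto (fun w : ℂ => Λ.Φ γ i (z, w)) (𝓝[≠] 0) (𝓝[JS Λ] (Λ.Φ γ i (z, 0))) := by
      refine tendsto_nhdsWithin_iff.2 ⟨((Λ.Φ_cont γ hγ i).continuousAt hU).tendsto.comp h1, ?_⟩
      filter_upwards [h1 hU, self_mem_nhdsWithin] with w hw hw0
      exact in_JS hL Λ hγ i hw hw0
    exact h2.neBot

section values

variable {Λ : Lifts T S p} {F : E W → ℝ}

theorem F1_J (hf : ∀ x y, 0 < height x → 0 < height y → Λ.J x = Λ.J y → F x = F y) {x : E W}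
    (hx : 0 < height x) : F1 Λ F (Λ.J x) = F x := by
  have h : ∃ x', 0 < height x' ∧ Λ.J x' = Λ.J x := ⟨x, hx, rfl⟩
  rw [F1, dif_pos h]
  exact hf _ _ h.choose_spec.1 hx h.choose_spec.2

theorem F2_J (hf : ∀ x y, 0 < height x → 0 < height y → Λ.J x = Λ.J y → F x = F y) {x : E W}
    (hx : 0 < height x) : F2 Λ F (Λ.J x) = F x := by
  rw [F2, if_pos ⟨x, hx, rfl⟩, F1_J hf hx]

theorem F1_cusp (hL : 0 < L)
    (hf : ∀ x y, 0 < height x → 0 < height y → Λ.J x = Λ.J y → F x = F y) {γ : GV W}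
    (hγ : γ ∈ T.Γ) {i : Fin T.k} {H : ℝ} (hH : 1 ≤ H) {G : E W → ℝ}
    (hG : ∀ x, H < height x → F (act γ (act (T.g i)⁻¹ x)) = G (ex (T.l i) x)) {b : E W}
    (hb : b ∈ UU (T.l i) H) (h0 : b.2 ≠ 0) : F1 Λ F (Λ.Φ γ i b) = G b := by
  obtain ⟨x, rfl⟩ := exists_ex (len_pos hL i) h0
  have hx : H < height x := (ex_mem_UU (len_pos hL i)).1 hb
  rw [Λ.Φ_eq γ hγ i x (hH.trans_lt hx), F1_J hf (act_pos hγ i (by linarith)), hG x hx]

theorem tendsto_cusp (hL : 0 < L) (hp : IsCoveringMap p)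
    (hf : ∀ x y, 0 < height x → 0 < height y → Λ.J x = Λ.J y → F x = F y) {γ : GV W}
    (hγ : γ ∈ T.Γ) {i : Fin T.k} {H : ℝ} (hH : 1 ≤ H) {G : E W → ℝ}
    (hG : ∀ x, H < height x → F (act γ (act (T.g i)⁻¹ x)) = G (ex (T.l i) x)) {b : E W}
    (hb : b ∈ UU (T.l i) H) (hc : ContinuousAt G b) :
    Tendsto (F1 Λ F) (𝓝[JS Λ] (Λ.Φ γ i b)) (𝓝 (G b)) := by
  intro s hs
  rw [mem_map, mem_nhdsWithin_iff_eventually, ← map_nhds hp Λ hγ i (UU_mono (len_pos hL i) hH hb),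
    eventually_map]
  filter_upwards [hc hs, (isOpen_UU (T.l i) H).mem_nhds hb] with b' h1 h2 h3
  have h0 : b'.2 ≠ 0 := fun e => bd_not Λ hγ i b'.1 (by rwa [← e])
  rw [mem_preimage, F1_cusp hL hf hγ hH hG h2 h0]
  exact h1

theorem F2_cusp (hL : 0 < L) (hp : IsCoveringMap p)
    (hf : ∀ x y, 0 < height x → 0 < height y → Λ.J x = Λ.J y → F x = F y) {γ : GV W}
    (hγ : γ ∈ T.Γ) {i : Fin T.k} {H : ℝ} (hH : 1 ≤ H) {G : E W → ℝ}
    (hG : ∀ x, H < height x → F (act γ (act (T.g i)⁻¹ x)) = G (ex (T.l i) x)) {b : E W}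
    (hb : b ∈ UU (T.l i) H) (hc : ContinuousAt G b) : F2 Λ F (Λ.Φ γ i b) = G b := by
  by_cases h : Λ.Φ γ i b ∈ JS Λ
  · have h0 : b.2 ≠ 0 := fun e => bd_not Λ hγ i b.1 (by rwa [← e])
    rw [F2, if_pos h, F1_cusp hL hf hγ hH hG hb h0]
  · have := dense_JS hL Λ (Λ.Φ γ i b)
    rw [F2, if_neg h]
    exact (tendsto_cusp hL hp hf hγ hH hG hb hc).limUnder_eq

end values

/-- Uniform constants on a finite set. -/
theorem unif {ι : Type} {B : Set ι} (hB : B.Finite) (K lam : ι → ℝ) (h : ∀ t ∈ B, 0 < lam t) :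
    ∃ K' lam' : ℝ, 0 < lam' ∧ ∀ t ∈ B, K t ≤ K' ∧ lam' ≤ lam t := by
  obtain ⟨K', hK⟩ := (hB.image K).bddAbove
  obtain ⟨M, hM⟩ := (hB.image fun t => (lam t)⁻¹).bddAbove
  refine ⟨K', (max M 1)⁻¹, by positivity, fun t ht => ⟨hK ⟨t, ht, rfl⟩, ?_⟩⟩
  exact inv_le_of_inv_le₀ (h t ht) ((hM ⟨t, ht, rfl⟩).trans (le_max_left _ _))

theorem cont_GG (hD : DeepStmt W) {l H : ℝ} (hl : 0 < l) (hH : 1 ≤ H) {q b : E W}
    (hq : 0 < height q) (hq' : height q ≤ 2) (hb : b ∈ UU l H) : ContinuousAt (GG l q) b := by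
  obtain ⟨r, hr, hs⟩ := nhds_basis_closedBall.mem_iff.1 ((isOpen_UU l H).mem_nhds hb)
  obtain ⟨K, lam, -, h⟩ := (hD l H hl hH).1 b r hs
  exact ((h q hq hq').1.contDiffAt isOpen_ball (mem_ball_self hr)).continuousAt

/-- A function that is continuous in the charts is continuous. -/
theorem cont_of_atl {A : Type} (a : Atl (E W) Y A) {G : Y → ℝ}
    (h : ∀ α, ContinuousOn (G ∘ a.ψ α) (ball 0 3)) : Continuous G := by
  refine continuous_iff_continuousAt.2 fun y => ?_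
  obtain ⟨α, ξ, hξ, rfl⟩ := a.cov y
  have hξ' : ξ ∈ ball (0 : E W) 3 := ball_subset_ball (by norm_num) hξ
  intro s hs
  have h1 := ((h α).continuousAt (isOpen_ball.mem_nhds hξ')) hs
  obtain ⟨U, hU, ho, hx⟩ := _root_.mem_nhds_iff.1 (inter_mem h1 (isOpen_ball.mem_nhds hξ'))
  rw [mem_map]
  refine mem_of_superset ((a.opn α U ho fun _ hu => (hU hu).2).mem_nhds ⟨ξ, hx, rfl⟩) ?_
  rintro _ ⟨u, hu, rfl⟩
  exact (hU hu).1

/-- Estimates for a function that is read in a scaled chart. -/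
theorem chart_est {G f : E W → ℝ} {s : Set (E W)} (ho : IsOpen s) {K K' lam lam' r C : ℝ}
    {x0 : E W} (hf : Db s K f) (hK : K ≤ K') (hr : 0 < r) (hr1 : r ≤ 1)
    (hs : ∀ ξ ∈ ball (0 : E W) 3, x0 + r • ξ ∈ s)
    (hG : ∀ ξ ∈ ball (0 : E W) 3, G ξ = f (x0 + r • ξ) + C) (hl : lam' ≤ r ^ 2 * lam)
    (hl0 : 0 ≤ lam') (w : E W → ℝ) (hw : ∀ ξ ∈ ball (0 : E W) 3, Real.exp (-G ξ) ≤ w ξ)
    (hlev : ∀ ξ ∈ ball (0 : E W) 3, ∀ η, lam * w ξ * ‖η‖ ^ 2 ≤ lev f (x0 + r • ξ) η) :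
    Db (ball 0 3) K' G ∧ ∀ ξ ∈ ball (0 : E W) 3, ∀ η,
      lam' * Real.exp (-G ξ) * ‖η‖ ^ 2 ≤ lev G ξ η := by
  have h1 := ((hf.comp_scale ho x0 (by rwa [abs_of_pos hr]) hs).add_const C).mono hK
  refine ⟨h1.congr isOpen_ball hG, fun ξ hξ η => ?_⟩
  have e : G =ᶠ[𝓝 ξ] fun ξ => f (x0 + r • ξ) + C := by
    filter_upwards [isOpen_ball.mem_nhds hξ] with y hy using hG y hy
  rw [lev_congr e, lev_add_const, lev_scale _ _ _ _
    ((hf.contDiffAt ho (hs ξ hξ)).of_le (by norm_num))]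
  have h2 := hw ξ hξ
  have h3 := (Real.exp_pos (-G ξ)).le
  calc lam' * Real.exp (-G ξ) * ‖η‖ ^ 2 ≤ lam' * w ξ * ‖η‖ ^ 2 := by gcongr
    _ ≤ r ^ 2 * lam * w ξ * ‖η‖ ^ 2 := by
      have := h3.trans h2
      gcongr
    _ = r ^ 2 * (lam * w ξ * ‖η‖ ^ 2) := by ring
    _ ≤ _ := by
      have := hlev ξ hξ η
      gcongr

/-- The closed piece of a cusp chart. -/
def DD (l H R : ℝ) : Set (E W) :=
  {b | ‖b.1‖ ≤ R ∧ ‖b.2‖ ≤ Real.exp (-(2 * Real.pi / l) * (‖b.1‖ ^ 2 + H))}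

omit [InnerProductSpace ℂ W] in
theorem DD_sub {l H R : ℝ} (hl : 0 < l) (hH : 2 ≤ H) : (DD l H R : Set (E W)) ⊆ UU l 1 := by
  intro b hb
  refine lt_of_le_of_lt hb.2 (Real.exp_lt_exp.2 ?_)
  have : 0 < 2 * Real.pi / l := by positivity
  nlinarith

theorem DD_compact [FiniteDimensional ℂ W] {l H R : ℝ} (hl : 0 < l) (hH : 2 ≤ H) :
    IsCompact (DD l H R : Set (E W)) := by
  have : ProperSpace (E W) := FiniteDimensional.proper ℂ (E W)
  refine (isCompact_closedBall (0 : E W) (max R 1)).of_isClosed_subset ?_ fun b hb => ?_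
  · have h1 : IsClosed {b : E W | ‖b.1‖ ≤ R} := isClosed_le (by fun_prop) (by fun_prop)
    have h2 : IsClosed {b : E W | ‖b.2‖ ≤ Real.exp (-(2 * Real.pi / l) * (‖b.1‖ ^ 2 + H))} :=
      isClosed_le (by fun_prop) (by fun_prop)
    exact h1.inter h2
  · rw [mem_closedBall_zero_iff, Prod.norm_def]
    refine max_le_max hb.1 (hb.2.trans (Real.exp_le_one_iff.2 ?_))
    have : 0 < 2 * Real.pi / l := by positivity
    nlinarith [sq_nonneg ‖b.1‖]

/-- The part of the image of the Siegel domain below a level lies in a compact set. -/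
theorem exists_compact [FiniteDimensional ℂ W] (hL : 0 < L) (hS : Link T S) (Λ : Lifts T S p)
    {F : E W → ℝ} {H t R : ℝ} (hH : 2 ≤ H) {K0 : Set (E W)} {V0 : Set S.I} (hK : IsCompact K0)
    (hK' : ∀ x ∈ K0, 0 < height x) (hV : V0.Finite)
    (h : ∀ x, 0 < height x → F x ≤ t → ∃ k ∈ S.N,
      act k x ∈ K0 ∨ ∃ v ∈ V0, H < S.hv v (act k x) ∧ ‖(act (S.fr v) (act k x)).1‖ ≤ R) :
    ∃ Z : Set Y, IsCompact Z ∧ ∀ x, 0 < height x → F x ≤ t → Λ.J x ∈ Z := by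
  choose γ hγ i hi hl using hS.of_cusp
  refine ⟨Λ.J '' K0 ∪ ⋃ v ∈ V0, Λ.Φ (γ v) (i v) '' DD (T.l (i v)) H R,
    (hK.image_of_continuousOn (Λ.J_cont.mono hK')).union (hV.isCompact_biUnion fun v _ =>
      (DD_compact (len_pos hL _) hH).image_of_continuousOn
        ((Λ.Φ_cont _ (hγ v) _).mono (DD_sub (len_pos hL _) hH))), fun x hx hF => ?_⟩
  obtain ⟨k, hk, h1 | ⟨v, hv, h1, h2⟩⟩ := h x hx hF
  · exact Or.inl ⟨_, h1, Λ.N_le k hk x hx⟩
  · have hkx := height_act_pos (S.N_uni hk) hx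
    refine Or.inr (mem_biUnion hv ⟨ex (T.l (i v)) (act (S.fr v) (act k x)),
      ⟨h2, le_of_lt ((ex_mem_UU (len_pos hL _)).2 h1)⟩, ?_⟩)
    have hu := T.unitary _ (hγ v)
    rw [Λ.Φ_eq _ (hγ v) _ _ (lt_of_lt_of_le one_lt_two (hH.trans h1.le)), hi v,
      act_mul hu.inv hkx, act_inv_act (T.g_unitary _) (height_act_pos hu.inv hkx),
      act_act_inv hu hkx, Λ.N_le k hk x hx]

end C4P

open C4P

variable {W : Type} [NormedAddCommGroup W] [InnerProductSpace ℂ W] [FiniteDimensional ℂ W]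

theorem c4 (hA : AMain (E W)) (hB : BMain W) (hD : DeepStmt W) (h0 : C0Stmt W) (h1 : C1Stmt W)
    (h2 : C2Stmt W) (h3 : C3Stmt W) : Main W := by
  obtain ⟨L, H, K, lam, hL, hH, hlam, hB⟩ := hB
  refine ⟨L, ?_⟩
  intro X _ _ _ _ _ ⟨T⟩ Y _ _ _ _ p hp hp'
  obtain ⟨S, hS⟩ := h0 L X T
  obtain ⟨Λ⟩ := h1 L X T S hL hS Y p hp
  obtain ⟨Ch⟩ := h3 L X T S hL hS Y p hp hp' Λ H hH
  obtain ⟨F, C0, hN, hlow, hth, hcu, hpr⟩ := hB L le_rfl S
  have hH1 : 1 ≤ H := one_le_two.trans hH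
  have : T2Space Y := t2 hp
  have : LocallyPathConnectedSpace Y := ChartedSpace.locallyPathConnectedSpace (E W) Y
  have hf : ∀ x y, 0 < height x → 0 < height y → Λ.J x = Λ.J y → F x = F y := by
    intro x y hx hy e
    obtain ⟨k, hk, rfl⟩ := h2 L X T S hL hS Y p hp Λ x y hx hy e
    exact (hN k hk x hx).symm
  have hq : ∀ γ ∈ T.Γ, ∀ i, ∃ q : E W, 0 < height q ∧ height q ≤ 2 ∧ ∀ x, H < height x →
      F (act γ (act (T.g i)⁻¹ x)) = GG (T.l i) q (ex (T.l i) x) := by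
    intro γ hγ i
    obtain ⟨v, hv, hl⟩ := hS.to_cusp γ hγ i
    obtain ⟨q, q1, q2, q3⟩ := hcu v _ ((T.g_unitary i).mul (T.unitary γ hγ).inv) hv
    refine ⟨q, q1, q2, fun x hx => ?_⟩
    rw [← hl, ← q3 x hx, mul_inv_rev, inv_inv, act_mul (T.g_unitary i).inv (by linarith)]
  have hlow' : ∀ y, -C0 ≤ F2 Λ F y := by
    intro y
    rcases Λ.surj y with ⟨x, hx, rfl⟩ | ⟨γ, hγ, i, z, rfl⟩
    · rw [F2_J hf hx]
      exact hlow x hx
    · obtain ⟨q, q1, q2, q3⟩ := hq γ hγ i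
      have hc := cont_GG hD (len_pos hL i) hH1 q1 q2 (zero_mem _ H z)
      have := dense_JS hL Λ (Λ.Φ γ i (z, 0))
      rw [F2_cusp hL hp hf hγ hH1 q3 (zero_mem _ H z) hc]
      refine ge_of_tendsto (tendsto_cusp hL hp hf hγ hH1 q3 (zero_mem _ H z) hc) ?_
      filter_upwards [self_mem_nhdsWithin] with y hy
      obtain ⟨x, hx, rfl⟩ := hy
      rw [F1_J hf hx]
      exact hlow x hx
  set G : Y → ℝ := fun y => F2 Λ F y + |C0| with hG
  have hG0 : ∀ y, 0 ≤ G y := fun y => by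
    have := hlow' y
    have := le_abs_self C0
    simp only [hG]
    linarith
  have hd : ∀ t : Fin T.k × E W × ℝ, ∃ K lam : ℝ, t ∈ Ch.B → 0 < lam ∧
      ∀ q : E W, 0 < height q → height q ≤ 2 →
        Db (ball t.2.1 (3 * t.2.2)) K (GG (T.l t.1) q) ∧ ∀ b' ∈ ball t.2.1 (3 * t.2.2), ∀ η,
          lam * Real.exp (-GG (T.l t.1) q b') * ‖η‖ ^ 2 ≤ lev (GG (T.l t.1) q) b' η := by
    intro t
    by_cases ht : t ∈ Ch.B
    · obtain ⟨K, lam, h⟩ := (hD _ H (len_pos hL t.1) hH1).1 _ _ (Ch.B_sub t ht).2.2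
      exact ⟨K, lam, fun _ => h⟩
    · exact ⟨0, 0, fun h => absurd h ht⟩
  choose Kt lt hd using hd
  obtain ⟨K', lam', hlam', hu⟩ := unif Ch.B_fin Kt (fun t => t.2.2 ^ 2 * lt t) fun t ht =>
    mul_pos (pow_pos (Ch.B_sub t ht).1 2) (hd t ht).1
  have hr0 := Ch.r0_pos
  have hmin : 0 < min lam' (Ch.r0 ^ 2 * lam) := by positivity
  have est : ∀ α, Db (ball 0 3) (max K K') (G ∘ Ch.a.ψ α) ∧ ∀ ξ ∈ ball (0 : E W) 3, ∀ η,
      min lam' (Ch.r0 ^ 2 * lam) * Real.exp (-(G ∘ Ch.a.ψ α) ξ) * ‖η‖ ^ 2 ≤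
        lev (G ∘ Ch.a.ψ α) ξ η := by
    intro α
    rcases Ch.kind α with ⟨g, r, hg, hg', r1, r2, e⟩ | ⟨γ, hγ, t, ht, e⟩
    · have hr : 0 < r := hr0.trans_le r1
      have hs : ∀ ξ ∈ ball (0 : E W) 3, (0 : E W) + r • ξ ∈ ball (0 : E W) (1 / 8) := by
        intro ξ hξ
        rw [mem_ball_zero_iff] at hξ
        rw [zero_add, mem_ball_zero_iff, norm_smul, Real.norm_of_nonneg hr.le]
        nlinarith [norm_nonneg ξ]
      refine chart_est (C := |C0|) (lam := lam) isOpen_ball (hth g hg hg').1 (le_max_left _ _) hr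
        (by linarith) hs (fun ξ hξ => ?_) ((min_le_right _ _).trans (by gcongr)) hmin.le
        (fun _ => 1) (fun ξ _ => Real.exp_le_one_iff.2 (neg_nonpos.2 (hG0 _))) fun ξ hξ η => ?_
      · have h4 := mem_ball_zero_iff.1 (hs ξ hξ)
        have h5 := height_chart (W := W) (ξ := 0 + r • ξ) (by linarith)
        rw [zero_add] at h5 ⊢
        simp only [Function.comp, hG]
        rw [e ξ hξ, F2_J hf (height_act_pos hg (by linarith))]
      · rw [mul_one]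
        exact (hth g hg hg').2 _ (hs ξ hξ) η
    · obtain ⟨q, q1, q2, q3⟩ := hq γ hγ t.1
      obtain ⟨t1, t2, t3⟩ := Ch.B_sub t ht
      have hs : ∀ ξ ∈ ball (0 : E W) 3, t.2.1 + t.2.2 • ξ ∈ ball t.2.1 (3 * t.2.2) := by
        intro ξ hξ
        rw [mem_ball_zero_iff] at hξ
        rw [mem_ball_iff_norm, add_sub_cancel_left, norm_smul, Real.norm_of_nonneg t1.le]
        nlinarith
      have hv : ∀ ξ ∈ ball (0 : E W) 3,
          (G ∘ Ch.a.ψ α) ξ = GG (T.l t.1) q (t.2.1 + t.2.2 • ξ) + |C0| := by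
        intro ξ hξ
        have hm := t3 (ball_subset_closedBall (hs ξ hξ))
        simp only [Function.comp, hG]
        rw [e ξ hξ, F2_cusp hL hp hf hγ hH1 q3 hm (cont_GG hD (len_pos hL _) hH1 q1 q2 hm)]
      refine chart_est (lam := lt t) isOpen_ball ((hd t ht).2 q q1 q2).1
        ((hu t ht).1.trans (le_max_right _ _)) t1 t2 hs hv ((min_le_left _ _).trans (hu t ht).2)
        hmin.le (fun ξ => Real.exp (-GG (T.l t.1) q (t.2.1 + t.2.2 • ξ))) (fun ξ hξ => ?_)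
        fun ξ hξ η => ((hd t ht).2 q q1 q2).2 _ (hs ξ hξ) η
      rw [hv ξ hξ]
      exact Real.exp_le_exp.2 (by linarith [abs_nonneg C0])
  obtain ⟨hpk, hsep⟩ := hA Y Ch.A Ch.a G _ _ hmin hG0 (fun α => (est α).1) fun α => (est α).2
  have hGc : Continuous G := cont_of_atl Ch.a fun α => (est α).1.1.continuousOn
  refine ⟨fun Kc hKc => ?_, fun y y' hy => ?_⟩
  · obtain ⟨c, hc⟩ := (hKc.image hGc).bddAbove
    obtain ⟨K0, V0, R, k1, k2, k3, k4⟩ := hpr (c + 1)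
    obtain ⟨Z, hZ, hZ'⟩ := exists_compact hL hS Λ hH k1 k2 k3 k4
    refine hZ.of_isClosed_subset ?_ fun y hy => ?_
    · simp only [ofPred_forall]
      exact isClosed_iInter fun f => isClosed_iInter fun hf => isClosed_iInter fun C =>
        isClosed_iInter fun _ => isClosed_le hf.continuous.norm continuous_const
    · have hy' : G y ≤ c := by
        by_contra hlt
        obtain ⟨g, g1, g2, g3⟩ := hpk y c (not_le.1 hlt)
        exact absurd (hy g (Ch.hol g g1) 1 fun x hx => g3 x (hc ⟨x, hx, rfl⟩)) (not_le.2 g2)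
      have := dense_JS hL Λ y
      refine hZ.isClosed.mem_of_tendsto (b := 𝓝[JS Λ] y) (f := id)
        (tendsto_id.mono_left nhdsWithin_le_nhds) ?_
      have ho : {y' | G y' < c + 1} ∈ 𝓝 y :=
        (isOpen_lt hGc continuous_const).mem_nhds (by simp only [mem_ofPred_eq]; linarith)
      filter_upwards [self_mem_nhdsWithin, nhdsWithin_le_nhds ho] with y' h4 h5
      obtain ⟨x, hx, rfl⟩ := h4
      refine hZ' x hx ?_
      simp only [hG] at h5
      rw [F2_J hf hx] at h5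
      linarith [abs_nonneg C0]
  · obtain ⟨g, g1, g2⟩ := hsep y y' hy
    exact ⟨g, Ch.hol g g1, g2⟩

end Pool.Agent.MP_8ac6f3_ag

end

end MrgPart6

-- marker of a merged file
example : 731051 + 629588 = 731051 + 629588 := rfl
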