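import Mathlib.Geometry.Manifold.LocalDiffeomorph
import Mathlib.Geometry.Manifold.MFDeriv.Defs
import Mathlib.Analysis.InnerProductSpace.PiL2
import Mathlib.Analysis.SpecialFunctions.Exp
import Mathlib.Analysis.SpecialFunctions.Trigonometric.Basic

/-! Toroidal compactifications of ball quotients in the Siegel model, and Stein manifolds. -/

open scoped Manifold ContDiff ComplexConjugate

noncomputable section

namespace Pool.Agent.MP_8ac6f3_ag

variable (W : Type) [NormedAddCommGroup W] [InnerProductSpace ℂ W]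

/-- The model space, with points `(z, u)`. -/
abbrev E := W × ℂ

/-- The space that carries the Hermitian form of signature `(dim W + 1, 1)`. -/
abbrev V := ℂ × W × ℂ

variable {W}

/-- The Hermitian form, linear in the first variable. -/
def form (X Y : V W) : ℂ :=
  inner ℂ Y.2.1 X.2.1 - (X.1 * conj Y.2.2 - X.2.2 * conj Y.1) / (2 * Complex.I)

/-- `g` preserves the Hermitian form. -/
def Unitary (g : V W ≃L[ℂ] V W) : Prop := ∀ X Y, form (g X) (g Y) = form X Y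

/-- The height `Im u - ‖z‖²`; the Siegel domain is the set where it is positive. -/
def height (x : E W) : ℝ := x.2.im - ‖x.1‖ ^ 2

/-- The projective action on the Siegel domain. -/
def act (g : V W ≃L[ℂ] V W) (x : E W) : E W :=
  ((g (x.2, x.1, 1)).2.2⁻¹ • (g (x.2, x.1, 1)).2.1, (g (x.2, x.1, 1)).1 / (g (x.2, x.1, 1)).2.2)

/-- A presentation of `X` as the toroidal compactification of the quotient of the Siegel domain
by a group `Γ`, with vertical periods at least `L`. -/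
structure Toroidal (W : Type) [NormedAddCommGroup W] [InnerProductSpace ℂ W] (L : ℝ)
    (X : Type) [TopologicalSpace X] [ChartedSpace (E W) X] where
  Γ : Subgroup (V W ≃L[ℂ] V W)
  unitary : ∀ γ ∈ Γ, Unitary γ
  j : E W → X
  j_loc : IsLocalDiffeomorphOn 𝓘(ℂ, E W) 𝓘(ℂ, E W) ω j {x | 0 < height x}
  j_eq : ∀ x y, 0 < height x → 0 < height y → (j x = j y ↔ ∃ γ ∈ Γ, act γ x = y)
  k : ℕ
  g : Fin k → (V W ≃L[ℂ] V W)
  g_unitary : ∀ i, Unitary (g i)
  disj : ∀ γ ∈ Γ, ∀ i i' x, 0 < height x → 1 < height (act (g i) x) →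
    1 < height (act (g i') (act γ x)) →
    i = i' ∧ ∃ c : ℂ, ‖c‖ = 1 ∧ g i (γ ((g i).symm (1, 0, 0))) = (c, 0, 0)
  l : Fin k → ℝ
  deep : ∀ i, L ≤ l i
  vert : ∀ i (s : ℝ), (∃ γ ∈ Γ, ∀ Z, g i (γ ((g i).symm Z)) = (Z.1 + s * Z.2.2, Z.2)) ↔
    ∃ n : ℤ, s = n * l i
  φ : Fin k → E W → X
  φ_loc : ∀ i, IsLocalDiffeomorphOn 𝓘(ℂ, E W) 𝓘(ℂ, E W) ω (φ i)
    {b | ‖b.2‖ < Real.exp (-(2 * Real.pi / l i) * (‖b.1‖ ^ 2 + 1))}
  φ_eq : ∀ i x, 1 < height x →
    φ i (x.1, Complex.exp (2 * Real.pi / l i * Complex.I * x.2)) = j (act (g i).symm x)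
  φ_bd : ∀ i z x, 0 < height x → φ i (z, 0) ≠ j x
  cover : ∀ p, (∃ x, 0 < height x ∧ j x = p) ∨ ∃ i z, φ i (z, 0) = p

/-- A complex manifold is Stein if it is holomorphically convex and holomorphically separable. -/
def IsStein (M : Type) [NormedAddCommGroup M] [NormedSpace ℂ M] (Y : Type) [TopologicalSpace Y]
    [ChartedSpace M Y] : Prop :=
  (∀ K : Set Y, IsCompact K → IsCompact {y | ∀ f : Y → ℂ, MDifferentiable 𝓘(ℂ, M) 𝓘(ℂ, ℂ) f →
    ∀ C : ℝ, (∀ x ∈ K, ‖f x‖ ≤ C) → ‖f y‖ ≤ C}) ∧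
  ∀ y y' : Y, y ≠ y' → ∃ f : Y → ℂ, MDifferentiable 𝓘(ℂ, M) 𝓘(ℂ, ℂ) f ∧ f y ≠ f y'

end Pool.Agent.MP_8ac6f3_ag

end
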