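import Pool.Agent.MP_8ac6f3_ag.Calc
import Mathlib.Analysis.Complex.RemovableSingularity
import Mathlib.Analysis.Complex.CauchyIntegral
import Mathlib.Analysis.SpecialFunctions.Trigonometric.Bounds
import Mathlib.Analysis.Real.Pi.Bounds
import Mathlib.Analysis.Complex.Convex
import Pool.Agent.MP_8ac6f3_ag.C01
import Pool.Agent.MP_8ac6f3_ag.C2
import Mathlib.Analysis.SpecialFunctions.SmoothTransition

-- ======== part 0: formerly Pool.Agent.MP_8ac6f3_ag.ShellA
section MrgPart0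

/-! Row SHELL, first part: the function `(1 - exp (-s)) / s`. -/

open Set Metric Complex
open scoped ContDiff Topology

noncomputable section

namespace Pool.Agent.MP_8ac6f3_ag.ShellP

/-- The function `(1 - exp (-s)) / s`. -/
def ph (s : ℂ) : ℂ := (1 - Complex.exp (-s)) / s

theorem ne_of_re {s : ℂ} (hx : 0 < s.re) : s ≠ 0 := by
  rintro rfl
  simp at hx

theorem norm_exp_neg (s : ℂ) : ‖Complex.exp (-s)‖ = Real.exp (-s.re) := by
  rw [Complex.norm_exp]; simp

theorem exp_neg_mul_le (x : ℝ) : Real.exp (-x) * (1 + x) ≤ 1 := by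
  have h := Real.add_one_le_exp x
  have h1 : Real.exp (-x) * Real.exp x = 1 := by rw [← Real.exp_add]; simp
  have h2 := Real.exp_pos (-x)
  nlinarith

theorem num_lower {s : ℂ} (hx : 0 < s.re) (hy : |s.im| ≤ Real.pi) (hs : 1 / 2 ≤ ‖s‖) :
    1 / 8 ≤ ‖1 - Complex.exp (-s)‖ := by
  have hρ := exp_neg_mul_le s.re
  have hρ0 := Real.exp_pos (-s.re)
  by_cases h : 1 / 4 ≤ s.re
  · have h1 : ‖(1 : ℂ)‖ - ‖Complex.exp (-s)‖ ≤ ‖1 - Complex.exp (-s)‖ := norm_sub_norm_le _ _
    rw [norm_one, norm_exp_neg] at h1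
    nlinarith
  · push Not at h
    have h1 : ‖s‖ ≤ |s.re| + |s.im| := Complex.norm_le_abs_re_add_abs_im s
    rw [abs_of_pos hx] at h1
    have h2 : 1 / 4 ≤ |s.im| := by linarith
    have h3 : 1 / 16 ≤ s.im ^ 2 := by rw [← sq_abs]; nlinarith
    have h4 := Real.cos_le_one_sub_mul_cos_sq hy
    have hpi := Real.pi_lt_d2
    have hpi0 := Real.pi_pos
    have h5 : 1 / 5 ≤ 2 / Real.pi ^ 2 := by
      rw [div_le_div_iff₀ (by norm_num) (by positivity)]; nlinarith
    have h6 : Real.cos s.im ≤ 1 - 1 / 80 := by nlinarith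
    have h7 : 3 / 4 ≤ Real.exp (-s.re) := by
      have := Real.add_one_le_exp (-s.re); linarith
    have h8 : ‖1 - Complex.exp (-s)‖ ^ 2 = (1 - Real.exp (-s.re)) ^ 2 +
        2 * Real.exp (-s.re) * (1 - Real.cos s.im) := by
      rw [Complex.sq_norm, Complex.normSq_apply]
      simp only [Complex.sub_re, Complex.one_re, Complex.exp_re, Complex.neg_re, Complex.neg_im,
        Complex.sub_im, Complex.one_im, Complex.exp_im, Real.cos_neg, Real.sin_neg]
      have := Real.sin_sq_add_cos_sq s.im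
      linear_combination (Real.exp (-s.re)) ^ 2 * this
    have h9 : (1 / 8 : ℝ) ^ 2 ≤ ‖1 - Complex.exp (-s)‖ ^ 2 := by
      rw [h8]; nlinarith [sq_nonneg (1 - Real.exp (-s.re))]
    exact le_trans (le_abs_self _) (abs_le_of_sq_le_sq h9 (norm_nonneg _))

theorem ph_lower {s : ℂ} (hx : 0 < s.re) (hy : |s.im| ≤ Real.pi) :
    1 / 40 ≤ ‖ph s‖ * (1 + s.re) := by
  have h0 : 0 < ‖s‖ := norm_pos_iff.2 (ne_of_re hx)
  have h1 : ‖s‖ ≤ |s.re| + |s.im| := Complex.norm_le_abs_re_add_abs_im s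
  rw [abs_of_pos hx] at h1
  have hpi := Real.pi_lt_d2
  rw [ph, norm_div, div_mul_eq_mul_div, le_div_iff₀ h0]
  by_cases h : 1 / 2 ≤ ‖s‖
  · have := num_lower hx hy h
    nlinarith
  · push Not at h
    have h2 : ‖Complex.exp (-s) - 1 - (-s)‖ ≤ ‖-s‖ ^ 2 :=
      Complex.norm_exp_sub_one_sub_id_le (by rw [norm_neg]; linarith)
    rw [norm_neg] at h2
    have h3 : ‖s‖ ≤ ‖1 - Complex.exp (-s)‖ + ‖Complex.exp (-s) - 1 - (-s)‖ := by
      have := norm_add_le (1 - Complex.exp (-s)) (Complex.exp (-s) - 1 - (-s))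
      rwa [show 1 - Complex.exp (-s) + (Complex.exp (-s) - 1 - (-s)) = s by ring] at this
    have h4 : ‖s‖ / 2 ≤ ‖1 - Complex.exp (-s)‖ := by nlinarith
    nlinarith [norm_nonneg (1 - Complex.exp (-s))]

theorem ph_upper {s : ℂ} (hx : 0 < s.re) : ‖ph s‖ * (1 + s.re) ≤ 4 := by
  have h0 : 0 < ‖s‖ := norm_pos_iff.2 (ne_of_re hx)
  have h1 : s.re ≤ ‖s‖ := Complex.re_le_norm s
  rw [ph, norm_div, div_mul_eq_mul_div, div_le_iff₀ h0]
  by_cases h : ‖s‖ ≤ 1
  · have h2 : ‖Complex.exp (-s) - 1‖ ≤ 2 * ‖-s‖ :=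
      Complex.norm_exp_sub_one_le (by rwa [norm_neg])
    rw [norm_neg, norm_sub_rev] at h2
    nlinarith [norm_nonneg (1 - Complex.exp (-s))]
  · push Not at h
    have h2 : ‖1 - Complex.exp (-s)‖ ≤ ‖(1 : ℂ)‖ + ‖Complex.exp (-s)‖ := norm_sub_le _ _
    rw [norm_one, norm_exp_neg] at h2
    have h3 : Real.exp (-s.re) ≤ 1 := Real.exp_le_one_iff.2 (by linarith)
    nlinarith [norm_nonneg (1 - Complex.exp (-s))]

theorem ph_deriv {w : ℂ} (hx : 0 < w.re) :
    HasDerivAt ph (((1 + w) * Complex.exp (-w) - 1) / w ^ 2) w := by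
  have h0 := ne_of_re hx
  have h1 : HasDerivAt (fun s : ℂ => 1 - Complex.exp (-s)) (Complex.exp (-w)) w := by
    have := ((hasDerivAt_id w).neg.cexp).const_sub 1
    simpa using this
  have h2 := h1.div (hasDerivAt_id w) h0
  refine HasDerivAt.congr_deriv h2 ?_
  simp only [id]
  congr 1
  ring

theorem ph_deriv_le {w : ℂ} (hx : 0 < w.re) :
    ‖((1 + w) * Complex.exp (-w) - 1) / w ^ 2‖ * (1 + w.re) ^ 2 ≤ 12 := by
  have h0 : 0 < ‖w‖ := norm_pos_iff.2 (ne_of_re hx)
  have h1 : w.re ≤ ‖w‖ := Complex.re_le_norm w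
  have hρ := exp_neg_mul_le w.re
  have hρ0 := Real.exp_pos (-w.re)
  have hw : ‖1 + w‖ ≤ 1 + ‖w‖ := by simpa using norm_add_le 1 w
  rw [norm_div, norm_pow, div_mul_eq_mul_div, div_le_iff₀ (by positivity)]
  set N := ‖(1 + w) * Complex.exp (-w) - 1‖ with hN
  have hN0 : 0 ≤ N := norm_nonneg _
  by_cases h : ‖w‖ ≤ 1
  · have h2 : ‖Complex.exp (-w) - 1 - (-w)‖ ≤ ‖-w‖ ^ 2 :=
      Complex.norm_exp_sub_one_sub_id_le (by rwa [norm_neg])
    rw [norm_neg] at h2
    have h3 : N ≤ ‖1 + w‖ * ‖Complex.exp (-w) - 1 - (-w)‖ + ‖w‖ ^ 2 := by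
      have := norm_sub_le ((1 + w) * (Complex.exp (-w) - 1 - (-w))) (w ^ 2)
      rwa [show (1 + w) * (Complex.exp (-w) - 1 - (-w)) - w ^ 2 =
        (1 + w) * Complex.exp (-w) - 1 by ring, norm_mul, norm_pow] at this
    have h4 : ‖1 + w‖ * ‖Complex.exp (-w) - 1 - (-w)‖ ≤ 2 * ‖w‖ ^ 2 :=
      mul_le_mul (by linarith) h2 (norm_nonneg _) (by norm_num)
    have h5 : (1 + w.re) ^ 2 ≤ 4 := by nlinarith
    calc N * (1 + w.re) ^ 2 ≤ (3 * ‖w‖ ^ 2) * 4 :=
          mul_le_mul (by linarith) h5 (by positivity) (by positivity)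
      _ = 12 * ‖w‖ ^ 2 := by ring
  · push Not at h
    have h3 : N ≤ (1 + ‖w‖) * Real.exp (-w.re) + 1 := by
      have := norm_sub_le ((1 + w) * Complex.exp (-w)) 1
      rw [norm_mul, norm_one, norm_exp_neg] at this
      nlinarith
    have h4 : N * (1 + w.re) ≤ (1 + ‖w‖) + (1 + w.re) := by
      have : (1 + ‖w‖) * (Real.exp (-w.re) * (1 + w.re)) ≤ (1 + ‖w‖) * 1 :=
        mul_le_mul_of_nonneg_left hρ (by positivity)
      nlinarith
    have h5 : N * (1 + w.re) ≤ 4 * ‖w‖ := by linarith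
    have h6 : 1 + w.re ≤ 2 * ‖w‖ := by linarith
    calc N * (1 + w.re) ^ 2 = N * (1 + w.re) * (1 + w.re) := by ring
      _ ≤ (4 * ‖w‖) * (2 * ‖w‖) := mul_le_mul h5 h6 (by positivity) (by positivity)
      _ ≤ 12 * ‖w‖ ^ 2 := by nlinarith

theorem ph_ne {s : ℂ} (hx : 0 < s.re) (hy : |s.im| ≤ Real.pi) : ph s ≠ 0 := by
  intro h
  have := ph_lower hx hy
  rw [h, norm_zero] at this
  norm_num at this

theorem ph_near {s s0 : ℂ} {δ : ℝ} (hx : 0 < s.re) (hx0 : 0 < s0.re) (hy : |s0.im| ≤ Real.pi)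
    (hδ : δ ≤ 1 / 2) (h : ‖s - s0‖ ≤ δ * (1 + s0.re)) : ‖ph s / ph s0 - 1‖ ≤ 1920 * δ := by
  have hδ0 : 0 ≤ δ := by
    by_contra hc
    push Not at hc
    have := norm_nonneg (s - s0)
    nlinarith
  have hconv : Convex ℝ ({w : ℂ | 0 < w.re} ∩ {w : ℂ | (s0.re - 1) / 2 ≤ w.re}) :=
    (convex_halfSpace_re_gt 0).inter (convex_halfSpace_re_ge _)
  have hre : |(s - s0).re| ≤ ‖s - s0‖ := Complex.abs_re_le_norm _
  rw [Complex.sub_re] at hre
  have hre' := (abs_le.1 hre).1
  have hp : 0 < 1 + s0.re := by linarith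
  have key := hconv.norm_image_sub_le_of_norm_hasDerivWithin_le (f := ph)
    (f' := fun w => ((1 + w) * Complex.exp (-w) - 1) / w ^ 2) (C := 48 / (1 + s0.re) ^ 2)
    (x := s0) (y := s) (fun w hw => (ph_deriv hw.1).hasDerivWithinAt)
    (fun w hw => by
      have h1 := ph_deriv_le hw.1
      have h2 : (s0.re - 1) / 2 ≤ w.re := hw.2
      have h3 : (1 + s0.re) ^ 2 ≤ 4 * (1 + w.re) ^ 2 := by nlinarith
      rw [le_div_iff₀ (by positivity)]
      nlinarith [norm_nonneg (((1 + w) * Complex.exp (-w) - 1) / w ^ 2)])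
    ⟨hx0, by show (s0.re - 1) / 2 ≤ s0.re; linarith⟩
    ⟨hx, by show (s0.re - 1) / 2 ≤ s.re; nlinarith⟩
  have hl := ph_lower hx0 hy
  have hne := ph_ne hx0 hy
  have hpos : 0 < ‖ph s0‖ := norm_pos_iff.2 hne
  rw [div_sub_one hne, norm_div, div_le_iff₀ hpos]
  have h2 : ‖ph s - ph s0‖ * (1 + s0.re) ≤ 48 * δ := by
    calc ‖ph s - ph s0‖ * (1 + s0.re)
        ≤ (48 / (1 + s0.re) ^ 2 * (δ * (1 + s0.re))) * (1 + s0.re) :=
          mul_le_mul_of_nonneg_right (key.trans (mul_le_mul_of_nonneg_left h (by positivity)))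
            hp.le
      _ = 48 * δ := by field_simp
  have h3 : 48 * δ ≤ 1920 * δ * ‖ph s0‖ * (1 + s0.re) := by nlinarith
  exact le_of_mul_le_mul_right (h2.trans h3) hp

/-- The real function `log ((1 - exp (-x)) / x)` extends smoothly across zero. -/
theorem exists_psi : ∃ (ψ : ℝ → ℝ) (t : Set ℝ) (K : ℝ), IsOpen t ∧ ContDiffOn ℝ 3 ψ t ∧
    Icc 0 1 ⊆ t ∧ 0 ≤ K ∧ (∀ j : ℕ, 1 ≤ j → j ≤ 3 → ∀ x ∈ Icc (0 : ℝ) 1,
      |iteratedDeriv j ψ x| ≤ K) ∧ (∀ x ∈ Icc (0 : ℝ) 1, |ψ x| ≤ K) ∧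
    ∀ x, 0 < x → ψ x = Real.log ((1 - Real.exp (-x)) / x) := by
  set F : ℂ → ℂ := fun s => -Complex.exp (-s) with hF
  have hFd : Differentiable ℂ F := by rw [hF]; fun_prop
  have hD : Differentiable ℂ (dslope F 0) := by
    rw [← differentiableOn_univ, Complex.differentiableOn_dslope Filter.univ_mem]
    exact hFd.differentiableOn
  have hC : ContDiff ℝ 3 (fun x : ℝ => (dslope F 0 x).re) :=
    Complex.reCLM.contDiff.comp
      (((hD.contDiff (n := 3)).restrict_scalars ℝ).comp Complex.ofRealCLM.contDiff)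
  have hval : ∀ x : ℝ, x ≠ 0 → (dslope F 0 x).re = (1 - Real.exp (-x)) / x := by
    intro x hx
    have hx' : (x : ℂ) ≠ 0 := by exact_mod_cast hx
    rw [dslope_of_ne _ hx', slope_def_field, hF]
    have : (-Complex.exp (-(x : ℂ)) - -Complex.exp (-0)) / ((x : ℂ) - 0) =
        (((1 - Real.exp (-x)) / x : ℝ) : ℂ) := by
      push_cast
      simp only [neg_zero, Complex.exp_zero, sub_zero]
      congr 1
      ring
    simp only []
    rw [this, Complex.ofReal_re]
  have h0 : (dslope F 0 ((0 : ℝ) : ℂ)).re = 1 := by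
    have h1 : HasDerivAt F 1 0 := by
      have := ((hasDerivAt_id (0 : ℂ)).neg.cexp).neg
      refine HasDerivAt.congr_deriv this ?_
      simp
    rw [Complex.ofReal_zero, dslope_same, h1.deriv, Complex.one_re]
  set t : Set ℝ := {x | 0 < (dslope F 0 x).re} with ht
  have hto : IsOpen t := isOpen_lt continuous_const hC.continuous
  have hsub : Icc (0 : ℝ) 1 ⊆ t := by
    intro x hx
    rcases hx.1.eq_or_lt with h | h
    · show 0 < (dslope F 0 x).re
      rw [← h, h0]; norm_num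
    · show 0 < (dslope F 0 x).re
      rw [hval x h.ne']
      have : Real.exp (-x) < 1 := Real.exp_lt_one_iff.2 (by linarith)
      exact div_pos (by linarith) h
  have hψ : ContDiffOn ℝ 3 (fun x : ℝ => Real.log (dslope F 0 x).re) t :=
    hC.contDiffOn.log (fun x hx => (ne_of_gt hx))
  obtain ⟨K, hK0, hK⟩ := exists_Db_of_compact hto hψ isCompact_Icc hsub (subset_refl _)
  refine ⟨_, t, K, hto, hψ, hsub, hK0, fun j h1 h3 x hx => ?_, hK.2, fun x hx => ?_⟩
  · have := hK.1.2 j h1 h3 x hx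
    rwa [norm_iteratedFDeriv_eq_norm_iteratedDeriv, Real.norm_eq_abs] at this
  · simp only [hval x hx.ne']

end Pool.Agent.MP_8ac6f3_ag.ShellP

end

end MrgPart0

-- ======== part 1: formerly Pool.Agent.MP_8ac6f3_ag.Shell
section MrgPart1

/-! Row SHELL: the cusp function is close to the potential of the entry point in the shell. -/

open Set Metric Complex
open scoped ContDiff Topology ComplexConjugate

noncomputable section

namespace Pool.Agent.MP_8ac6f3_ag

variable {W : Type} [NormedAddCommGroup W] [InnerProductSpace ℂ W]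

namespace ShellP

theorem re_pos {c : ℝ} (hc : 0 < c) {q x : E W} (hq : 0 < height q) (hx : 0 < height x) :
    0 < ((c : ℂ) * aa x q).re := by
  rw [Complex.re_ofReal_mul, aa_re]
  positivity

theorem split {l : ℝ} (hl : 0 < l) {q x : E W} (hq : 0 < height q) (hx : 0 < height x) :
    GG l q (ex l x) - uu q x = Real.log (‖ph (((2 * Real.pi / l : ℝ) : ℂ) * aa x q)‖ ^ 2) +
      2 * Real.log (1 + 2 * Real.pi / l * ((aa x q).re - height x - height q)) -
      Real.log ((1 - Real.exp (-(2 * (2 * Real.pi / l) * height x))) /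
        (2 * (2 * Real.pi / l) * height x)) := by
  have hc : 0 < 2 * Real.pi / l := by have := Real.pi_pos; positivity
  rw [GG_ex, uu, cc_sq hx hq]
  generalize 2 * Real.pi / l = c at hc ⊢
  have hre := re_pos hc hq hx
  have ha : 0 < ‖aa x q‖ := norm_pos_iff.2 (aa_ne hx hq.le)
  have hn : 0 < ‖1 - Complex.exp (-((c : ℂ) * aa x q))‖ := by
    have h1 : ‖(1 : ℂ)‖ - ‖Complex.exp (-((c : ℂ) * aa x q))‖ ≤
      ‖1 - Complex.exp (-((c : ℂ) * aa x q))‖ := norm_sub_norm_le _ _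
    rw [norm_one, norm_exp_neg] at h1
    have : Real.exp (-((c : ℂ) * aa x q).re) < 1 := Real.exp_lt_one_iff.2 (by linarith)
    linarith
  have he : 0 < 1 - Real.exp (-(2 * c * height x)) := by
    have : Real.exp (-(2 * c * height x)) < 1 :=
      Real.exp_lt_one_iff.2 (by have : 0 < 2 * c * height x := by positivity
                                linarith)
    linarith
  rw [ph, norm_div, norm_mul, Complex.norm_real, Real.norm_eq_abs, abs_of_pos hc, neg_mul,
    div_pow, mul_pow, Real.log_div (by positivity) (by positivity),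
    Real.log_div (by positivity) (by positivity), Real.log_div he.ne' (by positivity),
    Real.log_mul (x := c ^ 2) (by positivity) (by positivity),
    Real.log_mul (x := 2 * c) (by positivity) hq.ne',
    Real.log_mul (x := 2 * c) (by positivity) hx.ne',
    Real.log_mul (x := 2) (by positivity) hc.ne',
    Real.log_mul (x := 4 * height x) (by positivity) hq.ne',
    Real.log_mul (x := 4) (by positivity) hx.ne', Real.log_pow c,
    show (4 : ℝ) = 2 ^ 2 by norm_num, Real.log_pow 2]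
  push_cast
  ring

variable {g : GV W} {q : E W} {ξ : E W} {B c τ : ℝ}

theorem chart_pos (hξ : ξ ∈ ball (0 : E W) (1 / 4)) : 0 < height (oo + ξ) := by
  have := height_chart (ξ := ξ) (by have := mem_ball_zero_iff.1 hξ; linarith)
  linarith

theorem oo_pos : 0 < height (oo : E W) := by rw [height_oo]; norm_num

theorem chart_cc (hg : Unitary g) (hξ : ξ ∈ ball (0 : E W) (1 / 4)) :
    cc (act g oo) (act g (oo + ξ)) ^ 2 ≤ 9 := by
  rw [cc_act hg oo_pos (chart_pos hξ)]
  have h1 := cc_chart (ξ := ξ) (by have := mem_ball_zero_iff.1 hξ; linarith)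
  have h2 := one_le_cc oo_pos (chart_pos hξ)
  nlinarith

theorem chart_height (hg : Unitary g) (hB : 36 * height (act g oo) ≤ B)
    (hξ : ξ ∈ ball (0 : E W) (1 / 4)) : height (act g (oo + ξ)) ≤ B := by
  have h0 := height_act_pos hg (oo_pos (W := W))
  have h1 := height_le_cc (height_act_pos hg (chart_pos hξ)) h0
  rw [cc_symm] at h1
  have h2 := chart_cc hg hξ
  nlinarith

theorem chart_aa (hg : Unitary g) (hB : 36 * height (act g oo) ≤ B)
    (hξ : ξ ∈ ball (0 : E W) (1 / 4)) : ‖aa (act g oo) (act g (oo + ξ))‖ ≤ B := by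
  have h0 := height_act_pos hg (oo_pos (W := W))
  have h1 := norm_aa_le_cc h0 (height_act_pos hg (chart_pos hξ))
  have h2 := chart_cc hg hξ
  nlinarith

theorem chart_smooth (hg : Unitary g) (q : E W) :
    ContDiffOn ℂ 4 (fun ξ : E W => aa (act g (oo + ξ)) q) (ball 0 (1 / 4)) := by
  have h1 : ContDiffOn ℂ 4 (fun ξ : E W => act g (oo + ξ)) (ball 0 (1 / 4)) :=
    ((contDiffOn_act hg).of_le le_top).comp (contDiff_const.add contDiff_id).contDiffOn
      (fun ξ hξ => chart_pos hξ)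
  have h2 : ContDiff ℂ 4 (fun x : E W => aa x q) := by
    unfold aa
    exact ((contDiff_snd.sub contDiff_const).div_const _).sub
      (contDiff_const.mul ((innerSL ℂ q.1).contDiff.comp contDiff_fst))
  exact h2.comp_contDiffOn h1

theorem chart_move (hg : Unitary g) (hq : 0 < height q) (hB : 36 * height (act g oo) ≤ B)
    (hc : 0 < c) (hτ : 0 < τ) (hτ1 : τ ≤ 1) (hcB : c * B ≤ τ ^ 2)
    (him : |((c : ℂ) * aa (act g oo) q).im| ≤ Real.pi) (hξ : ξ ∈ ball (0 : E W) (1 / 4)) :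
    ‖(c : ℂ) * aa (act g (oo + ξ)) q - (c : ℂ) * aa (act g oo) q‖ ≤
      8 * τ * (1 + ((c : ℂ) * aa (act g oo) q).re) := by
  have h0 := height_act_pos hg (oo_pos (W := W))
  have hx := height_act_pos hg (chart_pos hξ)
  have hre := re_pos hc hq h0
  have h1 := norm_aa_sub_le hq.le h0.le hx.le
  have h2 := chart_aa hg hB hξ
  have h3 : ‖aa (act g (oo + ξ)) q - aa (act g oo) q‖ =
      ‖aa q (act g (oo + ξ)) - aa q (act g oo)‖ := by
    rw [← aa_conj q (act g (oo + ξ)), ← aa_conj q (act g oo), ← map_sub, Complex.norm_conj]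
  have h4 : ‖aa q (act g oo)‖ = ‖aa (act g oo) q‖ := by rw [← aa_conj, Complex.norm_conj]
  rw [h4, ← h3] at h1
  have h5 := Complex.norm_le_abs_re_add_abs_im ((c : ℂ) * aa (act g oo) q)
  rw [abs_of_pos hre, norm_mul, Complex.norm_real, Real.norm_eq_abs, abs_of_pos hc] at h5
  rw [← mul_sub, norm_mul, Complex.norm_real, Real.norm_eq_abs, abs_of_pos hc]
  generalize ((c : ℂ) * aa (act g oo) q).re = x0 at *
  generalize ‖aa (act g (oo + ξ)) q - aa (act g oo) q‖ = D at *
  have hA : 0 ≤ ‖aa (act g oo) q‖ := norm_nonneg _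
  have hb : 0 ≤ ‖aa (act g oo) (act g (oo + ξ))‖ := norm_nonneg _
  generalize ‖aa (act g oo) q‖ = A at *
  generalize ‖aa (act g oo) (act g (oo + ξ))‖ = b at *
  have hcb : c * b ≤ τ ^ 2 := (mul_le_mul_of_nonneg_left h2 hc.le).trans hcB
  have hpi := Real.pi_lt_d2
  have h6 : c * (√A * √b) = √(c * A) * √(c * b) := by
    rw [Real.sqrt_mul hc.le, Real.sqrt_mul hc.le]
    have := Real.mul_self_sqrt hc.le
    linear_combination (-(√A * √b)) * this
  have h7 : √(c * b) ≤ τ := Real.sqrt_le_iff.2 ⟨hτ.le, hcb⟩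
  have h8 : 2 * √(c * A) ≤ 1 + c * A := by
    have := Real.sq_sqrt (mul_nonneg hc.le hA)
    nlinarith [sq_nonneg (√(c * A) - 1)]
  have h9 : 2 * √(c * A) * √(c * b) ≤ (5 * (1 + x0)) * τ :=
    mul_le_mul (by linarith) h7 (Real.sqrt_nonneg _) (by positivity)
  have h10 : c * D ≤ c * (3 * b + 2 * √A * √b) := mul_le_mul_of_nonneg_left h1 hc.le
  have h11 : τ ^ 2 ≤ τ * (1 + x0) := by nlinarith
  nlinarith

omit [InnerProductSpace ℂ W] in
theorem ball_sub : ∀ y ∈ ball (0 : E W) (1 / 8), ball y (1 / 8) ⊆ ball (0 : E W) (1 / 4) := by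
  intro y hy z hz
  have h1 := dist_triangle z y 0
  rw [mem_ball] at hy hz ⊢
  linarith

omit [InnerProductSpace ℂ W] in
theorem sub_ball : ball (0 : E W) (1 / 8) ⊆ ball (0 : E W) (1 / 4) :=
  ball_subset_ball (by norm_num)

/-- The first term. -/
theorem term1 (hg : Unitary g) (hq : 0 < height q) (hB : 36 * height (act g oo) ≤ B)
    (hc : 0 < c) (hτ : 0 < τ) (hτ1 : τ ≤ 1 / 30720) (hcB : c * B ≤ τ ^ 2)
    (him : |((c : ℂ) * aa (act g oo) q).im| ≤ Real.pi) :
    Db (ball 0 (1 / 8)) (10 ^ 10 * τ)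
      (fun ξ : E W => Real.log (‖ph ((c : ℂ) * aa (act g (oo + ξ)) q)‖ ^ 2)) := by
  have h0 := height_act_pos hg (oo_pos (W := W))
  have hre0 := re_pos hc hq h0
  have hne := ph_ne hre0 him
  have hre : ∀ ξ ∈ ball (0 : E W) (1 / 4), 0 < ((c : ℂ) * aa (act g (oo + ξ)) q).re :=
    fun ξ hξ => re_pos hc hq (height_act_pos hg (chart_pos hξ))
  have hs : ContDiffOn ℂ 4 (fun ξ : E W => (c : ℂ) * aa (act g (oo + ξ)) q) (ball 0 (1 / 4)) :=
    contDiffOn_const.mul (chart_smooth hg q)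
  have hh : ContDiffOn ℂ 4 (fun ξ : E W => ph ((c : ℂ) * aa (act g (oo + ξ)) q) /
      ph ((c : ℂ) * aa (act g oo) q)) (ball 0 (1 / 4)) := by
    refine ContDiffOn.div_const ?_ _
    exact (contDiffOn_const.sub hs.neg.cexp).div hs (fun ξ hξ => ne_of_re (hre ξ hξ))
  have hnear : ∀ ξ ∈ ball (0 : E W) (1 / 4), ‖ph ((c : ℂ) * aa (act g (oo + ξ)) q) /
      ph ((c : ℂ) * aa (act g oo) q) - 1‖ ≤ 1920 * (8 * τ) := fun ξ hξ =>
    ph_near (hre ξ hξ) hre0 him (by linarith)
      (chart_move hg hq hB hc hτ (by linarith) hcB him hξ)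
  have h1 := (Cb.log_near_one (s := ball (0 : E W) (1 / 8)) isOpen_ball hh (r := 1 / 8)
    (by norm_num) (by norm_num) ball_sub (by linarith) hnear).1
  refine ((h1.add_const (Real.log (‖ph ((c : ℂ) * aa (act g oo) q)‖ ^ 2))).congr isOpen_ball
    (fun ξ hξ => ?_)).mono (by norm_num; linarith)
  have h2 := hnear ξ (sub_ball hξ)
  have h3 : ph ((c : ℂ) * aa (act g (oo + ξ)) q) ≠ 0 := by
    intro h
    rw [h] at h2
    norm_num at h2
    linarith
  have h4 := norm_pos_iff.2 h3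
  have h5 := norm_pos_iff.2 hne
  rw [norm_div, div_pow, Real.log_div (by positivity) (by positivity)]
  ring

/-- The height times a small constant. -/
theorem small_height {K : ℝ} (hg : Unitary g) (hB : 36 * height (act g oo) ≤ B)
    (hK : Db (ball 0 (1 / 8)) K (fun ξ : E W => Real.log (height (act g (oo + ξ)))))
    {c' : ℝ} (hc : |c'| * B ≤ τ) :
    Db (ball 0 (1 / 8)) (5 * (K + K ^ 3) * τ) (fun ξ : E W => c' * height (act g (oo + ξ))) := by
  have hK0 : 0 ≤ K := hK.nonneg ⟨0, mem_ball_self (by norm_num)⟩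
  have h0 := height_act_pos hg (oo_pos (W := W))
  have hB0 : 0 < B := by linarith
  have h1 := Db.exp isOpen_ball hK (A := Real.log B) (fun ξ hξ =>
    Real.log_le_log (height_act_pos hg (chart_pos (sub_ball hξ)))
      (chart_height hg hB (sub_ball hξ)))
  rw [Real.exp_log hB0] at h1
  refine ((h1.const_mul isOpen_ball c').congr isOpen_ball (fun ξ hξ => ?_)).mono ?_
  · rw [Real.exp_log (height_act_pos hg (chart_pos (sub_ball hξ)))]
  · have : 0 ≤ 5 * (K + K ^ 3) := by positivity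
    nlinarith

theorem cube_le {a M τ : ℝ} (hM : 0 ≤ M) (hτ : 0 ≤ τ) (hτ1 : τ ≤ 1) (h : a = M * τ) :
    a + a ^ 3 ≤ (M + M ^ 3) * τ := by
  have h1 : τ ^ 3 ≤ τ := by nlinarith [mul_nonneg hτ hτ, mul_nonneg hτ (sub_nonneg.2 hτ1)]
  have h2 : M ^ 3 * τ ^ 3 ≤ M ^ 3 * τ := mul_le_mul_of_nonneg_left h1 (by positivity)
  rw [h]
  nlinarith

/-- The second term. -/
theorem term2 {K : ℝ} (hg : Unitary g) (hq : 0 < height q) (hq2 : height q ≤ B)
    (hB : 36 * height (act g oo) ≤ B)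
    (hK : Db (ball 0 (1 / 8)) K (fun ξ : E W => Real.log (height (act g (oo + ξ)))))
    (hc : 0 < c) (hτ : 0 < τ) (hτ1 : τ ≤ 1 / 30720) (hcB : c * B ≤ τ ^ 2)
    (him : |((c : ℂ) * aa (act g oo) q).im| ≤ Real.pi) :
    Db (ball 0 (1 / 8))
      (160 * ((10 ^ 6 + 5 * (K + K ^ 3)) + (10 ^ 6 + 5 * (K + K ^ 3)) ^ 3) * τ)
      (fun ξ : E W => 2 * Real.log (1 + c * ((aa (act g (oo + ξ)) q).re -
        height (act g (oo + ξ)) - height q))) := by
  have hK0 : 0 ≤ K := hK.nonneg ⟨0, mem_ball_self (by norm_num)⟩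
  have h0 := height_act_pos hg (oo_pos (W := W))
  have hre0 := re_pos hc hq h0
  have hB0 : 0 < B := by linarith
  have hmove := fun ξ hξ => chart_move (ξ := ξ) hg hq hB hc hτ (by linarith) hcB him hξ
  set s0 := (c : ℂ) * aa (act g oo) q with hs0
  have hm : 0 < 1 + s0.re := by linarith
  have hτ2 : τ ^ 2 ≤ τ := by nlinarith
  have hh : ContDiffOn ℂ 4 (fun ξ : E W => ((c : ℂ) * aa (act g (oo + ξ)) q - s0) /
      ((1 + s0.re : ℝ) : ℂ)) (ball 0 (1 / 4)) :=
    ((contDiffOn_const.mul (chart_smooth hg q)).sub contDiffOn_const).div_const _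
  have hb : ∀ ξ ∈ ball (0 : E W) (1 / 4), ‖((c : ℂ) * aa (act g (oo + ξ)) q - s0) /
      ((1 + s0.re : ℝ) : ℂ)‖ ≤ 8 * τ := fun ξ hξ => by
    rw [norm_div, Complex.norm_real, Real.norm_eq_abs, abs_of_pos hm, div_le_iff₀ hm]
    exact hmove ξ hξ
  have h1 := Db.re_hol (s := ball (0 : E W) (1 / 8)) isOpen_ball hh (r := 1 / 8)
    (by norm_num) (by norm_num) ball_sub hb
  have hcm : c / (1 + s0.re) ≤ c := div_le_self hc.le (by linarith)
  have hcm0 : 0 < c / (1 + s0.re) := div_pos hc hm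
  have h2 := small_height (τ := τ) hg hB hK (c' := c / (1 + s0.re))
    (by rw [abs_of_pos hcm0]; nlinarith)
  have h3 := (((h1.mono (b := 10 ^ 6 * τ) (by norm_num; linarith)).sub isOpen_ball h2).add_const
    (1 - c / (1 + s0.re) * height q))
  have hlow : ∀ ξ ∈ ball (0 : E W) (1 / 8), 1 / 2 ≤
      (((c : ℂ) * aa (act g (oo + ξ)) q - s0) / ((1 + s0.re : ℝ) : ℂ)).re -
        c / (1 + s0.re) * height (act g (oo + ξ)) + (1 - c / (1 + s0.re) * height q) := by
    intro ξ hξ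
    have e1 := (abs_le.1 ((Complex.abs_re_le_norm _).trans (hb ξ (sub_ball hξ)))).1
    have e2 : c / (1 + s0.re) * height (act g (oo + ξ)) ≤ c * B :=
      mul_le_mul hcm (chart_height hg hB (sub_ball hξ))
        (height_act_pos hg (chart_pos (sub_ball hξ))).le hc.le
    have e3 : c / (1 + s0.re) * height q ≤ c * B := mul_le_mul hcm hq2 hq.le hc.le
    linarith
  have h4 := Db.log isOpen_ball h3 (m := 1 / 2) (by norm_num) (by norm_num) hlow
  refine (((h4.add_const (Real.log (1 + s0.re))).const_mul isOpen_ball 2).congr isOpen_ball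
    (fun ξ hξ => ?_)).mono ?_
  · have e1 := hlow ξ hξ
    rw [← Real.log_mul (by linarith) hm.ne']
    congr 2
    rw [Complex.div_ofReal_re, Complex.sub_re, Complex.re_ofReal_mul]
    field_simp
    ring
  · have := cube_le (a := 10 ^ 6 * τ + 5 * (K + K ^ 3) * τ) (M := 10 ^ 6 + 5 * (K + K ^ 3))
      (τ := τ) (by positivity) hτ.le (by linarith) (by ring)
    rw [abs_of_pos (by norm_num : (0 : ℝ) < 2)]
    linarith

/-- The value of the first two terms at the centre. -/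
theorem value {x : E W} (hx : 0 < height x) (hq : 0 < height q) (hc : 0 < c)
    (h1 : c * height x ≤ 1 / 4) (h2 : c * height q ≤ 1 / 4)
    (him : |((c : ℂ) * aa x q).im| ≤ Real.pi) :
    |Real.log (‖ph ((c : ℂ) * aa x q)‖ ^ 2) +
      2 * Real.log (1 + c * ((aa x q).re - height x - height q))| ≤ 160 := by
  have hre := re_pos hc hq hx
  have hl := ph_lower hre him
  have hu := ph_upper hre
  have hp := norm_pos_iff.2 (ph_ne hre him)
  rw [Complex.re_ofReal_mul] at hre hl hu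
  have hcx : 0 < c * height x := by positivity
  have hcq : 0 < c * height q := by positivity
  set y := 1 + c * ((aa x q).re - height x - height q) with hy
  have hy1 : y ≤ 1 + c * (aa x q).re := by rw [hy]; nlinarith
  have hy2 : (1 + c * (aa x q).re) / 2 ≤ y := by rw [hy]; nlinarith
  have hy0 : 0 < y := by linarith
  generalize ‖ph ((c : ℂ) * aa x q)‖ = p at *
  have e1 : 1 / 80 ≤ p * y := by nlinarith
  have e2 : p * y ≤ 4 := by nlinarith
  have e0 : 0 < p * y := by positivity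
  have e3 : Real.log (p ^ 2) + 2 * Real.log y = 2 * Real.log (p * y) := by
    rw [Real.log_pow, Real.log_mul hp.ne' hy0.ne']; push_cast; ring
  have e4 := Real.log_le_sub_one_of_pos e0
  have e5 := Real.log_le_sub_one_of_pos (inv_pos.2 e0)
  rw [Real.log_inv] at e5
  have e6 : (p * y)⁻¹ ≤ 80 := by
    rw [inv_le_comm₀ e0 (by norm_num)]; linarith
  rw [e3, abs_le]
  constructor <;> linarith

end ShellP

open ShellP in
theorem shell (hU : UStmt W) : ShellStmt W := by
  obtain ⟨K, lam, -, hU⟩ := hU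
  obtain ⟨ψ, t, K3, hto, hψ, hsub, hK3, hψd, hψv, hψe⟩ := exists_psi
  refine ⟨160 + K3, fun H ε hε => ?_⟩
  set M1 : ℝ := 5 * (|K| + |K| ^ 3) with hM1
  have hM10 : 0 ≤ M1 := by positivity
  set C : ℝ := 10 ^ 10 + 160 * ((10 ^ 6 + M1) + (10 ^ 6 + M1) ^ 3) + 5 * K3 * (M1 + M1 ^ 3)
    with hC
  have hC0 : 0 < C := by positivity
  set τ : ℝ := min (1 / 30720) (ε / C) with hτd
  have hτ : 0 < τ := lt_min (by norm_num) (div_pos hε hC0)
  have hτ1 : τ ≤ 1 / 30720 := min_le_left _ _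
  have hτε : C * τ ≤ ε := by
    have : τ ≤ ε / C := min_le_right _ _
    rwa [le_div_iff₀ hC0, mul_comm] at this
  set B : ℝ := 36 * (|H| + 1) with hBd
  have hB36 : 36 ≤ B := by have := abs_nonneg H; linarith
  have hpi := Real.pi_pos
  refine ⟨2 * Real.pi * B / τ ^ 2, fun l hl g q hg hq hq2 hH him => ?_⟩
  have hl0 : 0 < l := lt_of_lt_of_le (by positivity) hl
  have hc : 0 < 2 * Real.pi / l := by positivity
  have hcB : 2 * Real.pi / l * B ≤ τ ^ 2 := by
    rw [div_le_iff₀ (by positivity)] at hl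
    rw [div_mul_eq_mul_div, div_le_iff₀ hl0]
    linarith
  have hB : 36 * height (act g oo) ≤ B := by have := le_abs_self H; linarith
  have him' : |(((2 * Real.pi / l : ℝ) : ℂ) * aa (act g oo) q).im| ≤ Real.pi := by
    rw [Complex.im_ofReal_mul, abs_mul, abs_of_pos hc]
    calc 2 * Real.pi / l * |(aa (act g oo) q).im| ≤ 2 * Real.pi / l * (l / 2) :=
          mul_le_mul_of_nonneg_left him hc.le
      _ = Real.pi := by field_simp
  have hK := (hU g hg).1.mono (le_abs_self K)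
  have h0 := height_act_pos hg (oo_pos (W := W))
  have hτ2 : τ ^ 2 ≤ τ / 4 := by nlinarith
  have hsp := fun x hx => split (q := q) (x := x) hl0 hq hx
  generalize 2 * Real.pi / l = c at hc hcB him' hsp
  have hmem : ∀ ξ ∈ ball (0 : E W) (1 / 4), 0 < 2 * c * height (act g (oo + ξ)) ∧
      2 * c * height (act g (oo + ξ)) ≤ 1 := fun ξ hξ => by
    have e1 := height_act_pos hg (chart_pos hξ)
    have e2 := mul_le_mul_of_nonneg_left (chart_height hg hB hξ) hc.le
    exact ⟨by positivity, by linarith⟩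
  constructor
  · have h1 := term1 hg hq hB hc hτ hτ1 hcB him'
    have h2 := term2 hg hq (by linarith) hB hK hc hτ hτ1 hcB him'
    have h3 := small_height (τ := τ) hg hB hK (c' := 2 * c)
      (by rw [abs_of_pos (by positivity)]; linarith)
    have h4 := Db.comp isOpen_ball h3 hto hψ
      (fun ξ hξ => hsub ⟨(hmem ξ (sub_ball hξ)).1.le, (hmem ξ (sub_ball hξ)).2⟩) (K := K3)
      (fun j j1 j3 ξ hξ => hψd j j1 j3 _ ⟨(hmem ξ (sub_ball hξ)).1.le, (hmem ξ (sub_ball hξ)).2⟩)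
    refine (((h1.add isOpen_ball h2).sub isOpen_ball h4).congr isOpen_ball (fun ξ hξ => ?_)).mono ?_
    · rw [hsp _ (height_act_pos hg (chart_pos (sub_ball hξ))), hψe _ (hmem ξ (sub_ball hξ)).1]
    · have e1 := cube_le (a := M1 * τ) (M := M1) (τ := τ) hM10 hτ.le (by linarith) rfl
      have e2 := mul_le_mul_of_nonneg_left e1 (by positivity : 0 ≤ 5 * K3)
      rw [← hM1]
      refine le_trans ?_ hτε
      rw [hC]
      linarith
  · have e0 := hmem 0 (mem_ball_self (by norm_num))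
    rw [add_zero] at e0
    have e1 := value h0 hq hc (by nlinarith) (by nlinarith) him'
    have e2 := hψv _ ⟨e0.1.le, e0.2⟩
    rw [hsp _ h0, ← hψe _ e0.1]
    exact (abs_sub _ _).trans (add_le_add e1 e2)

end Pool.Agent.MP_8ac6f3_ag

end

end MrgPart1

-- ======== part 2: formerly Pool.Agent.MP_8ac6f3_ag.G7
section MrgPart2

/-! Row G7: the function of block B. -/

open Set Metric Complex
open scoped ContDiff Topology ComplexConjugate

noncomputable section

namespace Pool.Agent.MP_8ac6f3_ag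

namespace G7

variable {W : Type} [NormedAddCommGroup W] [InnerProductSpace ℂ W] {L : ℝ} (S : Sys W L)

/-- The cusp function of `v` with entry point `y`. -/
def Gf (v : S.I) (y x : E W) : ℝ :=
  GG (S.len v) (act (S.fr v) y) (ex (S.len v) (act (S.fr v) x))

theorem GG_inP {s : GV W} (hu : Unitary s) (h : InP s) (l : ℝ) (q x : E W) :
    GG l (act s q) (ex l (act s x)) = GG l q (ex l x) := by
  rw [GG_ex, GG_ex, h.aa_act hu, h.height_act hu, h.height_act hu]

theorem Gf_smul (γ : S.Γ) (v : S.I) {x y : E W} (hy : 0 < height y) (hx : 0 < height x) :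
    Gf S (γ • v) (act γ.1 y) (act γ.1 x) = Gf S v y x := by
  have h1 := S.hv_smul γ v hx
  have h2 := S.hv_smul γ v hy
  unfold Sys.hv at h1 h2
  unfold Gf
  rw [GG_ex, GG_ex, S.aa_smul γ v hx hy, h1, h2, S.len_smul]

theorem act_vert (v : S.I) (t : ℝ) {y : E W} (hy : 0 < height y) :
    act (S.fr v) (act ((S.fr v)⁻¹ * vertE t * S.fr v) y) = up t (act (S.fr v) y) := by
  have hu := S.fr_uni v
  rw [← act_mul ((hu.inv.mul (unitary_vertE t)).mul hu) hy, ← mul_assoc, ← mul_assoc,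
    mul_inv_cancel, one_mul, act_mul hu hy, act_vertE]

theorem Gf_vert (v : S.I) (hl : 0 < S.len v) (n : ℤ) {y : E W} (hy : 0 < height y) (x : E W) :
    Gf S v (act ((S.fr v)⁻¹ * vertE (n * S.len v) * S.fr v) y) x = Gf S v y x := by
  unfold Gf
  rw [act_vert S v _ hy, GG_up hl]

theorem hv_vert (v : S.I) (t : ℝ) {y : E W} (hy : 0 < height y) :
    S.hv v (act ((S.fr v)⁻¹ * vertE t * S.fr v) y) = S.hv v y := by
  unfold Sys.hv
  rw [act_vert S v _ hy, height_up]
  simp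

theorem exists_amax {q : E W} (hq : S.Thick 2 q) (v : S.I) :
    ∃ k1 ∈ S.N, ∀ k ∈ S.N, S.hv v (act k q) ≤ 2 * S.hv v (act k1 q) := by
  set T : Set ℝ := (fun k => S.hv v (act k q)) '' (S.N : Set (GV W)) with hT
  have hb : BddAbove T := ⟨2, by
    rintro _ ⟨k, hk, rfl⟩
    exact (hq.act (S.N_le hk)).2 v⟩
  have h1 : S.hv v (act 1 q) ∈ T := ⟨1, S.N.one_mem, rfl⟩
  have hp : 0 < sSup T := lt_of_lt_of_le (S.hv_pos v (hq.act S.Γ.one_mem).1) (le_csSup hb h1)
  obtain ⟨_, ⟨k1, hk1, rfl⟩, h⟩ := exists_lt_of_lt_csSup ⟨_, h1⟩ (half_lt_self hp)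
  refine ⟨k1, hk1, fun k hk => ?_⟩
  have := le_csSup hb (⟨k, hk, rfl⟩ : S.hv v (act k q) ∈ T)
  simp only at h
  linarith

/-- An equivariant choice of entry points. -/
theorem exists_entry {q : E W} (hq : S.Thick 2 q)
    (hst : ∀ (k : S.Γ) (v : S.I), k.1 ∈ S.N → k • v = v →
      ∃ n : ℤ, k.1 = (S.fr v)⁻¹ * vertE (n * S.len v) * S.fr v) :
    ∃ κ : S.I → GV W, (∀ v, κ v ∈ S.N) ∧
      (∀ v, ∀ k ∈ S.N, S.hv v (act k q) ≤ 2 * S.hv v (act (κ v) q)) ∧
      ∀ (k : S.Γ) (v : S.I), k.1 ∈ S.N → ∃ n : ℤ,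
        κ (k • v) = (S.fr (k • v))⁻¹ * vertE (n * S.len (k • v)) * S.fr (k • v) * (k.1 * κ v) := by
  choose k1 hk1 hmax using exists_amax S hq
  let r : Setoid S.I := ⟨fun v w => ∃ k : S.Γ, k.1 ∈ S.N ∧ k • v = w,
    ⟨fun v => ⟨1, S.N.one_mem, one_smul _ _⟩,
     fun ⟨k, hk, e⟩ => ⟨k⁻¹, S.N.inv_mem hk, by rw [← e, inv_smul_smul]⟩,
     fun ⟨k, hk, e⟩ ⟨k', hk', e'⟩ => ⟨k' * k, S.N.mul_mem hk' hk, by rw [mul_smul, e, e']⟩⟩⟩
  have hout : ∀ v, ∃ k : S.Γ, k.1 ∈ S.N ∧ k • (Quotient.mk r v).out = v := fun v =>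
    Quotient.exact (Quotient.out_eq (Quotient.mk r v))
  choose n hn hnv using hout
  refine ⟨fun v => (n v).1 * k1 (Quotient.mk r v).out, fun v => S.N.mul_mem (hn v) (hk1 _),
    fun v k hk => ?_, fun k v hk => ?_⟩
  · have hu : ∀ {k : GV W}, k ∈ S.N → 0 < height (act k q) := fun hk => (hq.act (S.N_le hk)).1
    have hk' : (n v).1⁻¹ * k ∈ S.N := S.N.mul_mem (S.N.inv_mem (hn v)) hk
    have h1 := S.hv_smul (n v) (Quotient.mk r v).out (hu hk')
    have h2 := S.hv_smul (n v) (Quotient.mk r v).out (hu (hk1 (Quotient.mk r v).out))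
    rw [hnv, ← act_mul (S.N_uni hk') hq.1, mul_inv_cancel_left] at h1
    rw [hnv, ← act_mul (S.N_uni (hk1 _)) hq.1] at h2
    rw [h1, h2]
    exact hmax _ _ hk'
  · have e : Quotient.mk r (k • v) = Quotient.mk r v :=
      (Quotient.sound (s := r) ⟨k, hk, rfl⟩).symm
    have h1 := hnv (k • v)
    rw [e] at h1
    obtain ⟨m, hm⟩ := hst (n (k • v) * (k * n v)⁻¹) (k • v)
      (S.N.mul_mem (hn _) (S.N.inv_mem (S.N.mul_mem hk (hn v)))) (by
        rw [mul_smul, mul_inv_rev, mul_smul, inv_smul_smul,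
          inv_smul_eq_iff.mpr (hnv v).symm, h1])
    refine ⟨m, ?_⟩
    rw [← hm]
    beta_reduce
    rw [e]
    simp [mul_assoc]

/-- The cut-off in the height. -/
def chi (A t : ℝ) : ℝ := Real.smoothTransition (Real.log t / Real.log A - 1)

theorem chi_zero {A t : ℝ} (hA : 1 < A) (ht : 0 < t) (h : t ≤ A) : chi A t = 0 := by
  apply Real.smoothTransition.zero_of_nonpos
  have := (div_le_one (Real.log_pos hA)).mpr (Real.log_le_log ht h)
  linarith

theorem chi_one {A t : ℝ} (hA : 1 < A) (h : A ^ 2 ≤ t) : chi A t = 1 := by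
  apply Real.smoothTransition.one_of_one_le
  have h1 := Real.log_le_log (by positivity) h
  rw [Real.log_pow] at h1
  have h2 : 2 ≤ Real.log t / Real.log A := (le_div_iff₀ (Real.log_pos hA)).mpr (by simpa using h1)
  linarith

theorem abs_chi (A t : ℝ) : |chi A t| ≤ 1 := by
  unfold chi
  rw [abs_of_nonneg (Real.smoothTransition.nonneg _)]
  exact Real.smoothTransition.le_one _

theorem exists_chi : ∃ K : ℝ, 0 ≤ K ∧ ∀ j : ℕ, 1 ≤ j → j ≤ 3 → ∀ t,
    |iteratedDeriv j Real.smoothTransition t| ≤ K :=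
  exists_iteratedDeriv_bound (u := 0) (v := 1) Real.smoothTransition.contDiff
    (fun t ht => by rw [Real.smoothTransition.zero_of_nonpos ht, Real.smoothTransition.zero])
    (fun t ht => by rw [Real.smoothTransition.one_of_one_le ht, Real.smoothTransition.one])

open Classical in
/-- The glued function. -/
def FF (A : ℝ) (P : E W → ℝ) (y : S.I → E W) (x : E W) : ℝ :=
  if h : ∃ v, 1 < S.hv v x then
    P x + chi A (S.hv h.choose x) * (Gf S h.choose (y h.choose) x - P x) else P x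

theorem FF_of {A : ℝ} {P : E W → ℝ} {y : S.I → E W} {x : E W} (hx : 0 < height x) {v : S.I}
    (hv : 1 < S.hv v x) : FF S A P y x = P x + chi A (S.hv v x) * (Gf S v (y v) x - P x) := by
  have h : ∃ v, 1 < S.hv v x := ⟨v, hv⟩
  unfold FF
  rw [dif_pos h, S.disj _ _ x hx h.choose_spec hv]

theorem FF_thin {A : ℝ} (hA : 1 < A) {P : E W → ℝ} {y : S.I → E W} {x : E W} (hx : 0 < height x)
    (h : ∀ v, S.hv v x ≤ A) : FF S A P y x = P x := by
  by_cases h1 : ∃ v, 1 < S.hv v x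
  · obtain ⟨v, hv⟩ := h1
    rw [FF_of S hx hv, chi_zero hA (S.hv_pos v hx) (h v)]
    ring
  · unfold FF
    rw [dif_neg h1]

theorem FF_deep {A : ℝ} (hA : 1 < A) {P : E W → ℝ} {y : S.I → E W} {x : E W} (hx : 0 < height x)
    {v : S.I} (h : A ^ 2 ≤ S.hv v x) : FF S A P y x = Gf S v (y v) x := by
  rw [FF_of S hx (lt_of_lt_of_le (by nlinarith) h), chi_one hA h]
  ring

theorem chart_pos {ξ : E W} (h : ξ ∈ ball (0 : E W) (1 / 8)) : 0 < height (oo + ξ : E W) := by
  have := height_chart (W := W) (ξ := ξ) (by rw [mem_ball_zero_iff] at h; linarith)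
  linarith

theorem oo_pos : 0 < height (oo : E W) := by rw [height_oo]; norm_num

theorem chart_hv {g : GV W} (hg : Unitary g) (v : S.I) {ξ : E W} (h : ξ ∈ ball (0 : E W) (1 / 8)) :
    S.hv v (act g (oo + ξ)) ≤ 36 * S.hv v (act g oo) ∧
      S.hv v (act g oo) ≤ 36 * S.hv v (act g (oo + ξ)) := by
  have h1 := height_act_pos hg (chart_pos h)
  have h0 := height_act_pos hg (oo_pos (W := W))
  have hc : cc (act g oo) (act g (oo + ξ)) ≤ 3 := by
    rw [cc_act hg oo_pos (chart_pos h)]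
    exact cc_chart (by rw [mem_ball_zero_iff] at h; linarith)
  have hc1 := one_le_cc h0 h1
  have hs : cc (act g oo) (act g (oo + ξ)) ^ 2 ≤ 9 := by nlinarith
  have a1 := S.hv_le_cc v h1 h0
  have a2 := S.hv_le_cc v h0 h1
  rw [cc_symm] at a1
  have p1 := S.hv_pos v h1
  have p0 := S.hv_pos v h0
  constructor <;> nlinarith

theorem exists_int (a l : ℝ) (hl : 0 < l) : ∃ n : ℤ, |a + n * l| ≤ l / 2 := by
  refine ⟨-round (a / l), ?_⟩
  have h := abs_sub_round (a / l)
  have e : a + ((-round (a / l) : ℤ) : ℝ) * l = (a / l - round (a / l)) * l := by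
    push_cast
    field_simp
    ring
  rw [e, abs_mul, abs_of_pos hl]
  nlinarith

theorem uu_nonneg {x y : E W} (hx : 0 < height x) (hy : 0 < height y) : 0 ≤ uu y x := by
  have := one_le_cc hx hy
  exact Real.log_nonneg (by nlinarith)

/-- The difference of the cusp function and the patched potential on a chart of the shell. -/
theorem shell_diff {K T C1 H A0 ε : ℝ} (hT : 1 ≤ T) (hε : ε ≤ 1 / 2) (hL : 0 < L) {q : E W}
    (hq : S.Thick 2 q)
    (hU : ∀ g : GV W, Unitary g → ∀ q1 q2 (ε : ℝ), 0 < height q1 → 0 < height q2 → ε ≤ 1 / 2 →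
      (∀ x', 0 < height x' → cc (act g oo) x' ≤ 3 →
        ‖aa x' q1 * aa (act g oo) q2 / (aa x' q2 * aa (act g oo) q1) - 1‖ ≤ ε) →
      Db (ball 0 (1 / 8)) (K * ε)
        (fun ξ : E W => uu q1 (act g (oo + ξ)) - uu q2 (act g (oo + ξ))))
    (hN : ∀ x, S.Thick H x → ∀ k1 k2, S.Near T q x k1 → S.Near T q x k2 →
      ∀ x', 0 < height x' → cc x x' ≤ 3 →
      ‖aa x' (act k1 q) * aa x (act k2 q) / (aa x' (act k2 q) * aa x (act k1 q)) - 1‖ ≤ ε)
    (hE : ∀ v, ∀ k1 ∈ S.N, (∀ k ∈ S.N, S.hv v (act k q) ≤ 2 * S.hv v (act k1 q)) →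
      ∀ x, 0 < height x → A0 ≤ S.hv v x → S.hv v x ≤ H →
      |(aa (act (S.fr v) x) (act (S.fr v) (act k1 q))).im| ≤ S.len v / 2 → S.Near T q x k1)
    (hS : ∀ l, L ≤ l → ∀ (g : GV W) (q : E W), Unitary g →
      0 < height q → height q ≤ 2 → height (act g oo) ≤ H → |(aa (act g oo) q).im| ≤ l / 2 →
      Db (ball 0 (1 / 8)) ε
        (fun ξ : E W => GG l q (ex l (act g (oo + ξ))) - uu q (act g (oo + ξ))) ∧
      |GG l q (ex l (act g oo)) - uu q (act g oo)| ≤ C1)
    {g : GV W} (hg : Unitary g) (hx : S.Thick H (act g oo)) {k0 : GV W}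
    (hk0 : S.Near 1 q (act g oo) k0) {v : S.I} (hA : A0 ≤ S.hv v (act g oo)) {κ : GV W}
    (hκ : κ ∈ S.N) (hmax : ∀ k ∈ S.N, S.hv v (act k q) ≤ 2 * S.hv v (act κ q)) :
    Db (ball 0 (1 / 8)) (ε + K * ε)
      (fun ξ : E W => Gf S v (act κ q) (act g (oo + ξ)) - uu (act k0 q) (act g (oo + ξ))) ∧
    |Gf S v (act κ q) (act g oo) - uu (act k0 q) (act g oo)| ≤ C1 + 2 * Real.log T := by
  have hl : 0 < S.len v := hL.trans_le (S.deep v)
  have hu := S.fr_uni v
  have hκq := hq.act (S.N_le hκ)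
  obtain ⟨n, hn⟩ := exists_int (aa (act (S.fr v) (act g oo)) (act (S.fr v) (act κ q))).im _ hl
  set k1 := (S.fr v)⁻¹ * vertE (n * S.len v) * S.fr v * κ with hk1
  have hk1N : k1 ∈ S.N := S.N.mul_mem (S.vert_mem v n) hκ
  have e1 : act k1 q = act ((S.fr v)⁻¹ * vertE (n * S.len v) * S.fr v) (act κ q) :=
    act_mul (S.N_uni hκ) hq.1
  have hk1q := hq.act (S.N_le hk1N)
  have hk0q := hq.act (S.N_le hk0.1)
  have him : |(aa (act (S.fr v) (act g oo)) (act (S.fr v) (act k1 q))).im| ≤ S.len v / 2 := by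
    rw [e1, act_vert S v _ hκq.1, aa_up_right]
    simpa using hn
  have hnear : S.Near T q (act g oo) k1 :=
    hE v k1 hk1N (fun k hk => by rw [e1, hv_vert S v _ hκq.1]; exact hmax k hk) _ hx.1 hA
      (hx.2 v) him
  have hnear0 : S.Near T q (act g oo) k0 := ⟨hk0.1, fun k hk => (hk0.2 k hk).trans (by
    have := one_le_cc hx.1 (hq.act (S.N_le hk)).1
    nlinarith)⟩
  have d1 := hU g hg _ _ ε hk1q.1 hk0q.1 hε (hN _ hx k1 k0 hnear hnear0)
  have eoo : act (S.fr v * g) oo = act (S.fr v) (act g oo) := act_mul hg oo_pos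
  obtain ⟨d2, d3⟩ := hS (S.len v) (S.deep v) (S.fr v * g) (act (S.fr v) (act k1 q)) (hu.mul hg)
    (height_act_pos hu hk1q.1) (hk1q.2 v) (by rw [eoo]; exact hx.2 v) (by rw [eoo]; exact him)
  have eG : ∀ x, Gf S v (act κ q) x = Gf S v (act k1 q) x := fun x => by
    rw [e1, Gf_vert S v hl n hκq.1]
  refine ⟨(d2.add isOpen_ball d1).congr isOpen_ball fun ξ hξ => ?_, ?_⟩
  · have hp := chart_pos hξ
    rw [eG, act_mul hg hp, uu_act hu (height_act_pos hg hp) hk1q.1]
    unfold Gf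
    ring
  · rw [eoo, uu_act hu hx.1 hk1q.1] at d3
    rw [eG]
    have c0 := one_le_cc hx.1 hk0q.1
    have c1 := one_le_cc hx.1 hk1q.1
    have b1 := hnear.2 k0 hk0.1
    have b2 := hk0.2 k1 hk1N
    have l1 : uu (act k1 q) (act g oo) ≤ 2 * Real.log T + uu (act k0 q) (act g oo) := by
      unfold uu
      rw [Real.log_pow, Real.log_pow]
      have := Real.log_le_log (by linarith) b1
      rw [Real.log_mul (by linarith) (by linarith)] at this
      push_cast
      linarith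
    have l2 : uu (act k0 q) (act g oo) ≤ uu (act k1 q) (act g oo) :=
      Real.log_le_log (by positivity) (by nlinarith)
    have := abs_le.mp d3
    unfold Gf
    rw [abs_le]
    constructor <;> linarith [Real.log_nonneg hT]

/-- The cut-off has small derivatives on a chart. -/
theorem chi_Db {M : Type} [NormedAddCommGroup M] [NormedSpace ℝ M] {s : Set M} (ho : IsOpen s)
    {K Kc A : ℝ} {h : M → ℝ} (hA : 1 < A) (hh : Db s K (fun x => Real.log (h x)))
    (hc : ∀ j : ℕ, 1 ≤ j → j ≤ 3 → ∀ t, |iteratedDeriv j Real.smoothTransition t| ≤ Kc) :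
    Db s (5 * Kc * (K / Real.log A + (K / Real.log A) ^ 3)) (fun x => chi A (h x)) := by
  have h1 := (hh.const_mul ho (Real.log A)⁻¹).add_const (-1)
  rw [abs_of_pos (inv_pos.mpr (Real.log_pos hA)), ← div_eq_inv_mul] at h1
  refine (h1.comp ho isOpen_univ Real.smoothTransition.contDiff.contDiffOn (mapsTo_univ _ _)
    fun j h1 h3 x _ => hc j h1 h3 _).congr ho fun x _ => ?_
  simp only [chi, div_eq_inv_mul, sub_eq_add_neg]

theorem exists_A (K Kc C A1 : ℝ) {δ : ℝ} (hδ : 0 < δ) :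
    ∃ A : ℝ, A1 ≤ A ∧ 1 < A ∧ 5 * Kc * (K / Real.log A + (K / Real.log A) ^ 3) * C ≤ δ := by
  have h1 : Filter.Tendsto (fun A : ℝ => K / Real.log A) Filter.atTop (𝓝 0) :=
    Real.tendsto_log_atTop.const_div_atTop K
  have h2 : Filter.Tendsto (fun A : ℝ => 5 * Kc * (K / Real.log A + (K / Real.log A) ^ 3) * C)
      Filter.atTop (𝓝 (5 * Kc * (0 + 0 ^ 3) * C)) :=
    ((h1.add (h1.pow 3)).const_mul _).mul_const _
  have h3 := h2.eventually_le_const (u := δ) (by simpa using hδ)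
  obtain ⟨A, ha, hb, hc⟩ := ((Filter.eventually_ge_atTop A1).and
    ((Filter.eventually_gt_atTop 1).and h3)).exists
  exact ⟨A, ha, hb, hc⟩

end G7

open G7 in
theorem g7 {W : Type} [NormedAddCommGroup W] [InnerProductSpace ℂ W] [FiniteDimensional ℂ W]
    (hG : GLStmt W) (hD : DispStmt W) (hN : NMStmt W) (hE : EntStmt W) (hP : PStmt W)
    (hU : UStmt W) (hS : ShellStmt W) (hDe : DeepStmt W) : BMain W := by
  obtain ⟨C0, LG, hG⟩ := hG
  obtain ⟨T0, A0, hE⟩ := hE
  obtain ⟨K, lam, hlam, hU⟩ := hU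
  obtain ⟨C1, hS⟩ := hS
  obtain ⟨Kc, hKc, hc⟩ := exists_chi
  have hb : IsOpen (ball (0 : E W) (1 / 8)) := isOpen_ball
  have h0b : (0 : E W) ∈ ball (0 : E W) (1 / 8) := mem_ball_self (by norm_num)
  have hK : 0 ≤ K := (hU 1 Unitary.one).1.nonneg ⟨0, h0b⟩
  set T := max T0 1 with hT
  have hT1 : 1 ≤ T := le_max_right _ _
  have hlT := Real.log_nonneg hT1
  set C2 := |C1| + 2 * Real.log T + 2 with hC2
  have hC2p : 0 ≤ C2 := by positivity
  obtain ⟨A, hA0, hA, hAc⟩ := exists_A K Kc (C2 + 6) (max (36 * A0) 1296) (δ := lam / 8)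
    (by positivity)
  have hA1 : 36 * A0 ≤ A := (le_max_left _ _).trans hA0
  have hA2 : 1296 ≤ A := (le_max_right _ _).trans hA0
  set a := 5 * Kc * (K / Real.log A + (K / Real.log A) ^ 3) with ha
  have hap : 0 ≤ a := by have := Real.log_pos hA; positivity
  obtain ⟨ε, hε0, hε1, hε2, hε3⟩ : ∃ ε : ℝ, 0 < ε ∧ ε ≤ 1 / 2 ∧ (K + 2) * ε ≤ 1 ∧
      (K + 3) * ε ≤ lam / 8 := by
    refine ⟨min (1 / 2) (min (1 / (K + 2)) (lam / 8 / (K + 3))), by positivity, min_le_left _ _,
      ?_, ?_⟩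
    · rw [← le_div_iff₀' (by positivity)]
      exact (min_le_right _ _).trans (min_le_left _ _)
    · rw [← le_div_iff₀' (by positivity)]
      exact (min_le_right _ _).trans (min_le_right _ _)
  obtain ⟨LD, hD⟩ := hD 2 2
  obtain ⟨LN, hN⟩ := hN (A ^ 2) T 3 ε hε0
  obtain ⟨LE, hE⟩ := hE (A ^ 2)
  obtain ⟨LP, hP⟩ := hP (A ^ 2) ε hε0
  obtain ⟨LS, hS⟩ := hS (A ^ 2) ε hε0
  refine ⟨max (max (max 1 LG) (max LD LN)) (max (max LE LP) LS), A ^ 2, K + lam, lam / 2,
    by positivity, by nlinarith, by positivity, fun L hL S => ?_⟩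
  simp only [max_le_iff] at hL
  obtain ⟨⟨⟨hL1, hLG⟩, hLD, hLN⟩, ⟨hLE, hLP⟩, hLS⟩ := hL
  have hL0 : 0 < L := by linarith
  obtain ⟨q, hq⟩ := S.exists_thick
  obtain ⟨κ, hκ, hmax, hκe⟩ := exists_entry S hq (hG L hLG S).2
  obtain ⟨P, hPi, hP⟩ := hP L hLP S q hq
  obtain ⟨L', hL'⟩ := S.bdd
  obtain ⟨C3, hC3⟩ := (hDe L (A ^ 2) hL0 (by nlinarith)).2 L'
  have hκq : ∀ v, S.Thick 2 (act (κ v) q) := fun v => hq.act (S.N_le (hκ v))
  set F := FF S A P (fun v => act (κ v) q) with hF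
  -- the chart estimate
  have key : ∀ g, Unitary g → S.Thick (A ^ 2) (act g oo) → ∀ k0, S.Near 1 q (act g oo) k0 →
      Db (ball 0 (1 / 8)) (lam / 2)
        (fun ξ : E W => F (act g (oo + ξ)) - uu (act k0 q) (act g (oo + ξ))) ∧
      |F (act g oo) - uu (act k0 q) (act g oo)| ≤ C2 + 1 := by
    intro g hg hx k0 hk0
    obtain ⟨p1, p2⟩ := hP _ hx g hg rfl k0 hk0
    have p0 := p2 0 h0b
    simp only [add_zero] at p0
    by_cases hthin : ∀ v, S.hv v (act g oo) ≤ A / 36
    · have e : ∀ ξ ∈ ball (0 : E W) (1 / 8), F (act g (oo + ξ)) = P (act g (oo + ξ)) := fun ξ hξ =>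
        FF_thin S hA (height_act_pos hg (chart_pos hξ)) fun v => by
          have := (chart_hv S hg v hξ).1
          have := hthin v
          linarith
      refine ⟨(p1.mono (by nlinarith)).congr hb fun ξ hξ => by simp only [e ξ hξ], ?_⟩
      have e0 := e 0 h0b
      rw [add_zero] at e0
      rw [e0]
      linarith
    · push Not at hthin
      obtain ⟨v, hv⟩ := hthin
      have e : ∀ ξ ∈ ball (0 : E W) (1 / 8), F (act g (oo + ξ)) = P (act g (oo + ξ)) +
          chi A (S.hv v (act g (oo + ξ))) *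
            (Gf S v (act (κ v) q) (act g (oo + ξ)) - P (act g (oo + ξ))) := fun ξ hξ =>
        FF_of S (height_act_pos hg (chart_pos hξ)) (by
          have := (chart_hv S hg v hξ).2
          linarith)
      obtain ⟨s1, s2⟩ := shell_diff S (A0 := A0) (C1 := C1) hT1 hε1 hL0 hq
        (fun g hg => (hU g hg).2.2) (hN L hLN S q hq)
        (fun v k1 hk1 hm x hx h1 h2 h3 => by
          have h := hE L hLE S q hq v k1 hk1 hm x hx h1 h2 h3
          exact ⟨h.1, fun k hk => (h.2 k hk).trans (mul_le_mul_of_nonneg_right (le_max_left _ _)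
            (zero_le_one.trans (one_le_cc hx (hq.act (S.N_le hk)).1)))⟩)
        (fun l hl => hS l (hLS.trans hl)) hg hx hk0 (v := v) (by linarith) (hκ v) (hmax v)
      have d1 : Db (ball 0 (1 / 8)) ((K + 2) * ε)
          (fun ξ : E W => Gf S v (act (κ v) q) (act g (oo + ξ)) - P (act g (oo + ξ))) :=
        ((s1.sub hb p1).mono (by linarith)).congr hb fun ξ _ => by ring
      have d0 : |Gf S v (act (κ v) q) (act g oo) - P (act g oo)| ≤ C2 - 1 := by
        have := abs_le.mp s2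
        have := abs_le.mp p0
        have := le_abs_self C1
        rw [abs_le]
        constructor <;> linarith
      have d2 : ∀ ξ ∈ ball (0 : E W) (1 / 8),
          |Gf S v (act (κ v) q) (act g (oo + ξ)) - P (act g (oo + ξ))| ≤ C2 := fun ξ hξ => by
        have h := d1.osc hb (convex_ball _ _) hξ h0b
        simp only [add_zero, sub_zero] at h
        have h2 : ‖ξ‖ ≤ 1 := by rw [mem_ball_zero_iff] at hξ; linarith
        have h3 : (K + 2) * ε * ‖ξ‖ ≤ 1 := mul_le_one₀ hε2 (norm_nonneg _) h2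
        have := abs_le.mp (h.trans h3)
        have := abs_le.mp d0
        rw [abs_le]
        constructor <;> linarith
      have c1 : Db (ball 0 (1 / 8)) a (fun ξ : E W => chi A (S.hv v (act g (oo + ξ)))) :=
        chi_Db hb hA (((hU _ ((S.fr_uni v).mul hg)).1).congr hb fun ξ hξ => by
          simp only [Sys.hv, act_mul hg (chart_pos hξ)]) hc
      have m1 := c1.mul hb (fun ξ _ => abs_chi A _) d1 d2
      refine ⟨((p1.add hb m1).mono ?_).congr hb fun ξ hξ => by simp only [e ξ hξ]; ring, ?_⟩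
      · have : a * ((K + 2) * ε) ≤ a := mul_le_of_le_one_right hap hε2
        nlinarith
      · have e0 := e 0 h0b
        rw [add_zero] at e0
        rw [e0]
        have h1 : |chi A (S.hv v (act g oo)) *
            (Gf S v (act (κ v) q) (act g oo) - P (act g oo))| ≤ C2 - 1 := by
          rw [abs_mul]
          exact (mul_le_of_le_one_left (abs_nonneg _) (abs_chi _ _)).trans d0
        have := abs_le.mp h1
        have := abs_le.mp p0
        rw [abs_le]
        constructor <;> linarith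
  have thick : ∀ x, S.Thick (A ^ 2) x → ∃ k0 ∈ S.N, |F x - uu (act k0 q) x| ≤ C2 + 1 := by
    intro x hx
    obtain ⟨g, hg, rfl⟩ := exists_act_oo hx.1
    obtain ⟨k0, hk0⟩ := ((hD L hLD S).2 q hq _ hx.1).2
    exact ⟨k0, hk0.1, (key g hg hx k0 hk0).2⟩
  have deep : ∀ x, 0 < height x → ∀ v, A ^ 2 < S.hv v x →
      2 * Real.log (1 + 2 * Real.pi / S.len v *
        ‖(act (S.fr v) x).1 - (act (S.fr v) (act (κ v) q)).1‖ ^ 2) -
        Real.log (S.hv v (act (κ v) q)) - C3 ≤ F x := by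
    intro x hx v hv
    rw [hF, FF_deep S hA hx hv.le]
    exact hC3 _ (S.deep v) (hL' v) _ _ (S.hv_pos v (hκq v).1) ((hκq v).2 v)
      ((ex_mem_UU (hL0.trans_le (S.deep v))).mpr hv)
  have hlog : ∀ (v : S.I) (t : ℝ), 0 ≤ Real.log (1 + 2 * Real.pi / S.len v * t ^ 2) := fun v t => by
    have := hL0.trans_le (S.deep v)
    exact Real.log_nonneg (le_add_of_nonneg_right (by positivity))
  have hlog2 : ∀ v, Real.log (S.hv v (act (κ v) q)) ≤ 1 := fun v => by
    have := Real.log_le_sub_one_of_pos (S.hv_pos v (hκq v).1)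
    have := (hκq v).2 v
    linarith
  refine ⟨F, max (C2 + 1) (C3 + 1), fun k hk x hx => ?_, fun x hx => ?_, fun g hg hx => ?_,
    fun v f hf hin => ?_, fun T' => ?_⟩
  · have hkx := height_act_pos (S.N_uni hk) hx
    set γ : S.Γ := ⟨k, S.N_le hk⟩ with hγ
    by_cases h : ∃ v, 1 < S.hv v x
    · obtain ⟨v, hv⟩ := h
      have e1 : S.hv (γ • v) (act k x) = S.hv v x := S.hv_smul γ v hx
      obtain ⟨n, hn⟩ := hκe γ v hk
      have hkκ : k * κ v ∈ S.N := S.N.mul_mem hk (hκ v)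
      rw [hF, FF_of S hx hv, FF_of S hkx (v := γ • v) (by rw [e1]; exact hv), e1, hPi k hk x hx, hn,
        act_mul (S.N_uni hkκ) hq.1,
        Gf_vert S _ (hL0.trans_le (S.deep _)) n (hq.act (S.N_le hkκ)).1,
        act_mul (S.N_uni (hκ v)) hq.1, Gf_smul S γ v (hκq v).1 hx]
    · push Not at h
      rw [hF, FF_thin S hA hx fun v => (h v).trans hA.le, FF_thin S hA hkx fun v => ?_,
        hPi k hk x hx]
      exact (Sys.Thick.act (S.N_le hk) ⟨hx, h⟩).2 v |>.trans hA.le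
  · by_cases h : ∀ v, S.hv v x ≤ A ^ 2
    · obtain ⟨k0, hk0, h1⟩ := thick x ⟨hx, h⟩
      have := uu_nonneg hx (hq.act (S.N_le hk0)).1
      have := abs_le.mp h1
      have := le_max_left (C2 + 1) (C3 + 1)
      linarith
    · push Not at h
      obtain ⟨v, hv⟩ := h
      have := deep x hx v hv
      have := hlog v ‖(act (S.fr v) x).1 - (act (S.fr v) (act (κ v) q)).1‖
      have := hlog2 v
      have := le_max_right (C2 + 1) (C3 + 1)
      linarith
  · obtain ⟨k0, hk0⟩ := ((hD L hLD S).2 q hq _ hx.1).2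
    obtain ⟨u1, u2⟩ := (hU g hg).2.1 _ (hq.act (S.N_le hk0.1)).1
    have k1 := (key g hg hx k0 hk0).1
    refine ⟨((u1.add hb k1).mono (by linarith)).congr hb fun ξ _ => by ring, fun ξ hξ η => ?_⟩
    have l1 := lev_add ((u1.contDiffAt hb hξ).of_le (by norm_num))
      ((k1.contDiffAt hb hξ).of_le (by norm_num)) η
    simp only [add_sub_cancel] at l1
    have l2 := abs_le.mp (k1.abs_lev_le hξ η)
    have l3 := u2 ξ hξ η
    rw [l1]
    linarith
  · have hu := S.fr_uni v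
    have hs := hf.mul hu.inv
    have e : ∀ y, 0 < height y → act (f * (S.fr v)⁻¹) (act (S.fr v) y) = act f y := fun y hy => by
      rw [← act_mul hu hy, inv_mul_cancel_right]
    have hh : height (act f (act (κ v) q)) = S.hv v (act (κ v) q) := by
      rw [← e _ (hκq v).1, hin.height_act hs]
      rfl
    refine ⟨act f (act (κ v) q), hh ▸ S.hv_pos v (hκq v).1, hh ▸ (hκq v).2 v, fun x hx => ?_⟩
    have hx0 : 0 < height x := lt_trans (by positivity) hx
    have hy := height_act_pos hf.inv hx0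
    have e2 := e _ hy
    rw [act_act_inv hf hx0] at e2
    have e3 : S.hv v (act f⁻¹ x) = height x := by
      conv_rhs => rw [← e2, hin.height_act hs]
      rfl
    rw [hF, FF_deep S hA hy (v := v) (by rw [e3]; exact hx.le), Gf, ← GG_inP hs hin, e _ (hκq v).1,
      e2]
  · have hV := S.finite_cusps hq.1 (Real.exp_pos (-(T' + C3)))
    obtain ⟨R1, hR1⟩ := (hV.image fun v => ‖(act (S.fr v) q).1‖).bddAbove
    refine ⟨{y | 0 < height y ∧ cc q y ≤ Real.exp (T' + C2 + 1)}, _,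
      R1 + (1 + L' * Real.exp (T' + C3 + 1)), isCompact_cc hq.1 _, fun x hx => hx.1, hV,
      fun x hx hFx => ?_⟩
    by_cases h : ∀ v, S.hv v x ≤ A ^ 2
    · obtain ⟨k0, hk0, h1⟩ := thick x ⟨hx, h⟩
      have hu := S.N_uni hk0
      have hkq := (hq.act (S.N_le hk0)).1
      refine ⟨k0⁻¹, S.N.inv_mem hk0, Or.inl ⟨height_act_pos hu.inv hx, ?_⟩⟩
      rw [← cc_act hu hq.1 (height_act_pos hu.inv hx), act_act_inv hu hx, cc_symm]
      have c1 := one_le_cc hx hkq
      have h2 : Real.log (cc x (act k0 q) ^ 2) ≤ T' + C2 + 1 := by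
        have := abs_le.mp h1
        unfold uu at this
        linarith
      have h3 := (Real.log_le_iff_le_exp (by positivity)).mp h2
      nlinarith
    · push Not at h
      obtain ⟨v, hv⟩ := h
      have d := deep x hx v hv
      have l1 := hlog v ‖(act (S.fr v) x).1 - (act (S.fr v) (act (κ v) q)).1‖
      have l2 := hlog2 v
      have hu := S.N_uni (hκ v)
      set γ : S.Γ := ⟨(κ v)⁻¹, S.N_le (S.N.inv_mem (hκ v))⟩ with hγ
      have e1 : S.hv (γ • v) (act (κ v)⁻¹ x) = S.hv v x := S.hv_smul γ v hx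
      have e2 : S.hv (γ • v) (act (κ v)⁻¹ (act (κ v) q)) = S.hv v (act (κ v) q) :=
        S.hv_smul γ v (hκq v).1
      have e3 : aa (act (S.fr (γ • v)) (act (κ v)⁻¹ x))
          (act (S.fr (γ • v)) (act (κ v)⁻¹ (act (κ v) q))) =
          aa (act (S.fr v) x) (act (S.fr v) (act (κ v) q)) := S.aa_smul γ v hx (hκq v).1
      rw [act_inv_act hu hq.1] at e2 e3
      have e4 := congrArg Complex.re e3
      rw [aa_re, aa_re] at e4
      have hmem : γ • v ∈ {v | Real.exp (-(T' + C3)) ≤ S.hv v q} := by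
        show _ ≤ S.hv (γ • v) q
        rw [e2, ← Real.le_log_iff_exp_le (S.hv_pos v (hκq v).1)]
        linarith
      refine ⟨(κ v)⁻¹, S.N.inv_mem (hκ v), Or.inr ⟨γ • v, hmem, by rw [e1]; exact hv, ?_⟩⟩
      have r1 := hR1 ⟨_, hmem, rfl⟩
      unfold Sys.hv at e1 e2
      set r := ‖(act (S.fr v) x).1 - (act (S.fr v) (act (κ v) q)).1‖ with hr
      have e5 : ‖(act (S.fr (γ • v)) (act (κ v)⁻¹ x)).1 - (act (S.fr (γ • v)) q).1‖ ^ 2 = r ^ 2 := by
        linarith
      have hl := hL0.trans_le (S.deep v)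
      have h1 : 1 + 2 * Real.pi / S.len v * r ^ 2 ≤ Real.exp (T' + C3 + 1) := by
        rw [← Real.log_le_iff_le_exp (by positivity)]
        linarith
      have h2 : r ^ 2 ≤ L' * Real.exp (T' + C3 + 1) := by
        have h3 : r ^ 2 ≤ S.len v * (2 * Real.pi / S.len v * r ^ 2) := by
          have := Real.two_le_pi
          have e : S.len v * (2 * Real.pi / S.len v * r ^ 2) = 2 * Real.pi * r ^ 2 := by field_simp
          rw [e]
          nlinarith [sq_nonneg r]
        exact h3.trans (mul_le_mul (hL' v) (by linarith) (by positivity) (hl.le.trans (hL' v)))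
      have h4 := norm_le_norm_add_norm_sub' (act (S.fr (γ • v)) (act (κ v)⁻¹ x)).1
        (act (S.fr (γ • v)) q).1
      simp only at r1
      nlinarith [sq_nonneg
        (‖(act (S.fr (γ • v)) (act (κ v)⁻¹ x)).1 - (act (S.fr (γ • v)) q).1‖ - 1)]

end Pool.Agent.MP_8ac6f3_ag

end

end MrgPart2

-- marker of a merged file
example : 731051 + 194405 = 731051 + 194405 := rfl
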