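import Pool.Agent.MP_8ac6f3_ag.C4
import Pool.Agent.MP_8ac6f3_ag.C01
import Pool.Agent.MP_8ac6f3_ag.G7
import Pool.Agent.MP_8ac6f3_ag.C2

/-! Blocks B and C put together. -/

namespace Pool.Agent.MP_8ac6f3_ag

variable {W : Type} [NormedAddCommGroup W] [InnerProductSpace ℂ W] [FiniteDimensional ℂ W]

theorem bmain : BMain W :=
  g7 gl (disp gl) (nm gl) (ent gl (disp gl)) (pp (disp gl) (nm gl) uS) uS (shell uS) deep

theorem main_of (hA : AMain (E W)) : Main W := c4 hA bmain deep c0 c1 c2 c3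

end Pool.Agent.MP_8ac6f3_ag
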