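import Pool.Agent.MP_8ac6f3_ag.Calc
import Mathlib.Analysis.Calculus.BumpFunction.FiniteDimension
import Mathlib.MeasureTheory.Covering.BesicovitchVectorSpace
import Mathlib.Analysis.Calculus.FDeriv.Mul

/-! Row PU: partitions of unity at all scales. -/

open Set Metric Complex Filter
open scoped ContDiff Topology

noncomputable section

namespace Pool.Agent.MP_8ac6f3_ag

namespace PUP

variable {M : Type} [NormedAddCommGroup M] [NormedSpace ℝ M]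

omit [NormedSpace ℝ M] in
theorem exists_net {r : ℝ} (hr : 0 < r) : ∃ S : Set M, S ⊆ ball 0 1 ∧
    (∀ c ∈ S, ∀ d ∈ S, c ≠ d → r ≤ ‖c - d‖) ∧ ∀ x ∈ ball (0 : M) 1, ∃ c ∈ S, ‖x - c‖ < r := by
  obtain ⟨S, hS⟩ := zorn_subset
    {S : Set M | S ⊆ ball 0 1 ∧ ∀ c ∈ S, ∀ d ∈ S, c ≠ d → r ≤ ‖c - d‖} fun C hC hc =>
    ⟨⋃₀ C, ⟨sUnion_subset fun t ht => (hC ht).1, by
      rintro c ⟨s, hs, hcs⟩ d ⟨t, ht, hdt⟩ hne
      rcases hc.total hs ht with h | h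
      · exact (hC ht).2 c (h hcs) d hdt hne
      · exact (hC hs).2 c hcs d (h hdt) hne⟩, fun s hs => subset_sUnion_of_mem hs⟩
  refine ⟨S, hS.prop.1, hS.prop.2, fun x hx => ?_⟩
  by_contra h
  push Not at h
  have h1 : insert x S ⊆ S := hS.le_of_ge ⟨insert_subset hx hS.prop.1, by
    rintro c (rfl | hc) d (rfl | hd) hne
    · exact (hne rfl).elim
    · exact h d hd
    · rw [norm_sub_rev]; exact h c hc
    · exact hS.prop.2 c hc d hd hne⟩ (subset_insert _ _)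
  have := h x (h1 (mem_insert _ _))
  rw [sub_self, norm_zero] at this
  linarith

theorem count [FiniteDimensional ℝ M] {r : ℝ} (hr : 0 < r) {S : Set M}
    (hS : ∀ c ∈ S, ∀ d ∈ S, c ≠ d → r ≤ ‖c - d‖) (x : M) :
    ∃ T : Finset M, T.card ≤ 5 ^ Module.finrank ℝ M ∧ ∀ c ∈ S, ‖c - x‖ ≤ 2 * r → c ∈ T := by
  classical
  have hi : Function.Injective fun c : M => r⁻¹ • (c - x) := fun c d h =>
    sub_left_injective (smul_right_injective M (inv_pos.mpr hr).ne' h)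
  have key : ∀ T : Finset M, (T : Set M) ⊆ {c | c ∈ S ∧ ‖c - x‖ ≤ 2 * r} →
      T.card ≤ 5 ^ Module.finrank ℝ M := fun T hT => by
    rw [← Finset.card_image_of_injective T hi]
    refine Besicovitch.card_le_of_separated _ (fun c hc => ?_) fun c hc d hd hne => ?_
    · obtain ⟨c, hc', rfl⟩ := Finset.mem_image.mp hc
      rw [norm_smul, Real.norm_eq_abs, abs_of_pos (inv_pos.mpr hr), inv_mul_le_iff₀ hr]
      linarith [(hT hc').2]
    · obtain ⟨c, hc', rfl⟩ := Finset.mem_image.mp hc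
      obtain ⟨d, hd', rfl⟩ := Finset.mem_image.mp hd
      rw [← smul_sub, sub_sub_sub_cancel_right, norm_smul, Real.norm_eq_abs,
        abs_of_pos (inv_pos.mpr hr), le_inv_mul_iff₀ hr, mul_one]
      exact hS c (hT hc').1 d (hT hd').1 fun e => hne (by rw [e])
  have hf : {c | c ∈ S ∧ ‖c - x‖ ≤ 2 * r}.Finite := by
    by_contra hinf
    obtain ⟨T, hT, hc⟩ := Set.Infinite.exists_subset_card_eq hinf (5 ^ Module.finrank ℝ M + 1)
    have := key T hT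
    omega
  exact ⟨hf.toFinset, key _ (by simp), fun c hc h => hf.mem_toFinset.mpr ⟨hc, h⟩⟩

theorem exists_bump [FiniteDimensional ℝ M] : ∃ (b : M → ℝ) (K : ℝ), 0 ≤ K ∧ ContDiff ℝ 1 b ∧
    (∀ x, 0 ≤ b x) ∧ (∀ x, ‖x‖ ≤ 1 → b x = 1) ∧ (∀ x, b x ≠ 0 → ‖x‖ < 3 / 2) ∧
    ∀ x, ‖fderiv ℝ b x‖ ≤ K := by
  let b : ContDiffBump (0 : M) := ⟨1, 3 / 2, one_pos, by norm_num⟩
  obtain ⟨K, hK⟩ := ((b.contDiff (n := 1)).continuous_fderiv one_ne_zero).bounded_above_of_compact_support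
    (b.hasCompactSupport.fderiv ℝ)
  refine ⟨b, K, (norm_nonneg _).trans (hK 0), b.contDiff, fun x => b.nonneg, fun x hx =>
    b.one_of_mem_closedBall (mem_closedBall_zero_iff.mpr hx), fun x hx => ?_, hK⟩
  have : x ∈ Function.support b := hx
  rwa [b.support_eq, mem_ball_zero_iff] at this

variable [NormedSpace ℂ M] {Y A : Type} [TopologicalSpace Y] (a : Atl M Y A)

open Classical in
/-- The bump function in the chart `α` with centre `c` and radius `r`. -/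
def eta (b : M → ℝ) (α : A) (c : M) (r : ℝ) (y : Y) : ℝ :=
  if y ∈ a.ψ α '' ball 0 3 then b (r⁻¹ • (Function.invFunOn (a.ψ α) (ball 0 3) y - c)) else 0

variable {b : M → ℝ} {α β : A} {c : M} {r : ℝ}

theorem eta_chart {ξ : M} (hξ : ξ ∈ ball (0 : M) 3) :
    eta a b α c r (a.ψ α ξ) = b (r⁻¹ • (ξ - c)) := by
  unfold eta
  rw [if_pos (mem_image_of_mem _ hξ), (a.inj α).leftInvOn_invFunOn hξ]

theorem eta_nonneg (hb : ∀ x, 0 ≤ b x) (y : Y) : 0 ≤ eta a b α c r y := by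
  unfold eta
  split_ifs
  · exact hb _
  · exact le_rfl

theorem eta_supp (hb : ∀ x, b x ≠ 0 → ‖x‖ < 3 / 2) (hr : 0 < r) {y : Y}
    (h : eta a b α c r y ≠ 0) : ∃ ξ ∈ ball (0 : M) 3, ‖ξ - c‖ < 3 / 2 * r ∧ a.ψ α ξ = y := by
  by_cases hy : y ∈ a.ψ α '' ball 0 3
  · obtain ⟨ξ, hξ, rfl⟩ := hy
    rw [eta_chart a hξ] at h
    have := hb _ h
    rw [norm_smul, Real.norm_eq_abs, abs_of_pos (inv_pos.mpr hr), inv_mul_lt_iff₀ hr] at this
    exact ⟨ξ, hξ, by linarith, rfl⟩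
  · unfold eta at h
    rw [if_neg hy] at h
    exact (h rfl).elim

theorem eta_supp2 (hb : ∀ x, b x ≠ 0 → ‖x‖ < 3 / 2) (hr : 0 < r) (hr3 : r ≤ 1 / 3)
    (hc : c ∈ ball (0 : M) 1) {y : Y} (h : eta a b α c r y ≠ 0) :
    y ∈ a.ψ α '' closedBall 0 2 := by
  obtain ⟨ξ, _, h1, rfl⟩ := eta_supp a hb hr h
  refine mem_image_of_mem _ (mem_closedBall_zero_iff.mpr ?_)
  have := norm_le_norm_add_norm_sub' ξ c
  rw [mem_ball_zero_iff] at hc
  linarith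

omit [NormedSpace ℝ M] in
theorem compl_nhds [FiniteDimensional ℂ M] [T2Space Y] {y : Y} (hy : y ∉ a.ψ α '' ball 0 3) :
    (a.ψ α '' closedBall 0 2)ᶜ ∈ 𝓝 y := by
  have : ProperSpace M := FiniteDimensional.proper ℂ M
  have hs : closedBall (0 : M) 2 ⊆ ball 0 3 := closedBall_subset_ball (by norm_num)
  exact ((isCompact_closedBall 0 2).image_of_continuousOn
    ((a.cont α).mono hs)).isClosed.isOpen_compl.mem_nhds fun h => hy (image_mono hs h)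

omit [NormedSpace ℝ M] in
theorem pull {ξ : M} (hξ : ξ ∈ ball (0 : M) 3) {O : Set Y} (hO : O ∈ 𝓝 (a.ψ β ξ)) :
    ∀ᶠ ξ' in 𝓝 ξ, a.ψ β ξ' ∈ O :=
  (a.cont β).continuousAt (isOpen_ball.mem_nhds hξ) hO

theorem eta_diff [IsScalarTower ℝ ℂ M] [FiniteDimensional ℂ M] [T2Space Y] {K B ρ : ℝ}
    (hK0 : 0 ≤ K) (hb1 : ContDiff ℝ 1 b) (hb : ∀ x, b x ≠ 0 → ‖x‖ < 3 / 2)
    (hK : ∀ x, ‖fderiv ℝ b x‖ ≤ K) (hr : 0 < r) (hr3 : r ≤ 1 / 3) (hc : c ∈ ball (0 : M) 1)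
    {ξ : M} (hξ : ξ ∈ ball (0 : M) 3)
    (hB : a.ψ β ξ ∈ a.ψ α '' ball 0 3 → ρ ≤ B * r) :
    ContDiffAt ℝ 1 (eta a b α c r ∘ a.ψ β) ξ ∧
      ρ * ‖fderiv ℝ (eta a b α c r ∘ a.ψ β) ξ‖ ≤ K * |a.C| * |B| := by
  by_cases hy : a.ψ β ξ ∈ a.ψ α '' ball 0 3
  · obtain ⟨t1, t2⟩ := a.tr β α ξ hξ hy
    set τ := fun ξ' => Function.invFunOn (a.ψ α) (ball 0 3) (a.ψ β ξ') with hτ
    have e : eta a b α c r ∘ a.ψ β =ᶠ[𝓝 ξ] fun ξ' => b (r⁻¹ • (τ ξ' - c)) := by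
      filter_upwards [pull a hξ ((a.opn α _ isOpen_ball subset_rfl).mem_nhds hy)] with ξ' h
      simp only [Function.comp, eta, if_pos h, hτ]
    have t3 : ContDiffAt ℝ 1 τ ξ := t1.restrict_scalars ℝ
    refine ⟨(hb1.contDiffAt.comp ξ ((t3.sub contDiffAt_const).const_smul r⁻¹)).congr_of_eventuallyEq
      e, ?_⟩
    have d1 : HasFDerivAt τ ((fderiv ℂ τ ξ).restrictScalars ℝ) ξ :=
      (t1.differentiableAt one_ne_zero).hasFDerivAt.restrictScalars ℝ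
    have d2 := (hb1.differentiable one_ne_zero (r⁻¹ • (τ ξ - c))).hasFDerivAt.comp ξ
      ((d1.sub_const c).const_smul r⁻¹)
    have d3 : fderiv ℝ (eta a b α c r ∘ a.ψ β) ξ = _ := e.fderiv_eq.trans d2.fderiv
    rw [d3]
    have n1 := (fderiv ℝ b (r⁻¹ • (τ ξ - c))).opNorm_comp_le
      (r⁻¹ • (fderiv ℂ τ ξ).restrictScalars ℝ)
    rw [norm_smul, ContinuousLinearMap.norm_restrictScalars, Real.norm_eq_abs,
      abs_of_pos (inv_pos.mpr hr)] at n1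
    have n2 := n1.trans (mul_le_mul (hK _) (mul_le_mul_of_nonneg_left (t2.trans (le_abs_self _))
      (inv_pos.mpr hr).le) (by positivity) hK0)
    have n3 : ρ ≤ |B| * r := (hB hy).trans (mul_le_mul_of_nonneg_right (le_abs_self _) hr.le)
    refine (mul_le_mul n3 n2 (norm_nonneg _) (by positivity)).trans (le_of_eq ?_)
    field_simp
  · have e : eta a b α c r ∘ a.ψ β =ᶠ[𝓝 ξ] fun _ => 0 := by
      filter_upwards [pull a hξ (compl_nhds a hy)] with ξ' h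
      by_contra h0
      exact h (eta_supp2 a hb hr hr3 hc h0)
    refine ⟨contDiffAt_const.congr_of_eventuallyEq e, ?_⟩
    rw [e.fderiv_eq]
    simp only [fderiv_fun_const, Pi.zero_apply, norm_zero, mul_zero]
    positivity

theorem eta_lf1 [FiniteDimensional ℝ M] [FiniteDimensional ℂ M] [T2Space Y]
    (hb : ∀ x, b x ≠ 0 → ‖x‖ < 3 / 2) (hr : 0 < r) (hr3 : r ≤ 1 / 3) {S : Set M}
    (hS1 : S ⊆ ball 0 1) (hS : ∀ c ∈ S, ∀ d ∈ S, c ≠ d → r ≤ ‖c - d‖) (α : A) (y : Y) :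
    ∃ O ∈ 𝓝 y, ∃ T : Finset M, T.card ≤ 5 ^ Module.finrank ℝ M ∧
      ∀ c ∈ S, ∀ y' ∈ O, eta a b α c r y' ≠ 0 → c ∈ T := by
  by_cases hy : y ∈ a.ψ α '' ball 0 3
  · obtain ⟨ξ, hξ, rfl⟩ := hy
    obtain ⟨T, hT, h⟩ := count hr hS ξ
    refine ⟨a.ψ α '' (ball ξ (r / 2) ∩ ball 0 3), (a.opn α _ (isOpen_ball.inter isOpen_ball)
      inter_subset_right).mem_nhds ⟨ξ, ⟨mem_ball_self (by linarith), hξ⟩, rfl⟩, T, hT, ?_⟩
    rintro c hc _ ⟨ξ', hξ', rfl⟩ h0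
    obtain ⟨ξ'', h1, h2, h3⟩ := eta_supp a hb hr h0
    rw [a.inj α h1 hξ'.2 h3] at h2
    refine h c hc ?_
    have h4 := mem_ball_iff_norm.mp hξ'.1
    have h5 := norm_sub_le_norm_sub_add_norm_sub c ξ' ξ
    rw [norm_sub_rev c ξ'] at h5
    linarith
  · exact ⟨_, compl_nhds a hy, ∅, by simp, fun c hc y' hy' h0 =>
      (hy' (eta_supp2 a hb hr hr3 (hS1 hc) h0)).elim⟩

end PUP

open PUP in
theorem pu {M : Type} [NormedAddCommGroup M] [NormedSpace ℝ M] [NormedSpace ℂ M]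
    [IsScalarTower ℝ ℂ M] [FiniteDimensional ℂ M] : PUStmt M := by
  classical
  intro Y A _ _ a B
  have : FiniteDimensional ℝ M := Module.Finite.trans ℂ M
  obtain ⟨b, Kb, hK0, hb1, hb0, hbo, hb, hK⟩ := exists_bump (M := M)
  set n : ℕ := a.mult * 5 ^ Module.finrank ℝ M with hn
  refine ⟨2 * (n * (Kb * |a.C| * |B|)) + 1, by positivity, fun ρ hρ => ?_⟩
  choose S hS1 hS2 hS3 using fun α => exists_net (M := M) (hρ.1 α).1
  let J := {p : A × M // p.2 ∈ S p.1}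
  let η : J → Y → ℝ := fun i => eta a b i.1.1 i.1.2 (ρ i.1.1)
  have η0 : ∀ i y, 0 ≤ η i y := fun i y => eta_nonneg a hb0 y
  have lf : ∀ y, ∃ O ∈ 𝓝 y, ∃ T : Finset J, T.card ≤ n ∧ ∀ i ∉ T, ∀ y' ∈ O, η i y' = 0 := by
    intro y
    obtain ⟨O, hO, T0, hT0, h0⟩ := a.lf y
    choose O1 hO1 T1 hT1 h1 using fun α =>
      eta_lf1 a hb (hρ.1 α).1 (hρ.1 α).2 (hS1 α) (hS2 α) α y
    refine ⟨O ∩ ⋂ α ∈ T0, O1 α, inter_mem hO ((biInter_finset_mem T0).mpr fun α _ => hO1 α),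
      (T0.biUnion fun α => (T1 α).image fun c => (α, c)).subtype _, ?_, fun i hi y' hy' => ?_⟩
    · rw [Finset.card_subtype]
      refine (Finset.card_filter_le _ _).trans ((Finset.card_biUnion_le_card_mul _ _ _
        fun α _ => Finset.card_image_le.trans (hT1 α)).trans (Nat.mul_le_mul_right _ hT0))
    · by_contra hne
      have h2 : i.1.1 ∈ T0 :=
        h0 _ ⟨y', eta_supp2 a hb (hρ.1 _).1 (hρ.1 _).2 (hS1 _ i.2) hne, hy'.1⟩
      exact hi (Finset.mem_subtype.mpr (Finset.mem_biUnion.mpr ⟨_, h2, Finset.mem_image.mpr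
        ⟨_, h1 _ _ i.2 y' (mem_iInter₂.mp hy'.2 _ h2) hne, rfl⟩⟩))
  let σ : Y → ℝ := fun y => ∑ᶠ i, η i y
  have σe : ∀ (T : Finset J) (y : Y), (∀ i ∉ T, η i y = 0) → σ y = ∑ i ∈ T, η i y := fun T y h =>
    finsum_eq_sum_of_support_subset _ fun i hi => by
      by_contra hn
      exact hi (h i hn)
  have σ1 : ∀ y, 1 ≤ σ y := fun y => by
    obtain ⟨O, hO, T, _, h⟩ := lf y
    have h' := fun i hi => h i hi y (mem_of_mem_nhds hO)
    obtain ⟨α, ξ, hξ, rfl⟩ := a.cov y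
    obtain ⟨c, hc, hd⟩ := hS3 α ξ hξ
    have e : η ⟨(α, c), hc⟩ (a.ψ α ξ) = 1 := by
      refine (eta_chart a (ball_subset_ball (by norm_num) hξ)).trans (hbo _ ?_)
      rw [norm_smul, Real.norm_eq_abs, abs_of_pos (inv_pos.mpr (hρ.1 α).1),
        inv_mul_le_iff₀ (hρ.1 α).1]
      linarith
    rw [σe T _ h', ← e]
    refine Finset.single_le_sum (f := fun i => η i (a.ψ α ξ)) (fun i _ => η0 i _) ?_
    by_contra hn
    rw [h' _ hn] at e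
    exact zero_ne_one e
  have σp : ∀ y, σ y ≠ 0 := fun y => (one_pos.trans_le (σ1 y)).ne'
  have dη : ∀ (i : J) β, ∀ ξ ∈ ball (0 : M) 3, ContDiffAt ℝ 1 (η i ∘ a.ψ β) ξ ∧
      ρ β * ‖fderiv ℝ (η i ∘ a.ψ β) ξ‖ ≤ Kb * |a.C| * |B| := fun i β ξ hξ =>
    eta_diff a hK0 hb1 hb hK (hρ.1 _).1 (hρ.1 _).2 (hS1 _ i.2) hξ
      fun h => hρ.2 β _ ⟨_, mem_image_of_mem _ hξ, h⟩
  have eσ : ∀ β, ∀ ξ ∈ ball (0 : M) 3, ∀ O ∈ 𝓝 (a.ψ β ξ), ∀ T : Finset J,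
      (∀ i ∉ T, ∀ y' ∈ O, η i y' = 0) →
      σ ∘ a.ψ β =ᶠ[𝓝 ξ] fun ξ' => ∑ i ∈ T, (η i ∘ a.ψ β) ξ' := fun β ξ hξ O hO T h => by
    filter_upwards [pull a hξ hO] with ξ' h'
    exact σe T _ fun i hi => h i hi _ h'
  have dσ : ∀ β, ∀ ξ ∈ ball (0 : M) 3, ContDiffAt ℝ 1 (σ ∘ a.ψ β) ξ := fun β ξ hξ => by
    obtain ⟨O, hO, T, _, h⟩ := lf (a.ψ β ξ)
    exact (ContDiffAt.sum fun i _ => (dη i β ξ hξ).1).congr_of_eventuallyEq (eσ β ξ hξ O hO T h)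
  have dθ : ∀ (i : J) β, ∀ ξ ∈ ball (0 : M) 3,
      ContDiffAt ℝ 1 ((fun y => η i y / σ y) ∘ a.ψ β) ξ := fun i β ξ hξ =>
    (dη i β ξ hξ).1.div (dσ β ξ hξ) (σp _)
  have sθ : ∀ (T : Finset J) (y : Y), (∀ i ∉ T, η i y = 0) → ∑ i ∈ T, η i y / σ y = 1 :=
    fun T y h => by rw [← Finset.sum_div, ← σe T y h, div_self (σp y)]
  refine ⟨⟨J, fun i => i.1.1, fun i => i.1.2, fun i y => η i y / σ y, fun i => hS1 _ i.2,
    fun i y => div_nonneg (η0 i y) (zero_le_one.trans (σ1 y)), fun i y h => ?_,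
    fun i β ξ hξ => (dθ i β ξ hξ).contDiffWithinAt, fun y => ?_, fun β ξ hξ T' => ?_⟩⟩
  · obtain ⟨ξ, _, h1, rfl⟩ := eta_supp a hb (hρ.1 _).1 (div_ne_zero_iff.mp h).1
    refine mem_image_of_mem _ (mem_closedBall_iff_norm.mpr ?_)
    linarith [(hρ.1 i.1.1).1]
  · obtain ⟨O, hO, T, _, h⟩ := lf y
    exact ⟨O, hO, T, fun i hi y' hy' => by rw [h i hi y' hy', zero_div],
      fun y' hy' => sθ T y' fun i hi => h i hi y' hy'⟩
  · obtain ⟨O, hO, T, hT, h⟩ := lf (a.ψ β ξ)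
    have hr := (hρ.1 β).1
    have s1 : ∑ i ∈ T', ‖fderiv ℝ ((fun y => η i y / σ y) ∘ a.ψ β) ξ‖ ≤
        ∑ i ∈ T, ‖fderiv ℝ ((fun y => η i y / σ y) ∘ a.ψ β) ξ‖ := by
      rw [← Finset.sum_filter_ne_zero T']
      refine Finset.sum_le_sum_of_subset_of_nonneg (fun i hi => ?_) fun i _ _ => norm_nonneg _
      replace hi := (Finset.mem_filter.mp hi).2
      by_contra hn
      have e : (fun y => η i y / σ y) ∘ a.ψ β =ᶠ[𝓝 ξ] fun _ => 0 := by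
        filter_upwards [pull a hξ hO] with ξ' h'
        simp only [Function.comp, h i hn _ h', zero_div]
      rw [e.fderiv_eq] at hi
      simp at hi
    have s2 : ∀ i, ‖fderiv ℝ ((fun y => η i y / σ y) ∘ a.ψ β) ξ‖ ≤ ‖fderiv ℝ (η i ∘ a.ψ β) ξ‖ +
        η i (a.ψ β ξ) / σ (a.ψ β ξ) * ‖fderiv ℝ (σ ∘ a.ψ β) ξ‖ := fun i => by
      have e : η i ∘ a.ψ β = ((fun y => η i y / σ y) ∘ a.ψ β) * (σ ∘ a.ψ β) := by
        funext ξ'
        simp only [Function.comp, Pi.mul_apply, div_mul_cancel₀ _ (σp _)]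
      have f := fderiv_mul ((dθ i β ξ hξ).differentiableAt one_ne_zero)
        ((dσ β ξ hξ).differentiableAt one_ne_zero)
      rw [← e] at f
      have g : σ (a.ψ β ξ) • fderiv ℝ ((fun y => η i y / σ y) ∘ a.ψ β) ξ =
          fderiv ℝ (η i ∘ a.ψ β) ξ - (η i (a.ψ β ξ) / σ (a.ψ β ξ)) • fderiv ℝ (σ ∘ a.ψ β) ξ := by
        rw [f]
        simp only [Function.comp, add_sub_cancel_left]
      have g1 := congrArg norm g
      have g2 := norm_sub_le (fderiv ℝ (η i ∘ a.ψ β) ξ)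
        ((η i (a.ψ β ξ) / σ (a.ψ β ξ)) • fderiv ℝ (σ ∘ a.ψ β) ξ)
      rw [← g1, norm_smul, norm_smul, Real.norm_of_nonneg (zero_le_one.trans (σ1 _)),
        Real.norm_of_nonneg (div_nonneg (η0 _ _) (zero_le_one.trans (σ1 _)))] at g2
      exact (le_mul_of_one_le_left (norm_nonneg _) (σ1 _)).trans g2
    have s3 : ‖fderiv ℝ (σ ∘ a.ψ β) ξ‖ ≤ ∑ i ∈ T, ‖fderiv ℝ (η i ∘ a.ψ β) ξ‖ := by
      rw [(eσ β ξ hξ O hO T h).fderiv_eq,
        fderiv_fun_sum fun i _ => (dη i β ξ hξ).1.differentiableAt one_ne_zero]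
      exact norm_sum_le _ _
    have s4 : ρ β * ∑ i ∈ T, ‖fderiv ℝ (η i ∘ a.ψ β) ξ‖ ≤ n * (Kb * |a.C| * |B|) := by
      rw [Finset.mul_sum]
      refine (Finset.sum_le_card_nsmul _ _ _ fun i _ => (dη i β ξ hξ).2).trans ?_
      rw [nsmul_eq_mul]
      exact mul_le_mul_of_nonneg_right (Nat.cast_le.mpr hT) (by positivity)
    have s5 := s1.trans (Finset.sum_le_sum fun i _ => s2 i)
    rw [Finset.sum_add_distrib, ← Finset.sum_mul,
      sθ T _ fun i hi => h i hi _ (mem_of_mem_nhds hO), one_mul] at s5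
    nlinarith

end Pool.Agent.MP_8ac6f3_ag

end
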